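import Mathlib
import Pool.Agent.H25.Q1.Close
import Pool.Agent.Q1.M4.Weak

set_option autoImplicit false

/-! Module M6, chapter E (conclusion), continuum part: a continuous function `f` with
`G (φ) * (f (z + t i u) - f z) + G (φ + π / 2) * (f (z + t u) - f z) = o (t)`, `Re φ = π / 4`, where the
response `G` (which may depend on `t`, not on `z`) is analytic in a strip, bounded by `C * exp (Im φ)`,
symmetric and not small at `π / 2`, is holomorphic. -/

open MeasureTheory Set Filter Topology Function intervalIntegral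

namespace Pool.Agent.Q1.M6f

open Pool.Agent.H25.Q1.Close Pool.Agent.Q1.M4

/-- Properties of the normalised response of a flat wall. -/
structure GHyp (C c Y : ℝ) (G : ℂ → ℂ) : Prop where
  diff : DifferentiableOn ℂ G (UY Y)
  bound : ∀ z ∈ UY Y, ‖G z‖ ≤ C * Real.exp z.im
  sym : ∀ z ∈ UY Y, G ((Real.pi : ℂ) - (starRingEnd ℂ) z) = (starRingEnd ℂ) (G z)
  lower : c ≤ ‖G (Real.pi / 2 : ℝ)‖

/-- The relation of the responses to the two displacements `t i u`, `t u`, on the set `K`. -/
def RelG (C c : ℝ) (f : ℂ → ℂ) (u : ℂ) (K : Set ℂ) : Prop :=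
  ∀ ε > 0, ∀ Y : ℝ, ∃ t0 > 0, ∀ t : ℝ, 0 < t → t < t0 → ∃ G : ℂ → ℂ, GHyp C c Y G ∧
    ∀ s : ℝ, |s| ≤ 1 → ∀ z ∈ K, ‖G (pt s) * (f (z + t * Complex.I * u) - f z) +
      G (pt s + (Real.pi / 2 : ℝ)) * (f (z + t * u) - f z)‖ ≤ ε * t

/-- The rectangle integral of a continuous function with the relation vanishes. -/
theorem rect_zero_G {g : ℝ → ℝ → ℂ} (hg : Continuous (uncurry g)) {a b c d C c' : ℝ} (hc' : 0 < c')
    (hab : a ≤ b) (hcd : c ≤ d)
    (hcr : ∀ ε > 0, ∀ Y : ℝ, ∃ t0 > 0, ∀ t, 0 < t → t < t0 → ∃ G : ℂ → ℂ, GHyp C c' Y G ∧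
      ∀ s : ℝ, |s| ≤ 1 → ∀ x ∈ Icc a b, ∀ y ∈ Icc c d,
      ‖G (pt s) * (g x (y + t) - g x y) + G (pt s + (Real.pi / 2 : ℝ)) * (g (x + t) y - g x y)‖ ≤
        ε * t) :
    (∫ x in a..b, g x d) - (∫ x in a..b, g x c) -
      Complex.I * ((∫ y in c..d, g b y) - ∫ y in c..d, g a y) = 0 := by
  have hg' : Continuous (uncurry fun y x => g x y) := by
    have : (uncurry fun y x => g x y) = uncurry g ∘ Prod.swap := by
      funext p; rfl
    rw [this]
    exact hg.comp continuous_swap
  set P : ℝ → ℂ := fun x => ∫ y in c..d, g x y with hP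
  set P2 : ℝ → ℂ := fun y => ∫ x in a..b, g x y with hP2
  have hPc : Continuous P := continuous_inner hg c d
  have hP2c : Continuous P2 := continuous_inner hg' a b
  set F1 : ℝ → ℂ := fun t => ∫ y in (c + t)..(d + t), P2 y with hF1
  set F2 : ℝ → ℂ := fun t => ∫ x in (a + t)..(b + t), P x with hF2
  have hF1d : HasDerivAt F1 (P2 d - P2 c) 0 := hasDerivAt_slide hP2c c d
  have hF2d : HasDerivAt F2 (P b - P a) 0 := hasDerivAt_slide hPc a b
  set A : ℂ := P2 d - P2 c with hA
  set B : ℂ := P b - P a with hB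
  -- the bound
  have hbound : ∀ t, 0 < t → ∀ α β : ℂ, ∀ M : ℝ,
      (∀ x ∈ Icc a b, ∀ y ∈ Icc c d, ‖α * (g x (y + t) - g x y) + β * (g (x + t) y - g x y)‖ ≤ M) →
      ‖α * (F1 t - F1 0) + β * (F2 t - F2 0)‖ ≤ M * ((b - a) * (d - c)) := by
    intro t ht α β M hM
    have e1 : ∫ y in (c + t)..(d + t), P2 y = ∫ x in a..b, ∫ y in c..d, g x (y + t) := by
      have h3 : ∫ y in c..d, P2 (y + t) = ∫ y in (c + t)..(d + t), P2 y :=
        intervalIntegral.integral_comp_add_right P2 t
      rw [← h3, hP2]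
      have hgt : Continuous (uncurry fun x y => g x (y + t)) := by
        have : (uncurry fun x y => g x (y + t)) = uncurry g ∘ fun p : ℝ × ℝ => (p.1, p.2 + t) := by
          funext p; rfl
        rw [this]
        exact hg.comp (by fun_prop)
      exact (integral_swap_cont hgt hab hcd).symm
    have e2 : ∫ x in (a + t)..(b + t), P x = ∫ x in a..b, ∫ y in c..d, g (x + t) y := by
      have h3 : ∫ x in a..b, P (x + t) = ∫ x in (a + t)..(b + t), P x :=
        intervalIntegral.integral_comp_add_right P t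
      rw [← h3]
    have e3 : ∫ y in (c + 0)..(d + 0), P2 y = ∫ x in a..b, ∫ y in c..d, g x y := by
      rw [add_zero, add_zero, hP2]
      exact (integral_swap_cont hg hab hcd).symm
    have e4 : ∫ x in (a + 0)..(b + 0), P x = ∫ x in a..b, ∫ y in c..d, g x y := by
      rw [add_zero, add_zero]
    have hgt : Continuous (uncurry fun x y => g x (y + t)) := by
      have : (uncurry fun x y => g x (y + t)) = uncurry g ∘ fun p : ℝ × ℝ => (p.1, p.2 + t) := by
        funext p; rfl
      rw [this]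
      exact hg.comp (by fun_prop)
    have hgs : Continuous (uncurry fun x y => g (x + t) y) := by
      have : (uncurry fun x y => g (x + t) y) = uncurry g ∘ fun p : ℝ × ℝ => (p.1 + t, p.2) := by
        funext p; rfl
      rw [this]
      exact hg.comp (by fun_prop)
    have hx : ∀ {k : ℝ → ℝ → ℂ}, Continuous (uncurry k) → ∀ x, Continuous (k x) := by
      intro k hk x
      have : k x = uncurry k ∘ fun y => (x, y) := by funext y; rfl
      rw [this]
      exact hk.comp (by fun_prop)
    have e5 : α * (F1 t - F1 0) + β * (F2 t - F2 0) = ∫ x in a..b, ∫ y in c..d,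
        (α * (g x (y + t) - g x y) + β * (g (x + t) y - g x y)) := by
      have inner : ∀ x, ∫ y in c..d, (α * (g x (y + t) - g x y) + β * (g (x + t) y - g x y)) =
          α * ((∫ y in c..d, g x (y + t)) - ∫ y in c..d, g x y) +
            β * ((∫ y in c..d, g (x + t) y) - ∫ y in c..d, g x y) := by
        intro x
        rw [intervalIntegral.integral_add, intervalIntegral.integral_const_mul,
          intervalIntegral.integral_sub,
          intervalIntegral.integral_const_mul, intervalIntegral.integral_sub]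
        all_goals
          apply Continuous.intervalIntegrable
          have k1 := hx hgt x
          have k2 := hx hg x
          have k3 := hx hgs x
          fun_prop
      simp only [inner]
      have c1 := continuous_inner hgt c d
      have c2 := continuous_inner hg c d
      have c3 := continuous_inner hgs c d
      rw [intervalIntegral.integral_add, intervalIntegral.integral_const_mul,
        intervalIntegral.integral_sub,
        intervalIntegral.integral_const_mul, intervalIntegral.integral_sub]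
      · simp only [hF1, hF2, e1, e2, e3, e4]
      all_goals
        apply Continuous.intervalIntegrable
        fun_prop
    rw [e5]
    have h6 : ∀ x ∈ uIoc a b, ‖∫ y in c..d,
        (α * (g x (y + t) - g x y) + β * (g (x + t) y - g x y))‖ ≤ M * (d - c) := by
      intro x hx'
      rw [uIoc_of_le hab] at hx'
      have h7 := intervalIntegral.norm_integral_le_of_norm_le_const (a := c) (b := d)
        (f := fun y => α * (g x (y + t) - g x y) + β * (g (x + t) y - g x y)) (C := M) (by
          intro y hy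
          rw [uIoc_of_le hcd] at hy
          exact hM x ⟨hx'.1.le, hx'.2⟩ y ⟨hy.1.le, hy.2⟩)
      rwa [abs_of_nonneg (by linarith)] at h7
    have h8 := intervalIntegral.norm_integral_le_of_norm_le_const h6
    rw [abs_of_nonneg (by linarith : (0 : ℝ) ≤ b - a)] at h8
    linarith
  -- slopes
  have hs1 : Tendsto (fun t : ℝ => t⁻¹ • (F1 (0 + t) - F1 0)) (𝓝[>] 0) (𝓝 A) :=
    (hasDerivAt_iff_tendsto_slope_zero.1 hF1d).mono_left (nhdsWithin_mono _ fun t ht => ne_of_gt ht)
  have hs2 : Tendsto (fun t : ℝ => t⁻¹ • (F2 (0 + t) - F2 0)) (𝓝[>] 0) (𝓝 B) :=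
    (hasDerivAt_iff_tendsto_slope_zero.1 hF2d).mono_left (nhdsWithin_mono _ fun t ht => ne_of_gt ht)
  set N : ℝ := ‖A‖ + ‖B‖ + 1 with hN
  have hNpos : 0 < N := by positivity
  -- the estimate of `A - I B`
  have hD : ∀ η > 0, ‖A - Complex.I * B‖ ≤ η * N := by
    intro η hη
    obtain ⟨δ, hδ, Y, hcl⟩ := closing_quant C c' η hc' hη
    set S : ℝ := (b - a) * (d - c) with hS
    have hS0 : 0 ≤ S := mul_nonneg (by linarith) (by linarith)
    obtain ⟨t0, ht0, h⟩ := hcr (δ * N / (S + 1)) (by positivity) Y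
    have hl := (hs1.sub (hs2.const_mul Complex.I)).norm
    refine le_of_tendsto hl ?_
    have hn1 : ∀ᶠ t : ℝ in 𝓝[>] 0, ‖t⁻¹ • (F1 (0 + t) - F1 0)‖ < N := by
      refine hs1.norm.eventually_lt_const ?_
      rw [hN]; linarith [norm_nonneg B]
    have hn2 : ∀ᶠ t : ℝ in 𝓝[>] 0, ‖t⁻¹ • (F2 (0 + t) - F2 0)‖ < N := by
      refine hs2.norm.eventually_lt_const ?_
      rw [hN]; linarith [norm_nonneg A]
    filter_upwards [Ioo_mem_nhdsGT ht0, hn1, hn2] with t ht h1 h2
    obtain ⟨G, hG, hrel⟩ := h t ht.1 ht.2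
    rw [zero_add] at h1 h2 ⊢
    set At : ℂ := t⁻¹ • (F1 t - F1 0) with hAt
    set Bt : ℂ := t⁻¹ • (F2 t - F2 0) with hBt
    have hNc : ((N⁻¹ : ℝ) : ℂ) = (N : ℂ)⁻¹ := by push_cast; rfl
    have hnorm : ∀ w : ℂ, ‖((N⁻¹ : ℝ) : ℂ) * w‖ = N⁻¹ * ‖w‖ := by
      intro w
      rw [norm_mul, Complex.norm_real, Real.norm_of_nonneg (by positivity)]
    have key := hcl G (((N⁻¹ : ℝ) : ℂ) * At) (((N⁻¹ : ℝ) : ℂ) * Bt)
      ⟨hG.diff, hG.bound, hG.sym, hG.lower, ?_, ?_, ?_⟩
    · have e : ((N⁻¹ : ℝ) : ℂ) * At - Complex.I * (((N⁻¹ : ℝ) : ℂ) * Bt) =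
          ((N⁻¹ : ℝ) : ℂ) * (At - Complex.I * Bt) := by ring
      rw [e, hnorm, inv_mul_le_iff₀ hNpos] at key
      linarith
    · rw [hnorm, inv_mul_le_iff₀ hNpos]; linarith
    · rw [hnorm, inv_mul_le_iff₀ hNpos]; linarith
    · intro s hs
      have h3 := hbound t ht.1 (G (pt s)) (G (pt s + (Real.pi / 2 : ℝ))) _ (hrel s hs)
      have e : G (pt s) * (((N⁻¹ : ℝ) : ℂ) * At) +
          G (pt s + (Real.pi / 2 : ℝ)) * (((N⁻¹ : ℝ) : ℂ) * Bt) =
          ((N⁻¹ : ℝ) : ℂ) * (((t⁻¹ : ℝ) : ℂ) * (G (pt s) * (F1 t - F1 0) +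
            G (pt s + (Real.pi / 2 : ℝ)) * (F2 t - F2 0))) := by
        rw [hAt, hBt, Complex.real_smul, Complex.real_smul]; ring
      rw [e, hnorm, norm_mul, Complex.norm_real, Real.norm_of_nonneg (inv_nonneg.2 ht.1.le),
        inv_mul_le_iff₀ hNpos, inv_mul_le_iff₀ ht.1]
      refine h3.trans ?_
      have h4 : S / (S + 1) ≤ 1 := by
        rw [div_le_one (by positivity)]; linarith
      have h5 : δ * N / (S + 1) * t * S = (t * (N * δ)) * (S / (S + 1)) := by ring
      rw [h5]
      have h6 : 0 ≤ t * (N * δ) := by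
        have := ht.1
        positivity
      nlinarith
  have hzero : A - Complex.I * B = 0 := by
    rw [← norm_le_zero_iff]
    by_contra hcon
    push Not at hcon
    have h1 := hD (‖A - Complex.I * B‖ / (2 * N)) (by positivity)
    have h2 : ‖A - Complex.I * B‖ / (2 * N) * N = ‖A - Complex.I * B‖ / 2 := by
      field_simp
    rw [h2] at h1
    linarith
  exact hzero

lemma RelG.mono {C c : ℝ} {f : ℂ → ℂ} {u : ℂ} {K K' : Set ℂ} (h : RelG C c f u K) (hK : K' ⊆ K) :
    RelG C c f u K' := by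
  intro ε hε Y
  obtain ⟨t0, ht0, h⟩ := h ε hε Y
  refine ⟨t0, ht0, fun t h1 h2 => ?_⟩
  obtain ⟨G, hG, hr⟩ := h t h1 h2
  exact ⟨G, hG, fun s hs z hz => hr s hs z (hK hz)⟩

/-- Rectangle integral, sides `a ≤ b`, `c ≤ d`, for a function continuous on an open set. -/
lemma rect_zero_on_G {Ω : Set ℂ} (hΩ : IsOpen Ω) {f : ℂ → ℂ} (hf : ContinuousOn f Ω)
    (hcr : ∀ K ⊆ Ω, IsCompact K → ∃ C c : ℝ, 0 < c ∧ RelG C c f 1 K)
    {a b c d : ℝ} (hab : a ≤ b) (hcd : c ≤ d) (hR : Icc a b ×ℂ Icc c d ⊆ Ω) :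
    (∫ x in a..b, f (x + d * Complex.I)) - (∫ x in a..b, f (x + c * Complex.I)) -
      Complex.I * ((∫ y in c..d, f (b + y * Complex.I)) - ∫ y in c..d, f (a + y * Complex.I)) =
      0 := by
  -- a slightly larger rectangle
  have hcomp : IsCompact (Icc a b ×ℂ Icc c d) := isCompact_Icc.reProdIm isCompact_Icc
  obtain ⟨s, hs, hsub⟩ := hcomp.exists_thickening_subset_open hΩ hR
  have hmem : ∀ x y : ℝ, x ∈ Icc a (b + s / 4) → y ∈ Icc c (d + s / 4) →
      ((x : ℂ) + y * Complex.I) ∈ Ω := by
    intro x y hx hy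
    apply hsub
    rw [Metric.mem_thickening_iff]
    refine ⟨((min x b : ℝ) : ℂ) + (min y d : ℝ) * Complex.I, ?_, ?_⟩
    · rw [Complex.mem_reProdIm]
      constructor
      · simp only [Complex.add_re, Complex.ofReal_re, Complex.mul_re, Complex.I_re, mul_zero,
          Complex.ofReal_im, Complex.I_im, mul_one, sub_self, add_zero]
        exact ⟨le_min hx.1 hab, min_le_right _ _⟩
      · simp only [Complex.add_im, Complex.ofReal_im, Complex.mul_im, Complex.ofReal_re,
          Complex.I_im, mul_one, Complex.I_re, mul_zero, add_zero, zero_add]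
        exact ⟨le_min hy.1 hcd, min_le_right _ _⟩
    · rw [Complex.dist_eq]
      have h1 : (x : ℂ) + y * Complex.I - (((min x b : ℝ) : ℂ) + (min y d : ℝ) * Complex.I) =
          ((x - min x b : ℝ) : ℂ) + ((y - min y d : ℝ) : ℂ) * Complex.I := by
        push_cast; ring
      rw [h1]
      have h2 : |x - min x b| ≤ s / 4 := by
        rcases le_total x b with h | h
        · rw [min_eq_left h]; simp; linarith
        · rw [min_eq_right h, abs_of_nonneg (by linarith)]; linarith [hx.2]
      have h3 : |y - min y d| ≤ s / 4 := by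
        rcases le_total y d with h | h
        · rw [min_eq_left h]; simp; linarith
        · rw [min_eq_right h, abs_of_nonneg (by linarith)]; linarith [hy.2]
      calc ‖((x - min x b : ℝ) : ℂ) + ((y - min y d : ℝ) : ℂ) * Complex.I‖
          ≤ ‖((x - min x b : ℝ) : ℂ)‖ + ‖((y - min y d : ℝ) : ℂ) * Complex.I‖ := norm_add_le _ _
        _ = |x - min x b| + |y - min y d| := by
            rw [norm_mul, Complex.norm_I, mul_one, Complex.norm_real, Complex.norm_real,
              Real.norm_eq_abs, Real.norm_eq_abs]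
        _ < s := by linarith
  set cx : ℝ → ℝ := fun x => max a (min x (b + s / 4)) with hcx
  set cy : ℝ → ℝ := fun y => max c (min y (d + s / 4)) with hcy
  have hcxm : ∀ x, cx x ∈ Icc a (b + s / 4) := fun x =>
    ⟨le_max_left _ _, max_le (by linarith) (min_le_right _ _)⟩
  have hcym : ∀ y, cy y ∈ Icc c (d + s / 4) := fun y =>
    ⟨le_max_left _ _, max_le (by linarith) (min_le_right _ _)⟩
  have hcxe : ∀ x ∈ Icc a (b + s / 4), cx x = x := by
    intro x hx
    simp only [hcx]
    rw [min_eq_left hx.2, max_eq_right hx.1]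
  have hcye : ∀ y ∈ Icc c (d + s / 4), cy y = y := by
    intro y hy
    simp only [hcy]
    rw [min_eq_left hy.2, max_eq_right hy.1]
  set g : ℝ → ℝ → ℂ := fun x y => f (cx x + cy y * Complex.I) with hg
  have hgc : Continuous (uncurry g) := by
    have h1 : (uncurry g) = f ∘ fun p : ℝ × ℝ => ((cx p.1 : ℂ) + cy p.2 * Complex.I) := by
      funext p; rfl
    rw [h1]
    refine hf.comp_continuous ?_ (fun p => hmem _ _ (hcxm _) (hcym _))
    have c1 : Continuous cx := by
      simp only [hcx]; fun_prop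
    have c2 : Continuous cy := by
      simp only [hcy]; fun_prop
    exact (Complex.continuous_ofReal.comp (c1.comp continuous_fst)).add
      ((Complex.continuous_ofReal.comp (c2.comp continuous_snd)).mul_const _)
  obtain ⟨C, c', hc', hrel⟩ := hcr _ hR hcomp
  have hmain := rect_zero_G hgc (C := C) hc' hab hcd (by
    intro ε hε Y
    obtain ⟨t0, ht0, h⟩ := hrel ε hε Y
    refine ⟨min t0 (s / 4), lt_min ht0 (by linarith), ?_⟩
    intro t h1 h2
    obtain ⟨G, hG, h⟩ := h t h1 (h2.trans_le (min_le_left _ _))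
    refine ⟨G, hG, fun s' hs' x hx y hy => ?_⟩
    have h3 := h s' hs' (x + y * Complex.I) (by
      rw [Complex.mem_reProdIm]
      simp only [Complex.add_re, Complex.ofReal_re, Complex.mul_re, Complex.I_re, mul_zero,
          Complex.ofReal_im, Complex.I_im, mul_one, sub_self, add_zero, Complex.add_im,
          Complex.mul_im, zero_add]
      exact ⟨hx, hy⟩)
    have h4 : t < s / 4 := h2.trans_le (min_le_right _ _)
    have e1 := hcxe x ⟨hx.1, by linarith [hx.2]⟩
    have e2 := hcye y ⟨hy.1, by linarith [hy.2]⟩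
    have e3 := hcxe (x + t) ⟨by linarith [hx.1], by linarith [hx.2]⟩
    have e4 := hcye (y + t) ⟨by linarith [hy.1], by linarith [hy.2]⟩
    simp only [hg]
    rw [e1, e2, e3, e4]
    have e5 : (x : ℂ) + ((y + t : ℝ) : ℂ) * Complex.I =
        x + y * Complex.I + t * Complex.I * 1 := by
      push_cast; ring
    have e6 : ((x + t : ℝ) : ℂ) + (y : ℂ) * Complex.I = x + y * Complex.I + t * 1 := by
      push_cast; ring
    rw [e5, e6]
    exact h3)
  have i1 : ∫ x in a..b, g x d = ∫ x in a..b, f (x + d * Complex.I) := by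
    apply intervalIntegral.integral_congr
    intro x hx
    rw [uIcc_of_le hab] at hx
    simp only [hg]
    rw [hcxe x ⟨hx.1, by linarith [hx.2]⟩, hcye d ⟨hcd, by linarith⟩]
  have i2 : ∫ x in a..b, g x c = ∫ x in a..b, f (x + c * Complex.I) := by
    apply intervalIntegral.integral_congr
    intro x hx
    rw [uIcc_of_le hab] at hx
    simp only [hg]
    rw [hcxe x ⟨hx.1, by linarith [hx.2]⟩, hcye c ⟨le_rfl, by linarith⟩]
  have i3 : ∫ y in c..d, g b y = ∫ y in c..d, f (b + y * Complex.I) := by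
    apply intervalIntegral.integral_congr
    intro y hy
    rw [uIcc_of_le hcd] at hy
    simp only [hg]
    rw [hcxe b ⟨hab, by linarith⟩, hcye y ⟨hy.1, by linarith [hy.2]⟩]
  have i4 : ∫ y in c..d, g a y = ∫ y in c..d, f (a + y * Complex.I) := by
    apply intervalIntegral.integral_congr
    intro y hy
    rw [uIcc_of_le hcd] at hy
    simp only [hg]
    rw [hcxe a ⟨le_rfl, by linarith⟩, hcye y ⟨hy.1, by linarith [hy.2]⟩]
  rw [i1, i2, i3, i4] at hmain
  exact hmain

/-- The case `u = 1`. -/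
theorem differentiableOn_of_relG_one {Ω : Set ℂ} (hΩ : IsOpen Ω) {f : ℂ → ℂ}
    (hf : ContinuousOn f Ω)
    (hcr : ∀ K ⊆ Ω, IsCompact K → ∃ C c : ℝ, 0 < c ∧ RelG C c f 1 K) :
    DifferentiableOn ℂ f Ω := by
  rw [← Complex.isConservativeOn_and_continuousOn_iff_isDifferentiableOn hΩ]
  refine ⟨?_, hf⟩
  intro z w hzw
  rw [← add_eq_zero_iff_eq_neg, Complex.wedgeIntegral_add_wedgeIntegral_eq]
  simp only [smul_eq_mul]
  -- the rectangle integral for arbitrary orientation
  have key : ∀ a b c d : ℝ, uIcc a b ×ℂ uIcc c d ⊆ Ω →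
      (∫ x in a..b, f (x + d * Complex.I)) - (∫ x in a..b, f (x + c * Complex.I)) -
      Complex.I * ((∫ y in c..d, f (b + y * Complex.I)) - ∫ y in c..d, f (a + y * Complex.I)) =
      0 := by
    intro a b c d hsub
    rcases le_total a b with hab | hab <;> rcases le_total c d with hcd | hcd
    · rw [uIcc_of_le hab, uIcc_of_le hcd] at hsub
      exact rect_zero_on_G hΩ hf hcr hab hcd hsub
    · rw [uIcc_of_le hab, uIcc_of_ge hcd] at hsub
      have := rect_zero_on_G hΩ hf hcr hab hcd hsub
      rw [intervalIntegral.integral_symm d c, intervalIntegral.integral_symm d c]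
      linear_combination -this
    · rw [uIcc_of_ge hab, uIcc_of_le hcd] at hsub
      have := rect_zero_on_G hΩ hf hcr hab hcd hsub
      rw [intervalIntegral.integral_symm b a, intervalIntegral.integral_symm b a]
      linear_combination -this
    · rw [uIcc_of_ge hab, uIcc_of_ge hcd] at hsub
      have := rect_zero_on_G hΩ hf hcr hab hcd hsub
      rw [intervalIntegral.integral_symm b a, intervalIntegral.integral_symm b a,
        intervalIntegral.integral_symm d c, intervalIntegral.integral_symm d c]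
      linear_combination this
  have h := key z.re w.re z.im w.im hzw
  linear_combination -h

/-- **Conclusion (continuum form).** The relation of the responses to two orthogonal displacements
implies holomorphy. -/
theorem differentiableOn_of_relG {Ω : Set ℂ} (hΩ : IsOpen Ω) {f : ℂ → ℂ}
    (hf : ContinuousOn f Ω) {u : ℂ} (hu : u ≠ 0)
    (hcr : ∀ K ⊆ Ω, IsCompact K → ∃ C c : ℝ, 0 < c ∧ RelG C c f u K) :
    DifferentiableOn ℂ f Ω := by
  set m : ℂ → ℂ := fun z => u * z with hm
  have hmc : Continuous m := by simp only [hm]; fun_prop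
  have hd : DifferentiableOn ℂ (f ∘ m) (m ⁻¹' Ω) := by
    refine differentiableOn_of_relG_one (hΩ.preimage hmc)
      (hf.comp hmc.continuousOn fun z hz => hz) ?_
    intro K hK hKc
    obtain ⟨C, c, hc, hrel⟩ := hcr (m '' K) (by rintro _ ⟨z, hz, rfl⟩; exact hK hz)
      (hKc.image hmc)
    refine ⟨C, c, hc, fun ε hε Y => ?_⟩
    obtain ⟨t0, ht0, h⟩ := hrel ε hε Y
    refine ⟨t0, ht0, fun t h1 h2 => ?_⟩
    obtain ⟨G, hG, h⟩ := h t h1 h2
    refine ⟨G, hG, fun s hs z hz => ?_⟩
    have h3 := h s hs (m z) (mem_image_of_mem m hz)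
    simp only [Function.comp, hm] at h3 ⊢
    have e1 : u * (z + t * Complex.I * 1) = u * z + t * Complex.I * u := by ring
    have e2 : u * (z + t * 1) = u * z + t * u := by ring
    rw [e1, e2]
    exact h3
  have he : ∀ z, f z = (f ∘ m) (u⁻¹ * z) := by
    intro z
    simp only [Function.comp, hm]
    rw [mul_inv_cancel_left₀ hu]
  have h4 : f = (f ∘ m) ∘ fun z => u⁻¹ * z := by
    funext z; exact he z
  rw [h4]
  refine hd.comp (by fun_prop) ?_
  intro z hz
  simp only [mem_preimage, hm]
  rwa [mul_inv_cancel_left₀ hu]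

end Pool.Agent.Q1.M6f
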