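import Mathlib
import Pool.Agent.Q1.M6f.Holo

set_option autoImplicit false
open Set Filter Topology

/-! Module M6, chapter E, glue, numerical part: the closing lemma for the pair of relations of a polygon
and of its mirror image (or for the two kinds of tracks in a rectangle). `x`, `y` are the increments of `H`
in the directions UP and RIGHT, `e` is the (unknown) difference between the two parities of the polygon. -/

namespace Pool.Agent.Q1.M6f

open Pool.Agent.H25.Q1.Close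

/-- Closing lemma without the normalisation `‖A‖, ‖B‖ ≤ 1`. -/
theorem closing_N (C c : ℝ) (hc : 0 < c) {η : ℝ} (hη : 0 < η) : ∃ δ > 0, ∃ Y : ℝ,
    ∀ (G : ℂ → ℂ) (A B : ℂ), GHyp C c Y G →
    (∀ t : ℝ, |t| ≤ 1 → ‖G (pt t) * A + G (pt t + (Real.pi / 2 : ℝ)) * B‖ ≤ δ) →
    ‖A - Complex.I * B‖ ≤ η * (1 + ‖A‖ + ‖B‖) := by
  obtain ⟨δ, hδ, Y, h⟩ := closing_quant C c η hc hη
  refine ⟨δ, hδ, Y, fun G A B hG hrel => ?_⟩
  set N : ℝ := 1 + ‖A‖ + ‖B‖ with hN
  have hA := norm_nonneg A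
  have hB := norm_nonneg B
  have hN1 : 1 ≤ N := by rw [hN]; linarith
  have hN0 : 0 < N := by linarith
  have hNc : (N : ℂ) ≠ 0 := by exact_mod_cast hN0.ne'
  have key := h G (A / N) (B / N)
    { diff := hG.diff
      bound := hG.bound
      sym := hG.sym
      lower := hG.lower
      hA := by
        rw [norm_div, Complex.norm_real, Real.norm_of_nonneg hN0.le, div_le_one hN0]
        rw [hN]; linarith
      hB := by
        rw [norm_div, Complex.norm_real, Real.norm_of_nonneg hN0.le, div_le_one hN0]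
        rw [hN]; linarith
      rel := fun t ht => by
        have e : G (pt t) * (A / N) + G (pt t + (Real.pi / 2 : ℝ)) * (B / N) =
            (G (pt t) * A + G (pt t + (Real.pi / 2 : ℝ)) * B) / N := by
          field_simp
        rw [e, norm_div, Complex.norm_real, Real.norm_of_nonneg hN0.le]
        exact (div_le_self (norm_nonneg _) hN1).trans (hrel t ht) }
  have e : A / N - Complex.I * (B / N) = (A - Complex.I * B) / N := by
    field_simp
  rw [e, norm_div, Complex.norm_real, Real.norm_of_nonneg hN0.le, div_le_iff₀ hN0] at key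
  exact key

/-- Linear algebra: the relations `x - e = I (y - e)` and `x - e = I (y + e)` give `x = I y`. -/
theorem lin_alg {x y e r1 r2 r3 r4 : ℂ} {η ε M : ℝ} (hη : 0 ≤ η) (hη8 : η ≤ 1 / 16) (hx : ‖x‖ ≤ M)
    (hy : ‖y‖ ≤ M) (h1 : ‖r1‖ ≤ ε) (h2 : ‖r2‖ ≤ ε) (h3 : ‖r3‖ ≤ ε) (h4 : ‖r4‖ ≤ ε)
    (ha : ‖(x - e + r1) - Complex.I * (y - e + r2)‖ ≤ η * (1 + ‖x - e + r1‖ + ‖y - e + r2‖))
    (hb : ‖(x - e + r3) + Complex.I * (-y - e + r4)‖ ≤ η * (1 + ‖x - e + r3‖ + ‖-y - e + r4‖)) :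
    ‖x - Complex.I * y‖ ≤ η * (60 * M + 20) + 20 * ε := by
  have hM : 0 ≤ M := (norm_nonneg _).trans hx
  have hε : 0 ≤ ε := (norm_nonneg _).trans h1
  have b1 : ‖x - e + r1‖ ≤ M + ‖e‖ + ε :=
    (norm_add_le _ _).trans (add_le_add ((norm_sub_le _ _).trans (by linarith)) h1)
  have b2 : ‖y - e + r2‖ ≤ M + ‖e‖ + ε :=
    (norm_add_le _ _).trans (add_le_add ((norm_sub_le _ _).trans (by linarith)) h2)
  have b3 : ‖x - e + r3‖ ≤ M + ‖e‖ + ε :=
    (norm_add_le _ _).trans (add_le_add ((norm_sub_le _ _).trans (by linarith)) h3)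
  have b4 : ‖-y - e + r4‖ ≤ M + ‖e‖ + ε := by
    refine (norm_add_le _ _).trans (add_le_add ((norm_sub_le _ _).trans ?_) h4)
    rw [norm_neg]; linarith
  set S : ℝ := η * (1 + 2 * (M + ‖e‖ + ε)) with hS
  have ha' : ‖(x - e + r1) - Complex.I * (y - e + r2)‖ ≤ S :=
    ha.trans (by rw [hS]; exact mul_le_mul_of_nonneg_left (by linarith) hη)
  have hb' : ‖(x - e + r3) + Complex.I * (-y - e + r4)‖ ≤ S :=
    hb.trans (by rw [hS]; exact mul_le_mul_of_nonneg_left (by linarith) hη)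
  have nI : ∀ z : ℂ, ‖Complex.I * z‖ = ‖z‖ := fun z => by rw [norm_mul, Complex.norm_I, one_mul]
  have e1 : 2 * Complex.I * e = (((x - e + r1) - Complex.I * (y - e + r2)) -
      ((x - e + r3) + Complex.I * (-y - e + r4))) - (r1 - Complex.I * r2 - r3 - Complex.I * r4) := by
    ring
  have e2 : 2 * ‖e‖ ≤ 2 * S + 4 * ε := by
    have : ‖2 * Complex.I * e‖ = 2 * ‖e‖ := by
      rw [norm_mul, norm_mul, Complex.norm_I]; norm_num
    rw [← this, e1]
    refine (norm_sub_le _ _).trans ?_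
    have t1 := norm_sub_le ((x - e + r1) - Complex.I * (y - e + r2))
      ((x - e + r3) + Complex.I * (-y - e + r4))
    have t2 := norm_sub_le (r1 - Complex.I * r2 - r3) (Complex.I * r4)
    have t3 := norm_sub_le (r1 - Complex.I * r2) r3
    have t4 := norm_sub_le r1 (Complex.I * r2)
    rw [nI] at t2 t4
    linarith
  have hdn := norm_nonneg e
  have hS2 : S ≤ η * (1 + 2 * M + 2 * ε) + ‖e‖ / 8 := by
    have : η * (2 * ‖e‖) ≤ 1 / 16 * (2 * ‖e‖) := mul_le_mul_of_nonneg_right hη8 (by positivity)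
    rw [hS]; nlinarith
  have hX : 0 ≤ η * (1 + 2 * M + 2 * ε) := by positivity
  have hd2 : ‖e‖ ≤ 2 * (η * (1 + 2 * M + 2 * ε)) + 3 * ε := by linarith
  have hηε : η * ε ≤ 1 / 16 * ε := mul_le_mul_of_nonneg_right hη8 hε
  have hηM : 0 ≤ η * M := mul_nonneg hη hM
  have e3 : x - Complex.I * y = ((x - e + r1) - Complex.I * (y - e + r2)) +
      (1 - Complex.I) * e - (r1 - Complex.I * r2) := by
    ring
  rw [e3]
  have t1 := norm_sub_le (((x - e + r1) - Complex.I * (y - e + r2)) + (1 - Complex.I) * e)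
    (r1 - Complex.I * r2)
  have t2 := norm_add_le ((x - e + r1) - Complex.I * (y - e + r2)) ((1 - Complex.I) * e)
  have t3 : ‖(1 - Complex.I) * e‖ ≤ 2 * ‖e‖ := by
    rw [norm_mul]
    refine mul_le_mul_of_nonneg_right ((norm_sub_le _ _).trans ?_) hdn
    rw [Complex.norm_I, norm_one]; norm_num
  have t4 := norm_sub_le r1 (Complex.I * r2)
  rw [nI] at t4
  nlinarith

/-- **Closing lemma for a polygon and its mirror image.** -/
theorem close_pair (C c M : ℝ) (hc : 0 < c) (hM : 0 ≤ M) {η : ℝ} (hη : 0 < η) : ∃ ε > 0, ∃ Y : ℝ,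
    ∀ (G G' : ℂ → ℂ) (x y e r1 r2 r3 r4 : ℂ), GHyp C c Y G → GHyp C c Y G' → ‖x‖ ≤ M → ‖y‖ ≤ M →
    ‖r1‖ ≤ ε → ‖r2‖ ≤ ε → ‖r3‖ ≤ ε → ‖r4‖ ≤ ε →
    (∀ t : ℝ, |t| ≤ 1 → ‖G (pt t) * (x - e + r1) +
      G (pt t + (Real.pi / 2 : ℝ)) * (y - e + r2)‖ ≤ ε) →
    (∀ t : ℝ, |t| ≤ 1 → ‖G' (pt t) * (starRingEnd ℂ) (x - e + r3) +
      G' (pt t + (Real.pi / 2 : ℝ)) * (starRingEnd ℂ) (-y - e + r4)‖ ≤ ε) →
    ‖x - Complex.I * y‖ ≤ η := by
  set η1 : ℝ := min (1 / 16) (η / (2 * (60 * M + 20))) with hη1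
  have hη1p : 0 < η1 := by
    rw [hη1]; exact lt_min (by norm_num) (by positivity)
  obtain ⟨δ, hδ, Y, h⟩ := closing_N C c hc hη1p
  refine ⟨min δ (η / 40), lt_min hδ (by positivity), Y, ?_⟩
  intro G G' x y e r1 r2 r3 r4 hG hG' hx hy h1 h2 h3 h4 ha hb
  have hb' := h G' _ _ hG' fun t ht => (hb t ht).trans (min_le_left _ _)
  have e1 : ‖(starRingEnd ℂ) (x - e + r3) - Complex.I * (starRingEnd ℂ) (-y - e + r4)‖ =
      ‖(x - e + r3) + Complex.I * (-y - e + r4)‖ := by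
    rw [← Complex.norm_conj ((x - e + r3) + Complex.I * (-y - e + r4))]
    congr 1
    rw [map_add (starRingEnd ℂ) (x - e + r3), map_mul, Complex.conj_I]
    ring
  rw [e1, Complex.norm_conj, Complex.norm_conj] at hb'
  have key := lin_alg hη1p.le (min_le_left _ _) hx hy h1 h2 h3 h4
    (h G _ _ hG fun t ht => (ha t ht).trans (min_le_left _ _)) hb'
  refine key.trans ?_
  have k1 : η1 * (60 * M + 20) ≤ η / 2 := by
    have : η1 ≤ η / (2 * (60 * M + 20)) := min_le_right _ _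
    have h0 : 0 < 60 * M + 20 := by positivity
    calc η1 * (60 * M + 20) ≤ η / (2 * (60 * M + 20)) * (60 * M + 20) :=
          mul_le_mul_of_nonneg_right this h0.le
      _ = η / 2 := by field_simp
  have k2 : min δ (η / 40) ≤ η / 40 := min_le_right _ _
  linarith

end Pool.Agent.Q1.M6f
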