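import Mathlib
import Pool.Agent.Q1.M6f.GlueNum

set_option autoImplicit false
open Finset

/-! Module M6, chapter E, glue, discrete part: the relation of the responses for single lattice steps of the
tile grid, summed over a box. `uu` = UP by one row, `rr` = RIGHT by one column. -/

namespace Pool.Agent.Q1.M6f.Glue

/-- RIGHT. -/
def rr : ℤ × ℤ := (1, 0)
/-- UP. -/
def uu : ℤ × ℤ := (0, 1)

variable {f e ff fl fr g : ℤ × ℤ → ℂ}

/-- Top minus bottom. -/
noncomputable def TX (f : ℤ × ℤ → ℂ) (a : ℤ × ℤ) (L M : ℕ) : ℂ :=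
  ∑ k ∈ range L, (f (a + k • rr + M • uu) - f (a + k • rr))

/-- Right minus left. -/
noncomputable def TY (f : ℤ × ℤ → ℂ) (a : ℤ × ℤ) (L M : ℕ) : ℂ :=
  ∑ l ∈ range M, (f (a + L • rr + l • uu) - f (a + l • uu))

/-- Sum over the box. -/
noncomputable def SA (α : ℤ × ℤ → ℂ) (a : ℤ × ℤ) (L M : ℕ) : ℂ :=
  ∑ k ∈ range L, ∑ l ∈ range M, α (a + k • rr + l • uu)

theorem TX_eq (f : ℤ × ℤ → ℂ) (a : ℤ × ℤ) (L M : ℕ) :
    ∑ k ∈ range L, ∑ l ∈ range M, (f (a + k • rr + l • uu + uu) - f (a + k • rr + l • uu)) = TX f a L M := by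
  unfold TX
  refine sum_congr rfl fun k _ => ?_
  have h := Finset.sum_range_sub (fun l : ℕ => f (a + k • rr + l • uu)) M
  simp only [zero_smul, add_zero] at h
  rw [← h]
  refine sum_congr rfl fun l _ => ?_
  rw [succ_nsmul, add_assoc (a + k • rr)]

theorem TY_eq (f : ℤ × ℤ → ℂ) (a : ℤ × ℤ) (L M : ℕ) :
    ∑ k ∈ range L, ∑ l ∈ range M, (f (a + k • rr + l • uu + rr) - f (a + k • rr + l • uu)) = TY f a L M := by
  unfold TY
  rw [sum_comm]
  refine sum_congr rfl fun l _ => ?_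
  have h := Finset.sum_range_sub (fun k : ℕ => f (a + k • rr + l • uu)) L
  simp only [zero_smul, add_zero] at h
  rw [← h]
  refine sum_congr rfl fun k _ => ?_
  have e : a + (k + 1) • rr + l • uu = a + k • rr + l • uu + rr := by
    rw [succ_nsmul]; abel
  rw [e]

/-- The response to a vertical displacement (one row, low minus up). -/
def al (e ff : ℤ × ℤ → ℂ) (v : ℤ × ℤ) : ℂ := (ff v - ff (v - uu)) - e v

/-- The response to a horizontal displacement (one column, low minus up). -/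
def be (e fl : ℤ × ℤ → ℂ) (v : ℤ × ℤ) : ℂ := (fl v - fl (v - rr)) - e v

/-- The response to a horizontal displacement, mirror image. -/
def be' (e fr : ℤ × ℤ → ℂ) (v : ℤ × ℤ) : ℂ := (fr v - fr (v + rr)) - e v

theorem SA_al (a : ℤ × ℤ) (L M : ℕ) : SA (al e ff) a L M = TX ff (a + -uu) L M - SA e a L M := by
  rw [← TX_eq]
  unfold SA al
  rw [← sum_sub_distrib]
  refine sum_congr rfl fun k _ => ?_
  rw [← sum_sub_distrib]
  refine sum_congr rfl fun l _ => ?_
  have e1 : a + -uu + k • rr + l • uu + uu = a + k • rr + l • uu := by abel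
  have e2 : a + -uu + k • rr + l • uu = a + k • rr + l • uu - uu := by abel
  rw [e1, e2]

theorem SA_be (a : ℤ × ℤ) (L M : ℕ) : SA (be e fl) a L M = TY fl (a + -rr) L M - SA e a L M := by
  rw [← TY_eq]
  unfold SA be
  rw [← sum_sub_distrib]
  refine sum_congr rfl fun k _ => ?_
  rw [← sum_sub_distrib]
  refine sum_congr rfl fun l _ => ?_
  have e1 : a + -rr + k • rr + l • uu + rr = a + k • rr + l • uu := by abel
  have e2 : a + -rr + k • rr + l • uu = a + k • rr + l • uu - rr := by abel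
  rw [e1, e2]

theorem SA_be' (a : ℤ × ℤ) (L M : ℕ) : SA (be' e fr) a L M = - TY fr a L M - SA e a L M := by
  rw [← TY_eq]
  unfold SA be'
  rw [← sum_neg_distrib, ← sum_sub_distrib]
  refine sum_congr rfl fun k _ => ?_
  rw [← sum_neg_distrib, ← sum_sub_distrib]
  refine sum_congr rfl fun l _ => ?_
  ring

/-- All points of the box and of its translates by at most three steps. -/
def InBox (S : Set (ℤ × ℤ)) (a : ℤ × ℤ) (L M : ℕ) : Prop :=
  ∀ k ≤ L, ∀ l ≤ M, a + k • rr + l • uu ∈ S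

/-- `g` is close to `f` up to a constant and up to shifts by one step. -/
def Cls (S : Set (ℤ × ℤ)) (τ : ℝ) (f g : ℤ × ℤ → ℂ) : Prop :=
  ∀ u ∈ S, ∀ v ∈ S, ∀ d : ℤ × ℤ, |d.1| ≤ 1 → |d.2| ≤ 1 → ‖(g (u + d) - g (v + d)) - (f u - f v)‖ ≤ τ

theorem TX_cls {S : Set (ℤ × ℤ)} {τ : ℝ} (h : Cls S τ f g) {a d : ℤ × ℤ} {L M : ℕ} (hS : InBox S a L M)
    (h1 : |d.1| ≤ 1) (h2 : |d.2| ≤ 1) : ‖TX g (a + d) L M - TX f a L M‖ ≤ L * τ := by
  unfold TX
  rw [← sum_sub_distrib]
  have hb : ∀ k ∈ range L, ‖(g (a + d + k • rr + M • uu) - g (a + d + k • rr)) -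
      (f (a + k • rr + M • uu) - f (a + k • rr))‖ ≤ τ := by
    intro k hk
    have e1 : a + d + k • rr + M • uu = a + k • rr + M • uu + d := by abel
    have e2 : a + d + k • rr = a + k • rr + d := by abel
    rw [e1, e2]
    have m1 := hS k (mem_range.1 hk).le M le_rfl
    have m2 := hS k (mem_range.1 hk).le 0 (Nat.zero_le _)
    rw [zero_smul, add_zero] at m2
    exact h _ m1 _ m2 d h1 h2
  refine (norm_sum_le _ _).trans ((sum_le_sum hb).trans ?_)
  rw [sum_const, card_range, nsmul_eq_mul]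

theorem TY_cls {S : Set (ℤ × ℤ)} {τ : ℝ} (h : Cls S τ f g) {a d : ℤ × ℤ} {L M : ℕ} (hS : InBox S a L M)
    (h1 : |d.1| ≤ 1) (h2 : |d.2| ≤ 1) : ‖TY g (a + d) L M - TY f a L M‖ ≤ M * τ := by
  unfold TY
  rw [← sum_sub_distrib]
  have hb : ∀ l ∈ range M, ‖(g (a + d + L • rr + l • uu) - g (a + d + l • uu)) -
      (f (a + L • rr + l • uu) - f (a + l • uu))‖ ≤ τ := by
    intro l hl
    have e1 : a + d + L • rr + l • uu = a + L • rr + l • uu + d := by abel
    have e2 : a + d + l • uu = a + l • uu + d := by abel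
    rw [e1, e2]
    have m1 := hS L le_rfl l (mem_range.1 hl).le
    have m2 := hS 0 (Nat.zero_le _) l (mem_range.1 hl).le
    rw [zero_smul, add_zero] at m2
    exact h _ m1 _ m2 d h1 h2
  refine (norm_sum_le _ _).trans ((sum_le_sum hb).trans ?_)
  rw [sum_const, card_range, nsmul_eq_mul]

/-- The averaged relation. -/
theorem rel_avg {S : Set (ℤ × ℤ)} {α β : ℤ × ℤ → ℂ} {g1 g2 : ℂ} {ε : ℝ}
    (h : ∀ u ∈ S, ∀ v ∈ S, ‖g1 * (α u - α v) + g2 * (β u - β v)‖ ≤ ε) {a b : ℤ × ℤ} {L M : ℕ}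
    (ha : InBox S a L M) (hb : InBox S b L M) :
    ‖g1 * (SA α a L M - SA α b L M) + g2 * (SA β a L M - SA β b L M)‖ ≤ L * (M * ε) := by
  have key : g1 * (SA α a L M - SA α b L M) + g2 * (SA β a L M - SA β b L M) =
      ∑ k ∈ range L, ∑ l ∈ range M,
        (g1 * (α (a + k • rr + l • uu) - α (b + k • rr + l • uu)) +
          g2 * (β (a + k • rr + l • uu) - β (b + k • rr + l • uu))) := by
    unfold SA
    rw [← sum_sub_distrib, ← sum_sub_distrib, mul_sum, mul_sum, ← sum_add_distrib]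
    refine sum_congr rfl fun k _ => ?_
    rw [← sum_sub_distrib, ← sum_sub_distrib, mul_sum, mul_sum, ← sum_add_distrib]
  rw [key]
  refine (norm_sum_le _ _).trans ?_
  have h1 : ∀ k ∈ range L, ‖∑ l ∈ range M,
        (g1 * (α (a + k • rr + l • uu) - α (b + k • rr + l • uu)) +
          g2 * (β (a + k • rr + l • uu) - β (b + k • rr + l • uu)))‖ ≤ M * ε := by
    intro k hk
    refine (norm_sum_le _ _).trans ?_
    have h2 : ∀ l ∈ range M, ‖g1 * (α (a + k • rr + l • uu) - α (b + k • rr + l • uu)) +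
          g2 * (β (a + k • rr + l • uu) - β (b + k • rr + l • uu))‖ ≤ ε := by
      intro l hl
      exact h _ (ha k (mem_range.1 hk).le l (mem_range.1 hl).le) _
        (hb k (mem_range.1 hk).le l (mem_range.1 hl).le)
    refine (sum_le_sum h2).trans ?_
    rw [sum_const, card_range, nsmul_eq_mul]
  refine (sum_le_sum h1).trans ?_
  rw [sum_const, card_range, nsmul_eq_mul]

end Pool.Agent.Q1.M6f.Glue
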