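import Mathlib
import Pool.Agent.Q1.M6f.GlueBox

set_option autoImplicit false
open Finset

/-! Module M6, chapter E, glue: the conclusion for one scale. The relations of the responses for the two
kinds of tracks imply the weak Cauchy-Riemann relation for the difference of two congruent boxes. -/

namespace Pool.Agent.Q1.M6f.Glue

open Pool.Agent.H25.Q1.Close Pool.Agent.Q1.M6f

/-- Normalised increment UP. -/
noncomputable def XX (R : ℝ) (f : ℤ × ℤ → ℂ) (a : ℤ × ℤ) (L M : ℕ) : ℂ :=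
  ((R / (L * M) : ℝ) : ℂ) * TX f a L M

/-- Normalised increment RIGHT. -/
noncomputable def YY (R : ℝ) (f : ℤ × ℤ → ℂ) (a : ℤ × ℤ) (L M : ℕ) : ℂ :=
  ((R / (L * M) : ℝ) : ℂ) * TY f a L M

variable {f e ff fl fr : ℤ × ℤ → ℂ} {S : Set (ℤ × ℤ)} {τ R : ℝ} {a b : ℤ × ℤ} {L M : ℕ}

theorem al_err (h : Cls S τ f ff) (hS : InBox S a L M) :
    ‖SA (al e ff) a L M - (TX f a L M - SA e a L M)‖ ≤ L * τ := by
  rw [SA_al]
  have h1 := TX_cls h hS (d := -uu) (by decide) (by decide)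
  have e : TX ff (a + -uu) L M - SA e a L M - (TX f a L M - SA e a L M) =
      TX ff (a + -uu) L M - TX f a L M := by ring
  rw [e]
  exact h1

theorem be_err (h : Cls S τ f fl) (hS : InBox S a L M) :
    ‖SA (be e fl) a L M - (TY f a L M - SA e a L M)‖ ≤ M * τ := by
  rw [SA_be]
  have h1 := TY_cls h hS (d := -rr) (by decide) (by decide)
  have e : TY fl (a + -rr) L M - SA e a L M - (TY f a L M - SA e a L M) =
      TY fl (a + -rr) L M - TY f a L M := by ring
  rw [e]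
  exact h1

theorem be'_err (h : Cls S τ f fr) (hS : InBox S a L M) :
    ‖SA (be' e fr) a L M - (- TY f a L M - SA e a L M)‖ ≤ M * τ := by
  rw [SA_be']
  have h1 := TY_cls h hS (d := 0) (by decide) (by decide)
  rw [add_zero] at h1
  have e : - TY fr a L M - SA e a L M - (- TY f a L M - SA e a L M) =
      -(TY fr a L M - TY f a L M) := by ring
  rw [e, norm_neg]
  exact h1

theorem SA_conj (α : ℤ × ℤ → ℂ) (v : ℤ × ℤ) (L M : ℕ) :
    SA (fun v => (starRingEnd ℂ) (α v)) v L M = (starRingEnd ℂ) (SA α v L M) := by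
  unfold SA
  rw [map_sum]
  refine sum_congr rfl fun k _ => ?_
  rw [map_sum]

/-- **Conclusion for one scale.** -/
theorem disc_close (C c B : ℝ) (hc : 0 < c) (hB : 0 ≤ B) {η : ℝ} (hη : 0 < η) : ∃ ε > 0, ∃ Y : ℝ,
    ∀ (f e ff fl ff' fr : ℤ × ℤ → ℂ) (S : Set (ℤ × ℤ)) (τ R : ℝ) (a b : ℤ × ℤ) (L M : ℕ)
      (G G' : ℂ → ℂ), 0 < R → 0 < L → 0 < M → GHyp C c Y G → GHyp C c Y G' →
    Cls S τ f ff → Cls S τ f fl → Cls S τ f ff' → Cls S τ f fr →
    InBox S a L M → InBox S b L M → 2 * (τ * (R / L)) ≤ ε → 2 * (τ * (R / M)) ≤ ε →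
    (∀ t : ℝ, |t| ≤ 1 → ∀ u ∈ S, ∀ v ∈ S, ‖G (pt t) * (al e ff u - al e ff v) +
      G (pt t + (Real.pi / 2 : ℝ)) * (be e fl u - be e fl v)‖ ≤ ε / R) →
    (∀ t : ℝ, |t| ≤ 1 → ∀ u ∈ S, ∀ v ∈ S,
      ‖G' (pt t) * ((starRingEnd ℂ) (al e ff' u) - (starRingEnd ℂ) (al e ff' v)) +
      G' (pt t + (Real.pi / 2 : ℝ)) * ((starRingEnd ℂ) (be' e fr u) -
        (starRingEnd ℂ) (be' e fr v))‖ ≤ ε / R) →
    ‖XX R f a L M - XX R f b L M‖ ≤ B → ‖YY R f a L M - YY R f b L M‖ ≤ B →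
    ‖(XX R f a L M - XX R f b L M) - Complex.I * (YY R f a L M - YY R f b L M)‖ ≤ η := by
  obtain ⟨ε, hε, Y, h⟩ := close_pair C c B hc hB hη
  refine ⟨ε, hε, Y, ?_⟩
  intro f e ff fl ff' fr S τ R a b L M G G' hR hL hM hG hG' cf cl cf' cr ia ib hτL hτM r1 r2 hx hy
  have hL' : (0 : ℝ) < L := by exact_mod_cast hL
  have hM' : (0 : ℝ) < M := by exact_mod_cast hM
  set κ : ℝ := R / (L * M) with hκ
  have hκ0 : 0 < κ := by rw [hκ]; positivity
  have kL : κ * L = R / M := by rw [hκ]; field_simp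
  have kM : κ * M = R / L := by rw [hκ]; field_simp
  have kLM : κ * (L * M) = R := by rw [hκ]; field_simp
  set x := XX R f a L M - XX R f b L M with hxd
  set y := YY R f a L M - YY R f b L M with hyd
  set E : ℂ := (κ : ℂ) * (SA e a L M - SA e b L M) with hE
  have nκ : ∀ z : ℂ, ‖(κ : ℂ) * z‖ = κ * ‖z‖ := fun z => by
    rw [norm_mul, Complex.norm_real, Real.norm_of_nonneg hκ0.le]
  have tL : κ * (L * τ) = τ * (R / M) := by rw [← kL]; ring
  have tM : κ * (M * τ) = τ * (R / L) := by rw [← kM]; ring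
  set q1 : ℂ := (κ : ℂ) * (SA (al e ff) a L M - SA (al e ff) b L M) - (x - E) with hq1
  set q2 : ℂ := (κ : ℂ) * (SA (be e fl) a L M - SA (be e fl) b L M) - (y - E) with hq2
  set q3 : ℂ := (κ : ℂ) * (SA (al e ff') a L M - SA (al e ff') b L M) - (x - E) with hq3
  set q4 : ℂ := (κ : ℂ) * (SA (be' e fr) a L M - SA (be' e fr) b L M) - (-y - E) with hq4
  have bal : ∀ g : ℤ × ℤ → ℂ, Cls S τ f g →
      ‖(κ : ℂ) * (SA (al e g) a L M - SA (al e g) b L M) - (x - E)‖ ≤ ε := by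
    intro g hg
    have e1 : (κ : ℂ) * (SA (al e g) a L M - SA (al e g) b L M) - (x - E) =
        (κ : ℂ) * ((SA (al e g) a L M - (TX f a L M - SA e a L M)) -
        (SA (al e g) b L M - (TX f b L M - SA e b L M))) := by
      rw [hxd, hE]; unfold XX; rw [← hκ]; ring
    rw [e1, nκ]
    have n := norm_sub_le (SA (al e g) a L M - (TX f a L M - SA e a L M))
      (SA (al e g) b L M - (TX f b L M - SA e b L M))
    have n3 := mul_le_mul_of_nonneg_left (n.trans (add_le_add (al_err (e := e) hg ia)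
      (al_err (e := e) hg ib))) hκ0.le
    refine n3.trans ?_
    have : κ * (↑L * τ + ↑L * τ) = 2 * (κ * (L * τ)) := by ring
    rw [this, tL]
    exact hτM
  have b1 : ‖q1‖ ≤ ε := bal ff cf
  have b3 : ‖q3‖ ≤ ε := bal ff' cf'
  have b2 : ‖q2‖ ≤ ε := by
    have e1 : q2 = (κ : ℂ) * ((SA (be e fl) a L M - (TY f a L M - SA e a L M)) -
        (SA (be e fl) b L M - (TY f b L M - SA e b L M))) := by
      rw [hq2, hyd, hE]; unfold YY; rw [← hκ]; ring
    rw [e1, nκ]
    have n := norm_sub_le (SA (be e fl) a L M - (TY f a L M - SA e a L M))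
      (SA (be e fl) b L M - (TY f b L M - SA e b L M))
    have n3 := mul_le_mul_of_nonneg_left (n.trans (add_le_add (be_err (e := e) cl ia)
      (be_err (e := e) cl ib))) hκ0.le
    refine n3.trans ?_
    have : κ * (↑M * τ + ↑M * τ) = 2 * (κ * (M * τ)) := by ring
    rw [this, tM]
    exact hτL
  have b4 : ‖q4‖ ≤ ε := by
    have e1 : q4 = (κ : ℂ) * ((SA (be' e fr) a L M - (- TY f a L M - SA e a L M)) -
        (SA (be' e fr) b L M - (- TY f b L M - SA e b L M))) := by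
      rw [hq4, hyd, hE]; unfold YY; rw [← hκ]; ring
    rw [e1, nκ]
    have n := norm_sub_le (SA (be' e fr) a L M - (- TY f a L M - SA e a L M))
      (SA (be' e fr) b L M - (- TY f b L M - SA e b L M))
    have n3 := mul_le_mul_of_nonneg_left (n.trans (add_le_add (be'_err (e := e) cr ia)
      (be'_err (e := e) cr ib))) hκ0.le
    refine n3.trans ?_
    have : κ * (↑M * τ + ↑M * τ) = 2 * (κ * (M * τ)) := by ring
    rw [this, tM]
    exact hτL
  have fin : ∀ z : ℝ, κ * (↑L * (↑M * (z / R))) = z := by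
    intro z
    have : κ * (↑L * (↑M * (z / R))) = (κ * (L * M)) * (z / R) := by ring
    rw [this, kLM]
    field_simp
  refine h G G' x y E q1 q2 q3 q4 hG hG' hx hy b1 b2 b3 b4 ?_ ?_
  · intro t ht
    have k := rel_avg (α := al e ff) (β := be e fl) (r1 t ht) ia ib
    have e1 : G (pt t) * (x - E + q1) + G (pt t + (Real.pi / 2 : ℝ)) * (y - E + q2) =
        (κ : ℂ) * (G (pt t) * (SA (al e ff) a L M - SA (al e ff) b L M) +
          G (pt t + (Real.pi / 2 : ℝ)) * (SA (be e fl) a L M - SA (be e fl) b L M)) := by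
      rw [hq1, hq2]; ring
    rw [e1, nκ]
    exact (mul_le_mul_of_nonneg_left k hκ0.le).trans (le_of_eq (fin ε))
  · intro t ht
    have k := rel_avg (α := fun v => (starRingEnd ℂ) (al e ff' v))
      (β := fun v => (starRingEnd ℂ) (be' e fr v)) (r2 t ht) ia ib
    rw [SA_conj, SA_conj, SA_conj, SA_conj] at k
    have e1 : G' (pt t) * (starRingEnd ℂ) (x - E + q3) +
        G' (pt t + (Real.pi / 2 : ℝ)) * (starRingEnd ℂ) (-y - E + q4) =
        (κ : ℂ) * (G' (pt t) * ((starRingEnd ℂ) (SA (al e ff') a L M) -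
          (starRingEnd ℂ) (SA (al e ff') b L M)) +
          G' (pt t + (Real.pi / 2 : ℝ)) * ((starRingEnd ℂ) (SA (be' e fr) a L M) -
          (starRingEnd ℂ) (SA (be' e fr) b L M))) := by
      have f1' : x - E + q3 = (κ : ℂ) * (SA (al e ff') a L M - SA (al e ff') b L M) := by
        rw [hq3]; ring
      have f2' : -y - E + q4 = (κ : ℂ) * (SA (be' e fr) a L M - SA (be' e fr) b L M) := by
        rw [hq4]; ring
      rw [f1', f2', map_mul, map_mul, map_sub, map_sub, Complex.conj_ofReal]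
      ring
    rw [e1, nκ]
    exact (mul_le_mul_of_nonneg_left k hκ0.le).trans (le_of_eq (fin ε))

end Pool.Agent.Q1.M6f.Glue
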