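import Mathlib
import Pool.Agent.Q1.M6f.Holo

set_option autoImplicit false
open MeasureTheory Set Filter Topology Function intervalIntegral

/-! Module M6, chapter E, glue, continuum part: rectangle integrals `JJ g a b c d` which are invariant under
translations of the rectangle vanish as soon as the oscillation of `g` over small squares near some point is
small; then `g` is holomorphic. -/

namespace Pool.Agent.Q1.M6f.Glue

/-- (minus) the contour integral over the boundary of a rectangle. -/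
noncomputable def JJ (g : ℂ → ℂ) (a b c d : ℝ) : ℂ :=
  (∫ x in a..b, g (x + d * Complex.I)) - (∫ x in a..b, g (x + c * Complex.I)) -
      Complex.I * ((∫ y in c..d, g (b + y * Complex.I)) - ∫ y in c..d, g (a + y * Complex.I))

/-- The rectangle integral is invariant under translations inside `Ω`. -/
def TI (Ω : Set ℂ) (g : ℂ → ℂ) : Prop :=
  ∀ a b c d x y : ℝ, a < b → c < d → Icc a b ×ℂ Icc c d ⊆ Ω →
    Icc (a + x) (b + x) ×ℂ Icc (c + y) (d + y) ⊆ Ω →
    JJ g a b c d = JJ g (a + x) (b + x) (c + y) (d + y)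

/-- The oscillation over squares of side `δ` somewhere in `Ω` is `o(δ)`. -/
def OscO (Ω : Set ℂ) (g : ℂ → ℂ) : Prop :=
  ∀ η > 0, ∃ δ0 > 0, ∀ δ : ℝ, 0 < δ → δ < δ0 → ∃ x y : ℝ, Icc x (x + δ) ×ℂ Icc y (y + δ) ⊆ Ω ∧
    ∀ z ∈ Icc x (x + δ) ×ℂ Icc y (y + δ), ∀ z' ∈ Icc x (x + δ) ×ℂ Icc y (y + δ), ‖g z - g z'‖ ≤ η * δ

lemma mem_rect {a b c d x y : ℝ} (hx : x ∈ Icc a b) (hy : y ∈ Icc c d) :
    (x : ℂ) + y * Complex.I ∈ Icc a b ×ℂ Icc c d := by
  rw [Complex.mem_reProdIm]
  simp only [Complex.add_re, Complex.ofReal_re, Complex.mul_re, Complex.I_re, mul_zero,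
    Complex.ofReal_im, Complex.I_im, mul_one, sub_self, add_zero, Complex.add_im, Complex.mul_im, zero_add]
  exact ⟨hx, hy⟩

variable {Ω : Set ℂ} {g : ℂ → ℂ}

lemma ii_hor (hg : ContinuousOn g Ω) {a b y : ℝ} (hab : a ≤ b)
    (h : ∀ x ∈ Icc a b, (x : ℂ) + y * Complex.I ∈ Ω) :
    IntervalIntegrable (fun x : ℝ => g (x + y * Complex.I)) volume a b := by
  apply ContinuousOn.intervalIntegrable
  rw [uIcc_of_le hab]
  exact hg.comp (by fun_prop) h

lemma ii_ver (hg : ContinuousOn g Ω) {c d x : ℝ} (hcd : c ≤ d)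
    (h : ∀ y ∈ Icc c d, (x : ℂ) + y * Complex.I ∈ Ω) :
    IntervalIntegrable (fun y : ℝ => g (x + y * Complex.I)) volume c d := by
  apply ContinuousOn.intervalIntegrable
  rw [uIcc_of_le hcd]
  exact hg.comp (by fun_prop) h

/-- Bound by the oscillation. -/
lemma JJ_le (hg : ContinuousOn g Ω) {a b c d M : ℝ} (hab : a ≤ b) (hcd : c ≤ d)
    (hR : Icc a b ×ℂ Icc c d ⊆ Ω)
    (hM : ∀ z ∈ Icc a b ×ℂ Icc c d, ∀ z' ∈ Icc a b ×ℂ Icc c d, ‖g z - g z'‖ ≤ M) :
    ‖JJ g a b c d‖ ≤ M * (b - a) + M * (d - c) := by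
  have hc : c ∈ Icc c d := ⟨le_rfl, hcd⟩
  have hd : d ∈ Icc c d := ⟨hcd, le_rfl⟩
  have ha : a ∈ Icc a b := ⟨le_rfl, hab⟩
  have hb : b ∈ Icc a b := ⟨hab, le_rfl⟩
  have e1 : (∫ x in a..b, g (x + d * Complex.I)) - (∫ x in a..b, g (x + c * Complex.I)) =
      ∫ x in a..b, (g (x + d * Complex.I) - g (x + c * Complex.I)) := by
    rw [integral_sub (ii_hor hg hab fun x hx => hR (mem_rect hx hd))
      (ii_hor hg hab fun x hx => hR (mem_rect hx hc))]
  have e2 : (∫ y in c..d, g (b + y * Complex.I)) - (∫ y in c..d, g (a + y * Complex.I)) =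
      ∫ y in c..d, (g (b + y * Complex.I) - g (a + y * Complex.I)) := by
    rw [integral_sub (ii_ver hg hcd fun y hy => hR (mem_rect hb hy))
      (ii_ver hg hcd fun y hy => hR (mem_rect ha hy))]
  unfold JJ
  rw [e1, e2]
  refine (norm_sub_le _ _).trans (add_le_add ?_ ?_)
  · have := intervalIntegral.norm_integral_le_of_norm_le_const (a := a) (b := b) (C := M)
      (f := fun x : ℝ => g (x + d * Complex.I) - g (x + c * Complex.I)) (by
        intro x hx
        rw [uIoc_of_le hab] at hx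
        exact hM _ (mem_rect ⟨hx.1.le, hx.2⟩ hd) _ (mem_rect ⟨hx.1.le, hx.2⟩ hc))
    rwa [abs_of_nonneg (by linarith)] at this
  · rw [norm_mul, Complex.norm_I, one_mul]
    have := intervalIntegral.norm_integral_le_of_norm_le_const (a := c) (b := d) (C := M)
      (f := fun y : ℝ => g (b + y * Complex.I) - g (a + y * Complex.I)) (by
        intro y hy
        rw [uIoc_of_le hcd] at hy
        exact hM _ (mem_rect hb ⟨hy.1.le, hy.2⟩) _ (mem_rect ha ⟨hy.1.le, hy.2⟩))
    rwa [abs_of_nonneg (by linarith)] at this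

/-- Subdivision into `m * m` congruent rectangles. -/
lemma JJ_split (hg : ContinuousOn g Ω) {a b c d : ℝ} (hab : a < b) (hcd : c < d)
    (hR : Icc a b ×ℂ Icc c d ⊆ Ω) {m : ℕ} (hm : 0 < m) :
    JJ g a b c d = ∑ i ∈ Finset.range m, ∑ k ∈ Finset.range m,
      JJ g (a + i * ((b - a) / m)) (a + (i + 1 : ℕ) * ((b - a) / m))
        (c + k * ((d - c) / m)) (c + (k + 1 : ℕ) * ((d - c) / m)) := by
  have hm' : (0 : ℝ) < m := by exact_mod_cast hm
  set s := (b - a) / m with hs
  set t := (d - c) / m with ht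
  have hs0 : 0 < s := div_pos (by linarith) hm'
  have ht0 : 0 < t := div_pos (by linarith) hm'
  have hms : (m : ℝ) * s = b - a := by rw [hs]; field_simp
  have hmt : (m : ℝ) * t = d - c := by rw [ht]; field_simp
  have hxi : ∀ i : ℕ, i ≤ m → a + i * s ∈ Icc a b := by
    intro i hi
    have : (i : ℝ) ≤ m := by exact_mod_cast hi
    exact ⟨by nlinarith [Nat.cast_nonneg (α := ℝ) i], by nlinarith⟩
  have hyk : ∀ k : ℕ, k ≤ m → c + k * t ∈ Icc c d := by
    intro k hk
    have : (k : ℝ) ≤ m := by exact_mod_cast hk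
    exact ⟨by nlinarith [Nat.cast_nonneg (α := ℝ) k], by nlinarith⟩
  -- horizontal
  have hH : ∀ y ∈ Icc c d, ∑ i ∈ Finset.range m,
      (∫ x in (a + i * s)..(a + (i + 1 : ℕ) * s), g (x + y * Complex.I)) =
      ∫ x in a..b, g (x + y * Complex.I) := by
    intro y hy
    have h1 := intervalIntegral.sum_integral_adjacent_intervals (a := fun i : ℕ => a + i * s) (n := m)
      (f := fun x : ℝ => g (x + y * Complex.I)) (μ := volume) (by
        intro k hk
        refine ii_hor hg (by push_cast; nlinarith) fun x hx => hR (mem_rect ?_ hy)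
        exact ⟨(hxi k hk.le).1.trans hx.1, hx.2.trans (hxi (k + 1) hk).2⟩)
    simp only [Nat.cast_zero, zero_mul, add_zero, hms] at h1
    rw [h1]
    congr 1
    ring
  have hV : ∀ x ∈ Icc a b, ∑ k ∈ Finset.range m,
      (∫ y in (c + k * t)..(c + (k + 1 : ℕ) * t), g (x + y * Complex.I)) =
      ∫ y in c..d, g (x + y * Complex.I) := by
    intro x hx
    have h1 := intervalIntegral.sum_integral_adjacent_intervals (a := fun k : ℕ => c + k * t) (n := m)
      (f := fun y : ℝ => g (x + y * Complex.I)) (μ := volume) (by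
        intro k hk
        refine ii_ver hg (by push_cast; nlinarith) fun y hy => hR (mem_rect hx ?_)
        exact ⟨(hyk k hk.le).1.trans hy.1, hy.2.trans (hyk (k + 1) hk).2⟩)
    simp only [Nat.cast_zero, zero_mul, add_zero, hmt] at h1
    rw [h1]
    congr 1
    ring
  set Hf : ℕ → ℕ → ℂ := fun i k =>
    ∫ x in (a + i * s)..(a + (i + 1 : ℕ) * s), g (x + (c + k * t : ℝ) * Complex.I) with hHf
  set Vf : ℕ → ℕ → ℂ := fun i k =>
    ∫ y in (c + k * t)..(c + (k + 1 : ℕ) * t), g ((a + i * s : ℝ) + y * Complex.I) with hVf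
  have hJ : ∀ i k : ℕ, JJ g (a + i * s) (a + (i + 1 : ℕ) * s) (c + k * t) (c + (k + 1 : ℕ) * t) =
      (Hf i (k + 1) - Hf i k) - Complex.I * (Vf (i + 1) k - Vf i k) := fun i k => rfl
  have e1 : ∑ i ∈ Finset.range m, ∑ k ∈ Finset.range m, (Hf i (k + 1) - Hf i k) =
      (∫ x in a..b, g (x + d * Complex.I)) - ∫ x in a..b, g (x + c * Complex.I) := by
    have : ∀ i ∈ Finset.range m, ∑ k ∈ Finset.range m, (Hf i (k + 1) - Hf i k) = Hf i m - Hf i 0 :=
      fun i _ => Finset.sum_range_sub (fun k => Hf i k) m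
    rw [Finset.sum_congr rfl this, Finset.sum_sub_distrib, ← hH d ⟨hcd.le, le_rfl⟩,
      ← hH c ⟨le_rfl, hcd.le⟩]
    congr 1
    · refine Finset.sum_congr rfl fun i _ => ?_
      simp only [hHf, hmt]
      rw [show c + (d - c) = d by ring]
    · refine Finset.sum_congr rfl fun i _ => ?_
      simp only [hHf, Nat.cast_zero, zero_mul, add_zero]
  have e2 : ∑ i ∈ Finset.range m, ∑ k ∈ Finset.range m, (Vf (i + 1) k - Vf i k) =
      (∫ y in c..d, g (b + y * Complex.I)) - ∫ y in c..d, g (a + y * Complex.I) := by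
    rw [Finset.sum_comm]
    have : ∀ k ∈ Finset.range m, ∑ i ∈ Finset.range m, (Vf (i + 1) k - Vf i k) = Vf m k - Vf 0 k :=
      fun k _ => Finset.sum_range_sub (fun i => Vf i k) m
    rw [Finset.sum_congr rfl this, Finset.sum_sub_distrib, ← hV b ⟨hab.le, le_rfl⟩,
      ← hV a ⟨le_rfl, hab.le⟩]
    congr 1
    · refine Finset.sum_congr rfl fun i _ => ?_
      simp only [hVf, hms]
      rw [show a + (b - a) = b by ring]
    · refine Finset.sum_congr rfl fun i _ => ?_
      simp only [hVf, Nat.cast_zero, zero_mul, add_zero]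
  have e3 : ∑ i ∈ Finset.range m, ∑ k ∈ Finset.range m,
      JJ g (a + i * s) (a + (i + 1 : ℕ) * s) (c + k * t) (c + (k + 1 : ℕ) * t) =
      (∑ i ∈ Finset.range m, ∑ k ∈ Finset.range m, (Hf i (k + 1) - Hf i k)) -
      Complex.I * ∑ i ∈ Finset.range m, ∑ k ∈ Finset.range m, (Vf (i + 1) k - Vf i k) := by
    rw [Finset.mul_sum, ← Finset.sum_sub_distrib]
    refine Finset.sum_congr rfl fun i _ => ?_
    rw [Finset.mul_sum, ← Finset.sum_sub_distrib]
    exact Finset.sum_congr rfl fun k _ => hJ i k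
  rw [e3, e1, e2]
  rfl

/-- **A translation invariant rectangle integral with small oscillation somewhere vanishes.** -/
theorem JJ_zero (hg : ContinuousOn g Ω) (hT : TI Ω g) (hO : OscO Ω g) {a b c d : ℝ} (hab : a < b)
    (hcd : c < d) (hR : Icc a b ×ℂ Icc c d ⊆ Ω) : JJ g a b c d = 0 := by
  set D : ℝ := max (b - a) (d - c) with hD
  have hba : b - a ≤ D := le_max_left _ _
  have hdc : d - c ≤ D := le_max_right _ _
  have hD0 : 0 < D := by linarith
  by_contra hne
  have hpos : 0 < ‖JJ g a b c d‖ := norm_pos_iff.2 hne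
  obtain ⟨δ0, hδ0, h⟩ := hO (‖JJ g a b c d‖ / (4 * D ^ 2)) (by positivity)
  obtain ⟨m, hm⟩ := exists_nat_gt (D / δ0)
  have hm0 : (0 : ℝ) < m := (by positivity : (0 : ℝ) < D / δ0).trans hm
  have hmN : 0 < m := by exact_mod_cast hm0
  obtain ⟨x, y, hsq, hosc⟩ := h (D / m) (by positivity) (by
    rw [div_lt_iff₀ hm0]; rw [div_lt_iff₀ hδ0] at hm; linarith)
  set s := (b - a) / m with hs
  set t := (d - c) / m with ht
  have hs0 : 0 < s := div_pos (by linarith) hm0
  have ht0 : 0 < t := div_pos (by linarith) hm0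
  have hms : (m : ℝ) * s = b - a := by rw [hs]; field_simp
  have hmt : (m : ℝ) * t = d - c := by rw [ht]; field_simp
  have hsD : s ≤ D / m := div_le_div_of_nonneg_right hba hm0.le
  have htD : t ≤ D / m := div_le_div_of_nonneg_right hdc hm0.le
  have hsub : Icc x (x + s) ×ℂ Icc y (y + t) ⊆ Icc x (x + D / m) ×ℂ Icc y (y + D / m) := by
    intro z hz
    rw [Complex.mem_reProdIm] at hz ⊢
    exact ⟨⟨hz.1.1, hz.1.2.trans (by linarith)⟩, ⟨hz.2.1, hz.2.2.trans (by linarith)⟩⟩
  have hsmall : ‖JJ g x (x + s) y (y + t)‖ ≤ ‖JJ g a b c d‖ / (4 * D ^ 2) * (D / m) * (D / m) * 2 := by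
    refine (JJ_le hg (M := ‖JJ g a b c d‖ / (4 * D ^ 2) * (D / m)) (by linarith) (by linarith)
      (hsub.trans hsq) fun z hz z' hz' => hosc z (hsub hz) z' (hsub hz')).trans ?_
    have e1 : x + s - x = s := by ring
    have e2 : y + t - y = t := by ring
    rw [e1, e2]
    have hp : 0 ≤ ‖JJ g a b c d‖ / (4 * D ^ 2) * (D / m) := by positivity
    nlinarith [mul_le_mul_of_nonneg_left hsD hp, mul_le_mul_of_nonneg_left htD hp]
  have hpiece : ∀ i ∈ Finset.range m, ∀ k ∈ Finset.range m,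
      ‖JJ g (a + i * s) (a + (i + 1 : ℕ) * s) (c + k * t) (c + (k + 1 : ℕ) * t)‖ ≤
      ‖JJ g a b c d‖ / (4 * D ^ 2) * (D / m) * (D / m) * 2 := by
    intro i hi k hk
    have hi' : ((i : ℝ) + 1) ≤ m := by exact_mod_cast Finset.mem_range.1 hi
    have hk' : ((k : ℝ) + 1) ≤ m := by exact_mod_cast Finset.mem_range.1 hk
    have hi0 : (0 : ℝ) ≤ i := Nat.cast_nonneg _
    have hk0 : (0 : ℝ) ≤ k := Nat.cast_nonneg _
    have ht1 := hT x (x + s) y (y + t) (a + i * s - x) (c + k * t - y) (by linarith) (by linarith)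
      (hsub.trans hsq) (by
        refine Subset.trans ?_ hR
        intro z hz
        rw [Complex.mem_reProdIm] at hz ⊢
        refine ⟨⟨?_, ?_⟩, ⟨?_, ?_⟩⟩
        · have := hz.1.1; nlinarith
        · have := hz.1.2; nlinarith
        · have := hz.2.1; nlinarith
        · have := hz.2.2; nlinarith)
    have e1 : x + (a + i * s - x) = a + i * s := by ring
    have e2 : x + s + (a + i * s - x) = a + (i + 1 : ℕ) * s := by push_cast; ring
    have e3 : y + (c + k * t - y) = c + k * t := by ring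
    have e4 : y + t + (c + k * t - y) = c + (k + 1 : ℕ) * t := by push_cast; ring
    rw [e1, e2, e3, e4] at ht1
    rw [← ht1]
    exact hsmall
  have hfin : ‖JJ g a b c d‖ ≤ ‖JJ g a b c d‖ / 2 := by
    conv_lhs => rw [JJ_split hg hab hcd hR hmN]
    refine (norm_sum_le _ _).trans ((Finset.sum_le_sum fun i hi =>
      (norm_sum_le _ _).trans (Finset.sum_le_sum fun k hk => hpiece i hi k hk)).trans ?_)
    rw [Finset.sum_const, Finset.sum_const, Finset.card_range, nsmul_eq_mul, nsmul_eq_mul]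
    refine le_of_eq ?_
    field_simp
    ring
  linarith

/-- **Morera.** -/
theorem differentiableOn_of_JJ (hΩ : IsOpen Ω) (hg : ContinuousOn g Ω)
    (hJ : ∀ a b c d : ℝ, a < b → c < d → Icc a b ×ℂ Icc c d ⊆ Ω → JJ g a b c d = 0) :
    DifferentiableOn ℂ g Ω := by
  rw [← Complex.isConservativeOn_and_continuousOn_iff_isDifferentiableOn hΩ]
  refine ⟨?_, hg⟩
  intro z w hzw
  rw [← add_eq_zero_iff_eq_neg, Complex.wedgeIntegral_add_wedgeIntegral_eq]
  simp only [smul_eq_mul]
  have hJ' : ∀ a b c d : ℝ, a ≤ b → c ≤ d → Icc a b ×ℂ Icc c d ⊆ Ω → JJ g a b c d = 0 := by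
    intro a b c d hab hcd h
    rcases hab.eq_or_lt with rfl | hab
    · unfold JJ; simp
    rcases hcd.eq_or_lt with rfl | hcd
    · unfold JJ; simp
    exact hJ a b c d hab hcd h
  have key : ∀ a b c d : ℝ, uIcc a b ×ℂ uIcc c d ⊆ Ω →
      (∫ x in a..b, g (x + d * Complex.I)) - (∫ x in a..b, g (x + c * Complex.I)) -
      Complex.I * ((∫ y in c..d, g (b + y * Complex.I)) - ∫ y in c..d, g (a + y * Complex.I)) =
      0 := by
    intro a b c d hsub
    rcases le_total a b with hab | hab <;> rcases le_total c d with hcd | hcd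
    · rw [uIcc_of_le hab, uIcc_of_le hcd] at hsub
      exact hJ' _ _ _ _ hab hcd hsub
    · rw [uIcc_of_le hab, uIcc_of_ge hcd] at hsub
      have := hJ' _ _ _ _ hab hcd hsub
      unfold JJ at this
      rw [intervalIntegral.integral_symm d c, intervalIntegral.integral_symm d c]
      linear_combination -this
    · rw [uIcc_of_ge hab, uIcc_of_le hcd] at hsub
      have := hJ' _ _ _ _ hab hcd hsub
      unfold JJ at this
      rw [intervalIntegral.integral_symm b a, intervalIntegral.integral_symm b a]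
      linear_combination -this
    · rw [uIcc_of_ge hab, uIcc_of_ge hcd] at hsub
      have := hJ' _ _ _ _ hab hcd hsub
      unfold JJ at this
      rw [intervalIntegral.integral_symm b a, intervalIntegral.integral_symm b a,
        intervalIntegral.integral_symm d c, intervalIntegral.integral_symm d c]
      linear_combination this
  have h := key z.re w.re z.im w.im hzw
  linear_combination -h

/-- **Translation invariance and small oscillation somewhere imply holomorphy.** -/
theorem differentiableOn_of_TI (hΩ : IsOpen Ω) (hg : ContinuousOn g Ω) (hT : TI Ω g) (hO : OscO Ω g) :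
    DifferentiableOn ℂ g Ω :=
  differentiableOn_of_JJ hΩ hg fun _ _ _ _ hab hcd hR => JJ_zero hg hT hO hab hcd hR

/-- `JJ` is linear. -/
lemma JJ_lin {g1 g2 : ℂ → ℂ} (h1 : ContinuousOn g1 Ω) (h2 : ContinuousOn g2 Ω) (p q : ℂ) {a b c d : ℝ}
    (hab : a ≤ b) (hcd : c ≤ d) (hR : Icc a b ×ℂ Icc c d ⊆ Ω) :
    JJ (fun z => p * g1 z + q * g2 z) a b c d = p * JJ g1 a b c d + q * JJ g2 a b c d := by
  have hc : c ∈ Icc c d := ⟨le_rfl, hcd⟩
  have hd : d ∈ Icc c d := ⟨hcd, le_rfl⟩
  have ha : a ∈ Icc a b := ⟨le_rfl, hab⟩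
  have hb : b ∈ Icc a b := ⟨hab, le_rfl⟩
  have hor : ∀ y ∈ Icc c d, (∫ x in a..b, (p * g1 (x + y * Complex.I) + q * g2 (x + y * Complex.I))) =
      p * (∫ x in a..b, g1 (x + y * Complex.I)) + q * ∫ x in a..b, g2 (x + y * Complex.I) := by
    intro y hy
    rw [intervalIntegral.integral_add
      ((ii_hor h1 hab fun x hx => hR (mem_rect hx hy)).const_mul p)
      ((ii_hor h2 hab fun x hx => hR (mem_rect hx hy)).const_mul q),
      intervalIntegral.integral_const_mul, intervalIntegral.integral_const_mul]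
  have ver : ∀ x ∈ Icc a b, (∫ y in c..d, (p * g1 (x + y * Complex.I) + q * g2 (x + y * Complex.I))) =
      p * (∫ y in c..d, g1 (x + y * Complex.I)) + q * ∫ y in c..d, g2 (x + y * Complex.I) := by
    intro x hx
    rw [intervalIntegral.integral_add
      ((ii_ver h1 hcd fun y hy => hR (mem_rect hx hy)).const_mul p)
      ((ii_ver h2 hcd fun y hy => hR (mem_rect hx hy)).const_mul q),
      intervalIntegral.integral_const_mul, intervalIntegral.integral_const_mul]
  unfold JJ
  rw [hor c hc, hor d hd, ver a ha, ver b hb]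
  ring

/-- Linear combinations. -/
lemma TI.lin {g1 g2 : ℂ → ℂ} (h1 : ContinuousOn g1 Ω) (h2 : ContinuousOn g2 Ω) (t1 : TI Ω g1)
    (t2 : TI Ω g2) (p q : ℂ) : TI Ω (fun z => p * g1 z + q * g2 z) := by
  intro a b c d x y hab hcd hR hR'
  rw [JJ_lin h1 h2 p q hab.le hcd.le hR, JJ_lin h1 h2 p q (by linarith) (by linarith) hR',
    t1 a b c d x y hab hcd hR hR', t2 a b c d x y hab hcd hR hR']

end Pool.Agent.Q1.M6f.Glue
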