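import Mathlib
import Pool.Agent.Q1.M4.LocHol
import Pool.Agent.Q1.M6f.GlueJ

set_option autoImplicit false
open MeasureTheory Set Filter Topology intervalIntegral

/-! Module M6, chapter E, glue: convergence of row sums of lattice functions to line integrals of the
limit. -/

namespace Pool.Agent.Q1.M6f.Glue

open Pool.Agent.Q1.M4

variable {Ω : Set ℂ} {g : ℂ → ℂ} {R : ℕ → ℝ} {f : ℕ → ℤ × ℤ → ℂ}

/-- `g` is the limit of the functions `f j` at the points of `Ω`. -/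
def ILim (R : ℕ → ℝ) (F : Filter ℕ) (f : ℕ → ℤ × ℤ → ℂ) (Ω : Set ℂ) (g : ℂ → ℂ) : Prop :=
  ∀ z ∈ Ω, ∀ v : ℕ → ℤ × ℤ, Tendsto (fun j => lat (v j) / (R j : ℂ)) F (𝓝 z) →
    Tendsto (fun j => f j (v j)) F (𝓝 (g z))

/-- Uniform convergence on compact sets. -/
theorem ILim.unif {U : Ultrafilter ℕ} (hlim : ILim R U f Ω g) (hg : ContinuousOn g Ω) (hΩ : IsOpen Ω)
    {K : Set ℂ} (hK : K ⊆ Ω) (hKc : IsCompact K) {ε : ℝ} (hε : 0 < ε) :
    ∀ᶠ j in (U : Filter ℕ), ∀ v : ℤ × ℤ, lat v / (R j : ℂ) ∈ K →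
      ‖f j v - g (lat v / (R j : ℂ))‖ ≤ ε := by
  classical
  by_contra hcon
  rw [← Ultrafilter.eventually_not] at hcon
  set P : ℕ → ℤ × ℤ → Prop := fun j v => lat v / (R j : ℂ) ∈ K ∧ ε < ‖f j v - g (lat v / (R j : ℂ))‖ with hP
  have hex : ∀ᶠ j in (U : Filter ℕ), ∃ v, P j v := by
    filter_upwards [hcon] with j hj
    push Not at hj
    obtain ⟨v, h1, h2⟩ := hj
    exact ⟨v, h1, h2⟩
  set v : ℕ → ℤ × ℤ := fun j => if h : ∃ v, P j v then h.choose else 0 with hv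
  have hvP : ∀ᶠ j in (U : Filter ℕ), P j (v j) := by
    filter_upwards [hex] with j hj
    simp only [hv, dif_pos hj]
    exact hj.choose_spec
  have hle : (U.map (fun j => lat (v j) / (R j : ℂ)) : Filter ℂ) ≤ 𝓟 K := by
    rw [le_principal_iff]
    change ∀ᶠ j in (U : Filter ℕ), lat (v j) / (R j : ℂ) ∈ K
    exact hvP.mono fun j hj => hj.1
  obtain ⟨z, hz, hzl⟩ := hKc.ultrafilter_le_nhds _ hle
  have ht : Tendsto (fun j => lat (v j) / (R j : ℂ)) U (𝓝 z) := hzl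
  have t1 := hlim z (hK hz) v ht
  have t2 : Tendsto (fun j => g (lat (v j) / (R j : ℂ))) U (𝓝 (g z)) :=
    ((hg.continuousAt (hΩ.mem_nhds (hK hz))).tendsto).comp ht
  have t3 := (t1.sub t2).norm
  rw [sub_self, norm_zero] at t3
  have h4 := t3.eventually_lt_const hε
  obtain ⟨j, h5, h6⟩ := (h4.and hvP).exists
  exact absurd h6.2 (not_lt.2 h5.le)

/-- Riemann sums. -/
theorem riemann {φ : ℝ → ℂ} (hφ : Continuous φ) {r : ℝ} (hr : 0 < r) (L : ℕ) (w : ℕ → ℂ) {ε : ℝ}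
    (h : ∀ k < L, ∀ t ∈ Icc ((k : ℝ) / r) (((k + 1 : ℕ) : ℝ) / r), ‖w k - φ t‖ ≤ ε) :
    ‖((1 / r : ℝ) : ℂ) * (∑ k ∈ Finset.range L, w k) - ∫ t in (0 : ℝ)..((L : ℝ) / r), φ t‖ ≤
      ε * (L / r) := by
  have h1 := intervalIntegral.sum_integral_adjacent_intervals (a := fun k : ℕ => (k : ℝ) / r) (n := L)
    (f := φ) (μ := volume) (fun k _ => hφ.intervalIntegrable _ _)
  simp only [Nat.cast_zero, zero_div] at h1
  rw [← h1, Finset.mul_sum, ← Finset.sum_sub_distrib]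
  have hb : ∀ k ∈ Finset.range L, ‖((1 / r : ℝ) : ℂ) * w k -
      ∫ t in ((k : ℝ) / r)..(((k + 1 : ℕ) : ℝ) / r), φ t‖ ≤ ε * (1 / r) := by
    intro k hk
    have hle : (k : ℝ) / r ≤ ((k + 1 : ℕ) : ℝ) / r := by
      apply div_le_div_of_nonneg_right _ hr.le
      push_cast; linarith
    have hsub : ((k + 1 : ℕ) : ℝ) / r - (k : ℝ) / r = 1 / r := by
      push_cast; ring
    have e1 : ((1 / r : ℝ) : ℂ) * w k = ∫ _t in ((k : ℝ) / r)..(((k + 1 : ℕ) : ℝ) / r), w k := by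
      rw [intervalIntegral.integral_const, hsub, Complex.real_smul]
    rw [e1, ← intervalIntegral.integral_sub intervalIntegrable_const (hφ.intervalIntegrable _ _)]
    have := intervalIntegral.norm_integral_le_of_norm_le_const (a := (k : ℝ) / r)
      (b := ((k + 1 : ℕ) : ℝ) / r) (C := ε) (f := fun t => w k - φ t) (by
        intro t ht
        rw [uIoc_of_le hle] at ht
        exact h k (Finset.mem_range.1 hk) t ⟨ht.1.le, ht.2⟩)
    rwa [hsub, abs_of_nonneg (by positivity)] at this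
  refine (norm_sum_le _ _).trans ((Finset.sum_le_sum hb).trans (le_of_eq ?_))
  rw [Finset.sum_const, Finset.card_range, nsmul_eq_mul]
  ring

lemma lat_add_smul (p d : ℤ × ℤ) (k : ℕ) : lat (p + k • d) = lat p + k * lat d := by
  apply Complex.ext
  · simp [lat]
  · simp [lat]

/-- **Row sums converge to line integrals.** -/
theorem row_tendsto {U : Ultrafilter ℕ} (hRU : Tendsto R U atTop) (hlim : ILim R U f Ω g)
    (hg : ContinuousOn g Ω) (hΩ : IsOpen Ω) {d : ℤ × ℤ} {z : ℂ} {p : ℕ → ℤ × ℤ}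
    (hp : Tendsto (fun j => lat (p j) / (R j : ℂ)) U (𝓝 z)) {ℓ : ℝ} (hℓ : 0 ≤ ℓ) {L : ℕ → ℕ}
    (hL : Tendsto (fun j => (L j : ℝ) / R j) U (𝓝 ℓ)) (hseg : ∀ t ∈ Icc (0 : ℝ) ℓ, z + t * lat d ∈ Ω) :
    Tendsto (fun j => ((1 / R j : ℝ) : ℂ) * ∑ k ∈ Finset.range (L j), f j (p j + k • d)) U
      (𝓝 (∫ t in (0 : ℝ)..ℓ, g (z + t * lat d))) := by
  set cl : ℝ → ℝ := fun t => max 0 (min t ℓ) with hcl
  have hclc : Continuous cl := by simp only [hcl]; fun_prop
  have hclm : ∀ t, cl t ∈ Icc (0 : ℝ) ℓ := fun t => ⟨le_max_left _ _, max_le hℓ (min_le_right _ _)⟩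
  set ψ : ℝ → ℂ := fun t => z + cl t * lat d with hψ
  have hψc : Continuous ψ := by simp only [hψ]; fun_prop
  have hψm : ∀ t, ψ t ∈ Ω := fun t => hseg _ (hclm t)
  set φ : ℝ → ℂ := fun t => g (ψ t) with hφ
  have hφc : Continuous φ := hg.comp_continuous hψc hψm
  have hint : ∫ t in (0 : ℝ)..ℓ, g (z + t * lat d) = ∫ t in (0 : ℝ)..ℓ, φ t := by
    apply intervalIntegral.integral_congr
    intro t ht
    rw [uIcc_of_le hℓ] at ht
    simp only [hφ, hψ, hcl]
    rw [min_eq_left ht.2, max_eq_right ht.1]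
  rw [hint]
  -- the compact neighbourhood
  set seg : Set ℂ := (fun t : ℝ => z + t * lat d) '' Icc 0 ℓ with hsg
  have hsegc : IsCompact seg := isCompact_Icc.image (by fun_prop)
  have hsegΩ : seg ⊆ Ω := by
    rintro _ ⟨t, ht, rfl⟩; exact hseg t ht
  have hψs : ∀ t, ψ t ∈ seg := fun t => ⟨cl t, hclm t, rfl⟩
  obtain ⟨s, hs, hsub⟩ := hsegc.exists_cthickening_subset_open hΩ hsegΩ
  set K := Metric.cthickening s seg with hK
  have hKc : IsCompact K := hsegc.cthickening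
  have hKu := hKc.uniformContinuousOn_of_continuous (hg.mono hsub)
  rw [Metric.uniformContinuousOn_iff] at hKu
  have hprim : Tendsto (fun j => ∫ t in (0 : ℝ)..((L j : ℝ) / R j), φ t) U
      (𝓝 (∫ t in (0 : ℝ)..ℓ, φ t)) :=
    ((intervalIntegral.continuous_primitive (fun a b => hφc.intervalIntegrable a b) 0).tendsto ℓ).comp hL
  rw [Metric.tendsto_nhds] at hprim ⊢
  intro η hη
  set ε : ℝ := η / (4 * (ℓ + 1)) with hε
  have hε0 : 0 < ε := by positivity
  obtain ⟨δ, hδ, hδK⟩ := hKu ε hε0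
  have hLe : ∀ᶠ j in (U : Filter ℕ), |(L j : ℝ) / R j - ℓ| < min (min s δ) 1 / (4 * (‖lat d‖ + 1)) := by
    have := Metric.tendsto_nhds.1 hL (min (min s δ) 1 / (4 * (‖lat d‖ + 1)))
      (div_pos (lt_min (lt_min hs hδ) one_pos) (by positivity))
    filter_upwards [this] with j hj
    rwa [Real.dist_eq] at hj
  have hpe : ∀ᶠ j in (U : Filter ℕ), ‖lat (p j) / (R j : ℂ) - z‖ < min (min s δ) 1 / 4 := by
    have := Metric.tendsto_nhds.1 hp (min (min s δ) 1 / 4)
      (div_pos (lt_min (lt_min hs hδ) one_pos) (by norm_num))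
    filter_upwards [this] with j hj
    rwa [dist_eq_norm] at hj
  have hRe : ∀ᶠ j in (U : Filter ℕ), 4 * (‖lat d‖ + 1) / min (min s δ) 1 < R j :=
    hRU.eventually_gt_atTop _
  filter_upwards [hlim.unif hg hΩ hsub hKc hε0, hprim (η / 2) (by positivity), hLe, hpe, hRe,
    hRU.eventually_gt_atTop 0] with j h1 h2 h3 h4 h5 h6
  set μ : ℝ := min (min s δ) 1 with hμ
  have hμ0 : 0 < μ := lt_min (lt_min hs hδ) one_pos
  have hμs : μ ≤ s := (min_le_left _ _).trans (min_le_left _ _)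
  have hμδ : μ ≤ δ := (min_le_left _ _).trans (min_le_right _ _)
  have hμ1 : μ ≤ 1 := min_le_right _ _
  have hd0 := norm_nonneg (lat d)
  have hRc : ((R j : ℝ) : ℂ) ≠ 0 := by exact_mod_cast h6.ne'
  have hinv : 1 / R j < μ / (4 * (‖lat d‖ + 1)) := by
    rw [div_lt_div_iff₀ h6 (by positivity)]
    rw [div_lt_iff₀ hμ0] at h5
    linarith
  have hq : μ / (4 * (‖lat d‖ + 1)) * ‖lat d‖ ≤ μ / 4 := by
    rw [div_mul_eq_mul_div, div_le_div_iff₀ (by positivity) (by norm_num)]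
    nlinarith
  -- closeness
  have hclose : ∀ k < L j, ∀ t ∈ Icc ((k : ℝ) / R j) (((k + 1 : ℕ) : ℝ) / R j),
      ‖lat (p j + k • d) / (R j : ℂ) - ψ t‖ < μ := by
    intro k hk t ht
    have hk0 : 0 ≤ (k : ℝ) / R j := by positivity
    have hkL : ((k + 1 : ℕ) : ℝ) / R j ≤ (L j : ℝ) / R j :=
      div_le_div_of_nonneg_right (by exact_mod_cast hk) h6.le
    have e1 : lat (p j + k • d) / (R j : ℂ) - ψ t = (lat (p j) / (R j : ℂ) - z) +
        (((k : ℝ) / R j - cl t : ℝ) : ℂ) * lat d := by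
      rw [lat_add_smul]
      simp only [hψ]
      push_cast
      field_simp
      ring
    have hcl1 : |(k : ℝ) / R j - cl t| ≤ 1 / R j + |(L j : ℝ) / R j - ℓ| := by
      have t0 : 0 ≤ t := hk0.trans ht.1
      have tk : t ≤ (k : ℝ) / R j + 1 / R j := by
        have := ht.2; push_cast at this; rw [add_div] at this; exact this
      have tL : t ≤ (L j : ℝ) / R j := ht.2.trans hkL
      have hi : 0 < 1 / R j := by positivity
      have ha := abs_nonneg ((L j : ℝ) / R j - ℓ)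
      have ha' := le_abs_self ((L j : ℝ) / R j - ℓ)
      simp only [hcl]
      rw [max_eq_right (le_min t0 hℓ)]
      rcases le_total t ℓ with h | h
      · rw [min_eq_left h, abs_le]
        constructor
        · linarith
        · linarith [ht.1]
      · rw [min_eq_right h, abs_le]
        constructor
        · linarith [ht.1]
        · linarith [ht.1]
    rw [e1]
    refine (norm_add_le _ _).trans_lt ?_
    rw [norm_mul, Complex.norm_real, Real.norm_eq_abs]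
    have h7 : |(k : ℝ) / R j - cl t| * ‖lat d‖ ≤ (μ / (4 * (‖lat d‖ + 1)) + μ / (4 * (‖lat d‖ + 1))) * ‖lat d‖ :=
      mul_le_mul_of_nonneg_right (hcl1.trans (add_le_add hinv.le h3.le)) hd0
    rw [add_mul] at h7
    linarith
  have hbound : ∀ k < L j, ∀ t ∈ Icc ((k : ℝ) / R j) (((k + 1 : ℕ) : ℝ) / R j),
      ‖f j (p j + k • d) - φ t‖ ≤ 2 * ε := by
    intro k hk t ht
    have hc := hclose k hk t ht
    have hmem : lat (p j + k • d) / (R j : ℂ) ∈ K := by
      rw [hK]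
      refine Metric.mem_cthickening_of_dist_le _ _ s _ (hψs t) ?_
      rw [dist_eq_norm]
      exact hc.le.trans hμs
    have hmem2 : ψ t ∈ K := Metric.self_subset_cthickening _ (hψs t)
    have a1 := h1 _ hmem
    have a2 := hδK _ hmem _ hmem2 (by rw [dist_eq_norm]; exact hc.trans_le hμδ)
    rw [dist_eq_norm] at a2
    have e2 : f j (p j + k • d) - φ t = (f j (p j + k • d) - g (lat (p j + k • d) / (R j : ℂ))) +
        (g (lat (p j + k • d) / (R j : ℂ)) - g (ψ t)) := by simp only [hφ]; ring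
    rw [e2]
    exact (norm_add_le _ _).trans (by linarith)
  have hr := riemann hφc h6 (L j) (fun k => f j (p j + k • d)) hbound
  rw [dist_eq_norm] at h2 ⊢
  have hLb : (L j : ℝ) / R j ≤ ℓ + 1 := by
    have := (abs_lt.1 h3).2
    have h8 : μ / (4 * (‖lat d‖ + 1)) ≤ 1 := by
      rw [div_le_one (by positivity)]; nlinarith
    linarith
  have e3 : ((1 / R j : ℝ) : ℂ) * (∑ k ∈ Finset.range (L j), f j (p j + k • d)) - ∫ t in (0 : ℝ)..ℓ, φ t =
      (((1 / R j : ℝ) : ℂ) * (∑ k ∈ Finset.range (L j), f j (p j + k • d)) -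
        ∫ t in (0 : ℝ)..((L j : ℝ) / R j), φ t) +
      ((∫ t in (0 : ℝ)..((L j : ℝ) / R j), φ t) - ∫ t in (0 : ℝ)..ℓ, φ t) := by ring
  rw [e3]
  refine (norm_add_le _ _).trans_lt ?_
  have h9 : 2 * ε * ((L j : ℝ) / R j) ≤ 2 * ε * (ℓ + 1) := mul_le_mul_of_nonneg_left hLb (by positivity)
  have h10 : 2 * ε * (ℓ + 1) = η / 2 := by rw [hε]; field_simp; ring
  linarith

end Pool.Agent.Q1.M6f.Glue
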