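import Mathlib
import Pool.Agent.Q1.M6f.GlueRie
import Pool.Agent.Q1.M6f.GlueDisc

set_option autoImplicit false
open MeasureTheory Set Filter Topology intervalIntegral

/-! Module M6, chapter E, glue: the relations of the responses imply that the rectangle integral of the
limit is invariant under translations. -/

namespace Pool.Agent.Q1.M6f.Glue

open Pool.Agent.Q1.M4 Pool.Agent.H25.Q1.Close Pool.Agent.Q1.M6f

variable {Ω : Set ℂ} {g : ℂ → ℂ} {R : ℕ → ℝ} {f : ℕ → ℤ × ℤ → ℂ}

lemma lat_rr : lat rr = 1 := by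
  apply Complex.ext <;> simp [lat, rr]

lemma lat_uu : lat uu = Complex.I := by
  apply Complex.ext <;> simp [lat, uu]

/-- Normalised box increments converge. -/
theorem XX_tendsto {U : Ultrafilter ℕ} (hRU : Tendsto R U atTop) (hlim : ILim R U f Ω g)
    (hg : ContinuousOn g Ω) (hΩ : IsOpen Ω) {a b c d : ℝ} (hab : a < b) (hcd : c < d)
    (hR : Icc a b ×ℂ Icc c d ⊆ Ω) {p : ℕ → ℤ × ℤ} {L M : ℕ → ℕ}
    (hp : Tendsto (fun j => lat (p j) / (R j : ℂ)) U (𝓝 (a + c * Complex.I)))
    (hL : Tendsto (fun j => (L j : ℝ) / R j) U (𝓝 (b - a)))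
    (hM : Tendsto (fun j => (M j : ℝ) / R j) U (𝓝 (d - c))) :
    Tendsto (fun j => XX (R j) (f j) (p j) (L j) (M j)) U
      (𝓝 ((1 / ((b - a) * (d - c)) : ℝ) * ((∫ x in a..b, g (x + d * Complex.I)) -
        ∫ x in a..b, g (x + c * Complex.I)))) ∧
    Tendsto (fun j => YY (R j) (f j) (p j) (L j) (M j)) U
      (𝓝 ((1 / ((b - a) * (d - c)) : ℝ) * ((∫ y in c..d, g (b + y * Complex.I)) -
        ∫ y in c..d, g (a + y * Complex.I)))) := by
  have hc : c ∈ Icc c d := ⟨le_rfl, hcd.le⟩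
  have hd : d ∈ Icc c d := ⟨hcd.le, le_rfl⟩
  have ha : a ∈ Icc a b := ⟨le_rfl, hab.le⟩
  have hb : b ∈ Icc a b := ⟨hab.le, le_rfl⟩
  have hba : 0 < b - a := by linarith
  have hdc : 0 < d - c := by linarith
  -- displaced corners
  have hpM : Tendsto (fun j => lat (p j + M j • uu) / (R j : ℂ)) U (𝓝 (a + d * Complex.I)) := by
    have h1 := hp.add (((Complex.continuous_ofReal.tendsto _).comp hM).mul_const Complex.I)
    have e : (a : ℂ) + c * Complex.I + ((d - c : ℝ) : ℂ) * Complex.I = a + d * Complex.I := by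
      push_cast; ring
    rw [e] at h1
    refine h1.congr fun j => ?_
    simp only [Function.comp]
    rw [lat_add_smul, lat_uu]
    push_cast
    ring
  have hpL : Tendsto (fun j => lat (p j + L j • rr) / (R j : ℂ)) U (𝓝 (b + c * Complex.I)) := by
    have h1 := hp.add ((Complex.continuous_ofReal.tendsto _).comp hL)
    have e : (a : ℂ) + c * Complex.I + ((b - a : ℝ) : ℂ) = b + c * Complex.I := by
      push_cast; ring
    rw [e] at h1
    refine h1.congr fun j => ?_
    simp only [Function.comp]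
    rw [lat_add_smul, lat_rr]
    push_cast
    ring
  -- line integrals
  have hor : ∀ y ∈ Icc c d, ∫ t in (0 : ℝ)..(b - a), g (((a : ℂ) + y * Complex.I) + t * lat rr) =
      ∫ x in a..b, g (x + y * Complex.I) := by
    intro y _
    have h1 := intervalIntegral.integral_comp_add_left (a := 0) (b := b - a)
      (fun x : ℝ => g (x + y * Complex.I)) a
    rw [add_zero, show a + (b - a) = b by ring] at h1
    rw [← h1]
    apply intervalIntegral.integral_congr
    intro t _
    simp only [lat_rr]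
    congr 1
    push_cast; ring
  have ver : ∀ x ∈ Icc a b, ∫ t in (0 : ℝ)..(d - c), g (((x : ℂ) + c * Complex.I) + t * lat uu) =
      ∫ y in c..d, g (x + y * Complex.I) := by
    intro x _
    have h1 := intervalIntegral.integral_comp_add_left (a := 0) (b := d - c)
      (fun y : ℝ => g (x + y * Complex.I)) c
    rw [add_zero, show c + (d - c) = d by ring] at h1
    rw [← h1]
    apply intervalIntegral.integral_congr
    intro t _
    simp only [lat_uu]
    congr 1
    push_cast; ring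
  have sh : ∀ y ∈ Icc c d, ∀ t ∈ Icc (0 : ℝ) (b - a), ((a : ℂ) + y * Complex.I) + t * lat rr ∈ Ω := by
    intro y hy t ht
    rw [lat_rr]
    have : ((a : ℂ) + y * Complex.I) + t * 1 = ((a + t : ℝ) : ℂ) + y * Complex.I := by push_cast; ring
    rw [this]
    exact hR (mem_rect ⟨by linarith [ht.1], by linarith [ht.2]⟩ hy)
  have sv : ∀ x ∈ Icc a b, ∀ t ∈ Icc (0 : ℝ) (d - c), ((x : ℂ) + c * Complex.I) + t * lat uu ∈ Ω := by
    intro x hx t ht
    rw [lat_uu]
    have : ((x : ℂ) + c * Complex.I) + t * Complex.I = (x : ℂ) + ((c + t : ℝ) : ℂ) * Complex.I := by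
      push_cast; ring
    rw [this]
    exact hR (mem_rect hx ⟨by linarith [ht.1], by linarith [ht.2]⟩)
  have r1 := row_tendsto hRU hlim hg hΩ (d := rr) hpM hba.le hL (sh d hd)
  have r2 := row_tendsto hRU hlim hg hΩ (d := rr) hp hba.le hL (sh c hc)
  have r3 := row_tendsto hRU hlim hg hΩ (d := uu) hpL hdc.le hM (sv b hb)
  have r4 := row_tendsto hRU hlim hg hΩ (d := uu) hp hdc.le hM (sv a ha)
  rw [hor d hd] at r1
  rw [hor c hc] at r2
  rw [ver b hb] at r3
  rw [ver a ha] at r4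
  -- the prefactor
  have hpre : Tendsto (fun j => ((1 / (((L j : ℝ) / R j) * ((M j : ℝ) / R j)) : ℝ) : ℂ)) U
      (𝓝 ((1 / ((b - a) * (d - c)) : ℝ) : ℂ)) :=
    (Complex.continuous_ofReal.tendsto _).comp
      (tendsto_const_nhds.div (hL.mul hM) (mul_pos hba hdc).ne')
  constructor
  · refine (hpre.mul (r1.sub r2)).congr' ?_
    filter_upwards [hRU.eventually_gt_atTop 0] with j hj
    unfold XX TX
    rw [Finset.sum_sub_distrib, ← mul_sub, ← mul_assoc]
    congr 1
    · rw [← Complex.ofReal_mul]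
      congr 1
      field_simp
    · congr 1
      refine Finset.sum_congr rfl fun k _ => ?_
      congr 1
      abel
  · refine (hpre.mul (r3.sub r4)).congr' ?_
    filter_upwards [hRU.eventually_gt_atTop 0] with j hj
    unfold YY TY
    rw [Finset.sum_sub_distrib, ← mul_sub, ← mul_assoc]
    congr 1
    rw [← Complex.ofReal_mul]
    congr 1
    field_simp

/-- **Input of the glue**: at all scales `j` (along `F`) the functions `ff, fl, ff', fr` are close to `f`, up
to constants, and the responses satisfy the relations for the two kinds of tracks. -/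
structure GlueIn (R : ℕ → ℝ) (F : Filter ℕ) (Ω : Set ℂ) (f e ff fl ff' fr : ℕ → ℤ × ℤ → ℂ) : Prop where
  cff : ∀ K ⊆ Ω, IsCompact K → ∀ τ > 0, ∀ᶠ j in F, Cls {v | lat v / (R j : ℂ) ∈ K} τ (f j) (ff j)
  cfl : ∀ K ⊆ Ω, IsCompact K → ∀ τ > 0, ∀ᶠ j in F, Cls {v | lat v / (R j : ℂ) ∈ K} τ (f j) (fl j)
  cff' : ∀ K ⊆ Ω, IsCompact K → ∀ τ > 0, ∀ᶠ j in F, Cls {v | lat v / (R j : ℂ) ∈ K} τ (f j) (ff' j)
  cfr : ∀ K ⊆ Ω, IsCompact K → ∀ τ > 0, ∀ᶠ j in F, Cls {v | lat v / (R j : ℂ) ∈ K} τ (f j) (fr j)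
  rel : ∀ K ⊆ Ω, IsCompact K → ∃ C c : ℝ, 0 < c ∧ ∀ ε > 0, ∀ Y : ℝ, ∀ᶠ j in F,
    ∃ G : ℂ → ℂ, GHyp C c Y G ∧ ∀ t : ℝ, |t| ≤ 1 → ∀ u v : ℤ × ℤ, lat u / (R j : ℂ) ∈ K →
      lat v / (R j : ℂ) ∈ K → ‖G (pt t) * (al (e j) (ff j) u - al (e j) (ff j) v) +
        G (pt t + (Real.pi / 2 : ℝ)) * (be (e j) (fl j) u - be (e j) (fl j) v)‖ ≤ ε / R j
  rel' : ∀ K ⊆ Ω, IsCompact K → ∃ C c : ℝ, 0 < c ∧ ∀ ε > 0, ∀ Y : ℝ, ∀ᶠ j in F,
    ∃ G : ℂ → ℂ, GHyp C c Y G ∧ ∀ t : ℝ, |t| ≤ 1 → ∀ u v : ℤ × ℤ, lat u / (R j : ℂ) ∈ K →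
      lat v / (R j : ℂ) ∈ K →
      ‖G (pt t) * ((starRingEnd ℂ) (al (e j) (ff' j) u) - (starRingEnd ℂ) (al (e j) (ff' j) v)) +
        G (pt t + (Real.pi / 2 : ℝ)) * ((starRingEnd ℂ) (be' (e j) (fr j) u) -
          (starRingEnd ℂ) (be' (e j) (fr j) v))‖ ≤ ε / R j

lemma _root_.Pool.Agent.Q1.M6f.GHyp.weaken {C c C' c' Y : ℝ} {G : ℂ → ℂ} (h : GHyp C c Y G)
    (hC : C ≤ C') (hc : c' ≤ c) : GHyp C' c' Y G where
  diff := h.diff
  bound := fun z hz => (h.bound z hz).trans (mul_le_mul_of_nonneg_right hC (Real.exp_pos _).le)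
  sym := h.sym
  lower := hc.trans h.lower

/-- **The rectangle integral of the limit is invariant under translations.** -/
theorem GlueIn.ti {U : Ultrafilter ℕ} (hR : Tendsto R atTop atTop) (hU : (U : Filter ℕ) ≤ atTop)
    {e ff fl ff' fr : ℕ → ℤ × ℤ → ℂ} (h : GlueIn R U Ω f e ff fl ff' fr) (hΩ : IsOpen Ω)
    (hlim : ILim R U f Ω g) (hg : ContinuousOn g Ω) : TI Ω g := by
  have hRU : Tendsto R U atTop := hR.mono_left hU
  intro a b c d x y hab hcd hR1 hR2
  set a' := a + x with ha'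
  set b' := b + x with hb'
  set c' := c + y with hc'
  set d' := d + y with hd'
  have hab' : a' < b' := by rw [ha', hb']; linarith
  have hcd' : c' < d' := by rw [hc', hd']; linarith
  have hba : 0 < b - a := by linarith
  have hdc : 0 < d - c := by linarith
  set p : ℕ → ℤ × ℤ := fun j => Pool.Agent.Q1.M4.fl R (a + c * Complex.I) j with hp
  set q : ℕ → ℤ × ℤ := fun j => Pool.Agent.Q1.M4.fl R (a' + c' * Complex.I) j with hq
  set L : ℕ → ℕ := fun j => ⌊(b - a) * R j⌋₊ with hL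
  set M : ℕ → ℕ := fun j => ⌊(d - c) * R j⌋₊ with hM
  have tp : Tendsto (fun j => lat (p j) / (R j : ℂ)) U (𝓝 (a + c * Complex.I)) :=
    (fl_tendsto hR _).mono_left hU
  have tq : Tendsto (fun j => lat (q j) / (R j : ℂ)) U (𝓝 (a' + c' * Complex.I)) :=
    (fl_tendsto hR _).mono_left hU
  have tL : Tendsto (fun j => (L j : ℝ) / R j) U (𝓝 (b - a)) := nat_floor_tendsto hRU hba.le
  have tM : Tendsto (fun j => (M j : ℝ) / R j) U (𝓝 (d - c)) := nat_floor_tendsto hRU hdc.le
  have eba : b' - a' = b - a := by rw [ha', hb']; ring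
  have edc : d' - c' = d - c := by rw [hc', hd']; ring
  obtain ⟨X1, Y1⟩ := XX_tendsto hRU hlim hg hΩ hab hcd hR1 tp tL tM
  obtain ⟨X2, Y2⟩ := XX_tendsto hRU hlim hg hΩ hab' hcd' hR2 tq (by rw [eba]; exact tL)
    (by rw [edc]; exact tM)
  rw [eba, edc] at X2 Y2
  set κ : ℝ := 1 / ((b - a) * (d - c)) with hκ
  have hκ0 : 0 < κ := by rw [hκ]; positivity
  have hX := X1.sub X2
  have hY := Y1.sub Y2
  have hZ := (hX.sub (hY.const_mul Complex.I)).norm
  -- the compact set
  have hQc : IsCompact ((Icc a b ×ℂ Icc c d) ∪ (Icc a' b' ×ℂ Icc c' d')) :=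
    (isCompact_Icc.reProdIm isCompact_Icc).union (isCompact_Icc.reProdIm isCompact_Icc)
  obtain ⟨s, hs, hsub⟩ := hQc.exists_cthickening_subset_open hΩ (union_subset hR1 hR2)
  set K := Metric.cthickening s ((Icc a b ×ℂ Icc c d) ∪ (Icc a' b' ×ℂ Icc c' d')) with hK
  have hKc : IsCompact K := hQc.cthickening
  obtain ⟨C1, c1, hc1, hrel1⟩ := h.rel K hsub hKc
  obtain ⟨C2, c2, hc2, hrel2⟩ := h.rel' K hsub hKc
  have hzero : ∀ η > 0, ‖((κ : ℂ) * ((∫ x in a..b, g (x + d * Complex.I)) -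
      ∫ x in a..b, g (x + c * Complex.I)) - (κ : ℂ) * ((∫ x in a'..b', g (x + d' * Complex.I)) -
      ∫ x in a'..b', g (x + c' * Complex.I))) - Complex.I *
      ((κ : ℂ) * ((∫ y in c..d, g (b + y * Complex.I)) - ∫ y in c..d, g (a + y * Complex.I)) -
      (κ : ℂ) * ((∫ y in c'..d', g (b' + y * Complex.I)) -
        ∫ y in c'..d', g (a' + y * Complex.I)))‖ ≤ η := by
    intro η hη
    set B : ℝ := ‖(κ : ℂ) * ((∫ x in a..b, g (x + d * Complex.I)) -
      ∫ x in a..b, g (x + c * Complex.I)) - (κ : ℂ) * ((∫ x in a'..b', g (x + d' * Complex.I)) -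
      ∫ x in a'..b', g (x + c' * Complex.I))‖ +
      ‖(κ : ℂ) * ((∫ y in c..d, g (b + y * Complex.I)) - ∫ y in c..d, g (a + y * Complex.I)) -
      (κ : ℂ) * ((∫ y in c'..d', g (b' + y * Complex.I)) -
        ∫ y in c'..d', g (a' + y * Complex.I))‖ + 1 with hB
    obtain ⟨ε, hε, Y, hmain⟩ := disc_close (max C1 C2) (min c1 c2) B (lt_min hc1 hc2) (by positivity) hη
    refine le_of_tendsto hZ ?_
    set τ : ℝ := ε * min (b - a) (d - c) / 4 with hτ
    have hτ0 : 0 < τ := by
      have : 0 < min (b - a) (d - c) := lt_min hba hdc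
      positivity
    have e1 : ∀ᶠ j in (U : Filter ℕ), (b - a) / 2 < (L j : ℝ) / R j := tL.eventually_const_lt (by linarith)
    have e2 : ∀ᶠ j in (U : Filter ℕ), (d - c) / 2 < (M j : ℝ) / R j := tM.eventually_const_lt (by linarith)
    have e3 : ∀ᶠ j in (U : Filter ℕ), ‖XX (R j) (f j) (p j) (L j) (M j) -
        XX (R j) (f j) (q j) (L j) (M j)‖ < B :=
      hX.norm.eventually_lt_const (by rw [hB]; linarith [norm_nonneg ((κ : ℂ) *
        ((∫ y in c..d, g (b + y * Complex.I)) - ∫ y in c..d, g (a + y * Complex.I)) -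
        (κ : ℂ) * ((∫ y in c'..d', g (b' + y * Complex.I)) -
        ∫ y in c'..d', g (a' + y * Complex.I)))])
    have e4 : ∀ᶠ j in (U : Filter ℕ), ‖YY (R j) (f j) (p j) (L j) (M j) -
        YY (R j) (f j) (q j) (L j) (M j)‖ < B :=
      hY.norm.eventually_lt_const (by rw [hB]; linarith [norm_nonneg ((κ : ℂ) *
        ((∫ x in a..b, g (x + d * Complex.I)) - ∫ x in a..b, g (x + c * Complex.I)) -
        (κ : ℂ) * ((∫ x in a'..b', g (x + d' * Complex.I)) -
        ∫ x in a'..b', g (x + c' * Complex.I)))])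
    -- points of the boxes
    have box : ∀ (A C : ℝ) (P : ℕ → ℤ × ℤ), P = (fun j => Pool.Agent.Q1.M4.fl R (A + C * Complex.I) j) →
        Icc A (A + (b - a)) ×ℂ Icc C (C + (d - c)) ⊆
          (Icc a b ×ℂ Icc c d) ∪ (Icc a' b' ×ℂ Icc c' d') →
        ∀ᶠ j in (U : Filter ℕ), InBox {v | lat v / (R j : ℂ) ∈ K} (P j) (L j) (M j) := by
      intro A C P hP hAC
      filter_upwards [hRU.eventually_gt_atTop 0, hRU.eventually_gt_atTop (2 / s)] with j h0 h1
      intro k hk l hl
      have hs2 : 2 / R j < s := by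
        rw [div_lt_iff₀ h0]; rw [div_lt_iff₀ hs] at h1; linarith
      have hkR : (k : ℝ) / R j ≤ b - a := by
        rw [div_le_iff₀ h0]
        calc (k : ℝ) ≤ L j := by exact_mod_cast hk
          _ ≤ (b - a) * R j := Nat.floor_le (by positivity)
      have hlR : (l : ℝ) / R j ≤ d - c := by
        rw [div_le_iff₀ h0]
        calc (l : ℝ) ≤ M j := by exact_mod_cast hl
          _ ≤ (d - c) * R j := Nat.floor_le (by positivity)
      have hk0 : 0 ≤ (k : ℝ) / R j := by positivity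
      have hl0 : 0 ≤ (l : ℝ) / R j := by positivity
      have hRc : ((R j : ℝ) : ℂ) ≠ 0 := by exact_mod_cast h0.ne'
      -- the nearby point of the rectangle
      have hmem : ((A + (k : ℝ) / R j : ℝ) : ℂ) + ((C + (l : ℝ) / R j : ℝ) : ℂ) * Complex.I ∈
          (Icc a b ×ℂ Icc c d) ∪ (Icc a' b' ×ℂ Icc c' d') :=
        hAC (mem_rect ⟨by linarith, by linarith⟩ ⟨by linarith, by linarith⟩)
      change lat (P j + k • rr + l • uu) / (R j : ℂ) ∈ K
      rw [hK]
      refine Metric.mem_cthickening_of_dist_le _ _ s _ hmem ?_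
      rw [dist_eq_norm, lat_add_smul, lat_add_smul, lat_rr, lat_uu]
      have hA1 := Int.floor_le (R j * A)
      have hA2 := Int.lt_floor_add_one (R j * A)
      have hC1 := Int.floor_le (R j * C)
      have hC2 := Int.lt_floor_add_one (R j * C)
      have hPj : P j = (⌊R j * A⌋, ⌊R j * C⌋) := by
        rw [hP]
        simp [Pool.Agent.Q1.M4.fl]
      have e5 : (lat (P j) + k * 1 + l * Complex.I) / (R j : ℂ) -
          (((A + (k : ℝ) / R j : ℝ) : ℂ) + ((C + (l : ℝ) / R j : ℝ) : ℂ) * Complex.I) =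
          ((((⌊R j * A⌋ : ℝ) - R j * A) / R j : ℝ) : ℂ) +
          ((((⌊R j * C⌋ : ℝ) - R j * C) / R j : ℝ) : ℂ) * Complex.I := by
        rw [hPj]
        have : lat (⌊R j * A⌋, ⌊R j * C⌋) = ((⌊R j * A⌋ : ℝ) : ℂ) + ((⌊R j * C⌋ : ℝ) : ℂ) * Complex.I := by
          apply Complex.ext <;> simp [lat]
        rw [this]
        push_cast
        field_simp
        ring
      rw [e5]
      have b1 : |((⌊R j * A⌋ : ℝ) - R j * A) / R j| ≤ 1 / R j := by
        rw [abs_div, abs_of_pos h0]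
        exact div_le_div_of_nonneg_right (by rw [abs_le]; constructor <;> linarith) h0.le
      have b2 : |((⌊R j * C⌋ : ℝ) - R j * C) / R j| ≤ 1 / R j := by
        rw [abs_div, abs_of_pos h0]
        exact div_le_div_of_nonneg_right (by rw [abs_le]; constructor <;> linarith) h0.le
      refine (norm_add_le _ _).trans ?_
      rw [norm_mul, Complex.norm_I, mul_one, Complex.norm_real, Complex.norm_real, Real.norm_eq_abs,
        Real.norm_eq_abs]
      have : 1 / R j + 1 / R j = 2 / R j := by ring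
      linarith
    have bp := box a c p hp (by
      have : Icc a (a + (b - a)) ×ℂ Icc c (c + (d - c)) = Icc a b ×ℂ Icc c d := by
        rw [show a + (b - a) = b by ring, show c + (d - c) = d by ring]
      rw [this]; exact subset_union_left)
    have bq := box a' c' q hq (by
      have : Icc a' (a' + (b - a)) ×ℂ Icc c' (c' + (d - c)) = Icc a' b' ×ℂ Icc c' d' := by
        rw [ha', hb', hc', hd', show a + x + (b - a) = b + x by ring,
          show c + y + (d - c) = d + y by ring]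
      rw [this]; exact subset_union_right)
    filter_upwards [hrel1 ε hε Y, hrel2 ε hε Y, h.cff K hsub hKc τ hτ0, h.cfl K hsub hKc τ hτ0,
      h.cff' K hsub hKc τ hτ0, h.cfr K hsub hKc τ hτ0, e1, e2, e3, e4, bp, bq,
      hRU.eventually_gt_atTop 0] with j k1 k2 k3 k4 k5 k6 k7 k8 k9 k10 k11 k12 k13
    obtain ⟨G, hG, g1⟩ := k1
    obtain ⟨G', hG', g2⟩ := k2
    have hLpos : (0 : ℝ) < L j := by
      have : 0 < (L j : ℝ) / R j := by linarith
      exact (div_pos_iff_of_pos_right k13).1 this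
    have hMpos : (0 : ℝ) < M j := by
      have : 0 < (M j : ℝ) / R j := by linarith
      exact (div_pos_iff_of_pos_right k13).1 this
    have rL : R j / L j ≤ 2 / (b - a) := by
      rw [div_le_div_iff₀ hLpos hba]
      rw [lt_div_iff₀ k13] at k7
      linarith
    have rM : R j / M j ≤ 2 / (d - c) := by
      rw [div_le_div_iff₀ hMpos hdc]
      rw [lt_div_iff₀ k13] at k8
      linarith
    have tt1 : 2 * (τ * (R j / L j)) ≤ ε := by
      have h1 : τ ≤ ε * (b - a) / 4 := by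
        rw [hτ]
        exact div_le_div_of_nonneg_right (mul_le_mul_of_nonneg_left (min_le_left _ _) hε.le) (by norm_num)
      have h2 : τ * (R j / L j) ≤ ε * (b - a) / 4 * (2 / (b - a)) :=
        mul_le_mul h1 rL (by positivity) (by positivity)
      have h3 : ε * (b - a) / 4 * (2 / (b - a)) = ε / 2 := by field_simp; ring
      linarith
    have tt2 : 2 * (τ * (R j / M j)) ≤ ε := by
      have h1 : τ ≤ ε * (d - c) / 4 := by
        rw [hτ]
        exact div_le_div_of_nonneg_right (mul_le_mul_of_nonneg_left (min_le_right _ _) hε.le) (by norm_num)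
      have h2 : τ * (R j / M j) ≤ ε * (d - c) / 4 * (2 / (d - c)) :=
        mul_le_mul h1 rM (by positivity) (by positivity)
      have h3 : ε * (d - c) / 4 * (2 / (d - c)) = ε / 2 := by field_simp; ring
      linarith
    exact hmain (f j) (e j) (ff j) (fl j) (ff' j) (fr j) {v | lat v / (R j : ℂ) ∈ K} τ (R j) (p j) (q j)
      (L j) (M j) G G' k13 (by exact_mod_cast hLpos) (by exact_mod_cast hMpos)
      (hG.weaken (le_max_left _ _) (min_le_left _ _)) (hG'.weaken (le_max_right _ _) (min_le_right _ _))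
      k3 k4 k5 k6 k11 k12 tt1 tt2 (fun t ht u hu v hv => g1 t ht u v hu hv)
      (fun t ht u hu v hv => g2 t ht u v hu hv) k9.le k10.le
  have hz : ((κ : ℂ) * ((∫ x in a..b, g (x + d * Complex.I)) -
      ∫ x in a..b, g (x + c * Complex.I)) - (κ : ℂ) * ((∫ x in a'..b', g (x + d' * Complex.I)) -
      ∫ x in a'..b', g (x + c' * Complex.I))) - Complex.I *
      ((κ : ℂ) * ((∫ y in c..d, g (b + y * Complex.I)) - ∫ y in c..d, g (a + y * Complex.I)) -
      (κ : ℂ) * ((∫ y in c'..d', g (b' + y * Complex.I)) -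
        ∫ y in c'..d', g (a' + y * Complex.I))) = 0 := by
    rw [← norm_eq_zero]
    refine le_antisymm (le_of_forall_pos_le_add fun η hη => ?_) (norm_nonneg _)
    rw [zero_add]
    exact hzero η hη
  have hκc : (κ : ℂ) ≠ 0 := by exact_mod_cast hκ0.ne'
  have : (κ : ℂ) * (JJ g a b c d - JJ g a' b' c' d') = 0 := by
    rw [← hz]; unfold JJ; ring
  exact sub_eq_zero.1 ((mul_eq_zero.1 this).resolve_left hκc)

end Pool.Agent.Q1.M6f.Glue
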