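import Mathlib
import Pool.Agent.Q1.M6f.GlueLim
import Pool.Agent.H25.Q1.Series

set_option autoImplicit false
open MeasureTheory Set Filter Topology

/-! Module M6, chapter E, glue: from the smallness of `V = H_low - H_up` (chapters A, B) and the linear
response (chapter C) to the relation of the responses. -/

namespace Pool.Agent.Q1.M6f.Glue

open Pool.Agent.Q1.M4 Pool.Agent.H25.Q1.Close Pool.Agent.Q1.M6f

/-- The rapidity at the scale `n`, on the line `Re = π / 4`. -/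
noncomputable def rap (n : ℕ) (t : ℝ) : ℂ := pt t + ((Real.log n : ℝ) : ℂ) * Complex.I

/-- The contact series `∑ ν_m s^m` at the weight of the rapidity `φ`. -/
noncomputable def DD (ν : ℕ → ℝ) (φ : ℂ) : ℂ := ∑' m, (ν m : ℂ) * sw φ ^ m

/-- Points of the even rows. -/
def Ev (v : ℤ × ℤ) : Prop := v.2 % 2 = 0

/-- The relation of the responses. -/
def Rel (R : ℕ → ℝ) (F : Filter ℕ) (Ω : Set ℂ) (A B : ℕ → ℤ × ℤ → ℂ) : Prop :=
  ∀ K ⊆ Ω, IsCompact K → ∃ C c : ℝ, 0 < c ∧ ∀ ε > 0, ∀ Y : ℝ, ∀ᶠ j in F,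
    ∃ G : ℂ → ℂ, GHyp C c Y G ∧ ∀ t : ℝ, |t| ≤ 1 → ∀ u v : ℤ × ℤ, lat u / (R j : ℂ) ∈ K →
      lat v / (R j : ℂ) ∈ K → ‖G (pt t) * (A j u - A j v) +
        G (pt t + (Real.pi / 2 : ℝ)) * (B j u - B j v)‖ ≤ ε / R j

/-- The relation of the responses, even rows only. -/
def RelE (R : ℕ → ℝ) (F : Filter ℕ) (Ω : Set ℂ) (A B : ℕ → ℤ × ℤ → ℂ) : Prop :=
  ∀ K ⊆ Ω, IsCompact K → ∃ C c : ℝ, 0 < c ∧ ∀ ε > 0, ∀ Y : ℝ, ∀ᶠ j in F,
    ∃ G : ℂ → ℂ, GHyp C c Y G ∧ ∀ t : ℝ, |t| ≤ 1 → ∀ u v : ℤ × ℤ, Ev u → Ev v →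
      lat u / (R j : ℂ) ∈ K → lat v / (R j : ℂ) ∈ K → ‖G (pt t) * (A j u - A j v) +
        G (pt t + (Real.pi / 2 : ℝ)) * (B j u - B j v)‖ ≤ ε / R j

/-- The values at vertically adjacent points agree up to `o (1 / R)`. -/
def Adj (R : ℕ → ℝ) (F : Filter ℕ) (Ω : Set ℂ) (A : ℕ → ℤ × ℤ → ℂ) : Prop :=
  ∀ K ⊆ Ω, IsCompact K → ∀ ε > 0, ∀ᶠ j in F, ∀ v : ℤ × ℤ, lat v / (R j : ℂ) ∈ K →
    ‖A j v - A j (v - uu)‖ ≤ ε / R j

/-- **Input for one kind of track** (all functions normalised by `R ^ (-2/3)`): `V j φ z` is the difference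
`H_low (z) - H_up (z - u)` at the rapidity `φ`, `e` the same for the natural environments, `A`, `B` the
responses (low minus up) to one natural row resp. column more.
`ab` : chapters A, B; `cc` : chapter C (points in the even rows); `adA`, `adB` : real weights. -/
structure TrackIn (R : ℕ → ℝ) (F : Filter ℕ) (Ω : Set ℂ) (V : ℕ → ℂ → ℤ × ℤ → ℂ)
    (e A B : ℕ → ℤ × ℤ → ℂ) : Prop where
  ee : ∀ K ⊆ Ω, IsCompact K → ∀ ε > 0, ∀ᶠ j in F, ∀ u v : ℤ × ℤ, Ev u → Ev v →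
    lat u / (R j : ℂ) ∈ K → lat v / (R j : ℂ) ∈ K → ‖e j u - e j v‖ ≤ ε
  ab : ∀ K ⊆ Ω, IsCompact K → ∃ ρ1 > 0, ∀ ρ : ℝ, 0 < ρ → ρ < ρ1 → ∀ ε > 0, ∀ᶠ j in F, ∀ t : ℝ, |t| ≤ 1 →
    ∀ u v : ℤ × ℤ, Ev u → Ev v → lat u / (R j : ℂ) ∈ K → lat v / (R j : ℂ) ∈ K →
    ‖V j (rap ⌊ρ * R j⌋₊ t) u - V j (rap ⌊ρ * R j⌋₊ t) v‖ ≤ ε
  cc : ∀ K ⊆ Ω, IsCompact K → ∃ C c : ℝ, 0 < c ∧ ∀ ε > 0, ∀ Y : ℝ, ∃ ρ1 > 0, ∀ ρ : ℝ, 0 < ρ → ρ < ρ1 →
    ∀ᶠ j in F, ∃ G : ℂ → ℂ, GHyp C c Y G ∧ ∀ t : ℝ, |t| ≤ 1 → ∀ u v : ℤ × ℤ, Ev u → Ev v →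
    lat u / (R j : ℂ) ∈ K → lat v / (R j : ℂ) ∈ K →
    ‖(V j (rap ⌊ρ * R j⌋₊ t) u - V j (rap ⌊ρ * R j⌋₊ t) v) - (e j u - e j v) -
      (⌊ρ * R j⌋₊ : ℂ) * (G (pt t) * (A j u - A j v) +
        G (pt t + (Real.pi / 2 : ℝ)) * (B j u - B j v))‖ ≤ ε * ρ
  adA : Adj R F Ω A
  adB : Adj R F Ω B

variable {R : ℕ → ℝ} {F : Filter ℕ} {Ω : Set ℂ} {V : ℕ → ℂ → ℤ × ℤ → ℂ} {e A B : ℕ → ℤ × ℤ → ℂ}

/-- **The relation of the responses**, even rows. -/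
theorem TrackIn.relE (hR : Tendsto R F atTop) (h : TrackIn R F Ω V e A B) : RelE R F Ω A B := by
  intro K hK hKc
  obtain ⟨C, c, hc, hcc⟩ := h.cc K hK hKc
  refine ⟨C, c, hc, fun ε hε Y => ?_⟩
  obtain ⟨ρ2, hρ2, hab⟩ := h.ab K hK hKc
  obtain ⟨ρ3, hρ3, hcc⟩ := hcc (ε / 8) (by positivity) Y
  set ρ : ℝ := min ρ2 ρ3 / 2 with hρ
  have hm : 0 < min ρ2 ρ3 := lt_min hρ2 hρ3
  have hρ0 : 0 < ρ := by rw [hρ]; positivity
  have hρm : ρ < min ρ2 ρ3 := by rw [hρ]; linarith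
  have l2 : ρ < ρ2 := hρm.trans_le (min_le_left _ _)
  have l3 : ρ < ρ3 := hρm.trans_le (min_le_right _ _)
  filter_upwards [h.ee K hK hKc (ε * ρ / 8) (by positivity), hab ρ hρ0 l2 (ε * ρ / 8) (by positivity),
    hcc ρ hρ0 l3, hR.eventually_gt_atTop 0, hR.eventually_gt_atTop (2 / ρ)] with j h3 h4 h5 h6 h7
  set n : ℕ := ⌊ρ * R j⌋₊ with hn
  have hρR : 2 < ρ * R j := by rw [div_lt_iff₀ hρ0] at h7; linarith
  have hnlt := Nat.lt_floor_add_one (ρ * R j)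
  rw [← hn] at hnlt
  have hn2 : ρ * R j / 2 ≤ n := by linarith
  have hn0 : (0 : ℝ) < n := by linarith
  obtain ⟨G, hG, h5⟩ := h5
  refine ⟨G, hG, fun t ht u v eu ev hu hv => ?_⟩
  have k1 := h4 t ht u v eu ev hu hv
  have k2 := h3 u v eu ev hu hv
  have k3 := h5 t ht u v eu ev hu hv
  set S : ℂ := G (pt t) * (A j u - A j v) + G (pt t + (Real.pi / 2 : ℝ)) * (B j u - B j v) with hS
  have k4 : ‖(n : ℂ) * S‖ ≤ ε * ρ / 2 := by
    have e0 : (n : ℂ) * S = (V j (rap n t) u - V j (rap n t) v) - (e j u - e j v) -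
        ((V j (rap n t) u - V j (rap n t) v) - (e j u - e j v) - (n : ℂ) * S) := by ring
    rw [e0]
    have a1 := norm_sub_le ((V j (rap n t) u - V j (rap n t) v) - (e j u - e j v))
      ((V j (rap n t) u - V j (rap n t) v) - (e j u - e j v) - (n : ℂ) * S)
    have a2 := norm_sub_le (V j (rap n t) u - V j (rap n t) v) (e j u - e j v)
    have : ε / 8 * ρ = ε * ρ / 8 := by ring
    rw [this] at k3
    have hp : 0 < ε * ρ := by positivity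
    linarith
  rw [norm_mul, Complex.norm_natCast] at k4
  rw [le_div_iff₀ h6]
  have h8 : ρ * R j / 2 * ‖S‖ ≤ ε * ρ / 2 := (mul_le_mul_of_nonneg_right hn2 (norm_nonneg _)).trans k4
  have h9 : ρ * (‖S‖ * R j) ≤ ρ * ε := by linarith
  exact le_of_mul_le_mul_left h9 hρ0

lemma pt_mem {t Y : ℝ} (ht : |t| ≤ 1) (hY : 2 ≤ Y) : pt t ∈ UY Y ∧ pt t + (Real.pi / 2 : ℝ) ∈ UY Y := by
  have hpi := Real.pi_pos
  have e1 : (pt t).re = Real.pi / 4 := by simp [Pool.Agent.H25.Q1.Close.pt]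
  have e2 : (pt t).im = t := by simp [Pool.Agent.H25.Q1.Close.pt]
  have e3 : (pt t + (Real.pi / 2 : ℝ)).re = Real.pi / 4 + Real.pi / 2 := by
    rw [Complex.add_re, e1, Complex.ofReal_re]
  have e4 : (pt t + (Real.pi / 2 : ℝ)).im = t := by
    rw [Complex.add_im, e2, Complex.ofReal_im, add_zero]
  refine ⟨⟨?_, ?_⟩, ⟨?_, ?_⟩⟩
  · simp only [U, Set.mem_ofPred_eq, e1]
    constructor <;> linarith
  · rw [e2]; linarith
  · simp only [U, Set.mem_ofPred_eq, e3]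
    constructor <;> linarith
  · rw [e4]; linarith

/-- bound of the response function on the two lines -/
lemma G_le {C c Y t : ℝ} {G : ℂ → ℂ} (hG : GHyp C c Y G) (hY : 2 ≤ Y) (ht : |t| ≤ 1) :
    ‖G (pt t)‖ ≤ 3 * (|C| + 1) ∧ ‖G (pt t + (Real.pi / 2 : ℝ))‖ ≤ 3 * (|C| + 1) := by
  obtain ⟨m1, m2⟩ := pt_mem ht hY
  have hexp : Real.exp t ≤ 3 := by
    have : t ≤ 1 := (abs_le.1 ht).2
    exact (Real.exp_le_exp.2 this).trans (by linarith [Real.exp_one_lt_d9])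
  have hb : ∀ z : ℂ, z ∈ UY Y → z.im = t → ‖G z‖ ≤ 3 * (|C| + 1) := by
    intro z hz hzt
    refine (hG.bound z hz).trans ?_
    rw [hzt]
    have : C * Real.exp t ≤ (|C| + 1) * Real.exp t :=
      mul_le_mul_of_nonneg_right ((le_abs_self C).trans (by linarith)) (Real.exp_pos _).le
    have hC : 0 ≤ |C| := abs_nonneg C
    nlinarith [Real.exp_pos t]
  exact ⟨hb _ m1 (by simp [Pool.Agent.H25.Q1.Close.pt]), hb _ m2 (by simp [Pool.Agent.H25.Q1.Close.pt])⟩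

lemma GHyp.restr {C c Y Y' : ℝ} {G : ℂ → ℂ} (hG : GHyp C c Y' G) (hY : Y ≤ Y') : GHyp C c Y G := by
  have hsub : UY Y ⊆ UY Y' := fun z hz => ⟨hz.1, hz.2.trans_le hY⟩
  exact ⟨hG.diff.mono hsub, fun z hz => hG.bound z (hsub hz), fun z hz => hG.sym z (hsub hz), hG.lower⟩

/-- **From the even rows to all rows.** -/
theorem RelE.rel (hR : Tendsto R F atTop) (hΩ : IsOpen Ω) (h : RelE R F Ω A B) (hA : Adj R F Ω A)
    (hB : Adj R F Ω B) : Rel R F Ω A B := by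
  intro K hK hKc
  obtain ⟨s, hs, hsub⟩ := hKc.exists_cthickening_subset_open hΩ hK
  have hK'c : IsCompact (Metric.cthickening s K) := hKc.cthickening
  obtain ⟨C, c, hc, hr⟩ := h _ hsub hK'c
  refine ⟨C, c, hc, fun ε hε Y => ?_⟩
  have hC1 : 0 < |C| + 1 := by positivity
  filter_upwards [hr (ε / 2) (by positivity) (max Y 2), hA K hK hKc (ε / (24 * (|C| + 1))) (by positivity),
    hB K hK hKc (ε / (24 * (|C| + 1))) (by positivity), hR.eventually_gt_atTop 0,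
    hR.eventually_gt_atTop (1 / s)] with j h1 h2 h3 h4 h5
  obtain ⟨G, hG, hrel⟩ := h1
  refine ⟨G, GHyp.restr hG (le_max_left _ _), fun t ht u v hu hv => ?_⟩
  obtain ⟨b1, b2⟩ := G_le hG (le_max_right Y 2) ht
  -- the neighbours in the even rows
  have nb : ∀ v : ℤ × ℤ, lat v / (R j : ℂ) ∈ K → ∃ v' : ℤ × ℤ, Ev v' ∧
      lat v' / (R j : ℂ) ∈ Metric.cthickening s K ∧ ‖A j v - A j v'‖ ≤ ε / (24 * (|C| + 1)) / R j ∧
      ‖B j v - B j v'‖ ≤ ε / (24 * (|C| + 1)) / R j := by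
    intro v hv
    rcases Int.emod_two_eq_zero_or_one v.2 with h0 | h0
    · refine ⟨v, h0, Metric.self_subset_cthickening _ hv, ?_, ?_⟩ <;>
      · rw [sub_self, norm_zero]; positivity
    · refine ⟨v - uu, ?_, ?_, h2 v hv, h3 v hv⟩
      · unfold Ev uu
        simp only [Prod.snd_sub]
        omega
      · refine Metric.mem_cthickening_of_dist_le _ _ s _ hv ?_
        have e1 : lat (v - uu) / (R j : ℂ) - lat v / (R j : ℂ) = -(Complex.I / (R j : ℂ)) := by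
          have : lat (v - uu) = lat v - Complex.I := by
            apply Complex.ext <;> simp [lat, uu]
          rw [this]; ring
        rw [dist_eq_norm, e1, norm_neg, norm_div, Complex.norm_I, Complex.norm_real,
          Real.norm_of_nonneg h4.le]
        rw [div_lt_iff₀ hs] at h5
        rw [div_le_iff₀ h4]
        linarith
  obtain ⟨u', eu, hu', a1, a2⟩ := nb u hu
  obtain ⟨v', ev, hv', a3, a4⟩ := nb v hv
  have k0 := hrel t ht u' v' eu ev hu' hv'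
  have e0 : G (pt t) * (A j u - A j v) + G (pt t + (Real.pi / 2 : ℝ)) * (B j u - B j v) =
      (G (pt t) * (A j u' - A j v') + G (pt t + (Real.pi / 2 : ℝ)) * (B j u' - B j v')) +
      (G (pt t) * (A j u - A j u') - G (pt t) * (A j v - A j v') +
      (G (pt t + (Real.pi / 2 : ℝ)) * (B j u - B j u') -
        G (pt t + (Real.pi / 2 : ℝ)) * (B j v - B j v'))) := by ring
  rw [e0]
  have m : ∀ g d : ℂ, ‖g‖ ≤ 3 * (|C| + 1) → ‖d‖ ≤ ε / (24 * (|C| + 1)) / R j → ‖g * d‖ ≤ ε / 8 / R j := by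
    intro g d h1 h2
    rw [norm_mul]
    refine (mul_le_mul h1 h2 (norm_nonneg _) (by positivity)).trans (le_of_eq ?_)
    field_simp
    ring
  have m1 := m _ _ b1 a1
  have m2 := m _ _ b2 a2
  have m3 := m _ _ b1 a3
  have m4 := m _ _ b2 a4
  have n0 := norm_add_le (G (pt t) * (A j u' - A j v') +
    G (pt t + (Real.pi / 2 : ℝ)) * (B j u' - B j v'))
    (G (pt t) * (A j u - A j u') - G (pt t) * (A j v - A j v') +
      (G (pt t + (Real.pi / 2 : ℝ)) * (B j u - B j u') -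
        G (pt t + (Real.pi / 2 : ℝ)) * (B j v - B j v')))
  have n1 := norm_add_le (G (pt t) * (A j u - A j u') - G (pt t) * (A j v - A j v'))
    (G (pt t + (Real.pi / 2 : ℝ)) * (B j u - B j u') - G (pt t + (Real.pi / 2 : ℝ)) * (B j v - B j v'))
  have n2 := norm_sub_le (G (pt t) * (A j u - A j u')) (G (pt t) * (A j v - A j v'))
  have n3 := norm_sub_le (G (pt t + (Real.pi / 2 : ℝ)) * (B j u - B j u'))
    (G (pt t + (Real.pi / 2 : ℝ)) * (B j v - B j v'))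
  have n4 : ε / 2 / R j + (ε / 8 / R j + ε / 8 / R j + (ε / 8 / R j + ε / 8 / R j)) = ε / R j := by ring
  linarith

theorem TrackIn.rel (hR : Tendsto R F atTop) (hΩ : IsOpen Ω) (h : TrackIn R F Ω V e A B) :
    Rel R F Ω A B :=
  (h.relE hR).rel hR hΩ h.adA h.adB

end Pool.Agent.Q1.M6f.Glue
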