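import Mathlib
import Pool.Agent.Q1.M6f.GlueRel

set_option autoImplicit false
open MeasureTheory Set Filter Topology

/-! Module M6, chapter E, glue: the complete input (two kinds of tracks) and holomorphy of the limit. -/

namespace Pool.Agent.Q1.M6f.Glue

open Pool.Agent.Q1.M4 Pool.Agent.H25.Q1.Close Pool.Agent.Q1.M6f

/-- Two sequences of functions agree up to constants and `o (1 / R)`. -/
def Agree (R : ℕ → ℝ) (F : Filter ℕ) (Ω : Set ℂ) (A A' : ℕ → ℤ × ℤ → ℂ) : Prop :=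
  ∀ K ⊆ Ω, IsCompact K → ∀ ε > 0, ∀ᶠ j in F, ∀ u v : ℤ × ℤ, lat u / (R j : ℂ) ∈ K →
    lat v / (R j : ℂ) ∈ K → ‖(A' j u - A' j v) - (A j u - A j v)‖ ≤ ε / R j

variable {R : ℕ → ℝ} {F : Filter ℕ} {Ω : Set ℂ} {A B A' B' : ℕ → ℤ × ℤ → ℂ}

lemma Agree.conj (h : Agree R F Ω A A') :
    Agree R F Ω (fun j v => (starRingEnd ℂ) (A j v)) (fun j v => (starRingEnd ℂ) (A' j v)) := by
  intro K hK hKc ε hε
  filter_upwards [h K hK hKc ε hε] with j hj u v hu hv
  have e : (starRingEnd ℂ) (A' j u) - (starRingEnd ℂ) (A' j v) - ((starRingEnd ℂ) (A j u) -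
      (starRingEnd ℂ) (A j v)) = (starRingEnd ℂ) ((A' j u - A' j v) - (A j u - A j v)) := by
    simp only [map_sub]
  show ‖(starRingEnd ℂ) (A' j u) - (starRingEnd ℂ) (A' j v) - ((starRingEnd ℂ) (A j u) -
      (starRingEnd ℂ) (A j v))‖ ≤ _
  rw [e, Complex.norm_conj]
  exact hj u v hu hv

lemma Agree.refl (hR : Tendsto R F atTop) : Agree R F Ω A A := by
  intro K _ _ ε hε
  filter_upwards [hR.eventually_gt_atTop 0] with j hj u v _ _
  rw [sub_self, norm_zero]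
  positivity

/-- The relation is stable under errors `o (1 / R)`. -/
theorem Rel.congr (hR : Tendsto R F atTop) (h : Rel R F Ω A' B') (hA : Agree R F Ω A A')
    (hB : Agree R F Ω B B') : Rel R F Ω A B := by
  intro K hK hKc
  obtain ⟨C, c, hc, hr⟩ := h K hK hKc
  refine ⟨C, c, hc, fun ε hε Y => ?_⟩
  have hC1 : 0 < |C| + 1 := by positivity
  filter_upwards [hr (ε / 2) (by positivity) (max Y 2), hA K hK hKc (ε / (12 * (|C| + 1))) (by positivity),
    hB K hK hKc (ε / (12 * (|C| + 1))) (by positivity), hR.eventually_gt_atTop 0] with j h1 h2 h3 h4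
  obtain ⟨G, hG, hrel⟩ := h1
  refine ⟨G, GHyp.restr hG (le_max_left _ _), fun t ht u v hu hv => ?_⟩
  obtain ⟨b1, b2⟩ := G_le hG (le_max_right Y 2) ht
  have k0 := hrel t ht u v hu hv
  have k1 := h2 u v hu hv
  have k2 := h3 u v hu hv
  have e : G (pt t) * (A j u - A j v) + G (pt t + (Real.pi / 2 : ℝ)) * (B j u - B j v) =
      (G (pt t) * (A' j u - A' j v) + G (pt t + (Real.pi / 2 : ℝ)) * (B' j u - B' j v)) -
      G (pt t) * ((A' j u - A' j v) - (A j u - A j v)) -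
      G (pt t + (Real.pi / 2 : ℝ)) * ((B' j u - B' j v) - (B j u - B j v)) := by ring
  rw [e]
  refine (norm_sub_le _ _).trans ?_
  have n1 := norm_sub_le (G (pt t) * (A' j u - A' j v) + G (pt t + (Real.pi / 2 : ℝ)) * (B' j u - B' j v))
    (G (pt t) * ((A' j u - A' j v) - (A j u - A j v)))
  have n2 : ‖G (pt t) * ((A' j u - A' j v) - (A j u - A j v))‖ ≤ ε / 4 / R j := by
    rw [norm_mul]
    refine (mul_le_mul b1 k1 (norm_nonneg _) (by positivity)).trans (le_of_eq ?_)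
    field_simp
    ring
  have n3 : ‖G (pt t + (Real.pi / 2 : ℝ)) * ((B' j u - B' j v) - (B j u - B j v))‖ ≤ ε / 4 / R j := by
    rw [norm_mul]
    refine (mul_le_mul b2 k2 (norm_nonneg _) (by positivity)).trans (le_of_eq ?_)
    field_simp
    ring
  have n4 : ε / 2 / R j + ε / 4 / R j + ε / 4 / R j = ε / R j := by ring
  linarith

/-- **The complete input for one environment**: two kinds of tracks. All functions are normalised by
`R ^ (-2/3)`. `f` = the observable of the natural polygon (only its limit matters), `e`, `ff`, `fl` (resp.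
`e'`, `ff'`, `fr`) = the functions of the NW-SE (resp. mirrored) track, see `al`, `be`, `be'`. -/
structure Tracks (R : ℕ → ℝ) (F : Filter ℕ) (Ω : Set ℂ) (f e ff fl e' ff' fr : ℕ → ℤ × ℤ → ℂ)
    (V V' : ℕ → ℂ → ℤ × ℤ → ℂ) : Prop where
  cff : ∀ K ⊆ Ω, IsCompact K → ∀ τ > 0, ∀ᶠ j in F, Cls {v | lat v / (R j : ℂ) ∈ K} τ (f j) (ff j)
  cfl : ∀ K ⊆ Ω, IsCompact K → ∀ τ > 0, ∀ᶠ j in F, Cls {v | lat v / (R j : ℂ) ∈ K} τ (f j) (fl j)
  cff' : ∀ K ⊆ Ω, IsCompact K → ∀ τ > 0, ∀ᶠ j in F, Cls {v | lat v / (R j : ℂ) ∈ K} τ (f j) (ff' j)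
  cfr : ∀ K ⊆ Ω, IsCompact K → ∀ τ > 0, ∀ᶠ j in F, Cls {v | lat v / (R j : ℂ) ∈ K} τ (f j) (fr j)
  ee : Agree R F Ω e e'
  t : TrackIn R F Ω V e (fun j => al (e j) (ff j)) (fun j => be (e j) (fl j))
  t' : TrackIn R F Ω V' (fun j v => (starRingEnd ℂ) (e' j v))
    (fun j v => (starRingEnd ℂ) (al (e' j) (ff' j) v))
    (fun j v => (starRingEnd ℂ) (be' (e' j) (fr j) v))

lemma agree_al {e e' ff : ℕ → ℤ × ℤ → ℂ} (h : Agree R F Ω e e') :
    Agree R F Ω (fun j => al (e j) (ff j)) (fun j => al (e' j) (ff j)) := by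
  intro K hK hKc ε hε
  filter_upwards [h K hK hKc ε hε] with j hj u v hu hv
  have e0 : al (e' j) (ff j) u - al (e' j) (ff j) v - (al (e j) (ff j) u - al (e j) (ff j) v) =
      -((e' j u - e' j v) - (e j u - e j v)) := by unfold al; ring
  show ‖al (e' j) (ff j) u - al (e' j) (ff j) v - (al (e j) (ff j) u - al (e j) (ff j) v)‖ ≤ _
  rw [e0, norm_neg]
  exact hj u v hu hv

lemma agree_be' {e e' fr : ℕ → ℤ × ℤ → ℂ} (h : Agree R F Ω e e') :
    Agree R F Ω (fun j => be' (e j) (fr j)) (fun j => be' (e' j) (fr j)) := by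
  intro K hK hKc ε hε
  filter_upwards [h K hK hKc ε hε] with j hj u v hu hv
  have e0 : be' (e' j) (fr j) u - be' (e' j) (fr j) v - (be' (e j) (fr j) u - be' (e j) (fr j) v) =
      -((e' j u - e' j v) - (e j u - e j v)) := by unfold be'; ring
  show ‖be' (e' j) (fr j) u - be' (e' j) (fr j) v - (be' (e j) (fr j) u - be' (e j) (fr j) v)‖ ≤ _
  rw [e0, norm_neg]
  exact hj u v hu hv

variable {f e ff fl e' ff' fr : ℕ → ℤ × ℤ → ℂ} {V V' : ℕ → ℂ → ℤ × ℤ → ℂ}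

lemma Agree.mono {F' : Filter ℕ} (hF : F' ≤ F) (h : Agree R F Ω A A') : Agree R F' Ω A A' :=
  fun K hK hKc ε hε => hF (h K hK hKc ε hε)

lemma Adj.mono {F' : Filter ℕ} (hF : F' ≤ F) (h : Adj R F Ω A) : Adj R F' Ω A :=
  fun K hK hKc ε hε => hF (h K hK hKc ε hε)

theorem TrackIn.mono {F' : Filter ℕ} (hF : F' ≤ F) (h : TrackIn R F Ω V e A B) :
    TrackIn R F' Ω V e A B where
  ee := fun K hK hKc ε hε => hF (h.ee K hK hKc ε hε)
  ab := fun K hK hKc => by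
    obtain ⟨ρ1, h1, h2⟩ := h.ab K hK hKc
    exact ⟨ρ1, h1, fun ρ a b ε hε => hF (h2 ρ a b ε hε)⟩
  cc := fun K hK hKc => by
    obtain ⟨C, c, hc, h0⟩ := h.cc K hK hKc
    refine ⟨C, c, hc, fun ε hε Y => ?_⟩
    obtain ⟨ρ1, h1, h2⟩ := h0 ε hε Y
    exact ⟨ρ1, h1, fun ρ a b => hF (h2 ρ a b)⟩
  adA := h.adA.mono hF
  adB := h.adB.mono hF

theorem Tracks.mono {F' : Filter ℕ} (hF : F' ≤ F) (h : Tracks R F Ω f e ff fl e' ff' fr V V') :
    Tracks R F' Ω f e ff fl e' ff' fr V V' where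
  cff := fun K hK hKc τ hτ => hF (h.cff K hK hKc τ hτ)
  cfl := fun K hK hKc τ hτ => hF (h.cfl K hK hKc τ hτ)
  cff' := fun K hK hKc τ hτ => hF (h.cff' K hK hKc τ hτ)
  cfr := fun K hK hKc τ hτ => hF (h.cfr K hK hKc τ hτ)
  ee := h.ee.mono hF
  t := h.t.mono hF
  t' := h.t'.mono hF

theorem Tracks.glueIn (hR : Tendsto R F atTop) (hΩ : IsOpen Ω)
    (h : Tracks R F Ω f e ff fl e' ff' fr V V') : GlueIn R F Ω f e ff fl ff' fr where
  cff := h.cff
  cfl := h.cfl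
  cff' := h.cff'
  cfr := h.cfr
  rel := h.t.rel hR hΩ
  rel' := by
    have h1 : Rel R F Ω (fun j v => (starRingEnd ℂ) (al (e' j) (ff' j) v))
      (fun j v => (starRingEnd ℂ) (be' (e' j) (fr j) v)) := h.t'.rel hR hΩ
    exact h1.congr hR (agree_al h.ee).conj (agree_be' h.ee).conj

/-- **From the two kinds of tracks to translation invariance.** -/
theorem Tracks.ti {U : Ultrafilter ℕ} (hR : Tendsto R atTop atTop) (hU : (U : Filter ℕ) ≤ atTop)
    (h : Tracks R U Ω f e ff fl e' ff' fr V V') (hΩ : IsOpen Ω) {g : ℂ → ℂ}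
    (hlim : ILim R U f Ω g) (hg : ContinuousOn g Ω) : TI Ω g :=
  (h.glueIn (hR.mono_left hU) hΩ).ti hR hU hΩ hlim hg

end Pool.Agent.Q1.M6f.Glue
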