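import Mathlib
import Pool.Agent.H83.Lo.Montel

set_option autoImplicit false

/-! Module M6, chapters B/E: normal families. Analytic functions `V j v` on a connected domain which contains
`0`, locally uniformly bounded, whose Taylor coefficients at `0` tend to `0`, tend to `0` locally
uniformly, everything uniformly in the index `v ∈ S j`. -/

open Set Filter Topology

namespace Pool.Agent.Q1.M6f

/-- An analytic function on a connected domain with vanishing derivatives at one point vanishes. -/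
lemma eqOn_zero_of_iteratedDeriv {Δ : Set ℂ} (hΔ : IsOpen Δ) (hc : IsPreconnected Δ) {z0 : ℂ}
    (h0 : z0 ∈ Δ) {g : ℂ → ℂ} (hg : DifferentiableOn ℂ g Δ) (hd : ∀ m, iteratedDeriv m g z0 = 0) :
    ∀ z ∈ Δ, g z = 0 := by
  have ha : AnalyticOnNhd ℂ g Δ := hg.analyticOnNhd hΔ
  have h1 : g =ᶠ[𝓝 z0] 0 := by
    obtain ⟨r, hr, hsub⟩ := Metric.isOpen_iff.1 hΔ z0 h0
    filter_upwards [Metric.ball_mem_nhds z0 hr] with z hz
    have h2 := Complex.hasSum_taylorSeries_on_ball (hg.mono hsub) hz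
    have h3 : (fun n : ℕ => ((n.factorial : ℂ))⁻¹ • (z - z0) ^ n • iteratedDeriv n g z0) =
        fun _ => 0 := by
      funext n
      rw [hd n, smul_zero, smul_zero]
    rw [h3] at h2
    exact h2.unique hasSum_zero
  exact ha.eqOn_zero_of_preconnected_of_eventuallyEq_zero hc h0 h1

/-- Limits along an ultrafilter of locally bounded analytic functions. -/
lemma exists_lim_loc (U : Ultrafilter ℕ) {Δ : Set ℂ} (hΔ : IsOpen Δ) {F : ℕ → ℂ → ℂ}
    (hd : ∀ᶠ j in (U : Filter ℕ), DifferentiableOn ℂ (F j) Δ)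
    (hb : ∀ K ⊆ Δ, IsCompact K → ∃ M : ℝ, ∀ᶠ j in (U : Filter ℕ), ∀ z ∈ K, ‖F j z‖ ≤ M) :
    ∃ g : ℂ → ℂ, DifferentiableOn ℂ g Δ ∧ TendstoLocallyUniformlyOn F g U Δ := by
  classical
  have hex : ∀ z : ℂ, ∃ a : ℂ, z ∈ Δ → Tendsto (fun n => F n z) U (𝓝 a) := by
    intro z
    by_cases hz : z ∈ Δ
    · obtain ⟨M, hM⟩ := hb {z} (singleton_subset_iff.2 hz) isCompact_singleton
      have hK : IsCompact (Metric.closedBall (0 : ℂ) M) := isCompact_closedBall _ _
      have h2 : (U.map (fun n => F n z) : Filter ℂ) ≤ 𝓟 (Metric.closedBall (0 : ℂ) M) := by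
        rw [le_principal_iff]
        change ∀ᶠ n in (U : Filter ℕ), F n z ∈ Metric.closedBall (0 : ℂ) M
        filter_upwards [hM] with n hn
        rw [mem_closedBall_zero_iff]; exact hn z rfl
      obtain ⟨a, _, ha2⟩ := hK.ultrafilter_le_nhds _ h2
      exact ⟨a, fun _ => ha2⟩
    · exact ⟨0, fun h => absurd h hz⟩
  choose g hg using hex
  -- local statement
  have hloc : ∀ x ∈ Δ, ∃ r > 0, Metric.ball x r ⊆ Δ ∧ DifferentiableOn ℂ g (Metric.ball x r) ∧
      TendstoLocallyUniformlyOn F g U (Metric.ball x r) := by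
    intro x hx
    obtain ⟨r0, hr0, hsub⟩ := Metric.isOpen_iff.1 hΔ x hx
    have hcl : Metric.closedBall x (r0 / 2) ⊆ Δ :=
      (Metric.closedBall_subset_ball (by linarith)).trans hsub
    obtain ⟨M, hM⟩ := hb _ hcl (isCompact_closedBall _ _)
    have hbsub : Metric.ball x (r0 / 2) ⊆ Δ := Metric.ball_subset_closedBall.trans hcl
    set P : ℕ → Prop := fun j => DifferentiableOn ℂ (F j) Δ ∧
      ∀ z ∈ Metric.closedBall x (r0 / 2), ‖F j z‖ ≤ M with hP
    have hPe : ∀ᶠ j in (U : Filter ℕ), P j := by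
      filter_upwards [hd, hM] with j h1 h2
      exact ⟨h1, h2⟩
    set F' : ℕ → ℂ → ℂ := fun j => if P j then F j else fun _ => 0 with hF'
    have hM0 : ∀ n, ∀ z ∈ Metric.ball x (r0 / 2), ‖F' n z‖ ≤ max M 0 := by
      intro n z hz
      by_cases hn : P n
      · simp only [hF', if_pos hn]
        exact (hn.2 z (Metric.ball_subset_closedBall hz)).trans (le_max_left _ _)
      · simp only [hF', if_neg hn, norm_zero]; exact le_max_right _ _
    have hd' : ∀ n, DifferentiableOn ℂ (F' n) (Metric.ball x (r0 / 2)) := by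
      intro n
      by_cases hn : P n
      · simp only [hF', if_pos hn]; exact hn.1.mono hbsub
      · simp only [hF', if_neg hn]; exact differentiableOn_const _
    obtain ⟨g', h1, h2, _⟩ := Pool.Agent.H83.Lo.montel U Metric.isOpen_ball hd' hM0
    have heq : ∀ w ∈ Metric.ball x (r0 / 2), g' w = g w := by
      intro w hw
      refine tendsto_nhds_unique (h1.tendsto_at hw) ((hg w (hbsub hw)).congr' ?_)
      filter_upwards [hPe] with j hj
      simp only [hF', if_pos hj]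
    refine ⟨r0 / 2, by positivity, hbsub, h2.congr fun w hw => (heq w hw).symm, ?_⟩
    have h3 : TendstoLocallyUniformlyOn F' g U (Metric.ball x (r0 / 2)) :=
      h1.congr_right fun w hw => heq w hw
    rw [Metric.tendstoLocallyUniformlyOn_iff] at h3 ⊢
    intro ε hε w hw
    obtain ⟨t, ht, h4⟩ := h3 ε hε w hw
    refine ⟨t, ht, ?_⟩
    filter_upwards [h4, hPe] with j h5 hj
    have e : F' j = F j := by simp only [hF', if_pos hj]
    rw [e] at h5
    exact h5
  refine ⟨g, ?_, ?_⟩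
  · intro x hx
    obtain ⟨r, hr, _, h1, _⟩ := hloc x hx
    exact (h1.differentiableAt (Metric.ball_mem_nhds x hr)).differentiableWithinAt
  · rw [Metric.tendstoLocallyUniformlyOn_iff]
    intro ε hε x hx
    obtain ⟨r, hr, hsub, _, h2⟩ := hloc x hx
    rw [Metric.tendstoLocallyUniformlyOn_iff] at h2
    obtain ⟨t, ht, h4⟩ := h2 ε hε x (Metric.mem_ball_self hr)
    refine ⟨t, ?_, h4⟩
    rw [nhdsWithin_eq_nhds.2 (Metric.ball_mem_nhds x hr)] at ht
    exact mem_nhdsWithin_of_mem_nhds ht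

/-- **Vitali theorem with vanishing Taylor coefficients**, uniformly in `v ∈ S j`. -/
theorem vitali_zero {Δ : Set ℂ} (hΔ : IsOpen Δ) (hc : IsPreconnected Δ) {z0 : ℂ} (h0 : z0 ∈ Δ)
    {ι : Type*} {S : ℕ → Set ι} {V : ℕ → ι → ℂ → ℂ}
    (hd : ∀ᶠ j in atTop, ∀ v ∈ S j, DifferentiableOn ℂ (V j v) Δ)
    (hb : ∀ K ⊆ Δ, IsCompact K → ∃ M : ℝ, ∀ᶠ j in atTop, ∀ v ∈ S j, ∀ z ∈ K, ‖V j v z‖ ≤ M)
    (ht : ∀ m : ℕ, ∀ ε > 0, ∀ᶠ j in atTop, ∀ v ∈ S j, ‖iteratedDeriv m (V j v) z0‖ ≤ ε)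
    {K : Set ℂ} (hK : K ⊆ Δ) (hKc : IsCompact K) {ε : ℝ} (hε : 0 < ε) :
    ∀ᶠ j in atTop, ∀ v ∈ S j, ∀ z ∈ K, ‖V j v z‖ ≤ ε := by
  classical
  by_contra hcon
  set Bad : Set ℕ := {j | ∃ v ∈ S j, ∃ z ∈ K, ε < ‖V j v z‖} with hBad
  have hfreq : ∃ᶠ j in atTop, j ∈ Bad := by
    intro h
    apply hcon
    filter_upwards [h] with j hj v hv z hz
    by_contra h'
    exact hj ⟨v, hv, z, hz, not_le.1 h'⟩
  -- an ultrafilter of bad indices
  have hne : (atTop ⊓ 𝓟 Bad : Filter ℕ).NeBot := by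
    rw [frequently_iff_neBot] at hfreq
    exact hfreq
  set U : Ultrafilter ℕ := Ultrafilter.of (atTop ⊓ 𝓟 Bad) with hU
  have hU1 : (U : Filter ℕ) ≤ atTop := (Ultrafilter.of_le _).trans inf_le_left
  have hU2 : ∀ᶠ j in (U : Filter ℕ), j ∈ Bad :=
    ((Ultrafilter.of_le _).trans inf_le_right) (mem_principal_self _)
  have hbad0 : ∃ j, j ∈ Bad := hU2.exists
  obtain ⟨j0, hj0⟩ := hbad0
  obtain ⟨v0, -, w0, -, -⟩ := hj0
  have hsel : ∀ j : ℕ, ∃ p : ι × ℂ, j ∈ Bad → p.1 ∈ S j ∧ p.2 ∈ K ∧ ε < ‖V j p.1 p.2‖ := by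
    intro j
    by_cases hj : j ∈ Bad
    · obtain ⟨v, hv, z, hz, h⟩ := hj
      exact ⟨(v, z), fun _ => ⟨hv, hz, h⟩⟩
    · exact ⟨(v0, w0), fun h => absurd h hj⟩
  choose p hp using hsel
  set F : ℕ → ℂ → ℂ := fun j => V j (p j).1 with hF
  have hp' : ∀ᶠ j in (U : Filter ℕ), (p j).1 ∈ S j ∧ (p j).2 ∈ K ∧ ε < ‖F j (p j).2‖ :=
    hU2.mono fun j hj => hp j hj
  have hFd : ∀ᶠ j in (U : Filter ℕ), DifferentiableOn ℂ (F j) Δ := by
    filter_upwards [hU1 hd, hp'] with j h1 h2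
    exact h1 _ h2.1
  obtain ⟨g, hg, hlim⟩ := exists_lim_loc U hΔ hFd (by
    intro K' hK' hK'c
    obtain ⟨M, hM⟩ := hb K' hK' hK'c
    refine ⟨M, ?_⟩
    filter_upwards [hU1 hM, hp'] with j h1 h2
    exact h1 _ h2.1)
  -- derivatives of the limit
  have hder : ∀ m : ℕ, TendstoLocallyUniformlyOn (fun j => iteratedDeriv m (F j))
      (iteratedDeriv m g) U Δ ∧ ∀ᶠ j in (U : Filter ℕ), DifferentiableOn ℂ (iteratedDeriv m (F j)) Δ := by
    intro m
    induction m with
    | zero => 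
      simp only [iteratedDeriv_zero]
      exact ⟨hlim, hFd⟩
    | succ m ih =>
      simp only [iteratedDeriv_succ]
      refine ⟨?_, ?_⟩
      · have := TendstoLocallyUniformlyOn.deriv ih.1 ih.2 hΔ
        exact this
      · filter_upwards [ih.2] with j hj
        exact hj.deriv hΔ
  have hg0 : ∀ m, iteratedDeriv m g z0 = 0 := by
    intro m
    have h1 : Tendsto (fun j => iteratedDeriv m (F j) z0) U (𝓝 (iteratedDeriv m g z0)) :=
      (hder m).1.tendsto_at h0
    have h2 : Tendsto (fun j => iteratedDeriv m (F j) z0) U (𝓝 0) := by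
      rw [Metric.tendsto_nhds]
      intro η hη
      filter_upwards [hU1 (ht m (η / 2) (by positivity)), hp'] with j h3 h4
      rw [dist_zero_right]
      exact (h3 _ h4.1).trans_lt (by linarith)
    exact tendsto_nhds_unique h1 h2
  have hgz := eqOn_zero_of_iteratedDeriv hΔ hc h0 hg hg0
  -- uniform convergence on `K`
  have hunif : TendstoUniformlyOn F g U K :=
    (tendstoLocallyUniformlyOn_iff_forall_isCompact hΔ).1 hlim K hK hKc
  rw [Metric.tendstoUniformlyOn_iff] at hunif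
  have hfin : ∀ᶠ j in (U : Filter ℕ), False := by
    filter_upwards [hunif ε hε, hp'] with j h1 h2
    have h3 := h1 _ h2.2.1
    rw [hgz _ (hK h2.2.1), dist_zero_left] at h3
    exact absurd h3 (not_lt.2 h2.2.2.le)
  exact hfin.exists.elim fun _ h => h

end Pool.Agent.Q1.M6f
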