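import Mathlib
import Pool.Agent.Q1.M6f.GlueHol
import Pool.Agent.H87.FM.LimCRA

set_option autoImplicit false
open Set Filter Topology

/-! Module M6, chapter E, glue, four marks: the limits of the three normalised primitives are holomorphic.

Input: for each of the three environments the two kinds of tracks (`Tracks`), i.e. the rectangle integral
of the limit is translation invariant (`TI`); at the marks 1, 2, 4 the bounds for the combinations
`H34 - H23`, `H34 - H23 - w H12`, `H23 - H12` (helper44), which kill the constants. -/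

namespace Pool.Agent.Q1.M6f.Glue

open Pool.Agent.Q1 (Env ph)
open Pool.Agent.Q1.M4
open Pool.Agent.H75.Perc (dir dir_cases)
open Pool.Agent.H33.Q1 (TL)
open Pool.Agent.H21.FM (GPrim HoldOK IsLim4 Shape inG nrm bp)
open Pool.Agent.H87.FM (gx gx_mono Rs Rs_top Xs approx_s hd_of)


/-- The limit of the normalised primitives, without holomorphy. -/
structure PreLim (P : PType) (hs : ℕ → ℕ) (Ht : ℕ → ℤ × ℤ → ℂ) (U : Ultrafilter ℕ) (g : ℂ → ℂ) :
    Prop where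
  cont : ContinuousOn g (Reg P.Q gx gx)
  hold : ∃ C > 0, ∃ r > 0, ∀ z ∈ Reg P.Q gx gx, ∀ z' ∈ Reg P.Q gx gx, ‖z - z'‖ ≤ r →
      ‖g z - g z'‖ ≤ C * ‖z - z'‖ ^ (2 / 3 : ℝ)
  lim : ∀ z ∈ Reg P.Q gx gx, ∀ v : ℕ → ℤ × ℤ, (∀ᶠ j in (U : Filter ℕ), inG P (hs j) (v j)) →
    Tendsto (fun j => lat (v j) / (Rs hs j : ℂ)) U (𝓝 z) →
    Tendsto (fun j => nrm P (hs j) (Ht j) (v j)) U (𝓝 (g z))

theorem exists_preLim (P : PType) {K : Env → Prop} (hH : HoldOK P K) {hs : ℕ → ℕ}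
    (hs_top : Tendsto hs atTop atTop) {X : ℕ → Env} {Ht : ℕ → ℤ × ℤ → ℂ}
    (hX : ∀ᶠ j in atTop, K (X j) ∧ (X j).E = TL P.Q (2 * hs j) ∧ GPrim (X j) (Ht j))
    (U : Ultrafilter ℕ) (hU : (U : Filter ℕ) ≤ atTop) : ∃ g : ℂ → ℂ, PreLim P hs Ht U g := by
  classical
  have D := hd_of hH hs_top hX
  have h0 : ∀ z : ℂ, ∃ a, z ∈ Reg P.Q gx gx → IsLim P (Rs hs) (Xs hs) (Xs hs)
      (fun j => nrm P (hs j) (Ht j)) U z a := by
    intro z
    by_cases hz : z ∈ Reg P.Q gx gx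
    · obtain ⟨a, ha⟩ := D.exists_isLim gx_mono gx_mono U hU hz
      exact ⟨a, fun _ => ha⟩
    · exact ⟨0, fun h => absurd h hz⟩
  choose g hg using h0
  obtain ⟨C, hC', r0, hr0, hold⟩ := D.hold_lim gx_mono gx_mono hU hg
  exact ⟨g, continuousOn_of_hold hr0 hold, ⟨C, hC', r0, hr0, hold⟩,
    fun z hz v hv hvz => hg z hz v ⟨hv, hvz⟩⟩

variable {P : PType} {hs : ℕ → ℕ} {Ht : ℕ → ℤ × ℤ → ℂ} {U : Ultrafilter ℕ} {g : ℂ → ℂ}

theorem PreLim.isLim4 (h : PreLim P hs Ht U g) (hd : DifferentiableOn ℂ g (Om P.Q gx gx)) :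
    IsLim4 P hs Ht U g where
  cont := h.cont
  holo := hd
  hold := h.hold
  lim := h.lim

theorem PreLim.ilim (hs_top : Tendsto hs atTop atTop) (hU : (U : Filter ℕ) ≤ atTop)
    (h : PreLim P hs Ht U g) :
    ILim (Rs hs) U (fun j => nrm P (hs j) (Ht j)) (Om P.Q gx gx) g := by
  intro z hz v hv
  refine h.lim z (Om_subset _ _ _ hz) v ?_ hv
  obtain ⟨r, hr, h1⟩ := near_inV gx_mono gx_mono (approx_s hs_top) hz
  filter_upwards [hU h1, near_of_tendsto hv (Metric.mem_ball_self hr)] with j h2 h3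
  exact h2 _ h3

/-- **Translation invariance from the tracks**, for the normalised primitives. -/
theorem PreLim.ti (hs_top : Tendsto hs atTop atTop) (hU : (U : Filter ℕ) ≤ atTop)
    (h : PreLim P hs Ht U g) {e ff fl e' ff' fr : ℕ → ℤ × ℤ → ℂ} {V V' : ℕ → ℂ → ℤ × ℤ → ℂ}
    (hT : Tracks (Rs hs) atTop (Om P.Q gx gx) (fun j => nrm P (hs j) (Ht j)) e ff fl e' ff' fr V V') :
    TI (Om P.Q gx gx) g :=
  (hT.mono hU).ti (Rs_top hs_top) hU (isOpen_Om _ _ _) (h.ilim hs_top hU)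
    (h.cont.mono (Om_subset _ _ _))

/-- **Mark bound** (helper44's form) for the unnormalised combination `G j` at the vertex `n`. -/
def MkBd (P : PType) (hs : ℕ → ℕ) (F : Filter ℕ) (n : ℕ) (G : ℕ → ℤ × ℤ → ℂ) : Prop :=
  ∃ C α δ : ℝ, 1 / 3 < α ∧ 0 < δ ∧ ∀ᶠ j in F, ∀ ρ : ℝ, 1 ≤ ρ → ρ ≤ δ * hs j → ∀ v w : ℤ × ℤ,
    inG P (hs j) v → inG P (hs j) w →
    ‖lat v - lat (lpt (fun i => 2 * (hs j : ℤ) * i) (fun i => 2 * (hs j : ℤ) * i) (P.vert n))‖ ≤ ρ →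
    ‖lat w - lat (lpt (fun i => 2 * (hs j : ℤ) * i) (fun i => 2 * (hs j : ℤ) * i) (P.vert n))‖ ≤ ρ →
    ‖G j v - G j w‖ ≤ C * ρ ^ (2 / 3 : ℝ) * (ρ / hs j) ^ α

/-- Small oscillation near a corner of a cell. -/
theorem oscO_corner {Ω : Set ℂ} {g : ℂ → ℂ} {c p : ℤ × ℤ}
    (hc : ∀ z : ℂ, (c.1 : ℝ) < z.re → z.re < c.1 + 1 → (c.2 : ℝ) < z.im → z.im < c.2 + 1 → z ∈ Ω)
    (hp1 : p.1 = c.1 ∨ p.1 = c.1 + 1) (hp2 : p.2 = c.2 ∨ p.2 = c.2 + 1) {C β δ0 : ℝ} (hβ : 1 < β)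
    (hδ0 : 0 < δ0) (hb : ∀ δ : ℝ, 0 < δ → δ < δ0 → ∀ z ∈ Ω, ∀ z' ∈ Ω, ‖z - lat p‖ ≤ δ →
      ‖z' - lat p‖ ≤ δ → ‖g z - g z'‖ ≤ C * δ ^ β) : OscO Ω g := by
  intro η hη
  set A : ℝ := (|C| + 1) * 4 ^ β with hA
  have hA0 : 0 < A := by positivity
  have hβ1 : 0 < β - 1 := by linarith
  refine ⟨min (min (δ0 / 4) (1 / 3)) ((η / A) ^ (1 / (β - 1))), by positivity, fun δ hδ hδl => ?_⟩
  rw [lt_min_iff, lt_min_iff] at hδl
  obtain ⟨⟨l1, l2⟩, l3⟩ := hδl
  -- the square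
  have pick : ∀ (a b : ℤ), (b = a ∨ b = a + 1) → ∃ x : ℝ, ∀ s : ℝ, s ∈ Icc x (x + δ) →
      (a : ℝ) < s ∧ s < a + 1 ∧ |s - b| ≤ 2 * δ := by
    intro a b hab
    rcases hab with rfl | rfl
    · refine ⟨b + δ, fun s hs => ⟨by linarith [hs.1], by linarith [hs.2], ?_⟩⟩
      rw [abs_le]; constructor <;> linarith [hs.1, hs.2]
    · refine ⟨a + 1 - 2 * δ, fun s hs => ⟨by linarith [hs.1], by linarith [hs.2], ?_⟩⟩
      push_cast
      rw [abs_le]; constructor <;> linarith [hs.1, hs.2]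
  obtain ⟨x, hx⟩ := pick c.1 p.1 hp1
  obtain ⟨y, hy⟩ := pick c.2 p.2 hp2
  have hsq : ∀ z ∈ Icc x (x + δ) ×ℂ Icc y (y + δ), z ∈ Ω ∧ ‖z - lat p‖ ≤ 4 * δ := by
    intro z hz
    rw [Complex.mem_reProdIm] at hz
    obtain ⟨a1, a2, a3⟩ := hx z.re hz.1
    obtain ⟨b1, b2, b3⟩ := hy z.im hz.2
    refine ⟨hc z a1 a2 b1 b2, (Complex.norm_le_abs_re_add_abs_im _).trans ?_⟩
    have e1 : (z - lat p).re = z.re - p.1 := by simp [lat]
    have e2 : (z - lat p).im = z.im - p.2 := by simp [lat]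
    rw [e1, e2]
    linarith
  refine ⟨x, y, fun z hz => (hsq z hz).1, fun z hz z' hz' => ?_⟩
  refine (hb (4 * δ) (by positivity) (by linarith) z (hsq z hz).1 z' (hsq z' hz').1 (hsq z hz).2
    (hsq z' hz').2).trans ?_
  have h1 : C * (4 * δ) ^ β ≤ A * δ ^ β := by
    rw [Real.mul_rpow (by norm_num) hδ.le, hA, mul_assoc]
    refine mul_le_mul_of_nonneg_right ((le_abs_self C).trans (by linarith)) (by positivity)
  refine h1.trans ?_
  have h2 : δ ^ β = δ * δ ^ (β - 1) := by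
    nth_rw 2 [← Real.rpow_one δ]
    rw [← Real.rpow_add hδ]
    congr 1; ring
  have h3 : δ ^ (β - 1) ≤ η / A := by
    have : δ ^ (β - 1) ≤ ((η / A) ^ (1 / (β - 1))) ^ (β - 1) := Real.rpow_le_rpow hδ.le l3.le hβ1.le
    rwa [← Real.rpow_mul (by positivity), one_div_mul_cancel hβ1.ne', Real.rpow_one] at this
  rw [h2]
  calc A * (δ * δ ^ (β - 1)) = δ * (A * δ ^ (β - 1)) := by ring
    _ ≤ δ * (A * (η / A)) := by gcongr
    _ = η * δ := by field_simp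

/-- the open cell is contained in the domain -/
lemma cell_sub_Om {Q : Finset Cell} {c : ℤ × ℤ} (hc : c ∈ Q) (z : ℂ) (h1 : (c.1 : ℝ) < z.re)
    (h2 : z.re < c.1 + 1) (h3 : (c.2 : ℝ) < z.im) (h4 : z.im < c.2 + 1) : z ∈ Om Q gx gx := by
  rw [mem_Om gx_mono gx_mono]
  have k2 : z.re < gx (c.1 + 1) := by unfold gx; push_cast; exact h2
  have k4 : z.im < gx (c.2 + 1) := by unfold gx; push_cast; exact h4
  refine ⟨⟨c, hc, ⟨h1.le, k2.le⟩, h3.le, k4.le⟩, fun d hd => ?_⟩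
  have e1 : d.1 = c.1 := line_uniq gx_mono h1 k2 hd.1.1 hd.1.2
  have e2 : d.2 = c.2 := line_uniq gx_mono h3 k4 hd.2.1 hd.2.2
  rw [show d = c from Prod.ext e1 e2]
  exact hc

lemma tail_cases (s : Cell × ℤ) : ((tail s).1 = s.1.1 ∨ (tail s).1 = s.1.1 + 1) ∧
    ((tail s).2 = s.1.2 ∨ (tail s).2 = s.1.2 + 1) := by
  unfold tail
  split_ifs <;> simp

lemma side_isSide (P : PType) (n : ℕ) : IsSide P.Q (P.side n) := by
  unfold PType.side
  induction n with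
  | zero => exact P.side0
  | succ n ih =>
    rw [Function.iterate_succ_apply']
    exact isSide_next ih

/-- **The mark bound passes to the limit.** -/
theorem MkBd.oscO (hs_top : Tendsto hs atTop atTop) (hU : (U : Filter ℕ) ≤ atTop)
    {H1 H2 H3 : ℕ → ℤ × ℤ → ℂ} {g1 g2 g3 : ℂ → ℂ} (h1 : PreLim P hs H1 U g1)
    (h2 : PreLim P hs H2 U g2) (h3 : PreLim P hs H3 U g3) (a b c : ℂ) {n : ℕ}
    (hM : MkBd P hs U n fun j v => a * H1 j v + b * H2 j v + c * H3 j v) :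
    OscO (Om P.Q gx gx) (fun z => a * g1 z + b * g2 z + c * g3 z) := by
  obtain ⟨C, α, δ, hα, hδ, hM⟩ := hM
  have hcell := (side_isSide P n).1
  obtain ⟨t1, t2⟩ := tail_cases (P.side n)
  refine oscO_corner (c := (P.side n).1) (p := P.vert n) (fun z => cell_sub_Om hcell z) t1 t2
    (C := |C| * 4 ^ (2 / 3 + α : ℝ)) (β := 2 / 3 + α) (δ0 := δ / 4) (by linarith) (by positivity) ?_
  intro r hr hrδ z hz z' hz' hzp hzp'
  obtain ⟨v, hv⟩ := exists_appr (P := P) gx_mono gx_mono (approx_s hs_top) hU (Om_subset _ _ _ hz)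
  obtain ⟨w, hw⟩ := exists_appr (P := P) gx_mono gx_mono (approx_s hs_top) hU (Om_subset _ _ _ hz')
  have lv : ∀ {H : ℕ → ℤ × ℤ → ℂ} {g : ℂ → ℂ}, PreLim P hs H U g →
      Tendsto (fun j => nrm P (hs j) (H j) (v j) - nrm P (hs j) (H j) (w j)) U (𝓝 (g z - g z')) :=
    fun h => (h.lim z (Om_subset _ _ _ hz) v hv.1 hv.2).sub
      (h.lim z' (Om_subset _ _ _ hz') w hw.1 hw.2)
  have hl := ((((lv h1).const_mul a).add ((lv h2).const_mul b)).add ((lv h3).const_mul c)).norm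
  have e0 : a * g1 z + b * g2 z + c * g3 z - (a * g1 z' + b * g2 z' + c * g3 z') =
      a * (g1 z - g1 z') + b * (g2 z - g2 z') + c * (g3 z - g3 z') := by ring
  rw [e0]
  refine le_of_tendsto hl ?_
  have hRU : Tendsto (Rs hs) U atTop := (Rs_top hs_top).mono_left hU
  filter_upwards [hM, hv.1, hw.1, near_of_tendsto hv.2 (Metric.mem_ball_self hr),
    near_of_tendsto hw.2 (Metric.mem_ball_self hr), hRU.eventually_gt_atTop 0,
    hRU.eventually_gt_atTop (1 / (2 * r))] with j k1 k2 k3 k4 k5 k6 k7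
  have hR : Rs hs j = 2 * (hs j : ℝ) := rfl
  have hsj : (0 : ℝ) < hs j := by rw [hR] at k6; linarith
  set p : ℂ := lat (lpt (fun i => 2 * (hs j : ℤ) * i) (fun i => 2 * (hs j : ℤ) * i) (P.vert n)) with hp
  have hpe : p = (Rs hs j : ℂ) * lat (P.vert n) := by
    rw [hp, hR]
    apply Complex.ext <;> simp [lat, lpt]
  have near : ∀ (u : ℤ × ℤ) (ζ : ℂ), ‖lat u / (Rs hs j : ℂ) - ζ‖ < r → ‖ζ - lat (P.vert n)‖ ≤ r →
      ‖lat u - p‖ ≤ 2 * r * Rs hs j := by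
    intro u ζ m1 m2
    have hRc : (Rs hs j : ℂ) ≠ 0 := by exact_mod_cast k6.ne'
    have e : lat u - p = (Rs hs j : ℂ) * ((lat u / (Rs hs j : ℂ) - ζ) + (ζ - lat (P.vert n))) := by
      rw [hpe]; field_simp; ring
    rw [e, norm_mul, Complex.norm_real, Real.norm_of_nonneg k6.le]
    have := norm_add_le (lat u / (Rs hs j : ℂ) - ζ) (ζ - lat (P.vert n))
    nlinarith
  have key := k1 (2 * r * Rs hs j) (by
      rw [div_lt_iff₀ (by positivity)] at k7; linarith) (by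
      rw [hR]; nlinarith) (v j) (w j) k2 k3 (near _ _ k4 hzp) (near _ _ k5 hzp')
  have e1 : a * (nrm P (hs j) (H1 j) (v j) - nrm P (hs j) (H1 j) (w j)) +
      b * (nrm P (hs j) (H2 j) (v j) - nrm P (hs j) (H2 j) (w j)) +
      c * (nrm P (hs j) (H3 j) (v j) - nrm P (hs j) (H3 j) (w j)) =
      (((2 * hs j : ℝ) ^ (-(2 / 3) : ℝ) : ℝ) : ℂ) *
      ((a * H1 j (v j) + b * H2 j (v j) + c * H3 j (v j)) -
        (a * H1 j (w j) + b * H2 j (w j) + c * H3 j (w j))) := by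
    unfold nrm
    ring
  rw [e1, norm_mul, Complex.norm_real, Real.norm_of_nonneg (by positivity)]
  refine (mul_le_mul_of_nonneg_left key (by positivity)).trans ?_
  have e2 : 2 * r * Rs hs j / (hs j : ℝ) = 4 * r := by
    rw [hR]; field_simp; ring
  rw [e2, ← hR, Real.mul_rpow (by positivity : (0 : ℝ) ≤ 2 * r) k6.le, Real.rpow_neg k6.le]
  have hpow : 0 < Rs hs j ^ (2 / 3 : ℝ) := Real.rpow_pos_of_pos k6 _
  have e3 : (Rs hs j ^ (2 / 3 : ℝ))⁻¹ * (C * ((2 * r) ^ (2 / 3 : ℝ) * Rs hs j ^ (2 / 3 : ℝ)) * (4 * r) ^ α) =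
      C * ((2 * r) ^ (2 / 3 : ℝ) * (4 * r) ^ α) := by
    field_simp
  rw [e3]
  have e4 : (2 * r) ^ (2 / 3 : ℝ) * (4 * r) ^ α ≤ 4 ^ (2 / 3 + α : ℝ) * r ^ (2 / 3 + α : ℝ) := by
    rw [← Real.mul_rpow (by norm_num) hr.le, Real.rpow_add (by positivity)]
    exact mul_le_mul_of_nonneg_right (Real.rpow_le_rpow (by positivity) (by linarith) (by norm_num))
      (by positivity)
  calc C * ((2 * r) ^ (2 / 3 : ℝ) * (4 * r) ^ α)
      ≤ |C| * ((2 * r) ^ (2 / 3 : ℝ) * (4 * r) ^ α) :=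
        mul_le_mul_of_nonneg_right (le_abs_self C) (by positivity)
    _ ≤ |C| * (4 ^ (2 / 3 + α : ℝ) * r ^ (2 / 3 + α : ℝ)) := mul_le_mul_of_nonneg_left e4 (abs_nonneg _)
    _ = _ := by ring

/-- **Holomorphy of the three limits**: translation invariance and the bounds at the marks 1, 2, 4. -/
theorem four_holo {S : Shape} (hs_top : Tendsto hs atTop atTop) (hU : (U : Filter ℕ) ≤ atTop)
    {H12 H23 H34 : ℕ → ℤ × ℤ → ℂ} {g12 g23 g34 : ℂ → ℂ} (h12 : PreLim S.P hs H12 U g12)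
    (h23 : PreLim S.P hs H23 U g23) (h34 : PreLim S.P hs H34 U g34)
    (t12 : TI (Om S.P.Q gx gx) g12) (t23 : TI (Om S.P.Q gx gx) g23) (t34 : TI (Om S.P.Q gx gx) g34)
    (m1 : MkBd S.P hs U 0 fun j v => H34 j v - H23 j v)
    (m2 : MkBd S.P hs U S.m2 fun j v => H34 j v - H23 j v - ph 2 * H12 j v)
    (m4 : MkBd S.P hs U S.m4 fun j v => H23 j v - H12 j v) :
    IsLim4 S.P hs H12 U g12 ∧ IsLim4 S.P hs H23 U g23 ∧ IsLim4 S.P hs H34 U g34 := by
  have hph : ph 2 ≠ 0 := by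
    unfold ph
    refine zpow_ne_zero _ fun h => ?_
    have := congrArg Complex.re h
    norm_num [Pool.Agent.Q1.w6] at this
  set Ω := Om S.P.Q gx gx with hΩ
  have hO : IsOpen Ω := isOpen_Om _ _ _
  have c12 : ContinuousOn g12 Ω := h12.cont.mono (Om_subset _ _ _)
  have c23 : ContinuousOn g23 Ω := h23.cont.mono (Om_subset _ _ _)
  have c34 : ContinuousOn g34 Ω := h34.cont.mono (Om_subset _ _ _)
  have comb : ∀ (a b c : ℂ) {n : ℕ} {G : ℕ → ℤ × ℤ → ℂ}, MkBd S.P hs U n G →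
      (∀ j v, G j v = a * H12 j v + b * H23 j v + c * H34 j v) →
      DifferentiableOn ℂ (fun z => a * g12 z + b * g23 z + c * g34 z) Ω := by
    intro a b c n G hM hG
    have hG' : G = fun j v => a * H12 j v + b * H23 j v + c * H34 j v := by
      funext j v; exact hG j v
    rw [hG'] at hM
    have hosc := hM.oscO hs_top hU h12 h23 h34 a b c
    have hc : ContinuousOn (fun z => a * g12 z + b * g23 z) Ω :=
      (continuousOn_const.mul c12).add (continuousOn_const.mul c23)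
    have ht : TI Ω (fun z => (1 : ℂ) * (a * g12 z + b * g23 z) + c * g34 z) :=
      TI.lin hc c34 (TI.lin c12 c23 t12 t23 a b) t34 1 c
    simp only [one_mul] at ht
    exact differentiableOn_of_TI hO (hc.add (continuousOn_const.mul c34)) ht hosc
  have d1 := comb 0 (-1) 1 m1 (fun j v => by ring)
  have d2 := comb (-ph 2) (-1) 1 m2 (fun j v => by ring)
  have d4 := comb (-1) 1 0 m4 (fun j v => by ring)
  have e12 : DifferentiableOn ℂ g12 Ω := by
    have := (d1.sub d2).const_mul (ph 2)⁻¹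
    refine this.congr fun z _ => ?_
    have e : g12 z = (ph 2)⁻¹ * ((0 * g12 z + -1 * g23 z + 1 * g34 z) -
        (-ph 2 * g12 z + -1 * g23 z + 1 * g34 z)) := by
      field_simp
      ring
    exact e
  have e23 : DifferentiableOn ℂ g23 Ω := (d4.add e12).congr fun z _ => by
    simp only [Pi.add_apply]; ring
  have e34 : DifferentiableOn ℂ g34 Ω := (d1.add e23).congr fun z _ => by
    simp only [Pi.add_apply]; ring
  exact ⟨h12.isLim4 e12, h23.isLim4 e23, h34.isLim4 e34⟩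

end Pool.Agent.Q1.M6f.Glue
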