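import Mathlib
import Pool.Agent.Q1.M6f.GlueFour
import Pool.Agent.H21.FM.Final
import Pool.Agent.H44.FM.Small

set_option autoImplicit false
open Filter Topology Finset

/-! Module M6, chapter E, glue, four marks: `Hol3 S` from the tracks and helper44's bounds at the marks. -/

namespace Pool.Agent.Q1.M6f.Glue

open Pool.Agent.Q1 (Env ph)
open Pool.Agent.Q1.M4 (PType Om Reg lat lpt)
open Pool.Agent.H33.Q1 (TL tv)
open Pool.Agent.H21.FM
open Pool.Agent.H33.FM (threeW W34 W12)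
open Pool.Agent.H87.FM (gx Rs)
open Pool.Agent.H44.FM (OpenCase DualCase Trip Gm mark_small_of' ms mw)
open Pool.Agent.Q1.M6c (PlaneK)

lemma preLim_of_isLim0 {P : PType} {hs : ℕ → ℕ} {Ht : ℕ → ℤ × ℤ → ℂ} {U : Ultrafilter ℕ} {g : ℂ → ℂ}
    (L : IsLim0 P hs Ht U g) : PreLim P hs Ht U g := ⟨L.cont, L.hold, L.lim⟩

lemma isLim0_of_preLim {P : PType} {hs : ℕ → ℕ} {Ht : ℕ → ℤ × ℤ → ℂ} {U : Ultrafilter ℕ} {g : ℂ → ℂ}
    (L : PreLim P hs Ht U g) : IsLim0 P hs Ht U g := ⟨L.cont, L.hold, L.lim⟩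

lemma _root_.Pool.Agent.H21.FM.Tri3.trip {S : Shape} {h : ℕ} (hh : 4 ≤ h) {X : Fin 3 → Env}
    {H : Fin 3 → ℤ × ℤ → ℂ} (T : Tri3 S h X H) : Trip S h X H :=
  ⟨⟨W34 S h, W12 S h, threeW S hh, T.e12, T.e23, T.e34⟩, T.prim⟩

/-- helper44's bounds in the form `MkBd` -/
theorem mkBd_of_small (hAP : Pool.Agent.Q1.AP PlaneK) {S : Shape} {X : ℕ → Fin 3 → Env}
    {H : ℕ → Fin 3 → ℤ × ℤ → ℂ} (hT : ∀ᶠ h in atTop, Tri3 S h (X h) (H h)) {m : Fin 4}
    (hOD : ∀ᶠ h in atTop, OpenCase S h m ∧ DualCase S h m) :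
    MkBd S.P (fun h => h) atTop (ms S m) (fun h v => Gm (H h) m v) := by
  obtain ⟨C, hC, hsm⟩ := mark_small_of' hAP
  refine ⟨C * 4, 2 / 3, 1 / 100, by norm_num, by norm_num, ?_⟩
  filter_upwards [hT, hOD, eventually_ge_atTop 100] with h h1 h2 h3 ρ hρ1 hρ2 v w hv hw hvp hwp
  have h3' : (100 : ℝ) ≤ h := by exact_mod_cast h3
  set n : ℕ := ⌈ρ⌉₊ with hn
  have hρn : ρ ≤ n := Nat.le_ceil ρ
  have hn2 : (n : ℝ) ≤ 2 * ρ := by
    have := Nat.ceil_lt_add_one (by linarith : (0 : ℝ) ≤ ρ)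
    rw [← hn] at this
    linarith
  have hn1 : 1 ≤ n := by
    have : (1 : ℝ) ≤ n := hρ1.trans hρn
    exact_mod_cast this
  have hnh : 19 * n + 8 ≤ h := by
    have : (19 : ℝ) * n + 8 ≤ h := by linarith
    exact_mod_cast this
  have hp : tv (mw S h m) = lpt (fun i => 2 * (h : ℤ) * i) (fun i => 2 * (h : ℤ) * i)
      (S.P.vert (ms S m)) := by
    unfold mw
    rw [tv_wv]
    apply Prod.ext <;> simp [lpt, PType.vert]
  have near : ∀ u : ℤ × ℤ, ‖lat u - lat (lpt (fun i => 2 * (h : ℤ) * i) (fun i => 2 * (h : ℤ) * i)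
      (S.P.vert (ms S m)))‖ ≤ ρ → M4.Near n u (tv (mw S h m)) := by
    intro u hu
    rw [hp]
    set q := lpt (fun i => 2 * (h : ℤ) * i) (fun i => 2 * (h : ℤ) * i) (S.P.vert (ms S m)) with hq
    have a1 : |(u.1 : ℝ) - q.1| ≤ n := by
      have := (Complex.abs_re_le_norm (lat u - lat q)).trans (hu.trans hρn)
      simpa [lat] using this
    have a2 : |(u.2 : ℝ) - q.2| ≤ n := by
      have := (Complex.abs_im_le_norm (lat u - lat q)).trans (hu.trans hρn)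
      simpa [lat] using this
    exact ⟨by exact_mod_cast a1, by exact_mod_cast a2⟩
  have key := hsm S h (X h) (H h) (h1.trip (by omega)) m h2.1 h2.2 n hn1 hnh v w hv hw
    (near v hvp) (near w hwp)
  refine key.trans ?_
  have hh0 : (0 : ℝ) < h := by linarith
  have e1 : (n : ℝ) ^ (2 / 3 : ℝ) ≤ 2 * ρ ^ (2 / 3 : ℝ) := by
    refine (Real.rpow_le_rpow (by positivity) hn2 (by norm_num)).trans ?_
    rw [Real.mul_rpow (by norm_num) (by linarith)]
    refine mul_le_mul_of_nonneg_right ?_ (by positivity)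
    calc (2 : ℝ) ^ (2 / 3 : ℝ) ≤ (2 : ℝ) ^ (1 : ℝ) :=
          Real.rpow_le_rpow_of_exponent_le (by norm_num) (by norm_num)
      _ = 2 := Real.rpow_one 2
  have e2 : ((n : ℝ) / h) ^ (2 / 3 : ℝ) ≤ 2 * (ρ / h) ^ (2 / 3 : ℝ) := by
    rw [Real.div_rpow (by positivity) hh0.le, Real.div_rpow (by linarith) hh0.le, mul_div_assoc']
    exact div_le_div_of_nonneg_right e1 (by positivity)
  calc C * (n : ℝ) ^ (2 / 3 : ℝ) * ((n : ℝ) / h) ^ (2 / 3 : ℝ)
      ≤ C * (2 * ρ ^ (2 / 3 : ℝ)) * (2 * (ρ / h) ^ (2 / 3 : ℝ)) :=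
        mul_le_mul (mul_le_mul_of_nonneg_left e1 hC.le) e2 (by positivity) (by positivity)
    _ = _ := by ring

/-- translation invariance for the three environments of a shape -/
def TI3 (S : Shape) : Prop :=
  ∀ (X : ℕ → Fin 3 → Env) (H : ℕ → Fin 3 → ℤ × ℤ → ℂ), (∀ᶠ h in atTop, Tri3 S h (X h) (H h)) →
    ∀ U : Ultrafilter ℕ, (U : Filter ℕ) ≤ atTop → ∀ (i : Fin 3) (g : ℂ → ℂ),
      IsLim0 S.P (fun h => h) (fun h => H h i) U g → TI (Om S.P.Q gx gx) g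

/-- **`Hol3 S` from translation invariance.** -/
theorem hol3_of_ti (hAP : Pool.Agent.Q1.AP PlaneK) {S : Shape}
    (hOD : ∀ m : Fin 4, ∀ᶠ h in atTop, OpenCase S h m ∧ DualCase S h m) (hTI : TI3 S) : Hol3 S := by
  intro X H hT U hU g hg i
  have hid : Tendsto (fun j : ℕ => j) atTop atTop := tendsto_id
  have bd : ∀ m : Fin 4, MkBd S.P (fun h => h) U (ms S m) (fun h v => Gm (H h) m v) := by
    intro m
    obtain ⟨C, α, δ, hα, hδ, h⟩ := mkBd_of_small hAP hT (hOD m)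
    exact ⟨C, α, δ, hα, hδ, hU h⟩
  have m1 : MkBd S.P (fun h => h) U 0 fun h v => H h 2 v - H h 1 v := by
    have := bd 0
    have e : (fun (h : ℕ) v => Gm (H h) 0 v) = fun h v => H h 2 v - H h 1 v := by
      funext h v
      unfold Gm
      rw [Fin.sum_univ_three]
      simp [Pool.Agent.H44.FM.al]
      ring
    rw [e] at this
    exact this
  have m2 : MkBd S.P (fun h => h) U S.m2 fun h v => H h 2 v - H h 1 v - ph 2 * H h 0 v := by
    have := bd 1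
    have e : (fun (h : ℕ) v => Gm (H h) 1 v) = fun h v => H h 2 v - H h 1 v - ph 2 * H h 0 v := by
      funext h v
      unfold Gm
      rw [Fin.sum_univ_three]
      simp [Pool.Agent.H44.FM.al]
      ring
    rw [e] at this
    exact this
  have m4 : MkBd S.P (fun h => h) U S.m4 fun h v => H h 1 v - H h 0 v := by
    have := bd 3
    have e : (fun (h : ℕ) v => Gm (H h) 3 v) = fun h v => H h 1 v - H h 0 v := by
      funext h v
      unfold Gm
      rw [Fin.sum_univ_three]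
      simp [Pool.Agent.H44.FM.al]
      ring
    rw [e] at this
    exact this
  obtain ⟨a, b, c⟩ := four_holo hid hU (preLim_of_isLim0 (hg 0)) (preLim_of_isLim0 (hg 1))
    (preLim_of_isLim0 (hg 2)) (hTI X H hT U hU 0 _ (hg 0)) (hTI X H hT U hU 1 _ (hg 1))
    (hTI X H hT U hU 2 _ (hg 2)) m1 m2 m4
  match i with
  | 0 => exact a.holo
  | 1 => exact b.holo
  | 2 => exact c.holo

/-- the three environments of a shape have tracks -/
def Tracks3 (S : Shape) : Prop :=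
  ∀ (X : ℕ → Fin 3 → Env) (H : ℕ → Fin 3 → ℤ × ℤ → ℂ), (∀ᶠ h in atTop, Tri3 S h (X h) (H h)) →
    ∀ i : Fin 3, ∃ (e ff fl e' ff' fr : ℕ → ℤ × ℤ → ℂ) (V V' : ℕ → ℂ → ℤ × ℤ → ℂ),
      Tracks (Rs fun h => h) atTop (Om S.P.Q gx gx)
        (fun h => nrm S.P h (H h i)) e ff fl e' ff' fr V V'

/-- **`Hol3 S` from the tracks.** -/
theorem hol3_of_tracks (hAP : Pool.Agent.Q1.AP PlaneK) {S : Shape}
    (hOD : ∀ m : Fin 4, ∀ᶠ h in atTop, OpenCase S h m ∧ DualCase S h m) (hT : Tracks3 S) :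
    Hol3 S := by
  refine hol3_of_ti hAP hOD fun X H hX U hU i g hg => ?_
  obtain ⟨e, ff, fl, e', ff', fr, V, V', h⟩ := hT X H hX i
  exact (preLim_of_isLim0 hg).ti tendsto_id hU h

end Pool.Agent.Q1.M6f.Glue
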