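import Mathlib
import Pool.Agent.Q1.Closed
import Pool.Agent.H75.TwoArm.Symm

set_option autoImplicit false
open Finset

/-! Symmetries of the corner lattice act on natural environments: rotation by a right angle,
translations. The increments are multiplied by a constant phase. -/

namespace Pool.Agent.Q1

open Pool.Agent.H75.Perc Pool.Agent.H75.TwoArm

/-- An orientation preserving symmetry of the corner lattice which respects vertices and faces:
`s` on corners, `t` on labels, `k` = change of the type. -/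
structure CSym where
  s : (ℤ × ℤ) ≃ (ℤ × ℤ)
  t : (ℤ × ℤ) ≃ (ℤ × ℤ)
  k : ℤ
  hlab : ∀ c, lab (s c) = t (lab c)
  hC : ∀ c, nxC (s c) = s (nxC c)
  hO : ∀ c, nxO (s c) = s (nxO c)
  hty : ∀ c, (ty c + k) % 4 = ty (s c)
  hodd : ∀ e : ℤ × ℤ, (e.1 + e.2) % 2 = 1 → ((t e).1 + (t e).2) % 2 = 1

namespace CSym

variable (g : CSym)

lemma nx_map (ω : Finset (ℤ × ℤ)) (c : ℤ × ℤ) :
    nx (ω.map g.t.toEmbedding) (g.s c) = g.s (nx ω c) := by
  unfold nx
  rw [g.hlab, g.hC, g.hO]
  have : g.t (lab c) ∈ ω.map g.t.toEmbedding ↔ lab c ∈ ω := by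
    rw [mem_map_equiv, Equiv.symm_apply_apply]
  by_cases h : lab c ∈ ω
  · rw [if_pos h, if_pos (this.2 h)]
  · rw [if_neg h, if_neg (fun h' => h (this.1 h'))]

lemma del_map (ω : Finset (ℤ × ℤ)) (c : ℤ × ℤ) :
    del (ω.map g.t.toEmbedding) (g.s c) = del ω c := by
  unfold del
  rw [g.hlab]
  have : g.t (lab c) ∈ ω.map g.t.toEmbedding ↔ lab c ∈ ω := by
    rw [mem_map_equiv, Equiv.symm_apply_apply]
  by_cases h : lab c ∈ ω
  · rw [if_pos h, if_pos (this.2 h)]
  · rw [if_neg h, if_neg (fun h' => h (this.1 h'))]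

lemma stp_map (E S : Finset (ℤ × ℤ)) (out : ℤ × ℤ → ℤ × ℤ) (ω : Finset (ℤ × ℤ)) (c : ℤ × ℤ) :
    stp (E.map g.t.toEmbedding) (S.map g.s.toEmbedding) (fun x => g.s (out (g.s.symm x)))
      (ω.map g.t.toEmbedding) (g.s c) = g.s (stp E S out ω c) := by
  unfold stp
  have h1 : g.s c ∈ S.map g.s.toEmbedding ↔ c ∈ S := by
    rw [mem_map_equiv, Equiv.symm_apply_apply]
  have h2 : lab (g.s c) ∈ E.map g.t.toEmbedding ↔ lab c ∈ E := by
    rw [g.hlab, mem_map_equiv, Equiv.symm_apply_apply]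
  by_cases hS : c ∈ S
  · rw [if_pos hS, if_pos (h1.2 hS)]
    by_cases hE : lab c ∈ E
    · rw [if_pos hE, if_pos (h2.2 hE), g.nx_map]
    · rw [if_neg hE, if_neg (fun h => hE (h2.1 h))]
      show g.s (out (g.s.symm (g.s c))) = g.s (out c)
      rw [Equiv.symm_apply_apply]
  · rw [if_neg hS, if_neg (fun h => hS (h1.1 h))]

lemma tur_map (E S : Finset (ℤ × ℤ)) (dout : ℤ × ℤ → ℤ) (ω : Finset (ℤ × ℤ)) (c : ℤ × ℤ) :
    tur (E.map g.t.toEmbedding) (S.map g.s.toEmbedding) (fun x => dout (g.s.symm x))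
      (ω.map g.t.toEmbedding) (g.s c) = tur E S dout ω c := by
  unfold tur
  have h1 : g.s c ∈ S.map g.s.toEmbedding ↔ c ∈ S := by
    rw [mem_map_equiv, Equiv.symm_apply_apply]
  have h2 : lab (g.s c) ∈ E.map g.t.toEmbedding ↔ lab c ∈ E := by
    rw [g.hlab, mem_map_equiv, Equiv.symm_apply_apply]
  by_cases hS : c ∈ S
  · rw [if_pos hS, if_pos (h1.2 hS)]
    by_cases hE : lab c ∈ E
    · rw [if_pos hE, if_pos (h2.2 hE), g.del_map]
    · rw [if_neg hE, if_neg (fun h => hE (h2.1 h))]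
      show dout (g.s.symm (g.s c)) = dout c
      rw [Equiv.symm_apply_apply]
  · rw [if_neg hS, if_neg (fun h => hS (h1.1 h))]

lemma iter_map {α : Type*} {f f' : α → α} (s : α ≃ α) (h : ∀ c, f' (s c) = s (f c)) (i : ℕ)
    (c : α) : f'^[i] (s c) = s (f^[i] c) := by
  induction i with
  | zero => rfl
  | succ i ih => rw [Function.iterate_succ_apply', Function.iterate_succ_apply', ih, h]

lemma orb_map {α : Type*} {f f' : α → α} (s : α ≃ α) (h : ∀ c, f' (s c) = s (f c)) (c : α)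
    (L : ℕ) : Orb f' (s c) L ↔ Orb f c L := by
  constructor
  · intro ho
    refine ⟨ho.pos, ?_, ?_⟩
    · have := ho.per
      rw [iter_map s h] at this
      exact s.injective this
    · intro i j hij hj he
      apply ho.inj i j hij hj
      rw [iter_map s h, iter_map s h, he]
  · intro ho
    refine ⟨ho.pos, ?_, ?_⟩
    · rw [iter_map s h, ho.per]
    · intro i j hij hj he
      rw [iter_map s h, iter_map s h] at he
      exact ho.inj i j hij hj (s.injective he)

lemma KK_map {α : Type*} {f f' : α → α} {d d' : α → ℤ} (s : α ≃ α)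
    (h : ∀ c, f' (s c) = s (f c)) (hd : ∀ c, d' (s c) = d c) (c : α) (k0 k : ℤ) (n : ℕ) :
    KK f' d' (s c) (k0 + k) n = KK f d c k0 n + k := by
  unfold KK
  have : ∑ j ∈ range n, d' (f'^[j] (s c)) = ∑ j ∈ range n, d (f^[j] c) := by
    refine Finset.sum_congr rfl fun j _ => ?_
    rw [iter_map s h, hd]
  rw [this]; ring

/-- every subset of `E.map t` is a mapped subset of `E` -/
lemma exists_pre {E ω : Finset (ℤ × ℤ)} (h : ω ⊆ E.map g.t.toEmbedding) :
    ∃ ω' ⊆ E, ω = ω'.map g.t.toEmbedding := by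
  refine ⟨ω.map g.t.symm.toEmbedding, ?_, ?_⟩
  · intro e he
    rw [mem_map_equiv] at he
    have := h he
    rw [mem_map_equiv] at this
    simpa using this
  · ext e
    simp

end CSym

/-- The transported environment. -/
def Env.tr (X : Env) (g : CSym) : Env where
  E := X.E.map g.t.toEmbedding
  S := X.S.map g.s.toEmbedding
  out := fun x => g.s (X.out (g.s.symm x))
  dout := fun x => X.dout (g.s.symm x)
  c0 := g.s X.c0
  k0 := X.k0 + g.k
  T := X.T
  odd := by
    intro e he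
    rw [mem_map_equiv] at he
    have := g.hodd _ (X.odd _ he)
    rwa [Equiv.apply_symm_apply] at this
  c0_mem := by
    rw [mem_map_equiv, Equiv.symm_apply_apply]; exact X.c0_mem
  in_mem := by
    intro c hc
    obtain ⟨c, rfl⟩ := g.s.surjective c
    rw [g.hlab, mem_map_equiv, Equiv.symm_apply_apply] at hc
    rw [mem_map_equiv, Equiv.symm_apply_apply]
    exact X.in_mem c hc
  maps := by
    intro ω hω' c hc
    obtain ⟨ω, hω, rfl⟩ := g.exists_pre hω'
    obtain ⟨c, rfl⟩ := g.s.surjective c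
    rw [mem_map_equiv, Equiv.symm_apply_apply] at hc
    rw [g.stp_map, mem_map_equiv, Equiv.symm_apply_apply]
    exact X.maps ω hω c hc
  inj := by
    intro ω hω' a ha b hb hab
    obtain ⟨ω, hω, rfl⟩ := g.exists_pre hω'
    obtain ⟨a, rfl⟩ := g.s.surjective a
    obtain ⟨b, rfl⟩ := g.s.surjective b
    rw [g.stp_map, g.stp_map] at hab
    rw [mem_coe, mem_map_equiv, Equiv.symm_apply_apply] at ha hb
    rw [X.inj ω hω (mem_coe.2 ha) (mem_coe.2 hb) (g.s.injective hab)]
  hk0 := by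
    have h1 := X.hk0
    have h2 := g.hty X.c0
    omega
  typed := by
    intro c hc hl
    obtain ⟨c, rfl⟩ := g.s.surjective c
    rw [mem_map_equiv, Equiv.symm_apply_apply] at hc
    rw [g.hlab, mem_map_equiv, Equiv.symm_apply_apply] at hl
    rw [Equiv.symm_apply_apply]
    have h1 := X.typed c hc hl
    have h2 := g.hty c
    have h3 := g.hty (X.out c)
    omega
  root := by
    intro c hl
    obtain ⟨c, rfl⟩ := g.s.surjective c
    rw [g.hlab, mem_map_equiv, Equiv.symm_apply_apply] at hl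
    rw [g.hC]
    intro h
    exact X.root c hl (g.s.injective h)
  total := by
    intro ω hω' L hL
    obtain ⟨ω, hω, rfl⟩ := g.exists_pre hω'
    rw [CSym.orb_map g.s (g.stp_map _ _ _ _)] at hL
    rw [CSym.KK_map (f := stp X.E X.S X.out ω) (d := tur X.E X.S X.dout ω) g.s
      (g.stp_map _ _ _ _) (g.tur_map _ _ _ _), X.total ω hω L hL]
    ring

namespace Env

variable {X : Env} (g : CSym)

lemma f_tr (ω : Finset (ℤ × ℤ)) (c : ℤ × ℤ) :
    (X.tr g).f (ω.map g.t.toEmbedding) (g.s c) = g.s (X.f ω c) := g.stp_map _ _ _ _ _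

lemma d_tr (ω : Finset (ℤ × ℤ)) (c : ℤ × ℤ) :
    (X.tr g).d (ω.map g.t.toEmbedding) (g.s c) = X.d ω c := g.tur_map _ _ _ _ _

lemma len_tr {ω : Finset (ℤ × ℤ)} (hω : ω ⊆ X.E) :
    (X.tr g).len (ω.map g.t.toEmbedding) = X.len ω := by
  have h1 := orb hω
  have h2 : ω.map g.t.toEmbedding ⊆ (X.tr g).E := map_subset_map.2 hω
  have h3 := orb h2
  have h4 : Orb ((X.tr g).f (ω.map g.t.toEmbedding)) (g.s X.c0) (X.len ω) :=
    (CSym.orb_map g.s (f_tr g ω) _ _).2 h1
  exact h3.unique h4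

lemma z_tr (ω : Finset (ℤ × ℤ)) (i : ℕ) :
    (X.tr g).z (ω.map g.t.toEmbedding) i = g.s (X.z ω i) :=
  CSym.iter_map g.s (f_tr g ω) _ _

lemma K_tr (ω : Finset (ℤ × ℤ)) (i : ℕ) :
    (X.tr g).K (ω.map g.t.toEmbedding) i = X.K ω i + g.k :=
  CSym.KK_map g.s (f_tr g ω) (d_tr g ω) _ _ _ _

lemma incO_tr {ω : Finset (ℤ × ℤ)} (hω : ω ⊆ X.E) (c : ℤ × ℤ) :
    (X.tr g).incO (ω.map g.t.toEmbedding) (g.s c) = ph g.k * X.incO ω c := by
  unfold incO
  rw [len_tr g hω, Finset.mul_sum]
  refine Finset.sum_congr rfl fun i _ => ?_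
  rw [z_tr, K_tr]
  by_cases h : X.z ω i = c
  · rw [if_pos h, if_pos (by rw [h]), ph_add, mul_comm]
  · rw [if_neg h, if_neg (fun h' => h (g.s.injective h')), mul_zero]

lemma powerset_tr : (X.tr g).E.powerset =
    X.E.powerset.map (mapEmbedding g.t.toEmbedding).toEmbedding := by
  ext ω
  rw [mem_powerset, mem_map]
  constructor
  · intro h
    obtain ⟨ω', h1, h2⟩ := g.exists_pre h
    exact ⟨ω', mem_powerset.2 h1, h2.symm⟩
  · rintro ⟨ω', h1, rfl⟩
    exact map_subset_map.2 (mem_powerset.1 h1)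

/-- **Increments of the transported environment.** -/
theorem inc_tr (c : ℤ × ℤ) : (X.tr g).inc (g.s c) = ph g.k * X.inc c := by
  unfold inc
  have hc : (X.tr g).E.card = X.E.card := card_map _
  have hs : ∑ ω ∈ (X.tr g).E.powerset, (X.tr g).incO ω (g.s c) =
      ph g.k * ∑ ω ∈ X.E.powerset, X.incO ω c := by
    rw [powerset_tr, Finset.sum_map, Finset.mul_sum]
    refine Finset.sum_congr rfl fun ω hω => ?_
    exact incO_tr g (mem_powerset.1 hω) c
  rw [hc, hs]; ring

end Env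

/-- Rotation of corners by a right angle around the centre of the vertex `(0,0)`. -/
def rotE : (ℤ × ℤ) ≃ (ℤ × ℤ) where
  toFun := rotc
  invFun c := (c.2, 1 - c.1)
  left_inv c := by unfold rotc; ext <;> simp
  right_inv c := by unfold rotc; ext <;> simp

/-- Rotation of labels. -/
def rotT : (ℤ × ℤ) ≃ (ℤ × ℤ) where
  toFun e := (-e.2, e.1)
  invFun c := (c.2, -c.1)
  left_inv c := by ext <;> simp
  right_inv c := by ext <;> simp

lemma ty_rotc (c : ℤ × ℤ) : (ty c + 1) % 4 = ty (rotc c) := by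
  obtain ⟨a, b⟩ := c
  unfold ty rotc
  simp only
  split_ifs <;> omega

/-- Rotation by a right angle. -/
def rotS : CSym where
  s := rotE
  t := rotT
  k := 1
  hlab c := SymmAux.lab_rot c
  hC c := SymmAux.nxC_rot c
  hO c := SymmAux.nxO_rot c
  hty c := ty_rotc c
  hodd e he := by
    have : rotT e = (-e.2, e.1) := rfl
    rw [this]; simp only; omega

/-- Translation of corners by `2 v`. -/
def shE (v : ℤ × ℤ) : (ℤ × ℤ) ≃ (ℤ × ℤ) where
  toFun c := (c.1 + 2 * v.1, c.2 + 2 * v.2)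
  invFun c := (c.1 - 2 * v.1, c.2 - 2 * v.2)
  left_inv c := by ext <;> simp
  right_inv c := by ext <;> simp

/-- Translation by the vertex `v`. -/
def shS (v : ℤ × ℤ) : CSym where
  s := shE v
  t := shE v
  k := 0
  hlab c := by
    obtain ⟨a, b⟩ := c
    show lab (a + 2 * v.1, b + 2 * v.2) = ((lab (a, b)).1 + 2 * v.1, (lab (a, b)).2 + 2 * v.2)
    unfold lab
    simp only
    split_ifs <;> first | (exfalso; omega) | (refine Prod.ext ?_ ?_ <;> simp only <;> omega)
  hC c := by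
    obtain ⟨a, b⟩ := c
    show nxC (a + 2 * v.1, b + 2 * v.2) = ((nxC (a, b)).1 + 2 * v.1, (nxC (a, b)).2 + 2 * v.2)
    unfold nxC
    simp only
    split_ifs <;> first | (exfalso; omega) | (refine Prod.ext ?_ ?_ <;> simp only <;> omega)
  hO c := by
    obtain ⟨a, b⟩ := c
    show nxO (a + 2 * v.1, b + 2 * v.2) = ((nxO (a, b)).1 + 2 * v.1, (nxO (a, b)).2 + 2 * v.2)
    unfold nxO
    simp only
    split_ifs <;> first | (exfalso; omega) | (refine Prod.ext ?_ ?_ <;> simp only <;> omega)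
  hty c := by
    obtain ⟨a, b⟩ := c
    show (ty (a, b) + 0) % 4 = ty (a + 2 * v.1, b + 2 * v.2)
    unfold ty
    simp only
    split_ifs <;> omega
  hodd e he := by
    have : shE v e = (e.1 + 2 * v.1, e.2 + 2 * v.2) := rfl
    rw [this]; simp only; omega

end Pool.Agent.Q1
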