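import Mathlib
import Pool.Agent.Q1.M6f.Holo
import Pool.Agent.Q1.M4.LocHol

set_option autoImplicit false
open Set Filter Topology

/-! Module M6, chapter E (conclusion), discrete part: from the relation of the responses of the lattice
functions `H j` to the holomorphy of their limit (`LocLim`), and to `CRA`. -/

namespace Pool.Agent.Q1.M6f

open Pool.Agent.H25.Q1.Close Pool.Agent.Q1.M4

lemma GHyp.mono {C c Y Y' : ℝ} {G : ℂ → ℂ} (h : GHyp C c Y' G) (hY : Y ≤ Y') : GHyp C c Y G := by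
  have hsub : UY Y ⊆ UY Y' := fun z hz => ⟨hz.1, hz.2.trans_le hY⟩
  exact ⟨h.diff.mono hsub, fun z hz => h.bound z (hsub hz), fun z hz => h.sym z (hsub hz), h.lower⟩

lemma mid_mem {Y : ℝ} (hY : 0 < Y) : ((Real.pi / 2 : ℝ) : ℂ) ∈ UY Y := by
  have hpi := Real.pi_pos
  refine ⟨⟨?_, ?_⟩, ?_⟩
  · rw [Complex.ofReal_re]; linarith
  · rw [Complex.ofReal_re]; linarith
  · rw [Complex.ofReal_im, abs_zero]; exact hY

lemma pt_mem_UY {Y s : ℝ} (hY : 1 < Y) (hs : |s| ≤ 1) : pt s ∈ UY Y :=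
  ⟨V_subset_U (pt_mem_V s), by rw [pt_im]; linarith⟩

lemma pt_add_mem_UY {Y s : ℝ} (hY : 1 < Y) (hs : |s| ≤ 1) : pt s + (Real.pi / 2 : ℝ) ∈ UY Y :=
  ⟨shift_mem (pt_mem_V s), by
    rw [Complex.add_im, pt_im, Complex.ofReal_im, add_zero]; linarith⟩

lemma sym_mem_UY {Y : ℝ} {z : ℂ} (hz : z ∈ UY Y) :
    (Real.pi : ℂ) - (starRingEnd ℂ) z ∈ UY Y := by
  obtain ⟨⟨h1, h2⟩, h3⟩ := hz
  refine ⟨⟨?_, ?_⟩, ?_⟩
  · rw [Complex.sub_re, Complex.conj_re, Complex.ofReal_re]; linarith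
  · rw [Complex.sub_re, Complex.conj_re, Complex.ofReal_re]; linarith
  · rw [Complex.sub_im, Complex.conj_im, Complex.ofReal_im, zero_sub, neg_neg]; exact h3

/-- Limits of the responses along an ultrafilter. -/
lemma exists_lim_G (U : Ultrafilter ℕ) {C c Y : ℝ} (hY : 0 < Y) {G : ℕ → ℂ → ℂ}
    (h : ∀ᶠ j in (U : Filter ℕ), GHyp C c Y (G j)) :
    ∃ g : ℂ → ℂ, GHyp C c Y g ∧ ∀ z ∈ UY Y, Tendsto (fun j => G j z) U (𝓝 (g z)) := by
  classical
  set F : ℕ → ℂ → ℂ := fun j => if GHyp C c Y (G j) then G j else fun _ => 0 with hF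
  have hFd : ∀ n, DifferentiableOn ℂ (F n) (UY Y) := by
    intro n
    by_cases hn : GHyp C c Y (G n)
    · simp only [hF, if_pos hn]; exact hn.diff
    · simp only [hF, if_neg hn]; exact differentiableOn_const _
  have hFb : ∀ n, ∀ w ∈ UY Y, ‖F n w‖ ≤ |C| * Real.exp Y := by
    intro n w hw
    by_cases hn : GHyp C c Y (G n)
    · simp only [hF, if_pos hn]
      refine (hn.bound w hw).trans ?_
      have e1 : Real.exp w.im ≤ Real.exp Y := Real.exp_le_exp.2 ((le_abs_self _).trans hw.2.le)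
      calc C * Real.exp w.im ≤ |C| * Real.exp w.im :=
            mul_le_mul_of_nonneg_right (le_abs_self C) (Real.exp_pos _).le
        _ ≤ |C| * Real.exp Y := mul_le_mul_of_nonneg_left e1 (abs_nonneg C)
    · simp only [hF, if_neg hn, norm_zero]; positivity
  obtain ⟨g, h1, h2, _⟩ := Pool.Agent.H83.Lo.montel U (isOpen_UY Y) hFd hFb
  have ht : ∀ z ∈ UY Y, Tendsto (fun j => G j z) U (𝓝 (g z)) := by
    intro z hz
    refine (h1.tendsto_at hz).congr' ?_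
    filter_upwards [h] with j hj
    simp only [hF, if_pos hj]
  refine ⟨g, ⟨h2, fun z hz => ?_, fun z hz => ?_, ?_⟩, ht⟩
  · refine le_of_tendsto (ht z hz).norm ?_
    filter_upwards [h] with j hj
    exact hj.bound z hz
  · have t1 := ht _ (sym_mem_UY hz)
    have t2 : Tendsto (fun j => (starRingEnd ℂ) (G j z)) U (𝓝 ((starRingEnd ℂ) (g z))) :=
      (Complex.continuous_conj.tendsto _).comp (ht z hz)
    refine tendsto_nhds_unique t1 (t2.congr' ?_)
    filter_upwards [h] with j hj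
    exact (hj.sym z hz).symm
  · refine ge_of_tendsto (ht _ (mid_mem hY)).norm ?_
    filter_upwards [h] with j hj
    exact hj.lower

/-- Near `z0` (radius `r`, scale `R`, along the filter `F`) the functions `H j` are Hoelder and satisfy
the relation of the responses for the two diagonal displacements of macroscopic size. The response `G` may
depend on `j` and on the displacement `ρ`, but not on the position `v` and not on `s`. -/
structure LocRel (R : ℕ → ℝ) (F : Filter ℕ) (H : ℕ → ℤ × ℤ → ℂ) (z0 : ℂ) (r : ℝ) : Prop where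
  hold : ∃ C > 0, ∀ᶠ j in F, ∀ v w : ℤ × ℤ, ‖lat v / (R j : ℂ) - z0‖ < r →
    ‖lat w / (R j : ℂ) - z0‖ < r → ‖H j v - H j w‖ ≤ C * (‖lat v - lat w‖ / R j) ^ (2 / 3 : ℝ)
  rel : ∃ C c : ℝ, 0 < c ∧ ∀ ε > 0, ∀ Y : ℝ, ∃ ρ0 > 0, ∀ ρ : ℝ, 0 < ρ → ρ < ρ0 → ∀ᶠ j in F,
    ∃ G : ℂ → ℂ, GHyp C c Y G ∧ ∀ s : ℝ, |s| ≤ 1 → ∀ v : ℤ × ℤ, ‖lat v / (R j : ℂ) - z0‖ < r →
    ‖G (pt s) * (H j (v.1 + ⌊ρ * R j⌋₊, v.2 + ⌊ρ * R j⌋₊) - H j v) +
      G (pt s + (Real.pi / 2 : ℝ)) * (H j (v.1 + ⌊ρ * R j⌋₊, v.2 - ⌊ρ * R j⌋₊) - H j v)‖ ≤ ε * ρ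

/-- **`LocRel` implies `LocLim`.** -/
theorem LocRel.locLim {R : ℕ → ℝ} (hR : Tendsto R atTop atTop) (U : Ultrafilter ℕ)
    (hU : (U : Filter ℕ) ≤ atTop) {H : ℕ → ℤ × ℤ → ℂ} {z0 : ℂ} {r : ℝ} (hr : 0 < r)
    (h : LocRel R U H z0 r) : LocLim R U H z0 r where
  hold := h.hold
  hol := by
    intro g hg
    obtain ⟨C, hC, hold⟩ := h.hold
    have hRU : Tendsto R U atTop := hR.mono_left hU
    have hgh : ∀ z ∈ Metric.ball z0 r, ∀ z' ∈ Metric.ball z0 r, ‖z - z'‖ ≤ 2 * r →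
        ‖g z - g z'‖ ≤ C * ‖z - z'‖ ^ (2 / 3 : ℝ) := fun z hz z' hz' _ =>
      hg.hold hR hU hold hz hz'
    have hu : (1 - Complex.I : ℂ) ≠ 0 := by
      intro h0
      have := congrArg Complex.re h0
      simp at this
    refine differentiableOn_of_relG Metric.isOpen_ball
      (continuousOn_of_hold (by positivity : (0 : ℝ) < 2 * r) hgh) hu ?_
    intro K hK hKc
    obtain ⟨C1, c1, hc1, hrel⟩ := h.rel
    refine ⟨C1, c1, hc1, fun ε hε Y => ?_⟩
    obtain ⟨δ, hδ, hth⟩ := hKc.exists_thickening_subset_open Metric.isOpen_ball hK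
    obtain ⟨ρ0, hρ0, hrel⟩ := hrel ε hε (max Y 2)
    refine ⟨min ρ0 (δ / 4), lt_min hρ0 (by positivity), fun t ht htt => ?_⟩
    rw [lt_min_iff] at htt
    have hmem : ∀ z ∈ K, ∀ w : ℂ, ‖w‖ ≤ 2 → z + t * w ∈ Metric.ball z0 r := by
      intro z hz w hw
      apply hth
      rw [Metric.mem_thickening_iff]
      refine ⟨z, hz, ?_⟩
      rw [dist_eq_norm, add_sub_cancel_left, norm_mul, Complex.norm_real,
        Real.norm_of_nonneg ht.le]
      nlinarith [htt.2, norm_nonneg w]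
    have hw2 : ‖(1 - Complex.I : ℂ)‖ ≤ 2 := by
      refine (norm_sub_le _ _).trans ?_
      simp; norm_num
    have hw1 : ‖(Complex.I * (1 - Complex.I) : ℂ)‖ ≤ 2 := by
      rw [norm_mul, Complex.norm_I, one_mul]; exact hw2
    -- the responses
    have hev := hrel t ht htt.1
    classical
    set Φ : ℕ → (ℂ → ℂ) → Prop := fun j G => GHyp C1 c1 (max Y 2) G ∧ ∀ s : ℝ, |s| ≤ 1 →
      ∀ v : ℤ × ℤ, ‖lat v / (R j : ℂ) - z0‖ < r →
      ‖G (pt s) * (H j (v.1 + ⌊t * R j⌋₊, v.2 + ⌊t * R j⌋₊) - H j v) +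
        G (pt s + (Real.pi / 2 : ℝ)) * (H j (v.1 + ⌊t * R j⌋₊, v.2 - ⌊t * R j⌋₊) - H j v)‖ ≤
        ε * t with hΦ
    set G : ℕ → ℂ → ℂ := fun j => if hj : ∃ G, Φ j G then hj.choose else fun _ => 0 with hG
    have hGs : ∀ᶠ j in (U : Filter ℕ), Φ j (G j) := by
      filter_upwards [hev] with j hj
      have hj' : ∃ G, Φ j G := hj
      simp only [hG, dif_pos hj']
      exact hj'.choose_spec
    have hY2 : (0 : ℝ) < max Y 2 := lt_max_of_lt_right (by norm_num)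
    have hY1 : (1 : ℝ) < max Y 2 := lt_max_of_lt_right (by norm_num)
    obtain ⟨g1, hg1, hlim⟩ := exists_lim_G U hY2 (hGs.mono fun j hj => hj.1)
    refine ⟨g1, hg1.mono (le_max_left _ _), fun s hs z hz => ?_⟩
    have hz' : z ∈ Metric.ball z0 r := hK hz
    have hv := (fl_tendsto hR z).mono_left hU
    have e1 : z + t * Complex.I * (1 - Complex.I) =
        z + t * (((1 : ℤ) : ℂ) + ((1 : ℤ) : ℂ) * Complex.I) := by
      have : Complex.I * Complex.I = -1 := Complex.I_mul_I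
      push_cast
      linear_combination (-(t : ℂ)) * this
    have e2 : z + t * (1 - Complex.I) =
        z + t * (((1 : ℤ) : ℂ) + ((-1 : ℤ) : ℂ) * Complex.I) := by
      push_cast; ring
    have hz1 := hmem z hz _ hw1
    rw [← mul_assoc, e1] at hz1
    have hz2 := hmem z hz _ hw2
    rw [e2] at hz2
    have a1 := disp_tendsto hRU hv ht.le 1 1
    have a2 := disp_tendsto hRU hv ht.le 1 (-1)
    have b0 := hg _ hz' _ hv
    have b1 := hg _ hz1 _ a1
    have b2 := hg _ hz2 _ a2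
    have l1 := hlim _ (pt_mem_UY hY1 hs)
    have l2 := hlim _ (pt_add_mem_UY hY1 hs)
    rw [e1, e2]
    have hl := ((l1.mul (b1.sub b0)).add (l2.mul (b2.sub b0))).norm
    refine le_of_tendsto hl ?_
    filter_upwards [hGs, near_of_tendsto hv hz'] with j h6 h7
    simp only [one_mul, neg_mul, ← sub_eq_add_neg]
    have e3 : ∀ α β a b c d : ℂ, α * (a - d - (b - d)) + β * (c - d - (b - d)) =
        α * (a - b) + β * (c - b) := by intro α β a b c d; ring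
    rw [e3]
    exact h6.2 s hs (fl R z j) h7

/-- **`CRA` from approximations with the relation of the responses.** -/
theorem CRA_of_LocRel {P : PType} {x y : ℤ → ℝ} {R : ℕ → ℝ} {H : ℕ → ℤ × ℤ → ℂ}
    (hR : Tendsto R atTop atTop)
    (h : ∀ U : Ultrafilter ℕ, (U : Filter ℕ) ≤ atTop → ∀ z ∈ Om P.Q x y, ∃ r > 0, ∀ ε > 0,
      ∃ G : ℕ → ℤ × ℤ → ℂ, LocRel R U G z r ∧ ∀ᶠ j in (U : Filter ℕ), ∀ v w : ℤ × ℤ,
        ‖lat v / (R j : ℂ) - z‖ < r → ‖lat w / (R j : ℂ) - z‖ < r →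
        ‖(H j v - H j w) - (G j v - G j w)‖ ≤ ε) : CRA P x y R H := by
  intro U hU z hz
  obtain ⟨r, hr, h⟩ := h U hU z hz
  refine ⟨r, hr, fun ε hε => ?_⟩
  obtain ⟨G, hG, hcl⟩ := h ε hε
  exact ⟨G, hG.locLim hR U hU hr, hcl⟩

end Pool.Agent.Q1.M6f
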