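import Mathlib

/-!
# Module M6f: abstract interface (family of functions on boxes, scales)

`M R` : the functions `H` on `ℤ × ℤ` which are primitives of the parafermion of an environment
containing the box of radius `R` around `0` (after a translation).
-/

set_option autoImplicit false

open Complex Filter Topology

namespace Pool.Agent.Q1.M6f

/-- The box of radius `R` around the origin. -/
def box (R : ℝ) (u : ℤ × ℤ) : Prop := |(u.1 : ℝ)| ≤ R ∧ |(u.2 : ℝ)| ≤ R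

/-- Increment in the direction `(1,1)`. -/
def An (n : ℕ) (H : ℤ × ℤ → ℂ) (z : ℤ × ℤ) : ℂ := H (z + ((n : ℤ), (n : ℤ))) - H z

/-- Increment in the direction `(1,-1)`. -/
def Bn (n : ℕ) (H : ℤ × ℤ → ℂ) (z : ℤ × ℤ) : ℂ := H (z + ((n : ℤ), -(n : ℤ))) - H z

/-- A family of functions closed under restriction to smaller boxes and rotation by 90
degrees. -/
structure Fam (M : ℝ → Set (ℤ × ℤ → ℂ)) : Prop where
  sub : ∀ (R r : ℝ) (H : ℤ × ℤ → ℂ) (z : ℤ × ℤ), H ∈ M R → box (R - r) z →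
    (fun w => H (w + z)) ∈ M r
  rot : ∀ (R : ℝ) (H : ℤ × ℤ → ℂ), H ∈ M R → (fun w : ℤ × ℤ => H (w.2, -w.1)) ∈ M R

/-- The standard quantifier: `n / R` small but bounded below, `R` large. -/
def Small (P : ℝ → ℝ → ℕ → Prop) : Prop :=
  ∀ ε > 0, ∃ ρ₀ > 0, ∀ ρ₁ > 0, ∃ R₀ : ℝ, ∀ R ≥ R₀, ∀ n : ℕ, ρ₁ * R ≤ n → (n : ℝ) ≤ ρ₀ * R →
    P ε R n

/-- The same with one constant instead of all `ε`. -/
def SmallC (P : ℝ → ℕ → Prop) : Prop :=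
  ∃ ρ₀ > 0, ∀ ρ₁ > 0, ∃ R₀ : ℝ, ∀ R ≥ R₀, ∀ n : ℕ, ρ₁ * R ≤ n → (n : ℝ) ≤ ρ₀ * R → P R n

/-- The a priori bound. -/
def AP (M : ℝ → Set (ℤ × ℤ → ℂ)) (C : ℝ) : Prop :=
  ∀ R : ℝ, 1 ≤ R → ∀ H ∈ M R, ∀ u v, box (R / 2) u → box (R / 2) v →
    ‖H u - H v‖ ≤ C * R ^ (2 / 3 : ℝ)

/-- `A = i s B` up to small errors. -/
def Rel (M : ℝ → Set (ℤ × ℤ → ℂ)) (s : ℕ → ℝ) : Prop :=
  Small fun ε R n => ∀ H ∈ M R, ‖An n H 0 - I * s n * Bn n H 0‖ ≤ ε * (n * R ^ (-(1 / 3) : ℝ))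

/-- Lipschitz bound. -/
def Lip (M : ℝ → Set (ℤ × ℤ → ℂ)) (C : ℝ) : Prop :=
  SmallC fun R n => ∀ H ∈ M R, ‖Bn n H 0‖ ≤ C * (n * R ^ (-(1 / 3) : ℝ))

/-- Nondegenerate functions exist. -/
def ND (M : ℝ → Set (ℤ × ℤ → ℂ)) (c : ℝ) : Prop :=
  ∃ R₀ : ℝ, ∀ R ≥ R₀, ∃ H ∈ M R, ∃ u v, box (R / 8) u ∧ box (R / 8) v ∧
    c * R ^ (2 / 3 : ℝ) ≤ ‖H u - H v‖

/-- Asymptotic holomorphy in displacement form. -/
def N1 (M : ℝ → Set (ℤ × ℤ → ℂ)) : Prop :=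
  Small fun ε R n => ∀ H ∈ M R, ‖An n H 0 - I * Bn n H 0‖ ≤ ε * (n * R ^ (-(1 / 3) : ℝ))

lemma Fam.mono {M : ℝ → Set (ℤ × ℤ → ℂ)} (hM : Fam M) {R r : ℝ} {H : ℤ × ℤ → ℂ} (hH : H ∈ M R)
    (h : r ≤ R) : H ∈ M r := by
  have := hM.sub R r H 0 hH (by
    unfold box
    simp only [Prod.fst_zero, Prod.snd_zero, Int.cast_zero, abs_zero]
    constructor <;> linarith)
  simpa using this

/-! ### The recursion over scales -/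

section Rec

variable {M : ℝ → Set (ℤ × ℤ → ℂ)} {L : ℕ → (ℤ × ℤ → ℂ) → ℝ} {K p : ℝ}

/-- Finitely many steps of the recursion. -/
lemma rec_iter (hK : 1 < K) {e ρ₀ ρ₁ R₀ : ℝ}
    (hT : ∀ R ≥ R₀, ∀ n : ℕ, ρ₁ * R ≤ n → (n : ℝ) ≤ ρ₀ * R → ∀ q : ℝ,
      (∀ H ∈ M (R / K), L n H ≤ q) → ∀ H ∈ M R, L n H ≤ e * (n * R ^ (-(1 / 3) : ℝ)) + p * q)
    (J : ℕ) : ∀ (R : ℝ) (n : ℕ), 0 < R → (∀ i < J, R₀ ≤ R / K ^ i) → (∀ i < J, ρ₁ * (R / K ^ i) ≤ n) →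
      (∀ i < J, (n : ℝ) ≤ ρ₀ * (R / K ^ i)) → ∀ q : ℝ, (∀ H ∈ M (R / K ^ J), L n H ≤ q) →
      ∀ H ∈ M R, L n H ≤ (∑ i ∈ Finset.range J, (p * K ^ (1 / 3 : ℝ)) ^ i) *
        (e * (n * R ^ (-(1 / 3) : ℝ))) + p ^ J * q := by
  have hK0 : 0 < K := by linarith
  induction J with
  | zero =>
    intro R n hR _ _ _ q hq H hH
    have := hq H (by simpa using hH)
    simpa using this
  | succ J ih =>
    intro R n hR h1 h2 h3 q hq H hH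
    have hRK : ∀ i : ℕ, R / K / K ^ i = R / K ^ (i + 1) := by
      intro i
      rw [pow_succ']
      field_simp
    have hrec := ih (R / K) n (by positivity)
      (fun i hi => by rw [hRK]; exact h1 (i + 1) (by omega))
      (fun i hi => by rw [hRK]; exact h2 (i + 1) (by omega))
      (fun i hi => by rw [hRK]; exact h3 (i + 1) (by omega)) q
      (fun H hH => hq H (by rw [hRK] at hH; exact hH))
    have h0 := hT R (by simpa using h1 0 (by omega)) n (by simpa using h2 0 (by omega))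
      (by simpa using h3 0 (by omega)) _ hrec H hH
    refine h0.trans (le_of_eq ?_)
    have hpow : (R / K) ^ (-(1 / 3) : ℝ) = K ^ (1 / 3 : ℝ) * R ^ (-(1 / 3) : ℝ) := by
      rw [Real.div_rpow hR.le hK0.le, Real.rpow_neg hK0.le]
      field_simp
    rw [hpow, Finset.sum_range_succ' (fun i => (p * K ^ (1 / 3 : ℝ)) ^ i)]
    simp only [pow_succ, pow_zero]
    rw [← Finset.sum_mul]
    ring

/-- The recursion, with all iterations which are possible. -/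
lemma rec_core (hK : 1 < K) (hp : 0 ≤ p) (hpK : p * K ^ (1 / 3 : ℝ) ≤ 1 / 2) {C : ℝ}
    (hC0 : 0 ≤ C) (hC : ∀ (R : ℝ) (n : ℕ), 1 ≤ n → 4 * (n : ℝ) ≤ R → ∀ H ∈ M R,
      L n H ≤ C * (n : ℝ) ^ (2 / 3 : ℝ))
    {e ρ₀ : ℝ} (he : 0 ≤ e) (hρ₀ : 0 < ρ₀) (hρ₀K : 4 * ρ₀ * K ≤ 1)
    (hT : ∀ ρ₁ > 0, ∃ R₀ : ℝ, ∀ R ≥ R₀, ∀ n : ℕ, ρ₁ * R ≤ n → (n : ℝ) ≤ ρ₀ * R → ∀ q : ℝ,
      (∀ H ∈ M (R / K), L n H ≤ q) → ∀ H ∈ M R, L n H ≤ e * (n * R ^ (-(1 / 3) : ℝ)) + p * q) :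
    ∀ ρ₁ > 0, ∃ R₀ : ℝ, ∀ R ≥ R₀, ∀ n : ℕ, ρ₁ * R ≤ n → (n : ℝ) ≤ ρ₀ * R →
      ∃ J : ℕ, ρ₀ * R < K ^ (J + 1) * n ∧ ∀ H ∈ M R,
        L n H ≤ (2 * e + (1 / 2) ^ (J + 1) * C * ρ₀ ^ (-(1 / 3) : ℝ)) *
          (n * R ^ (-(1 / 3) : ℝ)) := by
  intro ρ₁ hρ₁
  obtain ⟨R₀, hR₀⟩ := hT ρ₁ hρ₁
  have hK0 : 0 < K := by linarith
  refine ⟨max 1 (R₀ * ρ₀ / ρ₁), fun R hR n hn1 hn2 => ?_⟩
  have hR1 : 1 ≤ R := (le_max_left _ _).trans hR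
  have hR0 : 0 < R := by linarith
  have hRR : R₀ * ρ₀ / ρ₁ ≤ R := (le_max_right _ _).trans hR
  have hn0 : (0 : ℝ) < n := lt_of_lt_of_le (by positivity) hn1
  have hn1' : 1 ≤ n := by
    have : 0 < n := by exact_mod_cast hn0
    omega
  obtain ⟨J, hJ1, hJ2⟩ := exists_nat_pow_near (x := ρ₀ * R / n) (y := K)
    (by rw [le_div_iff₀ hn0]; linarith) hK
  rw [le_div_iff₀ hn0] at hJ1
  rw [div_lt_iff₀ hn0] at hJ2
  refine ⟨J, hJ2, fun H hH => ?_⟩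
  have hle : ∀ i < J + 1, K ^ i * n ≤ ρ₀ * R := by
    intro i hi
    refine le_trans ?_ hJ1
    gcongr
    · exact hK.le
    · omega
  have h3 : ∀ i < J + 1, (n : ℝ) ≤ ρ₀ * (R / K ^ i) := by
    intro i hi
    rw [mul_div_assoc', le_div_iff₀ (by positivity)]
    linarith [hle i hi]
  have h1 : ∀ i < J + 1, R₀ ≤ R / K ^ i := by
    intro i hi
    have e1 := h3 i hi
    have e2 : R₀ * ρ₀ ≤ ρ₁ * R := by
      rw [div_le_iff₀ hρ₁] at hRR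
      linarith
    have e3 : R₀ * ρ₀ ≤ ρ₀ * (R / K ^ i) := by linarith
    nlinarith
  have h2 : ∀ i < J + 1, ρ₁ * (R / K ^ i) ≤ n := by
    intro i hi
    refine le_trans ?_ hn1
    have : R / K ^ i ≤ R := div_le_self hR0.le (one_le_pow₀ hK.le)
    gcongr
  have hq : ∀ H ∈ M (R / K ^ (J + 1)), L n H ≤ C * (n : ℝ) ^ (2 / 3 : ℝ) := by
    intro H hH
    refine hC _ n hn1' ?_ H hH
    rw [le_div_iff₀ (by positivity)]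
    have : K ^ (J + 1) = K ^ J * K := pow_succ _ _
    rw [this]
    calc 4 * (n : ℝ) * (K ^ J * K) = 4 * K * (K ^ J * n) := by ring
      _ ≤ 4 * K * (ρ₀ * R) := by gcongr
      _ = (4 * ρ₀ * K) * R := by ring
      _ ≤ 1 * R := by gcongr
      _ = R := one_mul R
  have hmain := rec_iter hK hR₀ (J + 1) R n hR0 h1 h2 h3 _ hq H hH
  refine hmain.trans ?_
  have hpK0 : 0 ≤ p * K ^ (1 / 3 : ℝ) := by positivity
  have hsum : ∑ i ∈ Finset.range (J + 1), (p * K ^ (1 / 3 : ℝ)) ^ i ≤ 2 := by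
    calc ∑ i ∈ Finset.range (J + 1), (p * K ^ (1 / 3 : ℝ)) ^ i
        ≤ ∑ i ∈ Finset.range (J + 1), (1 / 2 : ℝ) ^ i := by
          apply Finset.sum_le_sum
          intro i _
          gcongr
      _ ≤ 2 := sum_geometric_two_le _
  have hterm : p ^ (J + 1) * (C * (n : ℝ) ^ (2 / 3 : ℝ)) ≤
      (1 / 2) ^ (J + 1) * C * ρ₀ ^ (-(1 / 3) : ℝ) * (n * R ^ (-(1 / 3) : ℝ)) := by
    have a1 : p ^ (J + 1) ≤ (1 / 2) ^ (J + 1) * (K ^ (J + 1)) ^ (-(1 / 3) : ℝ) := by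
      have b1 : (p * K ^ (1 / 3 : ℝ)) ^ (J + 1) ≤ (1 / 2) ^ (J + 1) := by gcongr
      rw [mul_pow] at b1
      have b2 : (K ^ (1 / 3 : ℝ)) ^ (J + 1) = (K ^ (J + 1)) ^ (1 / 3 : ℝ) := by
        rw [← Real.rpow_natCast, ← Real.rpow_mul hK0.le, ← Real.rpow_natCast, ← Real.rpow_mul hK0.le]
        ring_nf
      rw [b2] at b1
      have b3 : (0 : ℝ) < (K ^ (J + 1)) ^ (1 / 3 : ℝ) := by positivity
      have b4 : (K ^ (J + 1)) ^ (-(1 / 3) : ℝ) = ((K ^ (J + 1)) ^ (1 / 3 : ℝ))⁻¹ := by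
        rw [Real.rpow_neg (by positivity)]
      rw [b4, ← div_eq_mul_inv, le_div_iff₀ b3]
      exact b1
    have a2 : (K ^ (J + 1)) ^ (-(1 / 3) : ℝ) ≤ (ρ₀ * R / n) ^ (-(1 / 3) : ℝ) := by
      apply Real.rpow_le_rpow_of_nonpos (by positivity) _ (by norm_num)
      rw [div_le_iff₀ hn0]
      exact hJ2.le
    have a3 : (ρ₀ * R / n) ^ (-(1 / 3) : ℝ) =
        ρ₀ ^ (-(1 / 3) : ℝ) * R ^ (-(1 / 3) : ℝ) * (n : ℝ) ^ (1 / 3 : ℝ) := by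
      rw [Real.div_rpow (by positivity) hn0.le, Real.mul_rpow hρ₀.le hR0.le,
        Real.rpow_neg hn0.le (1 / 3)]
      field_simp
    have a4 : (n : ℝ) ^ (1 / 3 : ℝ) * (n : ℝ) ^ (2 / 3 : ℝ) = n := by
      rw [← Real.rpow_add hn0]
      norm_num
    calc p ^ (J + 1) * (C * (n : ℝ) ^ (2 / 3 : ℝ))
        ≤ ((1 / 2) ^ (J + 1) * (ρ₀ * R / n) ^ (-(1 / 3) : ℝ)) * (C * (n : ℝ) ^ (2 / 3 : ℝ)) := by
          gcongr
          exact a1.trans (by gcongr)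
      _ = (1 / 2) ^ (J + 1) * C * ρ₀ ^ (-(1 / 3) : ℝ) * (((n : ℝ) ^ (1 / 3 : ℝ) *
            (n : ℝ) ^ (2 / 3 : ℝ)) * R ^ (-(1 / 3) : ℝ)) := by
          rw [a3]; ring
      _ = _ := by rw [a4]
  have hfirst : (∑ i ∈ Finset.range (J + 1), (p * K ^ (1 / 3 : ℝ)) ^ i) *
      (e * (n * R ^ (-(1 / 3) : ℝ))) ≤ 2 * (e * (n * R ^ (-(1 / 3) : ℝ))) := by
    gcongr
  calc _ ≤ 2 * (e * (n * R ^ (-(1 / 3) : ℝ))) +
        (1 / 2) ^ (J + 1) * C * ρ₀ ^ (-(1 / 3) : ℝ) * (n * R ^ (-(1 / 3) : ℝ)) :=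
        add_le_add hfirst hterm
    _ = _ := by ring

/-- **Recursion, small form** (section 8 of R2.md). -/
theorem small_of_rec (hK : 1 < K) (hp : 0 ≤ p) (hpK : p * K ^ (1 / 3 : ℝ) ≤ 1 / 2) {C : ℝ}
    (hC0 : 0 ≤ C) (hC : ∀ (R : ℝ) (n : ℕ), 1 ≤ n → 4 * (n : ℝ) ≤ R → ∀ H ∈ M R,
      L n H ≤ C * (n : ℝ) ^ (2 / 3 : ℝ))
    (hT : Small fun ε R n => ∀ q : ℝ, (∀ H ∈ M (R / K), L n H ≤ q) →
      ∀ H ∈ M R, L n H ≤ ε * (n * R ^ (-(1 / 3) : ℝ)) + p * q) :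
    Small fun ε R n => ∀ H ∈ M R, L n H ≤ ε * (n * R ^ (-(1 / 3) : ℝ)) := by
  intro ε hε
  have hK0 : 0 < K := by linarith
  obtain ⟨ρa, hρa, hTa⟩ := hT (ε / 4) (by positivity)
  set ρ' := min ρa (1 / (4 * K)) with hρ'
  have hρ'0 : 0 < ρ' := lt_min hρa (by positivity)
  have hρ'K : 4 * ρ' * K ≤ 1 := by
    have : ρ' ≤ 1 / (4 * K) := min_le_right _ _
    calc 4 * ρ' * K ≤ 4 * (1 / (4 * K)) * K := by gcongr
      _ = 1 := by field_simp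
  have hcore := rec_core (M := M) (L := L) hK hp hpK hC0 hC (e := ε / 4) (ρ₀ := ρ') (by positivity)
    hρ'0 hρ'K (by
      intro ρ₁ hρ₁
      obtain ⟨R₀, hR₀⟩ := hTa ρ₁ hρ₁
      refine ⟨max R₀ 0, fun R hR n h1 h2 => hR₀ R ((le_max_left _ _).trans hR) n h1 (h2.trans ?_)⟩
      have : 0 ≤ R := (le_max_right _ _).trans hR
      gcongr
      exact min_le_left _ _)
  -- number of iterations
  obtain ⟨J₀, hJ₀⟩ : ∃ J₀ : ℕ, (1 / 2 : ℝ) ^ J₀ * (C * ρ' ^ (-(1 / 3) : ℝ)) ≤ ε / 2 := by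
    have hlim : Tendsto (fun J : ℕ => (1 / 2 : ℝ) ^ J * (C * ρ' ^ (-(1 / 3) : ℝ))) atTop
        (𝓝 (0 * (C * ρ' ^ (-(1 / 3) : ℝ)))) :=
      (tendsto_pow_atTop_nhds_zero_of_lt_one (by norm_num) (by norm_num)).mul_const _
    rw [zero_mul] at hlim
    obtain ⟨J₀, h⟩ := (hlim.eventually (ge_mem_nhds (show (0 : ℝ) < ε / 2 by positivity))).exists
    exact ⟨J₀, h⟩
  refine ⟨ρ' / K ^ J₀, by positivity, fun ρ₁ hρ₁ => ?_⟩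
  obtain ⟨R₀, hR₀⟩ := hcore ρ₁ hρ₁
  refine ⟨max R₀ 1, fun R hR n h1 h2 H hH => ?_⟩
  have hR1 : 1 ≤ R := (le_max_right _ _).trans hR
  have hn0 : (0 : ℝ) < n := lt_of_lt_of_le (by positivity) h1
  have hle : (n : ℝ) ≤ ρ' * R := h2.trans (by
    have : ρ' / K ^ J₀ ≤ ρ' := div_le_self hρ'0.le (one_le_pow₀ hK.le)
    gcongr)
  obtain ⟨J, hJ, hb⟩ := hR₀ R ((le_max_left _ _).trans hR) n h1 hle
  refine (hb H hH).trans ?_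
  have hJJ : J₀ < J + 1 := by
    have e1 : K ^ J₀ * n ≤ ρ' * R := by
      rw [div_mul_eq_mul_div, le_div_iff₀ (by positivity)] at h2
      linarith
    have e2 : K ^ J₀ * (n : ℝ) < K ^ (J + 1) * n := lt_of_le_of_lt e1 hJ
    have e3 : K ^ J₀ < K ^ (J + 1) := lt_of_mul_lt_mul_right e2 hn0.le
    exact (pow_lt_pow_iff_right₀ hK).1 e3
  have hunit : 0 ≤ (n : ℝ) * R ^ (-(1 / 3) : ℝ) := by positivity
  apply mul_le_mul_of_nonneg_right _ hunit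
  have e4 : (1 / 2 : ℝ) ^ (J + 1) * C * ρ' ^ (-(1 / 3) : ℝ) ≤ ε / 2 := by
    refine le_trans ?_ hJ₀
    rw [mul_assoc]
    apply mul_le_mul_of_nonneg_right _ (by positivity)
    exact pow_le_pow_of_le_one (by norm_num) (by norm_num) hJJ.le
  linarith

/-- **Recursion, Lipschitz form.** -/
theorem smallC_of_rec (hK : 1 < K) (hp : 0 ≤ p) (hpK : p * K ^ (1 / 3 : ℝ) ≤ 1 / 2) {C : ℝ}
    (hC0 : 0 ≤ C) (hC : ∀ (R : ℝ) (n : ℕ), 1 ≤ n → 4 * (n : ℝ) ≤ R → ∀ H ∈ M R,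
      L n H ≤ C * (n : ℝ) ^ (2 / 3 : ℝ)) {e : ℝ} (he : 0 ≤ e)
    (hT : SmallC fun R n => ∀ q : ℝ, (∀ H ∈ M (R / K), L n H ≤ q) →
      ∀ H ∈ M R, L n H ≤ e * (n * R ^ (-(1 / 3) : ℝ)) + p * q) :
    ∃ C' : ℝ, 0 ≤ C' ∧
      SmallC fun R n => ∀ H ∈ M R, L n H ≤ C' * (n * R ^ (-(1 / 3) : ℝ)) := by
  have hK0 : 0 < K := by linarith
  obtain ⟨ρa, hρa, hTa⟩ := hT
  set ρ' := min ρa (1 / (4 * K)) with hρ'
  have hρ'0 : 0 < ρ' := lt_min hρa (by positivity)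
  have hρ'K : 4 * ρ' * K ≤ 1 := by
    have : ρ' ≤ 1 / (4 * K) := min_le_right _ _
    calc 4 * ρ' * K ≤ 4 * (1 / (4 * K)) * K := by gcongr
      _ = 1 := by field_simp
  have hcore := rec_core (M := M) (L := L) hK hp hpK hC0 hC (e := e) (ρ₀ := ρ') he
    hρ'0 hρ'K (by
      intro ρ₁ hρ₁
      obtain ⟨R₀, hR₀⟩ := hTa ρ₁ hρ₁
      refine ⟨max R₀ 0, fun R hR n h1 h2 => hR₀ R ((le_max_left _ _).trans hR) n h1 (h2.trans ?_)⟩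
      have : 0 ≤ R := (le_max_right _ _).trans hR
      gcongr
      exact min_le_left _ _)
  refine ⟨2 * e + C * ρ' ^ (-(1 / 3) : ℝ), by positivity, ρ', hρ'0, fun ρ₁ hρ₁ => ?_⟩
  obtain ⟨R₀, hR₀⟩ := hcore ρ₁ hρ₁
  refine ⟨max R₀ 1, fun R hR n h1 h2 H hH => ?_⟩
  have hR1 : 1 ≤ R := (le_max_right _ _).trans hR
  obtain ⟨J, hJ, hb⟩ := hR₀ R ((le_max_left _ _).trans hR) n h1 h2
  refine (hb H hH).trans ?_
  have hunit : 0 ≤ (n : ℝ) * R ^ (-(1 / 3) : ℝ) := by positivity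
  apply mul_le_mul_of_nonneg_right _ hunit
  have e4 : (1 / 2 : ℝ) ^ (J + 1) * C * ρ' ^ (-(1 / 3) : ℝ) ≤ C * ρ' ^ (-(1 / 3) : ℝ) := by
    rw [mul_assoc]
    apply mul_le_of_le_one_left (by positivity)
    exact pow_le_one₀ (by norm_num) (by norm_num)
  linarith

end Rec

end Pool.Agent.Q1.M6f
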