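import Mathlib

/-!
# Module M6f: signed area of the image of a grid

`om p q = Im (conj p * q)` is twice the signed area of the triangle `0, p, q`.

* `sum_cell`  : the sum of the areas of the cells is the area of the boundary polygon;
* `cell_le`   : if the four increments `a k` from the centre of a cell satisfy
  `a (k+1) = u * a k + err` with `Im u ≤ -1/2` then the area of the cell is at most `2 * err ^ 2`;
* `young`     : a Hölder path (exponent 2/3) encloses a small area with its chord;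
* `area_le`   : upper bound of the area of the boundary polygon of a square.
-/

set_option autoImplicit false

open Complex Finset

namespace Pool.Agent.Q1.M6f

/-- Twice the signed area of the triangle `0, p, q`. -/
noncomputable def om (p q : ℂ) : ℝ := ((starRingEnd ℂ) p * q).im

lemma om_eq (p q : ℂ) : om p q = p.re * q.im - p.im * q.re := by
  unfold om
  simp
  ring

lemma om_self (p : ℂ) : om p p = 0 := by rw [om_eq]; ring

lemma om_swap (p q : ℂ) : om p q = -om q p := by rw [om_eq, om_eq]; ring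

lemma om_add_right (p q r : ℂ) : om p (q + r) = om p q + om p r := by
  simp only [om_eq, add_re, add_im]; ring

lemma om_add_left (p q r : ℂ) : om (p + q) r = om p r + om q r := by
  simp only [om_eq, add_re, add_im]; ring

lemma om_sub_right (p q r : ℂ) : om p (q - r) = om p q - om p r := by
  simp only [om_eq, sub_re, sub_im]; ring

lemma om_sub_left (p q r : ℂ) : om (p - q) r = om p r - om q r := by
  simp only [om_eq, sub_re, sub_im]; ring

lemma om_mul_self (p u : ℂ) : om p (u * p) = u.im * ‖p‖ ^ 2 := by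
  rw [om_eq, mul_im, mul_re, ← Complex.normSq_eq_norm_sq, Complex.normSq_apply]
  ring

lemma abs_om_le (p q : ℂ) : |om p q| ≤ ‖p‖ * ‖q‖ := by
  unfold om
  refine (Complex.abs_im_le_norm _).trans ?_
  rw [norm_mul, Complex.norm_conj]

lemma om_le (p q : ℂ) : om p q ≤ ‖p‖ * ‖q‖ := (le_abs_self _).trans (abs_om_le p q)

/-! ### Cells -/

/-- Twice the signed area of the cell `(i, j)`. -/
noncomputable def cell (f : ℕ → ℕ → ℂ) (i j : ℕ) : ℝ :=
  om (f i j) (f (i + 1) j) + om (f (i + 1) j) (f (i + 1) (j + 1)) +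
    om (f (i + 1) (j + 1)) (f i (j + 1)) + om (f i (j + 1)) (f i j)

/-- Twice the signed area of the boundary polygon of `[0,a] × [0,b]`. -/
noncomputable def bd (f : ℕ → ℕ → ℂ) (a b : ℕ) : ℝ :=
  (∑ i ∈ range a, om (f i 0) (f (i + 1) 0)) - (∑ i ∈ range a, om (f i b) (f (i + 1) b)) +
    ((∑ j ∈ range b, om (f a j) (f a (j + 1))) - ∑ j ∈ range b, om (f 0 j) (f 0 (j + 1)))

theorem sum_cell (f : ℕ → ℕ → ℂ) (a b : ℕ) :
    ∑ i ∈ range a, ∑ j ∈ range b, cell f i j = bd f a b := by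
  have e : ∀ i j, cell f i j = (om (f i j) (f (i + 1) j) - om (f i (j + 1)) (f (i + 1) (j + 1))) +
      (om (f (i + 1) j) (f (i + 1) (j + 1)) - om (f i j) (f i (j + 1))) := by
    intro i j
    unfold cell
    rw [om_swap (f (i + 1) (j + 1)) (f i (j + 1)), om_swap (f i (j + 1)) (f i j)]
    ring
  simp only [e, sum_add_distrib]
  unfold bd
  congr 1
  · rw [← sum_sub_distrib]
    apply sum_congr rfl
    intro i _
    rw [sum_range_sub' (fun j => om (f i j) (f (i + 1) j))]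
  · rw [sum_comm, ← sum_sub_distrib]
    apply sum_congr rfl
    intro j _
    rw [sum_range_sub (fun i => om (f i j) (f i (j + 1)))]

/-- Area of a cell from its centre. -/
lemma cell_center (f : ℕ → ℕ → ℂ) (i j : ℕ) (c : ℂ) :
    cell f i j = om (f (i + 1) j - c) (f (i + 1) (j + 1) - c) +
      om (f (i + 1) (j + 1) - c) (f i (j + 1) - c) + om (f i (j + 1) - c) (f i j - c) +
      om (f i j - c) (f (i + 1) j - c) := by
  unfold cell
  simp only [om_eq, sub_re, sub_im]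
  ring

lemma om_rel_le {u a b : ℂ} {e : ℝ} (hu : u.im ≤ -(1 / 2)) (h : ‖b - u * a‖ ≤ e) :
    om a b ≤ e ^ 2 / 2 := by
  have h1 : b = u * a + (b - u * a) := by ring
  rw [h1, om_add_right, om_mul_self]
  have h2 := om_le a (b - u * a)
  have h3 : ‖a‖ * ‖b - u * a‖ ≤ ‖a‖ * e := mul_le_mul_of_nonneg_left h (norm_nonneg a)
  have h4 : u.im * ‖a‖ ^ 2 ≤ -(1 / 2) * ‖a‖ ^ 2 := mul_le_mul_of_nonneg_right hu (sq_nonneg _)
  nlinarith [sq_nonneg (‖a‖ - e)]

/-- A cell with the four relations. -/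
theorem cell_le {f : ℕ → ℕ → ℂ} {i j : ℕ} {c u : ℂ} {e : ℝ} (hu : u.im ≤ -(1 / 2))
    (h0 : ‖(f (i + 1) (j + 1) - c) - u * (f (i + 1) j - c)‖ ≤ e)
    (h1 : ‖(f i (j + 1) - c) - u * (f (i + 1) (j + 1) - c)‖ ≤ e)
    (h2 : ‖(f i j - c) - u * (f i (j + 1) - c)‖ ≤ e)
    (h3 : ‖(f (i + 1) j - c) - u * (f i j - c)‖ ≤ e) : cell f i j ≤ 2 * e ^ 2 := by
  rw [cell_center f i j c]
  have := om_rel_le hu h0
  have := om_rel_le hu h1
  have := om_rel_le hu h2
  have := om_rel_le hu h3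
  linarith

/-- A small cell. -/
lemma abs_cell_le {f : ℕ → ℕ → ℂ} {i j : ℕ} {B : ℝ}
    (h1 : ‖f (i + 1) j - f i j‖ ≤ B) (h2 : ‖f (i + 1) (j + 1) - f i j‖ ≤ B)
    (h3 : ‖f i (j + 1) - f i j‖ ≤ B) : |cell f i j| ≤ 2 * B ^ 2 := by
  have hB : 0 ≤ B := (norm_nonneg _).trans h1
  have e : cell f i j = om (f (i + 1) j - f i j) (f (i + 1) (j + 1) - f i j) +
      om (f (i + 1) (j + 1) - f i j) (f i (j + 1) - f i j) := by
    unfold cell
    simp only [om_eq, sub_re, sub_im]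
    ring
  rw [e]
  refine (abs_add_le _ _).trans ?_
  have a1 := (abs_om_le (f (i + 1) j - f i j) (f (i + 1) (j + 1) - f i j)).trans
    (mul_le_mul h1 h2 (norm_nonneg _) hB)
  have a2 := (abs_om_le (f (i + 1) (j + 1) - f i j) (f i (j + 1) - f i j)).trans
    (mul_le_mul h2 h3 (norm_nonneg _) hB)
  nlinarith

/-! ### The dyadic Young estimate -/

lemma four_thirds : (5 / 2 : ℝ) ≤ 2 ^ (4 / 3 : ℝ) := by
  have h1 : ((5 / 2 : ℝ) ^ (3 : ℝ)) ^ (1 / 3 : ℝ) ≤ ((2 : ℝ) ^ (4 : ℝ)) ^ (1 / 3 : ℝ) := by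
    apply Real.rpow_le_rpow (by positivity) _ (by norm_num)
    norm_num
  rw [← Real.rpow_mul (by norm_num), ← Real.rpow_mul (by norm_num)] at h1
  norm_num at h1
  exact h1

lemma two_thirds : (2 : ℝ) ^ (2 / 3 : ℝ) ≤ 2 := by
  have h1 : (2 : ℝ) ^ (2 / 3 : ℝ) ≤ 2 ^ (1 : ℝ) :=
    Real.rpow_le_rpow_of_exponent_le (by norm_num) (by norm_num)
  rwa [Real.rpow_one] at h1

/-- **Dyadic Young estimate**: the area between a Hölder path of exponent `2/3` and its chord. -/
theorem young (k : ℕ) : ∀ (b : ℕ → ℂ) (A : ℝ), 0 ≤ A →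
    (∀ i j : ℕ, i ≤ j → j ≤ 2 ^ k → ‖b j - b i‖ ≤ A * ((j : ℝ) - i) ^ (2 / 3 : ℝ)) →
    |(∑ i ∈ range (2 ^ k), om (b i) (b (i + 1))) - om (b 0) (b (2 ^ k))| ≤
      4 * A ^ 2 * ((2 : ℝ) ^ k) ^ (4 / 3 : ℝ) := by
  induction k with
  | zero =>
    intro b A hA h
    simp
    positivity
  | succ k ih =>
    intro b A hA h
    have hpow : 2 ^ (k + 1) = 2 ^ k + 2 ^ k := by rw [pow_succ]; ring
    have hk0 : 0 < 2 ^ k := by positivity
    have i1 := ih b A hA (fun i j hij hj => h i j hij (by omega))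
    have i2 := ih (fun i => b (2 ^ k + i)) A hA (fun i j hij hj => by
      have := h (2 ^ k + i) (2 ^ k + j) (by omega) (by omega)
      push_cast at this
      rwa [add_sub_add_left_eq_sub] at this)
    simp only [add_zero] at i2
    have e1 : ∑ i ∈ range (2 ^ (k + 1)), om (b i) (b (i + 1)) =
        (∑ i ∈ range (2 ^ k), om (b i) (b (i + 1))) +
          ∑ i ∈ range (2 ^ k), om (b (2 ^ k + i)) (b (2 ^ k + (i + 1))) := by
      rw [hpow, sum_range_add]
      rfl
    have e2 : (∑ i ∈ range (2 ^ (k + 1)), om (b i) (b (i + 1))) - om (b 0) (b (2 ^ (k + 1))) =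
        ((∑ i ∈ range (2 ^ k), om (b i) (b (i + 1))) - om (b 0) (b (2 ^ k))) +
        ((∑ i ∈ range (2 ^ k), om (b (2 ^ k + i)) (b (2 ^ k + (i + 1)))) -
          om (b (2 ^ k)) (b (2 ^ k + 2 ^ k))) +
        om (b (2 ^ k) - b 0) (b (2 ^ k + 2 ^ k) - b 0) := by
      rw [e1, hpow]
      simp only [om_eq, sub_re, sub_im]
      ring
    rw [e2]
    set T : ℝ := ((2 : ℝ) ^ k) ^ (2 / 3 : ℝ) with hT
    have hT0 : 0 ≤ T := by positivity
    have t1 : ‖b (2 ^ k) - b 0‖ ≤ A * T := by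
      have := h 0 (2 ^ k) (Nat.zero_le _) (by omega)
      push_cast at this
      rwa [sub_zero] at this
    have t2 : ‖b (2 ^ k + 2 ^ k) - b 0‖ ≤ A * (2 * T) := by
      have h1 := h 0 (2 ^ k + 2 ^ k) (Nat.zero_le _) (by omega)
      push_cast at h1
      rw [sub_zero, show ((2 : ℝ) ^ k + 2 ^ k) = 2 * 2 ^ k by ring,
        Real.mul_rpow (by norm_num) (by positivity)] at h1
      refine h1.trans ?_
      have := two_thirds
      gcongr
    have t3 : |om (b (2 ^ k) - b 0) (b (2 ^ k + 2 ^ k) - b 0)| ≤ 2 * A ^ 2 * T ^ 2 := by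
      refine (abs_om_le _ _).trans ?_
      calc _ ≤ (A * T) * (A * (2 * T)) := mul_le_mul t1 t2 (norm_nonneg _) (by positivity)
        _ = _ := by ring
    have hT2 : ((2 : ℝ) ^ k) ^ (4 / 3 : ℝ) = T ^ 2 := by
      rw [hT, ← Real.rpow_mul_natCast (by positivity)]
      norm_num
    have hT3 : ((2 : ℝ) ^ (k + 1)) ^ (4 / 3 : ℝ) = 2 ^ (4 / 3 : ℝ) * T ^ 2 := by
      rw [pow_succ, mul_comm, Real.mul_rpow (by norm_num) (by positivity), hT2]
    rw [hT3]
    rw [hT2] at i1 i2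
    have h5 := four_thirds
    have hA2 : 0 ≤ A ^ 2 * T ^ 2 := by positivity
    calc _ ≤ 4 * A ^ 2 * T ^ 2 + 4 * A ^ 2 * T ^ 2 + 2 * A ^ 2 * T ^ 2 :=
          (abs_add_le _ _).trans (add_le_add ((abs_add_le _ _).trans (add_le_add i1 i2)) t3)
      _ = 10 * (A ^ 2 * T ^ 2) := by ring
      _ ≤ 4 * 2 ^ (4 / 3 : ℝ) * (A ^ 2 * T ^ 2) := by
          apply mul_le_mul_of_nonneg_right _ hA2
          linarith
      _ = _ := by ring

/-- Fine polygon against coarse polygon: `m` coarse steps of `2 ^ k` fine steps. -/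
theorem young_path (k m : ℕ) (b : ℕ → ℂ) {A : ℝ} (hA : 0 ≤ A)
    (h : ∀ i j : ℕ, i ≤ j → j ≤ m * 2 ^ k → ‖b j - b i‖ ≤ A * ((j : ℝ) - i) ^ (2 / 3 : ℝ)) :
    |(∑ i ∈ range (m * 2 ^ k), om (b i) (b (i + 1))) -
      ∑ i ∈ range m, om (b (i * 2 ^ k)) (b ((i + 1) * 2 ^ k))| ≤
      m * (4 * A ^ 2 * ((2 : ℝ) ^ k) ^ (4 / 3 : ℝ)) := by
  induction m with
  | zero => simp
  | succ m ih =>
    have h1 := ih (fun i j hij hj => h i j hij
      (hj.trans (by rw [Nat.succ_mul]; exact Nat.le_add_right _ _)))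
    have h2 := young k (fun i => b (m * 2 ^ k + i)) A hA (fun i j hij hj => by
      have := h (m * 2 ^ k + i) (m * 2 ^ k + j) (by omega)
        (by rw [Nat.succ_mul]; exact Nat.add_le_add_left hj _)
      push_cast at this
      rwa [add_sub_add_left_eq_sub] at this)
    simp only [add_zero] at h2
    have e1 : (m + 1) * 2 ^ k = m * 2 ^ k + 2 ^ k := by ring
    have e2 : (∑ i ∈ range ((m + 1) * 2 ^ k), om (b i) (b (i + 1))) -
        ∑ i ∈ range (m + 1), om (b (i * 2 ^ k)) (b ((i + 1) * 2 ^ k)) =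
        ((∑ i ∈ range (m * 2 ^ k), om (b i) (b (i + 1))) -
          ∑ i ∈ range m, om (b (i * 2 ^ k)) (b ((i + 1) * 2 ^ k))) +
        ((∑ i ∈ range (2 ^ k), om (b (m * 2 ^ k + i)) (b (m * 2 ^ k + (i + 1)))) -
          om (b (m * 2 ^ k)) (b (m * 2 ^ k + 2 ^ k))) := by
      rw [e1, sum_range_add, sum_range_succ, e1]
      have : ∀ i, b (m * 2 ^ k + i + 1) = b (m * 2 ^ k + (i + 1)) := fun i => rfl
      simp only [this]
      ring
    rw [e2]
    refine (abs_add_le _ _).trans ?_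
    push_cast
    linarith

end Pool.Agent.Q1.M6f
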