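import Mathlib
import Pool.Agent.Q1.M6f.Sym
import Pool.Agent.Q1.M6f.Abs
import Pool.Agent.Q1.M4.Inputs

set_option autoImplicit false
open Finset

/-! The concrete family of functions of module M6f: primitives of the environments of a class `K`,
seen from the centre of a box of random labels. Rotation, restriction, the a priori bound, and the
passage from `M6f.N1` to `Q1.N1`. -/

namespace Pool.Agent.Q1

open Pool.Agent.H75.Perc Pool.Agent.H75.TwoArm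

/-! ### Rotation and translation of primitives -/

lemma rotS_in (e : ℤ × ℤ) :
    (in1 (rotS.t e) = rotS.s (in1 e) ∧ in2 (rotS.t e) = rotS.s (in2 e)) ∨
    (in1 (rotS.t e) = rotS.s (in2 e) ∧ in2 (rotS.t e) = rotS.s (in1 e)) ∨ (e.1 + e.2) % 2 = 0 := by
  rcases Int.emod_two_eq_zero_or_one (e.1 + e.2) with h0 | h0
  · exact Or.inr (Or.inr h0)
  · have ht : rotS.t e = (-e.2, e.1) := rfl
    have hs : ∀ c, rotS.s c = (1 - c.2, c.1) := fun _ => rfl
    rw [ht, hs, hs]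
    rcases Int.emod_two_eq_zero_or_one e.1 with h1 | h1
    · have h2 : (-e.2) % 2 = 1 := by omega
      left
      constructor
      · ext <;> simp [in1, h1, h2]
      · ext <;> simp [in2, h1, h2] <;> ring
    · have h2 : (-e.2) % 2 = 0 := by omega
      right; left
      constructor
      · ext <;> simp [in1, in2, h1, h2]
      · ext <;> simp [in1, in2, h1, h2] <;> ring

lemma vx_rotS (c : ℤ × ℤ) : vx (rotS.s c) = (-(vx c).2, (vx c).1) := by
  have hs : rotS.s c = (1 - c.2, c.1) := rfl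
  rw [hs]; unfold vx
  ext <;> simp only <;> omega

lemma fi_rotS (c : ℤ × ℤ) : fi (rotS.s c) = (1 - (fi c).2, (fi c).1) := by
  have hs : rotS.s c = (1 - c.2, c.1) := rfl
  rw [hs]; unfold fi
  ext <;> simp only <;> omega

/-- **Rotation of the primitive.** -/
theorem Env.Prim.rot {X : Env} {a b c d : ℤ} {Hv Hf : ℤ × ℤ → ℂ} (h : X.Prim a b c d Hv Hf) :
    (X.tr rotS).Prim (-d) (-c) a b (fun v => ph 1 * Hv (v.2, -v.1))
      (fun p => ph 1 * Hf (p.2, 1 - p.1)) := by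
  intro e he
  obtain ⟨e1, rfl⟩ := rotS.t.surjective e
  have ht : rotS.t e1 = (-e1.2, e1.1) := rfl
  have he1 : e1 ∈ Bx a b c d := by
    rw [mem_Bx] at he ⊢
    rw [ht] at he
    simp only at he
    omega
  have ho : (e1.1 + e1.2) % 2 = 1 := (mem_Bx.1 he1).2.2
  intro c' hc
  have key : ∃ c1, rotS.s c1 = c' ∧
      (c1 = in1 e1 ∨ c1 = in2 e1 ∨ c1 = nxC (in1 e1) ∨ c1 = nxC (in2 e1)) := by
    rcases rotS_in e1 with ⟨h1, h2⟩ | ⟨h1, h2⟩ | h0
    · rw [h1, h2, rotS.hC, rotS.hC] at hc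
      rcases hc with hc | hc | hc | hc
      · exact ⟨_, hc.symm, Or.inl rfl⟩
      · exact ⟨_, hc.symm, Or.inr (Or.inl rfl)⟩
      · exact ⟨_, hc.symm, Or.inr (Or.inr (Or.inl rfl))⟩
      · exact ⟨_, hc.symm, Or.inr (Or.inr (Or.inr rfl))⟩
    · rw [h1, h2, rotS.hC, rotS.hC] at hc
      rcases hc with hc | hc | hc | hc
      · exact ⟨_, hc.symm, Or.inr (Or.inl rfl)⟩
      · exact ⟨_, hc.symm, Or.inl rfl⟩
      · exact ⟨_, hc.symm, Or.inr (Or.inr (Or.inr rfl))⟩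
      · exact ⟨_, hc.symm, Or.inr (Or.inr (Or.inl rfl))⟩
    · omega
  obtain ⟨c1, rfl, hc1⟩ := key
  have hk : rotS.k = 1 := rfl
  rw [Env.inc_tr, vx_rotS, fi_rotS, hk]
  simp only [sub_sub_cancel, neg_neg]
  rw [← h e1 he1 c1 hc1]; ring

lemma Env.rot_sub {X : Env} {a b c d : ℤ} (h : Bx a b c d ⊆ X.E) :
    Bx (-d) (-c) a b ⊆ (X.tr rotS).E := by
  intro e he
  obtain ⟨e1, rfl⟩ := rotS.t.surjective e
  have ht : rotS.t e1 = (-e1.2, e1.1) := rfl
  show rotS.t e1 ∈ X.E.map rotS.t.toEmbedding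
  rw [mem_map_equiv, Equiv.symm_apply_apply]
  apply h
  rw [mem_Bx] at he ⊢
  rw [ht] at he
  simp only at he
  omega

/-- **Translation of the primitive.** -/
theorem Env.Prim.sh {X : Env} {a b c d : ℤ} {Hv Hf : ℤ × ℤ → ℂ} (h : X.Prim a b c d Hv Hf)
    (t : ℤ × ℤ) : (X.tr (shS t)).Prim (a + t.1) (b + t.1) (c + t.2) (d + t.2)
      (fun v => Hv (v - t)) (fun p => Hf (p - t)) := by
  intro e he
  obtain ⟨e1, rfl⟩ := (shS t).t.surjective e
  have ht : (shS t).t e1 = (e1.1 + 2 * t.1, e1.2 + 2 * t.2) := rfl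
  have hs : ∀ c, (shS t).s c = (c.1 + 2 * t.1, c.2 + 2 * t.2) := fun _ => rfl
  have he1 : e1 ∈ Bx a b c d := by
    rw [mem_Bx] at he ⊢
    rw [ht] at he
    simp only at he
    omega
  have ho : (e1.1 + e1.2) % 2 = 1 := (mem_Bx.1 he1).2.2
  have hin : in1 ((shS t).t e1) = (shS t).s (in1 e1) ∧ in2 ((shS t).t e1) = (shS t).s (in2 e1) := by
    rw [ht, hs, hs]
    have e1' : (e1.1 + 2 * t.1) % 2 = e1.1 % 2 := by omega
    rcases Int.emod_two_eq_zero_or_one e1.1 with h1 | h1 <;>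
      constructor <;> ext <;> simp [in1, in2, e1', h1] <;> ring
  intro c' hc
  rw [hin.1, hin.2, (shS t).hC, (shS t).hC] at hc
  have key : ∃ c1, (shS t).s c1 = c' ∧
      (c1 = in1 e1 ∨ c1 = in2 e1 ∨ c1 = nxC (in1 e1) ∨ c1 = nxC (in2 e1)) := by
    rcases hc with hc | hc | hc | hc
    · exact ⟨_, hc.symm, Or.inl rfl⟩
    · exact ⟨_, hc.symm, Or.inr (Or.inl rfl)⟩
    · exact ⟨_, hc.symm, Or.inr (Or.inr (Or.inl rfl))⟩
    · exact ⟨_, hc.symm, Or.inr (Or.inr (Or.inr rfl))⟩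
  obtain ⟨c1, rfl, hc1⟩ := key
  have hk : (shS t).k = 0 := rfl
  have v1 : vx ((shS t).s c1) - t = vx c1 := by
    rw [hs]; unfold vx
    ext <;> simp only [Prod.fst_sub, Prod.snd_sub] <;> omega
  have v2 : fi ((shS t).s c1) - t = fi c1 := by
    rw [hs]; unfold fi
    ext <;> simp only [Prod.fst_sub, Prod.snd_sub] <;> omega
  rw [Env.inc_tr, hk, ph_zero, one_mul]
  simp only
  rw [v1, v2]
  exact h e1 he1 c1 hc1

lemma Env.sh_sub {X : Env} {a b c d : ℤ} (h : Bx a b c d ⊆ X.E) (t : ℤ × ℤ) :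
    Bx (a + t.1) (b + t.1) (c + t.2) (d + t.2) ⊆ (X.tr (shS t)).E := by
  intro e he
  obtain ⟨e1, rfl⟩ := (shS t).t.surjective e
  have ht : (shS t).t e1 = (e1.1 + 2 * t.1, e1.2 + 2 * t.2) := rfl
  show (shS t).t e1 ∈ X.E.map (shS t).t.toEmbedding
  rw [mem_map_equiv, Equiv.symm_apply_apply]
  apply h
  rw [mem_Bx] at he ⊢
  rw [ht] at he
  simp only at he
  omega

/-! ### The family -/

namespace M6f

/-- The primitives of the environments of the class `K` which contain the box of radius `R`, moved to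
the origin, up to a unimodular factor and an additive constant. -/
def famM (K : Env → Prop) (R : ℝ) : Set (ℤ × ℤ → ℂ) :=
  {H | ∃ X, K X ∧ ∃ a b : ℤ, Bx (a - ⌊R⌋) (a + ⌊R⌋) (b - ⌊R⌋) (b + ⌊R⌋) ⊆ X.E ∧
    ∃ Hv Hf : ℤ × ℤ → ℂ, X.Prim (a - ⌊R⌋) (a + ⌊R⌋) (b - ⌊R⌋) (b + ⌊R⌋) Hv Hf ∧
    ∃ c κ : ℂ, ‖c‖ = 1 ∧ ∀ w : ℤ × ℤ, |w.1| ≤ ⌊R⌋ → |w.2| ≤ ⌊R⌋ →
      H w = c * Hv (w.1 + a, w.2 + b) + κ}

lemma Bx_sub {a b c d a' b' c' d' : ℤ} (h1 : a ≤ a') (h2 : b' ≤ b) (h3 : c ≤ c') (h4 : d' ≤ d) :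
    Bx a' b' c' d' ⊆ Bx a b c d := by
  intro e he
  rw [mem_Bx] at he ⊢
  omega

lemma floor_box {R r : ℝ} {z : ℤ × ℤ} (hz : box (R - r) z) :
    |z.1| + ⌊r⌋ ≤ ⌊R⌋ ∧ |z.2| + ⌊r⌋ ≤ ⌊R⌋ := by
  obtain ⟨h1, h2⟩ := hz
  have hr := Int.floor_le r
  constructor
  · rw [Int.le_floor]; push_cast; linarith
  · rw [Int.le_floor]; push_cast; linarith

/-- **The family is closed under restriction and rotation.** -/
theorem fam_famM {K : Env → Prop} (hK : ∀ X, K X → K (X.tr rotS)) : Fam (famM K) where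
  sub := by
    rintro R r H z ⟨X, hX, a, b, hB, Hv, Hf, hP, c, κ, hc, hw⟩ hz
    obtain ⟨z1, z2⟩ := floor_box hz
    have f1 := neg_abs_le z.1
    have f2 := le_abs_self z.1
    have f3 := neg_abs_le z.2
    have f4 := le_abs_self z.2
    have hsub : Bx (a + z.1 - ⌊r⌋) (a + z.1 + ⌊r⌋) (b + z.2 - ⌊r⌋) (b + z.2 + ⌊r⌋) ⊆
        Bx (a - ⌊R⌋) (a + ⌊R⌋) (b - ⌊R⌋) (b + ⌊R⌋) :=
      Bx_sub (by omega) (by omega) (by omega) (by omega)
    refine ⟨X, hX, a + z.1, b + z.2, hsub.trans hB, Hv, Hf, fun e he => hP e (hsub he), c, κ, hc,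
      fun w h1 h2 => ?_⟩
    have g1 := neg_abs_le w.1
    have g2 := le_abs_self w.1
    have g3 := neg_abs_le w.2
    have g4 := le_abs_self w.2
    have k1 : |w.1 + z.1| ≤ ⌊R⌋ := abs_le.2 ⟨by omega, by omega⟩
    have k2 : |w.2 + z.2| ≤ ⌊R⌋ := abs_le.2 ⟨by omega, by omega⟩
    show H (w + z) = _
    rw [hw (w + z) (by simpa using k1) (by simpa using k2)]
    simp only [Prod.fst_add, Prod.snd_add]
    rw [show w.1 + z.1 + a = w.1 + (a + z.1) by ring, show w.2 + z.2 + b = w.2 + (b + z.2) by ring]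
  rot := by
    rintro R H ⟨X, hX, a, b, hB, Hv, Hf, hP, c, κ, hc, hw⟩
    have e1 : -(b + ⌊R⌋) = -b - ⌊R⌋ := by ring
    have e2 : -(b - ⌊R⌋) = -b + ⌊R⌋ := by ring
    refine ⟨X.tr rotS, hK X hX, -b, a, ?_, (fun v => ph 1 * Hv (v.2, -v.1)),
      (fun p => ph 1 * Hf (p.2, 1 - p.1)), ?_, c * (ph 1)⁻¹, κ, ?_, fun w h1 h2 => ?_⟩
    · have := Env.rot_sub hB
      rwa [e1, e2] at this
    · have := hP.rot
      rwa [e1, e2] at this
    · rw [norm_mul, norm_inv, ph_norm, hc]; norm_num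
    · simp only
      rw [hw (w.2, -w.1) h2 (by simpa using h1)]
      have e3 : -(w.1 + -b) = -w.1 + b := by ring
      rw [e3]
      have := ph_ne 1
      field_simp

/-! ### From `M6f.N1` to `Q1.N1` -/

theorem N1_of_fam {K : Env → Prop} (h : N1 (famM K)) : Q1.N1 K := by
  intro ε hε
  obtain ⟨ρ0, hρ0, h⟩ := h ε hε
  refine ⟨min ρ0 1, lt_min hρ0 one_pos, fun ρ1 hρ1 => ?_⟩
  obtain ⟨R0, h⟩ := h ρ1 hρ1
  refine ⟨⌈R0⌉₊, fun N n hN hn1 hn2 X hX a b hB Hv Hf hP => ?_⟩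
  have hNR : R0 ≤ (N : ℝ) := (Nat.le_ceil R0).trans (by exact_mod_cast hN)
  have hn2' : (n : ℝ) ≤ ρ0 * N := hn2.trans
    (mul_le_mul_of_nonneg_right (min_le_left _ _) (Nat.cast_nonneg _))
  have hnN : (n : ℤ) ≤ N := by
    have : (n : ℝ) ≤ N := hn2.trans (by
      calc min ρ0 1 * (N : ℝ) ≤ 1 * N :=
            mul_le_mul_of_nonneg_right (min_le_right _ _) (Nat.cast_nonneg _)
        _ = N := one_mul _)
    exact_mod_cast this
  have hfl : ⌊(N : ℝ)⌋ = (N : ℤ) := Int.floor_natCast N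
  have hmem : (fun w : ℤ × ℤ => Hv (w.1 + a, w.2 + b)) ∈ famM K (N : ℝ) := by
    refine ⟨X, hX, a, b, by rw [hfl]; exact hB, Hv, Hf, by rw [hfl]; exact hP, 1, 0, by simp,
      fun w _ _ => by simp⟩
  have key := h (N : ℝ) hNR n hn1 hn2' _ hmem
  unfold An Bn at key
  simp only [zero_add, Prod.fst_zero, Prod.snd_zero] at key
  have e1 : ((n : ℤ) + a, (n : ℤ) + b) = (a + n, b + n) := by ext <;> simp [add_comm]
  have e2 : ((n : ℤ) + a, -(n : ℤ) + b) = (a + n, b - n) := by ext <;> simp only <;> ring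
  rw [e1, e2] at key
  calc _ ≤ ε * (n * (N : ℝ) ^ (-(1 / 3) : ℝ)) := key
    _ = _ := by ring

/-! ### The a priori bound -/

lemma chain {H : ℤ × ℤ → ℂ} {n s : ℤ} {D : ℝ} (hs : 0 ≤ s) (_hD : 0 ≤ D)
    (h : ∀ p q : ℤ × ℤ, |p.1| ≤ n → |p.2| ≤ n → |q.1| ≤ n → |q.2| ≤ n → |q.1 - p.1| ≤ s →
      |q.2 - p.2| ≤ s → ‖H p - H q‖ ≤ D) (k : ℕ) :
    ∀ p q : ℤ × ℤ, |p.1| ≤ n → |p.2| ≤ n → |q.1| ≤ n → |q.2| ≤ n → |q.1 - p.1| ≤ k * s →
      |q.2 - p.2| ≤ k * s → ‖H p - H q‖ ≤ k * D := by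
  induction k with
  | zero =>
    intro p q _ _ _ _ h5 h6
    have h7 : q.1 - p.1 = 0 := abs_eq_zero.1 (le_antisymm (by simpa using h5) (abs_nonneg _))
    have h8 : q.2 - p.2 = 0 := abs_eq_zero.1 (le_antisymm (by simpa using h6) (abs_nonneg _))
    have : p = q := by ext <;> omega
    rw [this]; simp
  | succ k ih =>
    intro p q h1 h2 h3 h4 h5 h6
    rw [abs_le] at h1 h2 h3 h4 h5 h6
    push_cast at h5 h6
    have e5 : ((k : ℤ) + 1) * s = k * s + s := by ring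
    rw [e5] at h5 h6
    have hks : 0 ≤ (k : ℤ) * s := by positivity
    set m : ℤ × ℤ := (p.1 + max (-s) (min s (q.1 - p.1)), p.2 + max (-s) (min s (q.2 - p.2))) with hm
    have hm1 : m.1 = p.1 + max (-s) (min s (q.1 - p.1)) := rfl
    have hm2 : m.2 = p.2 + max (-s) (min s (q.2 - p.2)) := rfl
    have a1 := h p m (abs_le.2 ⟨by omega, by omega⟩) (abs_le.2 ⟨by omega, by omega⟩)
      (abs_le.2 ⟨by omega, by omega⟩) (abs_le.2 ⟨by omega, by omega⟩)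
      (abs_le.2 ⟨by omega, by omega⟩) (abs_le.2 ⟨by omega, by omega⟩)
    have a2 := ih m q (abs_le.2 ⟨by omega, by omega⟩) (abs_le.2 ⟨by omega, by omega⟩)
      (abs_le.2 ⟨by omega, by omega⟩) (abs_le.2 ⟨by omega, by omega⟩)
      (abs_le.2 ⟨by omega, by omega⟩) (abs_le.2 ⟨by omega, by omega⟩)
    calc ‖H p - H q‖ = ‖(H p - H m) + (H m - H q)‖ := by ring_nf
      _ ≤ ‖H p - H m‖ + ‖H m - H q‖ := norm_add_le _ _
      _ ≤ D + k * D := add_le_add a1 a2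
      _ = ((k + 1 : ℕ) : ℝ) * D := by push_cast; ring

/-- neighbours -/
lemma step_h {X : Env} {a b c d : ℤ} {Hv Hf : ℤ × ℤ → ℂ} (hP : X.Prim a b c d Hv Hf) {x y : ℤ}
    (h1 : a ≤ x) (h2 : x + 1 ≤ b) (h3 : c ≤ y) (h4 : y ≤ d) : ‖Hv (x, y) - Hv (x + 1, y)‖ ≤ 2 := by
  have he : ((2 * x + 1, 2 * y) : ℤ × ℤ) ∈ Bx a b c d := by rw [mem_Bx]; simp only; omega
  obtain ⟨e1, e2, e3, e4⟩ := corners_h x y
  have g1 := hP _ he _ (Or.inl rfl)
  have g2 := hP _ he _ (Or.inr (Or.inr (Or.inr rfl)))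
  rw [e2, e4] at g2
  rw [e1] at g1
  have v1 : vx (2 * x + 1, 2 * y) = (x, y) ∧ fi (2 * x + 1, 2 * y) = (x + 1, y) := by
    unfold vx fi; constructor <;> ext <;> simp only <;> omega
  have v4 : vx (2 * x + 2, 2 * y) = (x + 1, y) ∧ fi (2 * x + 2, 2 * y) = (x + 1, y) := by
    unfold vx fi; constructor <;> ext <;> simp only <;> omega
  rw [v1.1, v1.2] at g1
  rw [v4.1, v4.2] at g2
  have : Hv (x, y) - Hv (x + 1, y) = X.inc (2 * x + 1, 2 * y) - X.inc (2 * x + 2, 2 * y) := by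
    rw [← g1, ← g2]; ring
  rw [this]
  calc _ ≤ ‖X.inc (2 * x + 1, 2 * y)‖ + ‖X.inc (2 * x + 2, 2 * y)‖ := norm_sub_le _ _
    _ ≤ 1 + 1 := add_le_add (X.inc_norm_le_one _) (X.inc_norm_le_one _)
    _ = 2 := by norm_num

lemma step_v {X : Env} {a b c d : ℤ} {Hv Hf : ℤ × ℤ → ℂ} (hP : X.Prim a b c d Hv Hf) {x y : ℤ}
    (h1 : a ≤ x) (h2 : x ≤ b) (h3 : c ≤ y) (h4 : y + 1 ≤ d) : ‖Hv (x, y) - Hv (x, y + 1)‖ ≤ 2 := by
  have he : ((2 * x, 2 * y + 1) : ℤ × ℤ) ∈ Bx a b c d := by rw [mem_Bx]; simp only; omega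
  obtain ⟨e1, e2, e3, e4⟩ := corners_v x y
  have g1 := hP _ he _ (Or.inl rfl)
  have g2 := hP _ he _ (Or.inr (Or.inr (Or.inr rfl)))
  rw [e2, e4] at g2
  rw [e1] at g1
  have v1 : vx (2 * x, 2 * y + 2) = (x, y + 1) ∧ fi (2 * x, 2 * y + 2) = (x, y + 1) := by
    unfold vx fi; constructor <;> ext <;> simp only <;> omega
  have v4 : vx (2 * x, 2 * y + 1) = (x, y) ∧ fi (2 * x, 2 * y + 1) = (x, y + 1) := by
    unfold vx fi; constructor <;> ext <;> simp only <;> omega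
  rw [v1.1, v1.2] at g1
  rw [v4.1, v4.2] at g2
  have : Hv (x, y) - Hv (x, y + 1) = X.inc (2 * x, 2 * y + 1) - X.inc (2 * x, 2 * y + 2) := by
    rw [← g1, ← g2]; ring
  rw [this]
  calc _ ≤ ‖X.inc (2 * x, 2 * y + 1)‖ + ‖X.inc (2 * x, 2 * y + 2)‖ := norm_sub_le _ _
    _ ≤ 1 + 1 := add_le_add (X.inc_norm_le_one _) (X.inc_norm_le_one _)
    _ = 2 := by norm_num

lemma step_h' {X : Env} {a b c d : ℤ} {Hv Hf : ℤ × ℤ → ℂ} (hP : X.Prim a b c d Hv Hf) {x x' y : ℤ}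
    (h1 : a ≤ x) (h2 : x ≤ b) (h1' : a ≤ x') (h2' : x' ≤ b) (h3 : c ≤ y) (h4 : y ≤ d)
    (h : |x' - x| ≤ 1) : ‖Hv (x, y) - Hv (x', y)‖ ≤ 2 := by
  rw [abs_le] at h
  have : x' = x ∨ x' = x + 1 ∨ x = x' + 1 := by omega
  rcases this with rfl | rfl | rfl
  · simp
  · exact step_h hP h1 h2' h3 h4
  · rw [norm_sub_rev]; exact step_h hP h1' h2 h3 h4

lemma step_v' {X : Env} {a b c d : ℤ} {Hv Hf : ℤ × ℤ → ℂ} (hP : X.Prim a b c d Hv Hf) {x y y' : ℤ}
    (h1 : a ≤ x) (h2 : x ≤ b) (h3 : c ≤ y) (h4 : y ≤ d) (h3' : c ≤ y') (h4' : y' ≤ d)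
    (h : |y' - y| ≤ 1) : ‖Hv (x, y) - Hv (x, y')‖ ≤ 2 := by
  rw [abs_le] at h
  have : y' = y ∨ y' = y + 1 ∨ y = y' + 1 := by omega
  rcases this with rfl | rfl | rfl
  · simp
  · exact step_v hP h1 h2 h3 h4'
  · rw [norm_sub_rev]; exact step_v hP h1 h2 h3' h4

/-- **The a priori bound for the family.** -/
theorem AP_fam {K : Env → Prop} (h : Q1.AP K) : ∃ C : ℝ, 0 ≤ C ∧ AP (famM K) C := by
  obtain ⟨C, hC, h⟩ := h
  refine ⟨16 * C + 64, by positivity, fun R hR H hH u v hu hv => ?_⟩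
  obtain ⟨X, hX, a, b, hB, Hv, Hf, hP, c, κ, hc, hw⟩ := hH
  set N := ⌊R⌋ with hN
  have hN1 : 1 ≤ N := by rw [hN, Int.le_floor]; simpa using hR
  have hNR : (N : ℝ) ≤ R := Int.floor_le R
  set n := N / 2 with hn
  have hn0 : 0 ≤ n := by omega
  have h2n : 2 * n ≤ N := by omega
  have half : ∀ x : ℤ, |(x : ℝ)| ≤ R / 2 → |x| ≤ n := by
    intro x hx
    have h1 : 2 * |x| ≤ N := by
      rw [hN, Int.le_floor]; push_cast; linarith
    omega
  have hR23 : 1 ≤ R ^ (2 / 3 : ℝ) := Real.one_le_rpow hR (by norm_num)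
  have diff : ∀ p q : ℤ × ℤ, |p.1| ≤ n → |p.2| ≤ n → |q.1| ≤ n → |q.2| ≤ n →
      ‖H p - H q‖ = ‖Hv (p.1 + a, p.2 + b) - Hv (q.1 + a, q.2 + b)‖ := by
    intro p q p1 p2 q1 q2
    rw [hw p (by omega) (by omega), hw q (by omega) (by omega)]
    have : c * Hv (p.1 + a, p.2 + b) + κ - (c * Hv (q.1 + a, q.2 + b) + κ) =
        c * (Hv (p.1 + a, p.2 + b) - Hv (q.1 + a, q.2 + b)) := by ring
    rw [this, norm_mul, hc, one_mul]
  have u1 := half _ hu.1
  have u2 := half _ hu.2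
  have v1 := half _ hv.1
  have v2 := half _ hv.2
  by_cases hn4 : 4 ≤ n
  · -- large boxes
    set s := n / 4 with hs
    have hs0 : 0 ≤ s := by omega
    have h16 : 2 * n ≤ 16 * s := by omega
    have hD : 0 ≤ C * R ^ (2 / 3 : ℝ) := by positivity
    have key := chain (H := H) (n := n) (s := s) (D := C * R ^ (2 / 3 : ℝ)) hs0 hD (by
      intro p q p1 p2 q1 q2 d1 d2
      rw [diff p q p1 p2 q1 q2]
      obtain ⟨m, hm⟩ := Int.eq_ofNat_of_zero_le hn0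
      have hsub : Bx (p.1 + a - (m : ℤ)) (p.1 + a + (m : ℤ)) (p.2 + b - (m : ℤ))
          (p.2 + b + (m : ℤ)) ⊆ Bx (a - N) (a + N) (b - N) (b + N) := by
        rw [abs_le] at p1 p2
        exact Bx_sub (by omega) (by omega) (by omega) (by omega)
      have k1 := h X hX (p.1 + a) (p.2 + b) m (hsub.trans hB) Hv Hf (fun e he => hP e (hsub he))
        (p.1 + a, p.2 + b) (q.1 + a, q.2 + b) (by unfold Qt; simp) (by unfold Qt; simp)
        (by
          unfold Qt; simp only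
          rw [show q.1 + a - (p.1 + a) = q.1 - p.1 by ring]; omega)
        (by
          unfold Qt; simp only
          rw [show q.2 + b - (p.2 + b) = q.2 - p.2 by ring]; omega)
      refine k1.trans ?_
      apply mul_le_mul_of_nonneg_left _ hC.le
      apply Real.rpow_le_rpow (by positivity) _ (by norm_num)
      have : (m : ℝ) = ((n : ℤ) : ℝ) := by rw [hm]; simp
      rw [this]
      have : ((n : ℤ) : ℝ) ≤ (N : ℝ) := by exact_mod_cast (by omega : n ≤ N)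
      linarith) 16 u v u1 u2 v1 v2 (by
        rw [abs_le] at u1 v1 ⊢
        push_cast
        constructor <;> omega) (by
        rw [abs_le] at u2 v2 ⊢
        push_cast
        constructor <;> omega)
    refine key.trans ?_
    push_cast
    nlinarith
  · -- small boxes
    have key := chain (H := H) (n := n) (s := 1) (D := 4) (by norm_num) (by norm_num) (by
      intro p q p1 p2 q1 q2 d1 d2
      rw [diff p q p1 p2 q1 q2]
      rw [abs_le] at p1 p2 q1 q2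
      have k1 := step_h' hP (x := p.1 + a) (x' := q.1 + a) (y := p.2 + b) (by omega) (by omega)
        (by omega) (by omega) (by omega) (by omega)
        (by rw [show q.1 + a - (p.1 + a) = q.1 - p.1 by ring]; exact d1)
      have k2 := step_v' hP (x := q.1 + a) (y := p.2 + b) (y' := q.2 + b) (by omega) (by omega)
        (by omega) (by omega) (by omega) (by omega)
        (by rw [show q.2 + b - (p.2 + b) = q.2 - p.2 by ring]; exact d2)
      calc ‖Hv (p.1 + a, p.2 + b) - Hv (q.1 + a, q.2 + b)‖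
          = ‖(Hv (p.1 + a, p.2 + b) - Hv (q.1 + a, p.2 + b)) +
            (Hv (q.1 + a, p.2 + b) - Hv (q.1 + a, q.2 + b))‖ := by ring_nf
        _ ≤ 2 + 2 := (norm_add_le _ _).trans (add_le_add k1 k2)
        _ = 4 := by norm_num) 16 u v u1 u2 v1 v2 (by
        rw [abs_le] at u1 v1 ⊢
        push_cast
        constructor <;> omega) (by
        rw [abs_le] at u2 v2 ⊢
        push_cast
        constructor <;> omega)
    refine key.trans ?_
    push_cast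
    nlinarith

end M6f

end Pool.Agent.Q1
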