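import Mathlib
import Pool.Agent.Q1.M6f.GlueFour
import Pool.Agent.H14.FM.Fin

set_option autoImplicit false
open Filter Topology Finset

/-! Module M6, chapter E, glue, four marks: Cardy's formula on a shape from the existence of the three
holomorphic limits for the three environments (instead of `LimOK` for a class). -/

namespace Pool.Agent.Q1.M6f.Glue

open Pool.Agent.H75.Perc hiding WL CT hh ph
open Pool.Agent.H75.TwoArm Pool.Agent.H75.Four Pool.Agent.H69.Q1 Pool.Agent.Q1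
open Pool.Agent.Q1.M4 (Cell Good IsSide nextSide tail head PType Reg Om lat inV inRect lpt pt)
open Pool.Agent.H33.Q1 Pool.Agent.H21.FM
open Pool.Agent.H19.RH (Cht Data4 lam)
open Pool.Agent.H13.Q1.Four (cardy)
open Pool.Agent.H14.FM (DataOK Tri lim_eq qn_mem ic)
open Pool.Agent.H87.FM (gx)

/-- **Cardy's formula on a shape, from the three limits.** -/
theorem cardy_shape_of_lim (S : Shape) {φ : ℂ → ℂ} (C : Cht S.P ic ic φ) {K : Env → Prop}
    (hM : MarkBound S) (hDt : DataOK S) {X : ℕ → Fin 3 → Env} {H : ℕ → Fin 3 → ℤ × ℤ → ℂ}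
    (hE : ∀ᶠ h : ℕ in atTop, Tri S K h (X h) (H h))
    (hL : ∀ U : Ultrafilter ℕ, (U : Filter ℕ) ≤ atTop → ∃ g12 g23 g34 : ℂ → ℂ,
      IsLim4 S.P (fun j => j) (fun h => H h 0) U g12 ∧
      IsLim4 S.P (fun j => j) (fun h => H h 1) U g23 ∧
      IsLim4 S.P (fun j => j) (fun h => H h 2) U g34) :
    Tendsto (fun h => qn S h) atTop (𝓝 (cardy (lam S.P ic ic S.m2 S.m3 S.m4 φ))) := by
  classical
  rw [tendsto_iff_ultrafilter]
  intro U hU
  obtain ⟨g12, g23, g34, L12, L23, L34⟩ := hL U hU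
  have hT : ∀ᶠ h : ℕ in (U : Filter ℕ), Tab S h (H h 0) (H h 1) (H h 2) := by
    filter_upwards [hU hE] with h hh
    exact hh.2
  have D := hDt U hU _ _ _ hT g12 g23 g34 L12 L23 L34
  obtain ⟨q, -, hq⟩ := (isCompact_Icc (a := (0 : ℝ)) (b := 1)).ultrafilter_le_nhds'
    (U.map (qn S)) (by
      rw [Ultrafilter.mem_map]
      exact Filter.mem_of_superset Filter.univ_mem fun h _ => qn_mem S h)
  have hq' : Tendsto (qn S) U (𝓝 q) := hq
  have e := lim_eq C hM hU hT L12 L23 D hq'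
  rw [← e]
  exact hq'

/-- **The whole chapter E for a shape with four marks**: Cardy's formula from
* the Hoelder bound (`HoldOK`),
* translation invariance of the rectangle integrals of the three limits (from `Tracks`),
* the mark bounds (helper44) for `H34 - H23` at the mark 1, `H34 - H23 - w H12` at the mark 2 and
  `H23 - H12` at the mark 4. -/
theorem cardy_shape_glue (S : Shape) {φ : ℂ → ℂ} (C : Cht S.P ic ic φ) {K : Env → Prop}
    (hM : MarkBound S) (hDt : DataOK S) (hH : HoldOK S.P K) {X : ℕ → Fin 3 → Env}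
    {H : ℕ → Fin 3 → ℤ × ℤ → ℂ} (hE : ∀ᶠ h : ℕ in atTop, Tri S K h (X h) (H h))
    (hTI : ∀ U : Ultrafilter ℕ, (U : Filter ℕ) ≤ atTop → ∀ i : Fin 3, ∀ g : ℂ → ℂ,
      PreLim S.P (fun j => j) (fun h => H h i) U g → TI (Om S.P.Q gx gx) g)
    (m1 : MkBd S.P (fun j => j) atTop 0 fun h v => H h 2 v - H h 1 v)
    (m2 : MkBd S.P (fun j => j) atTop S.m2 fun h v => H h 2 v - H h 1 v - ph 2 * H h 0 v)
    (m4 : MkBd S.P (fun j => j) atTop S.m4 fun h v => H h 1 v - H h 0 v) :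
    Tendsto (fun h => qn S h) atTop (𝓝 (cardy (lam S.P ic ic S.m2 S.m3 S.m4 φ))) := by
  refine cardy_shape_of_lim S C hM hDt hE fun U hU => ?_
  have hev : ∀ i : Fin 3, ∀ᶠ h : ℕ in atTop, K (X h i) ∧
      (X h i).E = TL S.P.Q (2 * ((fun j : ℕ => j) h : ℕ)) ∧ GPrim (X h i) (H h i) := by
    intro i
    filter_upwards [hE] with h hh
    exact hh.1 i
  have hid : Tendsto (fun j : ℕ => j) atTop atTop := tendsto_id
  obtain ⟨g12, L12⟩ := exists_preLim S.P hH hid (X := fun h => X h 0) (Ht := fun h => H h 0) (hev 0) U hU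
  obtain ⟨g23, L23⟩ := exists_preLim S.P hH hid (X := fun h => X h 1) (Ht := fun h => H h 1) (hev 1) U hU
  obtain ⟨g34, L34⟩ := exists_preLim S.P hH hid (X := fun h => X h 2) (Ht := fun h => H h 2) (hev 2) U hU
  have mono : ∀ {n : ℕ} {G : ℕ → ℤ × ℤ → ℂ}, MkBd S.P (fun j => j) atTop n G →
      MkBd S.P (fun j => j) U n G := by
    rintro n G ⟨C, α, δ, hα, hδ, h⟩
    exact ⟨C, α, δ, hα, hδ, hU h⟩
  obtain ⟨a, b, c⟩ := four_holo hid hU L12 L23 L34 (hTI U hU 0 g12 L12) (hTI U hU 1 g23 L23)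
    (hTI U hU 2 g34 L34) (mono m1) (mono m2) (mono m4)
  exact ⟨g12, g23, g34, a, b, c⟩

end Pool.Agent.Q1.M6f.Glue
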