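import Mathlib
import Pool.Agent.Q1.M6f.HoloJ

set_option autoImplicit false
open Set Filter Topology

/-! Module M6, chapter E: the interface `LocRel` for an arbitrary frame. `p : ℤ × ℤ` is the displacement
UP, `(p.2, -p.1)` the displacement RIGHT. `LocRel` is the case `p = (1, 1)`; the tile frame of chapters A
and C is `p = (-1, 1)`. -/

namespace Pool.Agent.Q1.M6f

open Pool.Agent.H25.Q1.Close Pool.Agent.Q1.M4

/-- Near `z0` (radius `r`, scale `R`, along the filter `F`) the functions `H j` are Hoelder and satisfy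
the relation of the responses for the displacements `n * p` (UP) and `n * (p.2, -p.1)` (RIGHT),
`n = ⌊ρ * R j⌋`. The response `G` may depend on `j` and on `ρ`, but not on `v` and not on `s`. -/
structure LocRelV (p : ℤ × ℤ) (R : ℕ → ℝ) (F : Filter ℕ) (H : ℕ → ℤ × ℤ → ℂ) (z0 : ℂ) (r : ℝ) :
    Prop where
  hold : ∃ C > 0, ∀ᶠ j in F, ∀ v w : ℤ × ℤ, ‖lat v / (R j : ℂ) - z0‖ < r →
    ‖lat w / (R j : ℂ) - z0‖ < r → ‖H j v - H j w‖ ≤ C * (‖lat v - lat w‖ / R j) ^ (2 / 3 : ℝ)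
  rel : ∃ C c : ℝ, 0 < c ∧ ∀ ε > 0, ∀ Y : ℝ, ∃ ρ0 > 0, ∀ ρ : ℝ, 0 < ρ → ρ < ρ0 → ∀ᶠ j in F,
    ∃ G : ℂ → ℂ, GHyp C c Y G ∧ ∀ s : ℝ, |s| ≤ 1 → ∀ v : ℤ × ℤ, ‖lat v / (R j : ℂ) - z0‖ < r →
    ‖G (pt s) * (H j (v.1 + p.1 * ⌊ρ * R j⌋₊, v.2 + p.2 * ⌊ρ * R j⌋₊) - H j v) +
      G (pt s + (Real.pi / 2 : ℝ)) *
        (H j (v.1 + p.2 * ⌊ρ * R j⌋₊, v.2 - p.1 * ⌊ρ * R j⌋₊) - H j v)‖ ≤ ε * ρ

/-- **`LocRelV` implies `LocLim`.** -/
theorem LocRelV.locLim {p : ℤ × ℤ} (hp : p ≠ 0) {R : ℕ → ℝ} (hR : Tendsto R atTop atTop)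
    (U : Ultrafilter ℕ)
    (hU : (U : Filter ℕ) ≤ atTop) {H : ℕ → ℤ × ℤ → ℂ} {z0 : ℂ} {r : ℝ} (hr : 0 < r)
    (h : LocRelV p R U H z0 r) : LocLim R U H z0 r where
  hold := h.hold
  hol := by
    intro g hg
    obtain ⟨C, hC, hold⟩ := h.hold
    have hRU : Tendsto R U atTop := hR.mono_left hU
    have hgh : ∀ z ∈ Metric.ball z0 r, ∀ z' ∈ Metric.ball z0 r, ‖z - z'‖ ≤ 2 * r →
        ‖g z - g z'‖ ≤ C * ‖z - z'‖ ^ (2 / 3 : ℝ) := fun z hz z' hz' _ =>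
      hg.hold hR hU hold hz hz'
    set u : ℂ := (p.2 : ℂ) - (p.1 : ℂ) * Complex.I with hudef
    have hu : u ≠ 0 := by
      intro h0
      have h1 := congrArg Complex.re h0
      have h2 := congrArg Complex.im h0
      simp [hudef] at h1 h2
      exact hp (Prod.ext h2 h1)
    set B : ℝ := ‖u‖ + 1 with hB
    have hBpos : 0 < B := by positivity
    refine differentiableOn_of_relG Metric.isOpen_ball
      (continuousOn_of_hold (by positivity : (0 : ℝ) < 2 * r) hgh) hu ?_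
    intro K hK hKc
    obtain ⟨C1, c1, hc1, hrel⟩ := h.rel
    refine ⟨C1, c1, hc1, fun ε hε Y => ?_⟩
    obtain ⟨δ, hδ, hth⟩ := hKc.exists_thickening_subset_open Metric.isOpen_ball hK
    obtain ⟨ρ0, hρ0, hrel⟩ := hrel ε hε (max Y 2)
    refine ⟨min ρ0 (δ / (2 * B)), lt_min hρ0 (by positivity), fun t ht htt => ?_⟩
    rw [lt_min_iff] at htt
    have hmem : ∀ z ∈ K, ∀ w : ℂ, ‖w‖ ≤ B → z + t * w ∈ Metric.ball z0 r := by
      intro z hz w hw
      apply hth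
      rw [Metric.mem_thickening_iff]
      refine ⟨z, hz, ?_⟩
      rw [dist_eq_norm, add_sub_cancel_left, norm_mul, Complex.norm_real,
        Real.norm_of_nonneg ht.le]
      have h1 : t * ‖w‖ ≤ t * B := mul_le_mul_of_nonneg_left hw ht.le
      have h2 : t * B < δ / (2 * B) * B := mul_lt_mul_of_pos_right htt.2 hBpos
      have h3 : δ / (2 * B) * B = δ / 2 := by field_simp
      rw [h3] at h2
      linarith
    have hw2 : ‖u‖ ≤ B := by rw [hB]; linarith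
    have hw1 : ‖(Complex.I * u : ℂ)‖ ≤ B := by
      rw [norm_mul, Complex.norm_I, one_mul]; exact hw2
    -- the responses
    have hev := hrel t ht htt.1
    classical
    set Φ : ℕ → (ℂ → ℂ) → Prop := fun j G => GHyp C1 c1 (max Y 2) G ∧ ∀ s : ℝ, |s| ≤ 1 →
      ∀ v : ℤ × ℤ, ‖lat v / (R j : ℂ) - z0‖ < r →
      ‖G (pt s) * (H j (v.1 + p.1 * ⌊t * R j⌋₊, v.2 + p.2 * ⌊t * R j⌋₊) - H j v) +
        G (pt s + (Real.pi / 2 : ℝ)) *
          (H j (v.1 + p.2 * ⌊t * R j⌋₊, v.2 - p.1 * ⌊t * R j⌋₊) - H j v)‖ ≤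
        ε * t with hΦ
    set G : ℕ → ℂ → ℂ := fun j => if hj : ∃ G, Φ j G then hj.choose else fun _ => 0 with hG
    have hGs : ∀ᶠ j in (U : Filter ℕ), Φ j (G j) := by
      filter_upwards [hev] with j hj
      have hj' : ∃ G, Φ j G := hj
      simp only [hG, dif_pos hj']
      exact hj'.choose_spec
    have hY2 : (0 : ℝ) < max Y 2 := lt_max_of_lt_right (by norm_num)
    have hY1 : (1 : ℝ) < max Y 2 := lt_max_of_lt_right (by norm_num)
    obtain ⟨g1, hg1, hlim⟩ := exists_lim_G U hY2 (hGs.mono fun j hj => hj.1)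
    refine ⟨g1, hg1.mono (le_max_left _ _), fun s hs z hz => ?_⟩
    have hz' : z ∈ Metric.ball z0 r := hK hz
    have hv := (fl_tendsto hR z).mono_left hU
    have e1 : z + t * Complex.I * u = z + t * (((p.1 : ℤ) : ℂ) + ((p.2 : ℤ) : ℂ) * Complex.I) := by
      have : Complex.I * Complex.I = -1 := Complex.I_mul_I
      rw [hudef]
      linear_combination (-(t : ℂ) * p.1) * this
    have e2 : z + t * u = z + t * (((p.2 : ℤ) : ℂ) + ((-p.1 : ℤ) : ℂ) * Complex.I) := by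
      rw [hudef]; push_cast; ring
    have hz1 := hmem z hz _ hw1
    rw [← mul_assoc, e1] at hz1
    have hz2 := hmem z hz _ hw2
    rw [e2] at hz2
    have a1 := disp_tendsto hRU hv ht.le p.1 p.2
    have a2 := disp_tendsto hRU hv ht.le p.2 (-p.1)
    have b0 := hg _ hz' _ hv
    have b1 := hg _ hz1 _ a1
    have b2 := hg _ hz2 _ a2
    have l1 := hlim _ (pt_mem_UY hY1 hs)
    have l2 := hlim _ (pt_add_mem_UY hY1 hs)
    rw [e1, e2]
    have hl := ((l1.mul (b1.sub b0)).add (l2.mul (b2.sub b0))).norm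
    refine le_of_tendsto hl ?_
    filter_upwards [hGs, near_of_tendsto hv hz'] with j h6 h7
    simp only [neg_mul, ← sub_eq_add_neg]
    have e3 : ∀ α β a b c d : ℂ, α * (a - d - (b - d)) + β * (c - d - (b - d)) =
        α * (a - b) + β * (c - b) := by intro α β a b c d; ring
    rw [e3]
    exact h6.2 s hs (fl R z j) h7

lemma LocRel.toV {R : ℕ → ℝ} {F : Filter ℕ} {H : ℕ → ℤ × ℤ → ℂ} {z0 : ℂ} {r : ℝ}
    (h : LocRel R F H z0 r) : LocRelV (1, 1) R F H z0 r := by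
  refine ⟨h.hold, ?_⟩
  simpa only [one_mul] using h.rel

/-- **`CRA` from approximations with the relation of the responses, arbitrary frame.** -/
theorem CRA_of_LocRelV {p : ℤ × ℤ} (hp : p ≠ 0) {P : PType} {x y : ℤ → ℝ} {R : ℕ → ℝ}
    {H : ℕ → ℤ × ℤ → ℂ} (hR : Tendsto R atTop atTop)
    (h : ∀ U : Ultrafilter ℕ, (U : Filter ℕ) ≤ atTop → ∀ z ∈ Om P.Q x y, ∃ r > 0, ∀ ε > 0,
      ∃ G : ℕ → ℤ × ℤ → ℂ, LocRelV p R U G z r ∧ ∀ᶠ j in (U : Filter ℕ), ∀ v w : ℤ × ℤ,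
        ‖lat v / (R j : ℂ) - z‖ < r → ‖lat w / (R j : ℂ) - z‖ < r →
        ‖(H j v - H j w) - (G j v - G j w)‖ ≤ ε) : CRA P x y R H := by
  intro U hU z hz
  obtain ⟨r, hr, h⟩ := h U hU z hz
  refine ⟨r, hr, fun ε hε => ?_⟩
  obtain ⟨G, hG, hcl⟩ := h ε hε
  exact ⟨G, hG.locLim hp hR U hU hr, hcl⟩

end Pool.Agent.Q1.M6f
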