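import Mathlib
import Pool.Agent.Q1.Plane
import Pool.Agent.Q1.Prim
import Pool.Agent.H5.Q1.Grid
import Pool.Agent.H49.Q1.KPoint

set_option autoImplicit false
open Finset

/-! A nondegenerate natural environment: random labels = all labels of the half box
`[-N,0] × [-N,N]`, the labels of a ring around its left, lower and upper side are wired, the right side
is free. The increments along the free side have a constant phase and modulus `≥ c N^(-1/3)`. -/

namespace Pool.Agent.Q1.ND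

open Pool.Agent.H75.Perc Pool.Agent.H75.TwoArm
open Pool.Agent.H5.Q1 (Rch adj4_east adj4_north rch_symm EF mem_EF mem_lf VE Bd DomG domG_EF)
open Pool.Agent.Q1.M4 (Conn4 Adj4)

/-! ### A rectangle is a simply connected domain -/

lemma rch_h {S : Set (ℤ × ℤ)} {y : ℤ} (n : ℕ) (x : ℤ)
    (h : ∀ t, x ≤ t → t ≤ x + n → ((t, y) : ℤ × ℤ) ∈ S) : Rch S (x, y) (x + n, y) := by
  induction n with
  | zero => simpa using Relation.ReflTransGen.refl
  | succ n ih =>
    refine (ih fun t h1 h2 => h t h1 (by push_cast; omega)).tail ⟨?_, ?_⟩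
    · have := adj4_east (x + n) y
      push_cast; rw [← add_assoc]; exact this
    · exact h _ (by push_cast; omega) (by push_cast; omega)

lemma rch_v {S : Set (ℤ × ℤ)} {x : ℤ} (n : ℕ) (y : ℤ)
    (h : ∀ t, y ≤ t → t ≤ y + n → ((x, t) : ℤ × ℤ) ∈ S) : Rch S (x, y) (x, y + n) := by
  induction n with
  | zero => simpa using Relation.ReflTransGen.refl
  | succ n ih =>
    refine (ih fun t h1 h2 => h t h1 (by push_cast; omega)).tail ⟨?_, ?_⟩
    · have := adj4_north x (y + n)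
      push_cast; rw [← add_assoc]; exact this
    · exact h _ (by push_cast; omega) (by push_cast; omega)

lemma rch_h' {S : Set (ℤ × ℤ)} {y : ℤ} (x x' : ℤ)
    (h : ∀ t, (x ≤ t ∧ t ≤ x') ∨ (x' ≤ t ∧ t ≤ x) → ((t, y) : ℤ × ℤ) ∈ S) :
    Rch S (x, y) (x', y) := by
  rcases le_total x x' with hx | hx
  · obtain ⟨n, rfl⟩ := Int.le.dest hx
    exact rch_h n x fun t h1 h2 => h t (Or.inl ⟨h1, h2⟩)
  · obtain ⟨n, rfl⟩ := Int.le.dest hx
    have h1 := rch_h (S := S) (y := y) n x' fun t h1 h2 => h t (Or.inr ⟨h1, h2⟩)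
    refine (rch_symm ?_ h1).1
    exact h _ (Or.inr ⟨le_rfl, hx⟩)

lemma rch_v' {S : Set (ℤ × ℤ)} {x : ℤ} (y y' : ℤ)
    (h : ∀ t, (y ≤ t ∧ t ≤ y') ∨ (y' ≤ t ∧ t ≤ y) → ((x, t) : ℤ × ℤ) ∈ S) :
    Rch S (x, y) (x, y') := by
  rcases le_total y y' with hx | hx
  · obtain ⟨n, rfl⟩ := Int.le.dest hx
    exact rch_v n y fun t h1 h2 => h t (Or.inl ⟨h1, h2⟩)
  · obtain ⟨n, rfl⟩ := Int.le.dest hx
    have h1 := rch_v (S := S) (x := x) n y' fun t h1 h2 => h t (Or.inr ⟨h1, h2⟩)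
    refine (rch_symm ?_ h1).1
    exact h _ (Or.inr ⟨le_rfl, hx⟩)

/-- the faces of a rectangle -/
noncomputable def FR (a b c d : ℤ) : Finset (ℤ × ℤ) := Ioc a b ×ˢ Ioc c d

lemma mem_FR {a b c d : ℤ} {f : ℤ × ℤ} : f ∈ FR a b c d ↔ (a < f.1 ∧ f.1 ≤ b) ∧ (c < f.2 ∧ f.2 ≤ d) := by
  unfold FR; simp only [mem_product, mem_Ioc]

lemma conn_FR (a b c d : ℤ) : Conn4 (FR a b c d : Set (ℤ × ℤ)) := by
  rintro ⟨x, y⟩ hf ⟨x', y'⟩ hg
  rw [mem_coe, mem_FR] at hf hg
  simp only at hf hg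
  have h1 : Rch (FR a b c d : Set (ℤ × ℤ)) (x, y) (x', y) := rch_h' x x' fun t h1 => by
    rw [mem_coe, mem_FR]; simp only; omega
  have h2 : Rch (FR a b c d : Set (ℤ × ℤ)) (x', y) (x', y') := rch_v' y y' fun t h1 => by
    rw [mem_coe, mem_FR]; simp only; omega
  exact h1.trans h2

lemma conn_compl_FR (a b c d : ℤ) : Conn4 ((FR a b c d : Set (ℤ × ℤ))ᶜ) := by
  -- base point
  have key : ∀ f : ℤ × ℤ, f ∈ ((FR a b c d : Set (ℤ × ℤ))ᶜ) →
      Rch ((FR a b c d : Set (ℤ × ℤ))ᶜ) f (b + 1, c) := by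
    rintro ⟨x, y⟩ hf
    have hf' : ¬ ((a < x ∧ x ≤ b) ∧ (c < y ∧ y ≤ d)) := fun h => hf (mem_coe.2 (mem_FR.2 h))
    have mk : ∀ p q : ℤ, ¬ ((a < p ∧ p ≤ b) ∧ (c < q ∧ q ≤ d)) →
        ((p, q) : ℤ × ℤ) ∈ ((FR a b c d : Set (ℤ × ℤ))ᶜ) :=
      fun p q h h' => h (mem_FR.1 (mem_coe.1 h'))
    by_cases hy : c < y ∧ y ≤ d
    · have h1 : Rch ((FR a b c d : Set (ℤ × ℤ))ᶜ) (x, y) (x, c) := rch_v' y c fun t _ =>
        mk _ _ (by omega)
      have h2 : Rch ((FR a b c d : Set (ℤ × ℤ))ᶜ) (x, c) (b + 1, c) := rch_h' x (b + 1)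
        fun t _ => mk _ _ (by omega)
      exact h1.trans h2
    · have h1 : Rch ((FR a b c d : Set (ℤ × ℤ))ᶜ) (x, y) (b + 1, y) := rch_h' x (b + 1) fun t _ =>
        mk _ _ (by omega)
      have h2 : Rch ((FR a b c d : Set (ℤ × ℤ))ᶜ) (b + 1, y) (b + 1, c) := rch_v' y c
        fun t _ => mk _ _ (by omega)
      exact h1.trans h2
  intro f hf g hg
  exact (key f hf).trans (rch_symm hg (key g hg)).1

lemma EF_FR {a b c d : ℤ} (hab : a < b) (hcd : c < d) : EF (FR a b c d) = Bx a b c d := by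
  ext e
  obtain ⟨p, q⟩ := e
  rw [mem_EF, mem_Bx]
  constructor
  · rintro ⟨f, hf, he⟩
    rw [mem_FR] at hf
    rw [mem_lf] at he
    simp only at he ⊢
    omega
  · rintro ⟨⟨h1, h2⟩, ⟨h3, h4⟩, h5⟩
    simp only at h1 h2 h3 h4 h5
    rcases Int.even_or_odd' p with ⟨x, hx | hx⟩ <;> rcases Int.even_or_odd' q with ⟨y, hy | hy⟩ <;>
      subst hx <;> subst hy
    · omega
    · -- vertical edge
      by_cases hx : a < x
      · exact ⟨(x, y + 1), by rw [mem_FR]; simp only; omega,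
          by rw [mem_lf]; exact Or.inr (Or.inr (Or.inl ⟨rfl, by simp only; ring⟩))⟩
      · exact ⟨(x + 1, y + 1), by rw [mem_FR]; simp only; omega, by rw [mem_lf]; simp only; omega⟩
    · by_cases hy : c < y
      · exact ⟨(x + 1, y), by rw [mem_FR]; simp only; omega,
          by rw [mem_lf]; exact Or.inl ⟨by simp only; ring, rfl⟩⟩
      · exact ⟨(x + 1, y + 1), by rw [mem_FR]; simp only; omega, by rw [mem_lf]; simp only; omega⟩
    · omega

/-- **A rectangle is a simply connected lattice domain.** -/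
theorem domG_rect {a b c d : ℤ} (hab : a < b) (hcd : c < d) : DomG (Bx a b c d) := by
  rw [← EF_FR hab hcd]
  exact domG_EF (conn_FR a b c d) (conn_compl_FR a b c d)

/-! ### The environment -/

/-- the full region -/
noncomputable def DD (N : ℕ) : Finset (ℤ × ℤ) := Bx (-((N : ℤ) + 1)) 0 (-((N : ℤ) + 1)) ((N : ℤ) + 1)

/-- the random labels -/
noncomputable def EE (N : ℕ) : Finset (ℤ × ℤ) := Bx (-(N : ℤ)) 0 (-(N : ℤ)) (N : ℤ)

/-- the wired labels -/
noncomputable def WW (N : ℕ) : Finset (ℤ × ℤ) := DD N \ EE N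

/-- the root corner -/
def rc (N : ℕ) : ℤ × ℤ := (1, -2 * ((N : ℤ) + 1))

lemma EE_sub (N : ℕ) : EE N ⊆ DD N := Bx_sub (by omega) le_rfl (by omega) (by omega)

lemma EE_WW (N : ℕ) : EE N ∪ WW N = DD N := union_sdiff_of_subset (EE_sub N)

lemma disj_EW (N : ℕ) : Disjoint (EE N) (WW N) := disjoint_sdiff

lemma not_DD {N : ℕ} {x y : ℤ} (h : 1 ≤ x) : ((x, y) : ℤ × ℤ) ∉ DD N := by
  unfold DD; rw [mem_Bx]; simp only; omega

lemma fi_rc (N : ℕ) : fi (rc N) = (1, -((N : ℤ) + 1)) := by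
  unfold fi rc; simp only; refine Prod.ext ?_ ?_ <;> simp only <;> omega

lemma vx_rc (N : ℕ) : vx (rc N) = (0, -((N : ℤ) + 1)) := by
  unfold vx rc; simp only; refine Prod.ext ?_ ?_ <;> simp only <;> omega

lemma inB_of_co {N : ℕ} {v : ℤ × ℤ} (h : Co (DD N) (vx (rc N)) v) :
    inB (-((N : ℤ) + 1)) 0 (-((N : ℤ) + 1)) ((N : ℤ) + 1) v := by
  refine Co.inB (ω := DD N) (subset_refl _) ?_ h
  rw [vx_rc]; unfold inB; simp only; omega

/-- The nondegenerate environment. -/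
noncomputable def XX (N : ℕ) : Env :=
  Env.plane (EE N) (WW N) (rc N) 1 (1, -((N : ℤ) + 1) - 1)
    (fun e he => by unfold EE at he; rw [mem_Bx] at he; exact he.2.2)
    (disj_EW N) (by unfold rc ty; simp only; rw [if_pos (by omega), if_neg (by omega)]; norm_num)
    (by
      unfold plab rc EE
      rw [mem_Bx]; simp only
      split_ifs <;> simp only <;> omega)
    (by
      rw [EE_WW, fi_rc]
      apply DCo.symm
      have := dco_vert (w := DD N) (i := 1) (j := -((N : ℤ) + 1) - 1) 1 (fun k _ _ => by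
        rw [show (2 * (1 : ℤ) - 1) = 1 by norm_num]
        exact not_DD le_rfl)
      simpa using this)
    (fun v hv => by
      rw [EE_WW] at hv
      have := inB_of_co hv
      unfold inB at this
      simp only; omega)

/-! ### The free side in the full configuration -/

lemma nx_se {w : Finset (ℤ × ℤ)} {y : ℤ} (h : ((1, 2 * y) : ℤ × ℤ) ∉ w) :
    nx w (1, 2 * y) = (1, 2 * y + 1) ∧ del w (1, 2 * y) = 1 := by
  have h1 : lab (1, 2 * y) = (1, 2 * y) := by
    unfold lab; simp only; rw [if_pos (by omega), if_neg (by omega)]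
  have h2 : nxC (1, 2 * y) = (1, 2 * y + 1) := by
    unfold nxC; simp only; rw [if_pos (by omega), if_neg (by omega)]
  unfold nx del
  rw [h1, h2, if_neg h, if_neg h]
  exact ⟨rfl, rfl⟩

lemma nx_ne {w : Finset (ℤ × ℤ)} {y : ℤ} (h : ((0, 2 * y + 1) : ℤ × ℤ) ∈ w) :
    nx w (1, 2 * y + 1) = (1, 2 * y + 2) ∧ del w (1, 2 * y + 1) = -1 := by
  have h1 : lab (1, 2 * y + 1) = (0, 2 * y + 1) := by
    unfold lab; simp only; rw [if_neg (by omega), if_neg (by omega)]; norm_num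
  have h2 : nxO (1, 2 * y + 1) = (1, 2 * y + 2) := by
    unfold nxO; simp only; rw [if_neg (by omega), if_neg (by omega)]
    refine Prod.ext ?_ ?_ <;> simp only; ring
  unfold nx del
  rw [h1, h2, if_pos h, if_pos h]
  exact ⟨rfl, rfl⟩

lemma iter_full (N : ℕ) (t : ℕ) (ht : t ≤ 4 * N + 4) :
    (nx (DD N))^[t] (rc N) = (1, -2 * ((N : ℤ) + 1) + t) ∧
      KK (nx (DD N)) (del (DD N)) (rc N) 1 t = 1 + (t : ℤ) % 2 := by
  induction t with
  | zero =>
    refine ⟨?_, ?_⟩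
    · simp [rc]
    · rw [KK_zero]; simp
  | succ t ih =>
    obtain ⟨h1, h2⟩ := ih (by omega)
    rw [Function.iterate_succ_apply', KK_succ, h1, h2]
    rcases Int.even_or_odd' (-2 * ((N : ℤ) + 1) + t) with ⟨y, hy | hy⟩
    · rw [hy]
      obtain ⟨e1, e2⟩ := nx_se (w := DD N) (y := y) (not_DD le_rfl)
      rw [e1, e2]
      refine ⟨?_, ?_⟩
      · refine Prod.ext rfl ?_
        simp only; push_cast; linarith
      · push_cast; omega
    · rw [hy]
      have hin : ((0, 2 * y + 1) : ℤ × ℤ) ∈ DD N := by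
        unfold DD; rw [mem_Bx]; simp only; omega
      obtain ⟨e1, e2⟩ := nx_ne hin
      rw [e1, e2]
      refine ⟨?_, ?_⟩
      · refine Prod.ext rfl ?_
        simp only; push_cast; linarith
      · push_cast; omega

lemma vx_se (y : ℤ) : vx (1, 2 * y) = (0, y) := by
  unfold vx; simp only; refine Prod.ext ?_ ?_ <;> simp only <;> omega

lemma fi_se (y : ℤ) : fi (1, 2 * y) = (1, y) := by
  unfold fi; simp only; refine Prod.ext ?_ ?_ <;> simp only <;> omega

lemma bd_se {N : ℕ} {y : ℤ} (h1 : -((N : ℤ) + 1) ≤ y) (h2 : y ≤ N) : Bd (DD N) (1, 2 * y) := by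
  refine ⟨?_, ?_⟩
  · have he : ((0, 2 * y + 1) : ℤ × ℤ) ∈ DD N := by
      unfold DD; rw [mem_Bx]; simp only; omega
    have := (Pool.Agent.H5.Q1.mem_VE he).2
    have e : in2 (0, 2 * y + 1) = (1, 2 * y + 1) := by
      unfold in2; simp only; rw [if_neg (by omega)]; norm_num
    rw [e] at this
    rw [vx_se]
    have e2 : vx (1, 2 * y + 1) = (0, y) := by
      unfold vx; simp only; refine Prod.ext ?_ ?_ <;> simp only <;> omega
    rwa [e2] at this
  · have h1 : lab (1, 2 * y) = (1, 2 * y) := by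
      unfold lab; simp only; rw [if_pos (by omega), if_neg (by omega)]
    rw [h1]; exact not_DD le_rfl

/-- The index of the path at the free side. -/
lemma index_se {N : ℕ} {ω : Finset (ℤ × ℤ)} (hω : ω ⊆ DD N) {L : ℕ} (hO : Orb (nx ω) (rc N) L)
    {i : ℕ} (hi : i < L) {y : ℤ} (h1 : -((N : ℤ) + 1) ≤ y) (h2 : y ≤ N)
    (hz : (nx ω)^[i] (rc N) = (1, 2 * y)) : KK (nx ω) (del ω) (rc N) 1 i = 1 := by
  have hD : DomG (DD N) := domG_rect (by omega) (by omega)
  have hrc : Bd (DD N) (rc N) := by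
    have := bd_se (N := N) (y := -((N : ℤ) + 1)) le_rfl (by omega)
    have e : ((1, 2 * (-((N : ℤ) + 1))) : ℤ × ℤ) = rc N := by
      unfold rc; refine Prod.ext rfl ?_; simp only; ring
    rwa [e] at this
  obtain ⟨LE, hLE⟩ := Pool.Agent.H69.Q1.exists_orb_nx (DD N) (rc N)
  obtain ⟨j, hj, hj1, hj2⟩ := hD.index hrc.out (bd_se h1 h2).out 1 hLE _ ω hω rfl L hO i hi hz
  -- the position in the full configuration
  set t : ℕ := (2 * (y + (N : ℤ) + 1)).toNat with ht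
  have ht' : (t : ℤ) = 2 * (y + (N : ℤ) + 1) := by rw [ht]; omega
  have ht4 : t ≤ 4 * N + 4 := by omega
  have hlt : t < LE := by
    by_contra hcon
    push Not at hcon
    have h3 := (iter_full N LE (by omega)).1
    rw [hLE.per] at h3
    have h4 := congrArg Prod.snd h3
    unfold rc at h4
    simp only at h4
    have := hLE.pos
    omega
  obtain ⟨h3, h4⟩ := iter_full N t ht4
  have h5 : (nx (DD N))^[t] (rc N) = (1, 2 * y) := by
    rw [h3]; refine Prod.ext rfl ?_; simp only; omega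
  have hjt : j = t := by
    rcases lt_trichotomy j t with h | h | h
    · exact absurd (hj1.trans h5.symm) (hLE.inj _ _ h hlt)
    · exact h
    · exact absurd (h5.trans hj1.symm) (hLE.inj _ _ h hj)
  rw [← hj2, hjt, h4]
  omega

/-- The visits at the free side. -/
lemma visit_se {N : ℕ} {ω : Finset (ℤ × ℤ)} (hω : ω ⊆ DD N) {y : ℤ} (h1 : -((N : ℤ) + 1) ≤ y) :
    InOrb (nx ω) (rc N) (1, 2 * y) ↔ Co ω (vx (rc N)) (0, y) := by
  constructor
  · rintro ⟨i, hi⟩
    have := Pool.Agent.H69.Q1.co_orb ω (rc N) i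
    rw [hi, vx_se] at this
    exact this
  · intro h
    have hd : DCo (DD N) (fi (rc N)) (fi (1, 2 * y)) := by
      rw [fi_rc, fi_se]
      obtain ⟨n, hn⟩ := Int.le.dest h1
      have := dco_vert (w := DD N) (i := 1) (j := -((N : ℤ) + 1)) n (fun k _ _ => by
        rw [show (2 * (1 : ℤ) - 1) = 1 by norm_num]
        exact not_DD le_rfl)
      rw [hn] at this
      exact this
    obtain ⟨F, hF⟩ := hd.anti hω
    exact Pool.Agent.H69.Q1.inOrb_of_co ω (by rw [vx_se]; exact h) hF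

/-! ### The increments along the free side -/

end ND

open Pool.Agent.H75.Perc Pool.Agent.H75.TwoArm

/-- A deterministic step multiplies the increment by a phase. -/
lemma Env.incO_step {X : Env} {ω : Finset (ℤ × ℤ)} (hω : ω ⊆ X.E) {c : ℤ × ℤ}
    (hc : X.f ω c ≠ X.c0) : X.incO ω (X.f ω c) = ph (X.d ω c) * X.incO ω c := by
  by_cases h : ∃ i < X.len ω, X.z ω i = c
  · obtain ⟨i, hi, hz⟩ := h
    rw [Env.incO_of hω hi hz]
    have hi' : i + 1 < X.len ω := by
      rcases Nat.lt_or_ge (i + 1) (X.len ω) with h1 | h1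
      · exact h1
      · exfalso
        have h2 : i + 1 = X.len ω := by omega
        apply hc
        rw [← hz, ← Env.z_succ, h2, Env.z_len hω]
    have hz' : X.z ω (i + 1) = X.f ω c := by rw [Env.z_succ, hz]
    rw [Env.incO_of hω hi' hz', Env.K_succ, hz, ph_add, mul_comm]
  · push Not at h
    rw [Env.incO_zero h, mul_zero]
    apply Env.incO_zero
    intro i hi hz
    rcases Nat.eq_zero_or_pos i with h0 | h0
    · rw [h0, Env.z_zero] at hz
      exact hc hz.symm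
    · obtain ⟨j, rfl⟩ : ∃ j, i = j + 1 := ⟨i - 1, by omega⟩
      rw [Env.z_succ] at hz
      exact h j (by omega) (Env.f_injective hω hz)

lemma Env.norm_inc_le (X : Env) (c : ℤ × ℤ) : ‖X.inc c‖ ≤ 1 := by
  unfold Env.inc
  rw [norm_mul, norm_pow]
  have h1 : ‖(1 / 2 : ℂ)‖ = 1 / 2 := by norm_num
  rw [h1]
  have h2 : ‖∑ ω ∈ X.E.powerset, X.incO ω c‖ ≤ ∑ ω ∈ X.E.powerset, (1 : ℝ) :=
    norm_sum_le_of_le _ fun ω hω => Env.incO_norm (mem_powerset.1 hω) c
  rw [Finset.sum_const, card_powerset, nsmul_eq_mul, mul_one] at h2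
  push_cast at h2
  calc (1 / 2 : ℝ) ^ X.E.card * ‖∑ ω ∈ X.E.powerset, X.incO ω c‖
      ≤ (1 / 2 : ℝ) ^ X.E.card * 2 ^ X.E.card := mul_le_mul_of_nonneg_left h2 (by positivity)
    _ = 1 := by rw [← mul_pow]; norm_num

namespace ND

/-- the connection probability of a point of the free side to the wired ring -/
noncomputable def pp (N : ℕ) (y : ℤ) : ℝ :=
  Pr (EE N) (fun ω => Co (ω ∪ WW N) (vx (rc N)) (0, y))

lemma XX_E (N : ℕ) : (XX N).E = EE N := rfl
lemma XX_T (N : ℕ) : (XX N).T = 4 := rfl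
lemma XX_c0 (N : ℕ) : (XX N).c0 = rc N := rfl

lemma sub_DD {N : ℕ} {ω : Finset (ℤ × ℤ)} (hω : ω ⊆ EE N) : ω ∪ WW N ⊆ DD N := by
  rw [← EE_WW]; exact union_subset_union_left hω

lemma incO_se {N : ℕ} {ω : Finset (ℤ × ℤ)} (hω : ω ⊆ EE N) {y : ℤ} (h1 : -((N : ℤ) + 1) ≤ y)
    (h2 : y ≤ N) [Decidable (Co (ω ∪ WW N) (vx (rc N)) (0, y))] :
    (XX N).incO ω (1, 2 * y) = if Co (ω ∪ WW N) (vx (rc N)) (0, y) then ph 1 else 0 := by
  have hω' : ω ⊆ (XX N).E := hω
  have hO : Orb (nx (ω ∪ WW N)) (rc N) ((XX N).len ω) := plane_orb hω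
  split_ifs with h
  · obtain ⟨i, hi, hz⟩ := (hO.inOrb_iff _).1 ((visit_se (sub_DD hω) h1).2 h)
    have hz' : (XX N).z ω i = (1, 2 * y) := (plane_z hω i).trans hz
    rw [Env.incO_of hω' hi hz']
    have hK : (XX N).K ω i = KK (nx (ω ∪ WW N)) (del (ω ∪ WW N)) (rc N) 1 i := plane_K hω i
    rw [hK, index_se (sub_DD hω) hO hi h1 h2 hz]
  · apply Env.incO_zero
    intro i hi hz
    apply h
    rw [← visit_se (sub_DD hω) h1]
    exact ⟨i, (plane_z hω i).symm.trans hz⟩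

/-- **Increments along the free side.** -/
theorem inc_se {N : ℕ} {y : ℤ} (h1 : -((N : ℤ) + 1) ≤ y) (h2 : y ≤ N) :
    (XX N).inc (1, 2 * y) = (pp N y : ℂ) * ph 1 := by
  classical
  unfold Env.inc pp
  rw [XX_E, Pr_eq]
  have : ∑ ω ∈ (EE N).powerset, (XX N).incO ω (1, 2 * y) =
      ∑ ω ∈ (EE N).powerset, if Co (ω ∪ WW N) (vx (rc N)) (0, y) then ph 1 else 0 :=
    Finset.sum_congr rfl fun ω hω => incO_se (mem_powerset.1 hω) h1 h2
  rw [this, ← Finset.sum_filter, Finset.sum_const, nsmul_eq_mul]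
  push_cast
  rw [one_div, inv_pow, div_eq_mul_inv]
  ring

theorem inc_ne {N : ℕ} {y : ℤ} (h1 : -((N : ℤ) + 1) ≤ y) (h2 : y ≤ N) :
    (XX N).inc (1, 2 * y + 1) = (pp N y : ℂ) * ph 2 := by
  have h3 : (XX N).inc (1, 2 * y + 1) = ph 1 * (XX N).inc (1, 2 * y) := by
    unfold Env.inc
    have : ∑ ω ∈ (XX N).E.powerset, (XX N).incO ω (1, 2 * y + 1) =
        ph 1 * ∑ ω ∈ (XX N).E.powerset, (XX N).incO ω (1, 2 * y) := by
      rw [Finset.mul_sum]
      refine Finset.sum_congr rfl fun ω hω => ?_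
      rw [mem_powerset] at hω
      have hl : lab (1, 2 * y) = (1, 2 * y) := by
        unfold lab; simp only; rw [if_pos (by omega), if_neg (by omega)]
      have hlE : lab (1, 2 * y) ∉ (XX N).E := by
        rw [hl]; exact fun h => not_DD (N := N) le_rfl (EE_sub N h)
      have hS : ((1, 2 * y) : ℤ × ℤ) ∈ (XX N).S := by
        show ((1, 2 * y) : ℤ × ℤ) ∈ PS (EE N ∪ WW N) (vx (rc N))
        rw [mem_PS, EE_WW, vx_se]
        have he : ((0, 2 * y + 1) : ℤ × ℤ) ∈ DD N := by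
          unfold DD; rw [mem_Bx]; simp only; omega
        refine mem_insert_of_mem ?_
        rw [mem_union, mem_image, mem_image]
        left
        refine ⟨_, he, ?_⟩
        unfold Pool.Agent.H75.Four.eu
        refine Prod.ext ?_ ?_ <;> simp only <;> omega
      have hn : ((1, 2 * y) : ℤ × ℤ) ∉ WW N := fun h => not_DD (N := N) le_rfl
        ((mem_sdiff.1 h).1)
      obtain ⟨e1, e2⟩ := nx_se hn
      have hf : (XX N).f ω (1, 2 * y) = (1, 2 * y + 1) := by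
        rw [Env.f_out hS hlE]; exact e1
      have hd : (XX N).d ω (1, 2 * y) = 1 := by
        rw [Env.d_out hS hlE]; exact e2
      have hne : (XX N).f ω (1, 2 * y) ≠ (XX N).c0 := by
        rw [hf, XX_c0]
        unfold rc
        intro h
        have := congrArg Prod.snd h
        simp only at this
        omega
      have := Env.incO_step hω hne
      rw [hf, hd] at this
      exact this
    rw [this]; ring
  rw [h3, inc_se h1 h2, show (2 : ℤ) = 1 + 1 by norm_num, ph_add]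
  ring

/-! ### The lower bound for the connection probabilities -/

/-- labels of the ring connect all its vertices -/
lemma ring_conn {N : ℕ} {v : ℤ × ℤ} (h1 : v.1 = -((N : ℤ) + 1) ∨ v.2 = -((N : ℤ) + 1) ∨
    v.2 = (N : ℤ) + 1) (h2 : inB (-((N : ℤ) + 1)) 0 (-((N : ℤ) + 1)) ((N : ℤ) + 1) v) :
    Co (WW N) (vx (rc N)) v := by
  -- straight pieces
  have hor : ∀ (y : ℤ) (n : ℕ) (x : ℤ), (y = -((N : ℤ) + 1) ∨ y = (N : ℤ) + 1) →
      -((N : ℤ) + 1) ≤ x → x + n ≤ 0 → Co (WW N) (x, y) (x + n, y) := by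
    intro y n
    induction n with
    | zero => intro x _ _ _; simpa using Co.refl _ _
    | succ n ih =>
      intro x hy hx1 hx2
      push_cast at hx2
      refine (ih x hy hx1 (by omega)).trans (Relation.ReflTransGen.single ⟨?_, ?_⟩)
      · left; refine Prod.ext ?_ ?_ <;> simp
      · unfold WW DD EE
        rw [mem_sdiff, mem_Bx, mem_Bx]
        simp only [Prod.mk_add_mk]
        push_cast
        omega
  have ver : ∀ (n : ℕ) (y : ℤ), -((N : ℤ) + 1) ≤ y → y + n ≤ (N : ℤ) + 1 →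
      Co (WW N) (-((N : ℤ) + 1), y) (-((N : ℤ) + 1), y + n) := by
    intro n
    induction n with
    | zero => intro y _ _; simpa using Co.refl _ _
    | succ n ih =>
      intro y hy1 hy2
      push_cast at hy2
      refine (ih y hy1 (by omega)).trans (Relation.ReflTransGen.single ⟨?_, ?_⟩)
      · right; left; refine Prod.ext ?_ ?_ <;> simp
      · unfold WW DD EE
        rw [mem_sdiff, mem_Bx, mem_Bx]
        simp only [Prod.mk_add_mk]
        push_cast
        omega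
  have hor' : ∀ (y x : ℤ), (y = -((N : ℤ) + 1) ∨ y = (N : ℤ) + 1) → -((N : ℤ) + 1) ≤ x → x ≤ 0 →
      Co (WW N) (-((N : ℤ) + 1), y) (x, y) := by
    intro y x hy h1 h2
    obtain ⟨n, rfl⟩ := Int.le.dest h1
    exact hor y n _ hy le_rfl h2
  have ver' : ∀ y : ℤ, -((N : ℤ) + 1) ≤ y → y ≤ (N : ℤ) + 1 →
      Co (WW N) (-((N : ℤ) + 1), -((N : ℤ) + 1)) (-((N : ℤ) + 1), y) := by
    intro y h1 h2
    obtain ⟨n, rfl⟩ := Int.le.dest h1
    exact ver n _ le_rfl h2
  rw [vx_rc]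
  obtain ⟨x, y⟩ := v
  unfold inB at h2
  simp only at h1 h2
  have s1 : Co (WW N) (0, -((N : ℤ) + 1)) (-((N : ℤ) + 1), -((N : ℤ) + 1)) :=
    (hor' _ 0 (Or.inl rfl) (by omega) le_rfl).symm
  refine s1.trans ?_
  rcases h1 with h1 | h1 | h1
  · rw [h1]; exact ver' y (by omega) (by omega)
  · rw [h1]; exact hor' _ x (Or.inl rfl) (by omega) (by omega)
  · rw [h1]
    exact (ver' ((N : ℤ) + 1) (by omega) le_rfl).trans (hor' _ x (Or.inr rfl) (by omega) (by omega))

/-- an arm of the free side is connected to the wired ring -/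
lemma co_of_AR {N : ℕ} {y : ℤ} (hy1 : -(N : ℤ) ≤ y) (hy2 : y ≤ N) {ω : Finset (ℤ × ℤ)}
    (h : AR 0 y (2 * N + 2) ω) : Co ((ω ∩ EE N) ∪ WW N) (vx (rc N)) (0, y) := by
  obtain ⟨z, hz, hc⟩ := h
  have hu : inB (-(N : ℤ)) 0 (-(N : ℤ)) N ((0, y) : ℤ × ℤ) := by unfold inB; simp only; omega
  have hz' : ¬ inB (-(N : ℤ)) 0 (-(N : ℤ)) N z := by
    unfold inB
    omega
  obtain ⟨w, w', hw, hw', had, hcx, -⟩ := exit_co hc hu hz'
  -- the path inside
  have h1 : Co (ω ∩ EE N) (0, y) w := by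
    have : ∀ v, CoX (ω ∩ Bx (0 - (2 * (N : ℤ) + 2)) 0 (y - (2 * N + 2)) (y + (2 * N + 2)))
        (inB (-(N : ℤ)) 0 (-(N : ℤ)) N) (0, y) v → Co (ω ∩ EE N) (0, y) v ∧
          inB (-(N : ℤ)) 0 (-(N : ℤ)) N v := by
      intro v hv
      induction hv with
      | refl => exact ⟨Co.refl _ _, hu⟩
      | @tail a b _ hab ih =>
        refine ⟨ih.1.tail ⟨hab.1.1, ?_⟩, hab.2⟩
        rw [mem_inter]
        exact ⟨(mem_inter.1 hab.1.2).1, add_mem_Bx hab.1.1 ih.2 hab.2⟩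
    exact (this w hcx).1
  -- the exit vertex is wired
  have hx := unit_cases had.1
  have hmem := (mem_inter.1 had.2).2
  rw [mem_Bx] at hmem
  simp only [Prod.fst_add, Prod.snd_add] at hmem
  have hwW : Co (WW N) w' (vx (rc N)) := by
    apply Co.symm
    unfold inB at hw hw'
    apply ring_conn
    · omega
    · unfold inB; omega
  have hww : Co (WW N) w w' := by
    refine Relation.ReflTransGen.single ⟨had.1, ?_⟩
    unfold WW DD EE
    unfold inB at hw hw'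
    rw [mem_sdiff, mem_Bx, mem_Bx]
    simp only [Prod.fst_add, Prod.snd_add]
    omega
  have k1 : Co ((ω ∩ EE N) ∪ WW N) (0, y) w := h1.mono subset_union_left
  have k2 : Co ((ω ∩ EE N) ∪ WW N) w (vx (rc N)) := (hww.trans hwW).mono subset_union_right
  exact (k1.trans k2).symm

theorem pp_lower {N : ℕ} {y : ℤ} (hy1 : -(N : ℤ) ≤ y) (hy2 : y ≤ N) :
    Pool.Agent.H75.Perc.ph (2 * N + 2) ≤ pp N y := by
  set B : Finset (ℤ × ℤ) := Bx (0 - (2 * (N : ℤ) + 2)) 0 (y - (2 * N + 2)) (y + (2 * N + 2)) with hB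
  have h1 : Pr B (AR 0 y (2 * N + 2)) = Pool.Agent.H75.Perc.ph (2 * N + 2) :=
    Pr_AR (subset_refl _)
  have h2 : EE N ⊆ B := Bx_sub (by omega) le_rfl (by omega) (by omega)
  unfold pp
  rw [← h1, ← Pr_restrict h2]
  exact Pr_mono fun ω _ h => co_of_AR hy1 hy2 h

theorem pp_le_one (N : ℕ) (y : ℤ) : pp N y ≤ 1 := Pr_le_one _ _

theorem pp_nonneg (N : ℕ) (y : ℤ) : 0 ≤ pp N y := Pr_nonneg _ _

/-! ### The primitive along the free side -/

lemma ph_two : ph 2 = w6 - 1 := by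
  have := ph_rec 0
  simp only [zero_add] at this
  rw [this, ph_one, ph_zero]

lemma side_step {N : ℕ} {Hv Hf : ℤ × ℤ → ℂ} (hP : (XX N).Prim (-(N : ℤ)) 0 (-(N : ℤ)) N Hv Hf)
    {y : ℤ} (h1 : -(N : ℤ) ≤ y) (h2 : y + 1 ≤ N) :
    Hv (0, y + 1) - Hv (0, y) = (pp N (y + 1) : ℂ) * ph 1 - (pp N y : ℂ) * ph 2 := by
  obtain ⟨e1, e2, e3, e4⟩ := corners_v 0 y
  rw [mul_zero] at e1 e2 e3 e4
  rw [zero_add] at e2 e3 e4
  have he : ((0, 2 * y + 1) : ℤ × ℤ) ∈ Bx (-(N : ℤ)) 0 (-(N : ℤ)) N := by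
    rw [mem_Bx]; simp only; omega
  have g2 := hP _ he _ (Or.inr (Or.inl rfl))
  have g3 := hP _ he _ (Or.inr (Or.inr (Or.inl rfl)))
  rw [e2] at g2
  rw [e1, e3] at g3
  have v2 : vx (1, 2 * y + 1) = (0, y) ∧ fi (1, 2 * y + 1) = (1, y + 1) := by
    unfold vx fi; constructor <;> ext <;> simp only <;> omega
  have v3 : vx (1, 2 * y + 2) = (0, y + 1) ∧ fi (1, 2 * y + 2) = (1, y + 1) := by
    unfold vx fi; constructor <;> ext <;> simp only <;> omega
  rw [v2.1, v2.2, inc_ne (by omega) (by omega)] at g2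
  rw [v3.1, v3.2, show (2 * y + 2 : ℤ) = 2 * (y + 1) by ring, inc_se (by omega) (by omega)] at g3
  rw [← g2, ← g3]; ring

lemma side_sum {N : ℕ} {Hv Hf : ℤ × ℤ → ℂ} (hP : (XX N).Prim (-(N : ℤ)) 0 (-(N : ℤ)) N Hv Hf)
    (n : ℕ) (hn : n ≤ N) : Hv (0, (n : ℤ)) - Hv (0, 0) =
      ((∑ y ∈ range n, pp N y : ℝ) : ℂ) + ((pp N n - pp N 0 : ℝ) : ℂ) * ph 1 := by
  induction n with
  | zero => simp
  | succ n ih =>
    have h1 := ih (by omega)
    have h2 := side_step hP (y := (n : ℤ)) (by omega) (by omega)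
    have e : ((n + 1 : ℕ) : ℤ) = (n : ℤ) + 1 := by push_cast; ring
    rw [e, Finset.sum_range_succ]
    have : Hv (0, (n : ℤ) + 1) - Hv (0, 0) =
        (Hv (0, (n : ℤ) + 1) - Hv (0, (n : ℤ))) + (Hv (0, (n : ℤ)) - Hv (0, 0)) := by ring
    rw [this, h2, h1, ph_two, ph_one]
    push_cast
    ring

/-- **The primitive moves along the free side.** -/
theorem side_big {N : ℕ} {Hv Hf : ℤ × ℤ → ℂ} (hP : (XX N).Prim (-(N : ℤ)) 0 (-(N : ℤ)) N Hv Hf)
    (n : ℕ) (hn : n ≤ N) : n * Pool.Agent.H75.Perc.ph (2 * N + 2) - 1 ≤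
      ‖Hv (0, (n : ℤ)) - Hv (0, 0)‖ := by
  rw [side_sum hP n hn]
  have h1 : (n : ℝ) * Pool.Agent.H75.Perc.ph (2 * N + 2) ≤ ∑ y ∈ range n, pp N y := by
    have : ∑ y ∈ range n, Pool.Agent.H75.Perc.ph (2 * N + 2) ≤ ∑ y ∈ range n, pp N y :=
      Finset.sum_le_sum fun y hy => pp_lower (by omega) (by
        have := mem_range.1 hy
        omega)
    rw [Finset.sum_const, card_range, nsmul_eq_mul] at this
    exact this
  have h0 : 0 ≤ ∑ y ∈ range n, pp N y := Finset.sum_nonneg fun y _ => pp_nonneg N y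
  have h2 : ‖((∑ y ∈ range n, pp N y : ℝ) : ℂ)‖ = ∑ y ∈ range n, pp N y := by
    rw [Complex.norm_real, Real.norm_of_nonneg h0]
  have h3 : ‖((pp N n - pp N 0 : ℝ) : ℂ) * ph 1‖ ≤ 1 := by
    rw [norm_mul, ph_norm, mul_one, Complex.norm_real, Real.norm_eq_abs, abs_le]
    have a1 := pp_nonneg N n
    have a2 := pp_le_one N n
    have a3 := pp_nonneg N 0
    have a4 := pp_le_one N 0
    constructor <;> linarith
  have h4 := norm_sub_le (((∑ y ∈ range n, pp N y : ℝ) : ℂ) +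
    ((pp N n - pp N 0 : ℝ) : ℂ) * ph 1) (((pp N n - pp N 0 : ℝ) : ℂ) * ph 1)
  rw [add_sub_cancel_right, h2] at h4
  linarith

end ND

end Pool.Agent.Q1
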