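import Mathlib
import Pool.Agent.Q1.M6f.NDenv
import Pool.Agent.Q1.M6f.Fam

set_option autoImplicit false
open Finset

/-! Nondegenerate functions exist in the family of a class of environments which contains the half box
environments `ND.XX N`: the statement `M6f.ND`. -/

namespace Pool.Agent.Q1.M6f

open Pool.Agent.H75.Perc Pool.Agent.H75.TwoArm

/-- Abstract properties of the primitive of the half box environment. -/
structure HalfFn (M : ℝ → Set (ℤ × ℤ → ℂ)) (c : ℝ) (N : ℕ) (G : ℤ × ℤ → ℂ) : Prop where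
  mem : ∀ (z : ℤ × ℤ) (r : ℝ), 0 ≤ r → (z.1 : ℝ) + r ≤ 0 → -(N : ℝ) ≤ z.1 - r →
    -(N : ℝ) ≤ z.2 - r → (z.2 : ℝ) + r ≤ N → (fun w => G (w + z)) ∈ M r
  st : ∀ y : ℤ, 0 ≤ y → y ≤ N → ‖G (0, y) - G (-1, y)‖ ≤ 2
  big : ∀ n : ℕ, n ≤ N → c * n * (N : ℝ) ^ (-(1 / 3) : ℝ) - 1 ≤ ‖G (0, (n : ℤ)) - G (0, 0)‖

lemma two_rpow : (3 / 2 : ℝ) ≤ 2 ^ (2 / 3 : ℝ) := by
  have h1 : ((3 / 2 : ℝ) ^ (3 : ℝ)) ^ (1 / 3 : ℝ) ≤ ((2 : ℝ) ^ (2 : ℝ)) ^ (1 / 3 : ℝ) := by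
    apply Real.rpow_le_rpow (by positivity) _ (by norm_num)
    norm_num
  rw [← Real.rpow_mul (by norm_num), ← Real.rpow_mul (by norm_num)] at h1
  norm_num at h1
  exact h1

variable {M : ℝ → Set (ℤ × ℤ → ℂ)} {C c : ℝ}

/-- the walk into the bulk -/
lemma HalfFn.walk {N : ℕ} {G : ℤ × ℤ → ℂ} (hG : HalfFn M c N G) (hAP : AP M C) (hC : 0 ≤ C)
    {y : ℤ} (hy : 0 ≤ y) (hy2 : 2 * y ≤ N) (J : ℕ) (hJ : 4 * 2 ^ J ≤ N) :
    ‖G (0, y) - G (-(2 ^ J : ℤ), y)‖ ≤ 2 + 3 * C * ((2 : ℝ) ^ J) ^ (2 / 3 : ℝ) := by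
  induction J with
  | zero =>
    have := hG.st y hy (by omega)
    simp only [pow_zero]
    have h1 : 0 ≤ 3 * C * (1 : ℝ) ^ (2 / 3 : ℝ) := by positivity
    linarith
  | succ J ih =>
    have h1 := ih (by rw [pow_succ] at hJ; omega)
    have hJ' : ((4 * 2 ^ (J + 1) : ℕ) : ℝ) ≤ N := by exact_mod_cast hJ
    push_cast at hJ'
    have hyR : (2 : ℝ) * y ≤ N := by exact_mod_cast hy2
    have hy0 : (0 : ℝ) ≤ y := by exact_mod_cast hy
    have hp : (0 : ℝ) < 2 ^ (J + 1) := by positivity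
    have hmem := hG.mem (-(2 ^ (J + 1) : ℤ), y) (2 ^ (J + 1)) (by positivity)
      (by push_cast; linarith) (by push_cast; linarith) (by push_cast; linarith)
      (by push_cast; linarith)
    have h2 := hAP (2 ^ (J + 1)) (one_le_pow₀ (by norm_num)) _ hmem (2 ^ J, 0) (0, 0)
      (by
        unfold box
        simp only
        push_cast
        rw [abs_of_nonneg (by positivity), pow_succ, abs_zero]
        constructor
        · linarith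
        · positivity)
      (by
        unfold box
        simp only [Int.cast_zero, abs_zero]
        constructor <;> positivity)
    simp only [Prod.mk_add_mk, zero_add] at h2
    have e1 : (2 ^ J + -(2 ^ (J + 1)) : ℤ) = -(2 ^ J) := by rw [pow_succ]; ring
    rw [e1] at h2
    have e2 : ((2 : ℝ) ^ (J + 1)) ^ (2 / 3 : ℝ) = 2 ^ (2 / 3 : ℝ) * ((2 : ℝ) ^ J) ^ (2 / 3 : ℝ) := by
      rw [pow_succ, mul_comm, Real.mul_rpow (by norm_num) (by positivity)]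
    have h3 : ‖G (0, y) - G (-(2 ^ (J + 1) : ℤ), y)‖ ≤
        ‖G (0, y) - G (-(2 ^ J : ℤ), y)‖ + ‖G (-(2 ^ J : ℤ), y) - G (-(2 ^ (J + 1) : ℤ), y)‖ := by
      have := norm_add_le (G (0, y) - G (-(2 ^ J : ℤ), y))
        (G (-(2 ^ J : ℤ), y) - G (-(2 ^ (J + 1) : ℤ), y))
      rwa [sub_add_sub_cancel] at this
    set A : ℝ := ((2 : ℝ) ^ J) ^ (2 / 3 : ℝ) with hA
    have hA0 : 0 ≤ A := by positivity
    rw [e2] at h2 ⊢
    have h4 := two_rpow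
    nlinarith [mul_nonneg hC hA0, mul_nonneg (mul_nonneg hC hA0) (sub_nonneg.2 h4)]

/-- pigeonhole along a line -/
lemma exists_step (g : ℕ → ℂ) (k : ℕ) (hk : 0 < k) {D : ℝ} (h : D ≤ ‖g k - g 0‖) :
    ∃ i < k, D / k ≤ ‖g (i + 1) - g i‖ := by
  by_contra hcon
  push Not at hcon
  have h1 : ‖g k - g 0‖ ≤ ∑ i ∈ range k, ‖g (i + 1) - g i‖ := by
    rw [← Finset.sum_range_sub]
    exact norm_sum_le _ _
  have h2 : ∑ i ∈ range k, ‖g (i + 1) - g i‖ < ∑ i ∈ range k, D / k :=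
    Finset.sum_lt_sum_of_nonempty ⟨0, mem_range.2 hk⟩ fun i hi => hcon i (mem_range.1 hi)
  rw [Finset.sum_const, card_range, nsmul_eq_mul] at h2
  have hk' : (k : ℝ) ≠ 0 := by exact_mod_cast hk.ne'
  rw [mul_div_cancel₀ _ hk'] at h2
  linarith

/-- **Nondegenerate functions exist.** -/
theorem nd_of_half (hAP : AP M C) (hC : 0 ≤ C) (hc : 0 < c)
    (hH : ∀ N : ℕ, 1 ≤ N → ∃ G, HalfFn M c N G) : ∃ c' > 0, ND M c' := by
  -- the number of steps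
  obtain ⟨k, hk⟩ : ∃ k : ℕ, 128 ≤ k ∧ 2 / c * (96 * C + 6) ≤ (k : ℝ) ^ (2 / 3 : ℝ) := by
    have h1 := tendsto_rpow_atTop (show (0 : ℝ) < 2 / 3 by norm_num)
    have h2 := h1.comp tendsto_natCast_atTop_atTop
    have h3 := h2.eventually_ge_atTop (2 / c * (96 * C + 6))
    obtain ⟨k, hk⟩ := (h3.and (Filter.eventually_ge_atTop 128)).exists
    exact ⟨k, hk.2, hk.1⟩
  have hk1 : (0 : ℝ) < k := by
    have : (128 : ℝ) ≤ k := by exact_mod_cast hk.1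
    linarith
  refine ⟨(1 / 16) ^ (2 / 3 : ℝ) / k, by positivity, 16, fun R hR => ?_⟩
  set s : ℕ := ⌊R / 8⌋₊ with hs
  have hs1 : (s : ℝ) ≤ R / 8 := Nat.floor_le (by linarith)
  have hs2 : R / 8 < s + 1 := Nat.lt_floor_add_one _
  have hs3 : R / 16 ≤ s := by linarith
  have hs4 : (1 : ℝ) ≤ s := by linarith
  have hs5 : 1 ≤ s := by exact_mod_cast hs4
  -- the power of two
  obtain ⟨J, hJ1, hJ2⟩ : ∃ J : ℕ, R ≤ 2 ^ J ∧ (2 : ℝ) ^ J ≤ 64 * s := by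
    have hR1 : (1 : ℝ) ≤ R := by linarith
    obtain ⟨J, h1, h2⟩ := exists_nat_pow_near hR1 (show (1 : ℝ) < 2 by norm_num)
    refine ⟨J + 1, h2.le, ?_⟩
    rw [pow_succ]; linarith
  set N : ℕ := 2 * k * s with hN
  have hNR : (N : ℝ) = 2 * k * s := by rw [hN]; push_cast; ring
  have hk128 : (128 : ℝ) ≤ k := by exact_mod_cast hk.1
  have hJN : 4 * 2 ^ J ≤ N := by
    have : (4 : ℝ) * 2 ^ J ≤ N := by rw [hNR]; nlinarith
    exact_mod_cast this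
  have hN1 : 1 ≤ N := by
    rw [hN]
    have : 0 < 2 * k * s := Nat.mul_pos (by omega) (by omega)
    omega
  obtain ⟨G, hG⟩ := hH N hN1
  have hks : 2 * (k * s) = N := by rw [hN]; ring
  -- the ends
  have w1 := hG.walk hAP hC (y := ((k * s : ℕ) : ℤ)) (by positivity) (by exact_mod_cast hks.le) J hJN
  have w0 := hG.walk hAP hC (y := 0) le_rfl (by simp) J hJN
  have hb := hG.big (k * s) (by omega)
  -- powers
  set S : ℝ := (s : ℝ) ^ (2 / 3 : ℝ) with hS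
  have hS1 : 1 ≤ S := Real.one_le_rpow hs4 (by norm_num)
  have p1 : ((2 : ℝ) ^ J) ^ (2 / 3 : ℝ) ≤ 16 * S := by
    have h1 : ((2 : ℝ) ^ J) ^ (2 / 3 : ℝ) ≤ (64 * s) ^ (2 / 3 : ℝ) :=
      Real.rpow_le_rpow (by positivity) hJ2 (by norm_num)
    rw [Real.mul_rpow (by norm_num) (by positivity)] at h1
    have h2 : (64 : ℝ) ^ (2 / 3 : ℝ) = 16 := by
      rw [show (64 : ℝ) = 4 ^ (3 : ℝ) by norm_num, ← Real.rpow_mul (by norm_num)]
      norm_num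
    rw [h2] at h1
    exact h1
  have p2 : c / 2 * ((k : ℝ) ^ (2 / 3 : ℝ) * S) ≤ c * ((k * s : ℕ) : ℝ) * (N : ℝ) ^ (-(1 / 3) : ℝ) := by
    have hx : (0 : ℝ) < (k : ℝ) * s := by positivity
    have e1 : (N : ℝ) ^ (-(1 / 3) : ℝ) = 2 ^ (-(1 / 3) : ℝ) * ((k : ℝ) * s) ^ (-(1 / 3) : ℝ) := by
      rw [hNR, mul_assoc, Real.mul_rpow (by norm_num) hx.le]
    have e2 : (1 / 2 : ℝ) ≤ 2 ^ (-(1 / 3) : ℝ) := by
      have h1 : (2 : ℝ) ^ (-1 : ℝ) ≤ 2 ^ (-(1 / 3) : ℝ) :=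
        Real.rpow_le_rpow_of_exponent_le (by norm_num) (by norm_num)
      rw [Real.rpow_neg_one] at h1
      linarith
    have e3 : ((k : ℝ) * s) * ((k : ℝ) * s) ^ (-(1 / 3) : ℝ) = (k : ℝ) ^ (2 / 3 : ℝ) * S := by
      have h1 : ((k : ℝ) * s) * ((k : ℝ) * s) ^ (-(1 / 3) : ℝ) = ((k : ℝ) * s) ^ (2 / 3 : ℝ) := by
        conv_lhs => rw [← Real.rpow_one ((k : ℝ) * s), ← Real.rpow_mul hx.le, ← Real.rpow_add hx]
        norm_num
      rw [h1, Real.mul_rpow hk1.le (by positivity)]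
    have e4 : c * ((k * s : ℕ) : ℝ) * (N : ℝ) ^ (-(1 / 3) : ℝ) =
        c * 2 ^ (-(1 / 3) : ℝ) * ((k : ℝ) ^ (2 / 3 : ℝ) * S) := by
      rw [← e3, e1]; push_cast; ring
    rw [e4]
    have h5 : 0 ≤ (k : ℝ) ^ (2 / 3 : ℝ) * S := by positivity
    nlinarith [mul_nonneg hc.le h5]
  have p3 : 96 * C + 6 ≤ c / 2 * (k : ℝ) ^ (2 / 3 : ℝ) := by
    have := mul_le_mul_of_nonneg_left hk.2 (show 0 ≤ c / 2 by positivity)
    have e : c / 2 * (2 / c * (96 * C + 6)) = 96 * C + 6 := by field_simp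
    rwa [e] at this
  -- the difference in the bulk
  have hD : S ≤ ‖G (-(2 ^ J : ℤ), ((k * s : ℕ) : ℤ)) - G (-(2 ^ J : ℤ), 0)‖ := by
    have t1 : ‖G (0, ((k * s : ℕ) : ℤ)) - G (0, 0)‖ ≤
        ‖G (0, ((k * s : ℕ) : ℤ)) - G (-(2 ^ J : ℤ), ((k * s : ℕ) : ℤ))‖ +
        ‖G (-(2 ^ J : ℤ), ((k * s : ℕ) : ℤ)) - G (-(2 ^ J : ℤ), 0)‖ +
        ‖G (0, 0) - G (-(2 ^ J : ℤ), 0)‖ := by
      have e : G (0, ((k * s : ℕ) : ℤ)) - G (0, 0) =
        (G (0, ((k * s : ℕ) : ℤ)) - G (-(2 ^ J : ℤ), ((k * s : ℕ) : ℤ))) +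
        (G (-(2 ^ J : ℤ), ((k * s : ℕ) : ℤ)) - G (-(2 ^ J : ℤ), 0)) -
        (G (0, 0) - G (-(2 ^ J : ℤ), 0)) := by ring
      rw [e]
      exact (norm_sub_le _ _).trans (add_le_add_left (norm_add_le _ _) _)
    have t2 : 3 * C * ((2 : ℝ) ^ J) ^ (2 / 3 : ℝ) ≤ 48 * C * S := by
      have := mul_le_mul_of_nonneg_left p1 (show 0 ≤ 3 * C by positivity)
      linarith
    have t3 : (96 * C + 6) * S ≤ c / 2 * ((k : ℝ) ^ (2 / 3 : ℝ) * S) := by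
      have := mul_le_mul_of_nonneg_right p3 (show 0 ≤ S by positivity)
      linarith
    nlinarith
  obtain ⟨i, hi, hstep⟩ := exists_step (fun i : ℕ => G (-(2 ^ J : ℤ), ((i * s : ℕ) : ℤ))) k
    (by exact_mod_cast hk1) (D := S) (by simpa using hD)
  refine ⟨fun w => G (w + (-(2 ^ J : ℤ), ((i * s : ℕ) : ℤ))), ?_, (0, (s : ℤ)), (0, 0), ?_, ?_, ?_⟩
  · have hik : ((i : ℝ)) + 1 ≤ k := by exact_mod_cast hi
    have hi0 : (0 : ℝ) ≤ i := Nat.cast_nonneg _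
    have hJN' : (4 : ℝ) * 2 ^ J ≤ N := by exact_mod_cast hJN
    have his : ((i : ℝ)) * s ≤ k * s := by nlinarith
    have his0 : (0 : ℝ) ≤ (i : ℝ) * s := by positivity
    apply hG.mem
    · linarith
    · push_cast; linarith
    · push_cast; linarith
    · push_cast; nlinarith
    · push_cast; rw [hNR]; nlinarith
  · unfold box
    simp only
    push_cast
    rw [abs_zero, abs_of_nonneg (by positivity)]
    exact ⟨by linarith, hs1⟩
  · unfold box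
    simp only [Int.cast_zero, abs_zero]
    constructor <;> linarith
  · have e1 : ((0, (s : ℤ)) : ℤ × ℤ) + (-(2 ^ J : ℤ), ((i * s : ℕ) : ℤ)) =
        (-(2 ^ J : ℤ), (((i + 1) * s : ℕ) : ℤ)) := by
      refine Prod.ext ?_ ?_
      · simp
      · simp only [Prod.snd_add]; push_cast; ring
    have e2 : ((0, 0) : ℤ × ℤ) + (-(2 ^ J : ℤ), ((i * s : ℕ) : ℤ)) =
        (-(2 ^ J : ℤ), ((i * s : ℕ) : ℤ)) := by
      refine Prod.ext ?_ ?_ <;> simp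
    simp only
    rw [e1, e2]
    refine le_trans ?_ hstep
    rw [div_mul_eq_mul_div]
    apply div_le_div_of_nonneg_right _ hk1.le
    rw [← Real.mul_rpow (by norm_num) (by linarith)]
    exact Real.rpow_le_rpow (by positivity) (by linarith) (by norm_num)

/-! ### The half box environment -/

theorem halfFn_XX {K : Env → Prop} (hK : ∀ N : ℕ, K (ND.XX N)) :
    ∃ c > 0, ∀ N : ℕ, 1 ≤ N → ∃ G, HalfFn (famM K) c N G := by
  obtain ⟨c, hc, -, h⟩ := Pool.Agent.H49.Q1.ph_lower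
  refine ⟨c / 2, by positivity, fun N hN => ?_⟩
  obtain ⟨Hv, Hf, hP⟩ := (ND.XX N).exists_prim (a := -(N : ℤ)) (b := 0) (c := -(N : ℤ)) (d := N)
    (subset_refl _)
  refine ⟨Hv, ⟨?_, ?_, ?_⟩⟩
  · intro z r hr h1 h2 h3 h4
    have hf := Int.floor_le r
    have g1 : z.1 + ⌊r⌋ ≤ 0 := by
      have : ((z.1 + ⌊r⌋ : ℤ) : ℝ) ≤ 0 := by push_cast; linarith
      exact_mod_cast this
    have g2 : -(N : ℤ) ≤ z.1 - ⌊r⌋ := by
      have : ((-(N : ℤ) : ℤ) : ℝ) ≤ ((z.1 - ⌊r⌋ : ℤ) : ℝ) := by push_cast; linarith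
      exact_mod_cast this
    have g3 : -(N : ℤ) ≤ z.2 - ⌊r⌋ := by
      have : ((-(N : ℤ) : ℤ) : ℝ) ≤ ((z.2 - ⌊r⌋ : ℤ) : ℝ) := by push_cast; linarith
      exact_mod_cast this
    have g4 : z.2 + ⌊r⌋ ≤ N := by
      have : ((z.2 + ⌊r⌋ : ℤ) : ℝ) ≤ ((N : ℤ) : ℝ) := by push_cast; linarith
      exact_mod_cast this
    have hsub : Bx (z.1 - ⌊r⌋) (z.1 + ⌊r⌋) (z.2 - ⌊r⌋) (z.2 + ⌊r⌋) ⊆ Bx (-(N : ℤ)) 0 (-(N : ℤ)) N :=
      Bx_sub g2 g1 g3 g4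
    exact ⟨ND.XX N, hK N, z.1, z.2, hsub, Hv, Hf, fun e he => hP e (hsub he), 1, 0, by simp,
      fun w _ _ => by simp [Prod.add_def]⟩
  · intro y h1 h2
    have := step_h hP (x := -1) (y := y) (by omega) (by omega) (by omega) h2
    rw [norm_sub_rev]
    simpa using this
  · intro n hn
    have h1 := ND.side_big hP n hn
    have h2 := h (2 * N + 2) (by omega)
    have hN0 : (0 : ℝ) < N := by exact_mod_cast hN
    have hN1 : (1 : ℝ) ≤ N := by exact_mod_cast hN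
    have h3 : (1 / 2 : ℝ) * (N : ℝ) ^ (-(1 / 3) : ℝ) ≤ ((2 * (N : ℤ) + 2 : ℤ) : ℝ) ^ (-(1 / 3) : ℝ) := by
      have e1 : (4 * (N : ℝ)) ^ (-(1 / 3) : ℝ) ≤ ((2 * (N : ℤ) + 2 : ℤ) : ℝ) ^ (-(1 / 3) : ℝ) := by
        have q1 : (0 : ℝ) < ((2 * (N : ℤ) + 2 : ℤ) : ℝ) := by push_cast; linarith
        have q2 : ((2 * (N : ℤ) + 2 : ℤ) : ℝ) ≤ 4 * (N : ℝ) := by push_cast; linarith
        exact Real.rpow_le_rpow_of_nonpos q1 q2 (by norm_num)
      rw [Real.mul_rpow (by norm_num) hN0.le] at e1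
      have e2 : (1 / 2 : ℝ) ≤ 4 ^ (-(1 / 3) : ℝ) := by
        have k1 : (4 : ℝ) ^ (-(1 / 2) : ℝ) ≤ 4 ^ (-(1 / 3) : ℝ) :=
          Real.rpow_le_rpow_of_exponent_le (by norm_num) (by norm_num)
        have k2 : (4 : ℝ) ^ (-(1 / 2) : ℝ) = 1 / 2 := by
          rw [show (4 : ℝ) = 2 ^ (2 : ℝ) by norm_num, ← Real.rpow_mul (by norm_num)]
          norm_num
        linarith
      exact (mul_le_mul_of_nonneg_right e2 (by positivity)).trans e1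
    have h4 : c / 2 * n * (N : ℝ) ^ (-(1 / 3) : ℝ) ≤ n * Pool.Agent.H75.Perc.ph (2 * N + 2) := by
      have k1 : c * ((1 / 2 : ℝ) * (N : ℝ) ^ (-(1 / 3) : ℝ)) ≤ Pool.Agent.H75.Perc.ph (2 * N + 2) :=
        (mul_le_mul_of_nonneg_left h3 hc.le).trans h2
      have := mul_le_mul_of_nonneg_left k1 (Nat.cast_nonneg (α := ℝ) n)
      linarith
    linarith

/-- **(ND)** for every class of environments which contains the half box environments and satisfies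
the a priori bound. -/
theorem nd_famM {K : Env → Prop} (hK : ∀ N : ℕ, K (ND.XX N)) {C : ℝ} (hC : 0 ≤ C)
    (hAP : AP (famM K) C) : ∃ c > 0, ND (famM K) c := by
  obtain ⟨c, hc, h⟩ := halfFn_XX hK
  exact nd_of_half hAP hC hc h

end Pool.Agent.Q1.M6f
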