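import Pool.Agent.Q1.M6f.Abs

/-!
# Module M6f: rotation by 90 degrees, conclusion of N1 (section 9 of R2.md)
-/

set_option autoImplicit false

open Complex Filter Topology

namespace Pool.Agent.Q1.M6f

variable {M : ℝ → Set (ℤ × ℤ → ℂ)}

/-- A linear recursion along a line: if `a (j+1) = q a j + e j` with small errors then
`(1 - q) ∑ a j` is a boundary term plus the errors. -/
lemma sum_rec {a : ℕ → ℂ} {q : ℂ} {e : ℝ} {J : ℕ}
    (h : ∀ j < J, ‖a (j + 1) - q * a j‖ ≤ e) {B : ℝ} (hB : ∀ j ≤ J, ‖a j‖ ≤ B) :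
    ‖(1 - q) * ∑ j ∈ Finset.range J, a j‖ ≤ J * e + 2 * B := by
  have h1 : (1 - q) * ∑ j ∈ Finset.range J, a j =
      (∑ j ∈ Finset.range J, (a (j + 1) - q * a j)) + (a 0 - a J) := by
    rw [Finset.sum_sub_distrib, ← Finset.mul_sum]
    have := Finset.sum_range_succ' a J
    have h2 := Finset.sum_range_succ a J
    rw [h2] at this
    linear_combination this
  rw [h1]
  refine (norm_add_le _ _).trans (add_le_add ?_ ?_)
  · refine (norm_sum_le _ _).trans ?_
    calc ∑ j ∈ Finset.range J, ‖a (j + 1) - q * a j‖ ≤ ∑ j ∈ Finset.range J, e :=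
          Finset.sum_le_sum fun j hj => h j (Finset.mem_range.1 hj)
      _ = J * e := by simp
  · calc ‖a 0 - a J‖ ≤ ‖a 0‖ + ‖a J‖ := norm_sub_le _ _
      _ ≤ 2 * B := by linarith [hB 0 (Nat.zero_le _), hB J le_rfl]

/-- The three relations between the increments obtained from the rotations. -/
lemma three_rel (hM : Fam M) {r : ℝ} {n : ℕ} {s e : ℝ}
    (hrel : ∀ H ∈ M r, ‖An n H 0 - I * s * Bn n H 0‖ ≤ e) {H : ℤ × ℤ → ℂ} {w : ℤ × ℤ}
    (hH : (fun v => H (v + w)) ∈ M r) :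
    ‖An n H w - I * s * Bn n H w‖ ≤ e ∧
    ‖Bn n H w + I * s * An n H (w - ((n : ℤ), (n : ℤ)))‖ ≤ e ∧
    ‖Bn n H (w - ((n : ℤ), -(n : ℤ))) + I * s * An n H w‖ ≤ e := by
  refine ⟨?_, ?_, ?_⟩
  · have h1 := hrel _ hH
    simpa [An, Bn, add_comm] using h1
  · have h1 := hrel _ (hM.rot r _ hH)
    have e1 : An n (fun w_1 : ℤ × ℤ => (fun v => H (v + w)) (w_1.2, -w_1.1)) 0 = Bn n H w := by
      simp [An, Bn, add_comm, Prod.mk_zero_zero]
    have e2 : Bn n (fun w_1 : ℤ × ℤ => (fun v => H (v + w)) (w_1.2, -w_1.1)) 0 =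
        -An n H (w - ((n : ℤ), (n : ℤ))) := by
      simp only [An, Bn, zero_add, Prod.snd_zero, Prod.fst_zero, neg_zero, neg_sub,
        sub_add_cancel, Prod.mk_zero_zero]
      congr 2
      ext <;> simp <;> ring
    rw [e1, e2] at h1
    have e3 : Bn n H w + I * s * An n H (w - ((n : ℤ), (n : ℤ))) =
        Bn n H w - I * s * -An n H (w - ((n : ℤ), (n : ℤ))) := by ring
    rw [e3]
    exact h1
  · have h1 := hrel _ (hM.rot r _ (hM.rot r _ (hM.rot r _ hH)))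
    have e1 : An n (fun w_1 : ℤ × ℤ => (fun w_1 : ℤ × ℤ => (fun w_1 : ℤ × ℤ =>
        (fun v => H (v + w)) (w_1.2, -w_1.1)) (w_1.2, -w_1.1)) (w_1.2, -w_1.1)) 0 =
        -Bn n H (w - ((n : ℤ), -(n : ℤ))) := by
      simp only [An, Bn, zero_add, Prod.snd_zero, Prod.fst_zero, neg_zero, neg_neg, neg_sub,
        sub_add_cancel, Prod.mk_zero_zero]
      congr 2
      ext <;> simp <;> ring
    have e2 : Bn n (fun w_1 : ℤ × ℤ => (fun w_1 : ℤ × ℤ => (fun w_1 : ℤ × ℤ =>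
        (fun v => H (v + w)) (w_1.2, -w_1.1)) (w_1.2, -w_1.1)) (w_1.2, -w_1.1)) 0 = An n H w := by
      simp [An, Bn, add_comm, Prod.mk_zero_zero]
    rw [e1, e2] at h1
    have e3 : Bn n H (w - ((n : ℤ), -(n : ℤ))) + I * s * An n H w =
        -(-Bn n H (w - ((n : ℤ), -(n : ℤ))) - I * s * An n H w) := by ring
    rw [e3, norm_neg]
    exact h1

/-- The recursion along a line in the direction `d`. -/
lemma line_int {H : ℤ × ℤ → ℂ} {d : ℤ × ℤ} {X e B : ℝ} {q : ℂ}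
    (hD : ∀ w, box X w → ‖(H (w + d) - H w) - q * (H w - H (w - d))‖ ≤ e)
    (hB : ∀ w, box X w → ‖H (w + d) - H w‖ ≤ B) (p : ℤ × ℤ) (α : ℤ)
    (hp : ∀ j : ℤ, |j| ≤ |α| → box X (p + j • d)) :
    ‖(1 - q) * (H (p + α • d) - H p)‖ ≤ |(α : ℝ)| * e + 2 * B := by
  have key : ∀ (J : ℕ) (p : ℤ × ℤ), (∀ j : ℕ, j ≤ J → box X (p + (j : ℤ) • d)) →
      ‖(1 - q) * (H (p + (J : ℤ) • d) - H p)‖ ≤ J * e + 2 * B := by
    intro J p hp
    have hsucc : ∀ j : ℕ, p + ((j + 1 : ℕ) : ℤ) • d = p + (j : ℤ) • d + d := by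
      intro j
      push_cast
      rw [add_smul, one_smul, add_assoc]
    have h := sum_rec (a := fun j => H (p + ((j + 1 : ℕ) : ℤ) • d) - H (p + (j : ℤ) • d))
      (q := q) (e := e) (J := J) (fun j hj => ?_) (B := B) (fun j hj => ?_)
    · rw [Finset.sum_range_sub (fun j : ℕ => H (p + (j : ℤ) • d))] at h
      simpa using h
    · have := hD _ (hp (j + 1) hj)
      rw [hsucc (j + 1)]
      have e1 : p + (j : ℤ) • d = p + ((j + 1 : ℕ) : ℤ) • d - d := by rw [hsucc j]; abel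
      rw [e1]
      exact this
    · have := hB _ (hp j hj)
      rw [hsucc j]
      exact this
  rcases le_total 0 α with h0 | h0
  · obtain ⟨J, rfl⟩ := Int.eq_ofNat_of_zero_le h0
    have := key J p (fun j hj => hp _ (by
      rw [abs_of_nonneg (by positivity), abs_of_nonneg h0]
      exact_mod_cast hj))
    simpa using this
  · obtain ⟨J, hJ⟩ := Int.eq_ofNat_of_zero_le (neg_nonneg.2 h0)
    have hα : α = -(J : ℤ) := by omega
    subst hα
    have hk := key J (p + (-(J : ℤ)) • d) (fun j hj => by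
      have := hp ((j : ℤ) - J) (by
        rw [abs_of_nonpos (by omega), abs_of_nonpos (by omega)]
        omega)
      have e1 : p + ((j : ℤ) - J) • d = p + (-(J : ℤ)) • d + (j : ℤ) • d := by
        rw [sub_smul, neg_smul]
        abel
      rw [← e1]
      exact this)
    have e2 : p + (-(J : ℤ)) • d + (J : ℤ) • d = p := by rw [neg_smul]; abel
    rw [e2] at hk
    have e3 : (1 - q) * (H (p + (-(J : ℤ)) • d) - H p) =
        -((1 - q) * (H p - H (p + (-(J : ℤ)) • d))) := by ring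
    rw [e3, norm_neg]
    simpa using hk

/-- Increments at distance `n` are bounded by `(4n)^{2/3}` (a priori bound at scale `n`). -/
lemma inc_le (hM : Fam M) {CA : ℝ} (hAP : AP M CA) {R : ℝ} {n : ℕ} (hn : 1 ≤ n)
    (hnR : 16 * (n : ℝ) ≤ R) {H : ℤ × ℤ → ℂ} (hH : H ∈ M R) {w x y : ℤ × ℤ}
    (hw : box (3 * R / 4) w) (hx : box (2 * n) x) (hy : box (2 * n) y) :
    ‖H (x + w) - H (y + w)‖ ≤ CA * (4 * (n : ℝ)) ^ (2 / 3 : ℝ) := by
  have hn' : (1 : ℝ) ≤ n := by exact_mod_cast hn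
  have h1 : (fun v => H (v + w)) ∈ M (R / 4) :=
    hM.sub R (R / 4) H w hH (by
      have : R - R / 4 = 3 * R / 4 := by ring
      rw [this]
      exact hw)
  have h2 : (fun v => H (v + w)) ∈ M (4 * n) := hM.mono h1 (by linarith)
  have e : (4 * (n : ℝ)) / 2 = 2 * n := by ring
  exact hAP (4 * n) (by linarith) _ h2 x y (by rw [e]; exact hx) (by rw [e]; exact hy)

lemma box_small {n : ℕ} {a b : ℤ} (ha : |(a : ℝ)| ≤ 2 * n) (hb : |(b : ℝ)| ≤ 2 * n) :
    box (2 * n) (a, b) := ⟨ha, hb⟩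

/-- Differences of `H` at distance of order `R` are small unless `s` is close to `1`. -/
lemma diff_bound (hM : Fam M) {CA : ℝ} (hAP : AP M CA) {s Cs ε R : ℝ} {n : ℕ}
    (hs : 0 ≤ s) (hsC : s ≤ Cs) (hε : 0 ≤ ε) (hn : 1 ≤ n) (hnR : 16 * (n : ℝ) ≤ R)
    (hrel : ∀ H ∈ M (R / 4), ‖An n H 0 - I * s * Bn n H 0‖ ≤
      ε * (n * (R / 4) ^ (-(1 / 3) : ℝ)))
    {H : ℤ × ℤ → ℂ} (hH : H ∈ M R) {u v : ℤ × ℤ} (hu : box (R / 8) u) (hv : box (R / 8) v) :
    |1 - s ^ 2| * ‖H u - H v‖ ≤ 2 * ((1 + Cs) * ε) * R ^ (2 / 3 : ℝ) +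
      (5 + Cs ^ 2) * (CA * (4 * (n : ℝ)) ^ (2 / 3 : ℝ)) := by
  have hn' : (1 : ℝ) ≤ n := by exact_mod_cast hn
  have hR : 0 < R := by linarith
  set e := ε * (n * (R / 4) ^ (-(1 / 3) : ℝ)) with he
  set B := CA * (4 * (n : ℝ)) ^ (2 / 3 : ℝ) with hB
  have he0 : 0 ≤ e := by positivity
  have hCs : 0 ≤ Cs := hs.trans hsC
  have hz : box (2 * n) (0 : ℤ × ℤ) := by
    refine box_small (n := n) (a := 0) (b := 0) ?_ ?_ <;> simp
  have hsub : ∀ w, box (3 * R / 4) w → (fun v => H (v + w)) ∈ M (R / 4) := by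
    intro w hw
    refine hM.sub R (R / 4) H w hH ?_
    have : R - R / 4 = 3 * R / 4 := by ring
    rw [this]
    exact hw
  have hB0 : 0 ≤ B := by
    have hw : box (3 * R / 4) (0 : ℤ × ℤ) := by
      constructor <;> simp <;> positivity
    exact (norm_nonneg _).trans (inc_le hM hAP hn hnR hH hw hz hz)
  -- the relations
  have hrelA : ∀ w, box (3 * R / 4) w →
      ‖(H (w + ((n : ℤ), (n : ℤ))) - H w) - (s : ℂ) ^ 2 * (H w - H (w - ((n : ℤ), (n : ℤ))))‖ ≤
        (1 + Cs) * e := by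
    intro w hw
    obtain ⟨r1, r2, r3⟩ := three_rel hM hrel (hsub w hw)
    have e1 : (H (w + ((n : ℤ), (n : ℤ))) - H w) -
        (s : ℂ) ^ 2 * (H w - H (w - ((n : ℤ), (n : ℤ)))) =
        (An n H w - I * s * Bn n H w) +
          I * s * (Bn n H w + I * s * An n H (w - ((n : ℤ), (n : ℤ)))) := by
      simp only [An, sub_add_cancel]
      have : (I : ℂ) * I = -1 := I_mul_I
      linear_combination (-(s : ℂ) ^ 2 * (H w - H (w - ((n : ℤ), (n : ℤ))))) * this
    rw [e1]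
    refine (norm_add_le _ _).trans ?_
    rw [norm_mul, norm_mul, norm_I, one_mul, Complex.norm_real, Real.norm_eq_abs,
      abs_of_nonneg hs]
    calc _ ≤ e + s * e := add_le_add r1 (mul_le_mul_of_nonneg_left r2 hs)
      _ ≤ (1 + Cs) * e := by
          have := mul_le_mul_of_nonneg_right hsC he0
          linarith
  have hrelB : ∀ w, box (3 * R / 4) w →
      ‖(H (w + (-(n : ℤ), (n : ℤ))) - H w) - (s : ℂ) ^ 2 * (H w - H (w - (-(n : ℤ), (n : ℤ))))‖ ≤
        (1 + Cs) * e := by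
    intro w hw
    obtain ⟨r1, r2, r3⟩ := three_rel hM hrel (hsub w hw)
    have d1 : w + (-(n : ℤ), (n : ℤ)) = w - ((n : ℤ), -(n : ℤ)) :=
      Prod.ext (by simp; ring) (by simp)
    have d2 : w - (-(n : ℤ), (n : ℤ)) = w + ((n : ℤ), -(n : ℤ)) :=
      Prod.ext (by simp) (by simp; ring)
    have e1 : (H (w + (-(n : ℤ), (n : ℤ))) - H w) -
        (s : ℂ) ^ 2 * (H w - H (w - (-(n : ℤ), (n : ℤ)))) =
        -((Bn n H (w - ((n : ℤ), -(n : ℤ))) + I * s * An n H w) -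
          I * s * (An n H w - I * s * Bn n H w)) := by
      rw [d1, d2]
      simp only [Bn, sub_add_cancel]
      have : (I : ℂ) * I = -1 := I_mul_I
      linear_combination ((s : ℂ) ^ 2 * (H (w + ((n : ℤ), -(n : ℤ))) - H w)) * this
    rw [e1, norm_neg]
    refine (norm_sub_le _ _).trans ?_
    rw [norm_mul, norm_mul, norm_I, one_mul, Complex.norm_real, Real.norm_eq_abs,
      abs_of_nonneg hs]
    calc _ ≤ e + s * e := add_le_add r3 (mul_le_mul_of_nonneg_left r1 hs)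
      _ ≤ (1 + Cs) * e := by
          have := mul_le_mul_of_nonneg_right hsC he0
          linarith
  have hbA : ∀ w, box (3 * R / 4) w → ‖H (w + ((n : ℤ), (n : ℤ))) - H w‖ ≤ B := by
    intro w hw
    have := inc_le hM hAP hn hnR hH hw (x := ((n : ℤ), (n : ℤ))) (y := 0)
      (box_small (by simp; linarith) (by simp; linarith)) hz
    simpa [add_comm] using this
  have hbB : ∀ w, box (3 * R / 4) w → ‖H (w + (-(n : ℤ), (n : ℤ))) - H w‖ ≤ B := by
    intro w hw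
    have := inc_le hM hAP hn hnR hH hw (x := (-(n : ℤ), (n : ℤ))) (y := 0)
      (box_small (by simp; linarith) (by simp; linarith)) hz
    simpa [add_comm] using this
  -- the decomposition of the displacement
  obtain ⟨hu1, hu2⟩ := hu
  obtain ⟨hv1, hv2⟩ := hv
  rw [abs_le] at hu1 hu2 hv1 hv2
  set α : ℤ := ((v.1 - u.1) + (v.2 - u.2)) / (2 * n) with hα
  set β : ℤ := ((v.2 - u.2) - (v.1 - u.1)) / (2 * n) with hβ
  have hn2 : (0 : ℤ) < 2 * n := by omega
  have a1 : (2 * n) * α ≤ (v.1 - u.1) + (v.2 - u.2) := Int.mul_ediv_self_le hn2.ne'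
  have a2 : (v.1 - u.1) + (v.2 - u.2) < (2 * n) * α + 2 * n := Int.lt_mul_ediv_self_add hn2
  have b1 : (2 * n) * β ≤ (v.2 - u.2) - (v.1 - u.1) := Int.mul_ediv_self_le hn2.ne'
  have b2 : (v.2 - u.2) - (v.1 - u.1) < (2 * n) * β + 2 * n := Int.lt_mul_ediv_self_add hn2
  have a1' : 2 * (n : ℝ) * α ≤ (v.1 - u.1) + (v.2 - u.2) := by exact_mod_cast a1
  have a2' : ((v.1 : ℝ) - u.1) + (v.2 - u.2) < 2 * n * α + 2 * n := by exact_mod_cast a2
  have b1' : 2 * (n : ℝ) * β ≤ (v.2 - u.2) - (v.1 - u.1) := by exact_mod_cast b1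
  have b2' : ((v.2 : ℝ) - u.2) - (v.1 - u.1) < 2 * n * β + 2 * n := by exact_mod_cast b2
  have hαn : |(α : ℝ)| * n ≤ R / 4 + n := by
    have : |(α : ℝ) * n| ≤ R / 4 + n := by
      rw [abs_le]
      constructor <;> linarith
    rwa [abs_mul, abs_of_nonneg (by positivity : (0 : ℝ) ≤ (n : ℝ))] at this
  have hβn : |(β : ℝ)| * n ≤ R / 4 + n := by
    have : |(β : ℝ) * n| ≤ R / 4 + n := by
      rw [abs_le]
      constructor <;> linarith
    rwa [abs_mul, abs_of_nonneg (by positivity : (0 : ℝ) ≤ (n : ℝ))] at this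
  have hj : ∀ (γ j : ℤ), |(γ : ℝ)| * n ≤ R / 4 + n → |j| ≤ |γ| → |(j : ℝ) * n| ≤ R / 4 + n := by
    intro γ j h1 h2
    rw [abs_mul, abs_of_nonneg (by positivity : (0 : ℝ) ≤ (n : ℝ))]
    have h3 : |(j : ℝ)| ≤ |(γ : ℝ)| := by exact_mod_cast h2
    exact (mul_le_mul_of_nonneg_right h3 (by positivity)).trans h1
  have lA := line_int hrelA hbA u α (fun j h => by
    have := abs_le.1 (hj α j hαn h)
    constructor
    · simp only [Prod.fst_add, Prod.smul_fst, smul_eq_mul, Int.cast_add, Int.cast_mul,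
        Int.cast_natCast]
      rw [abs_le]
      constructor <;> linarith
    · simp only [Prod.snd_add, Prod.smul_snd, smul_eq_mul, Int.cast_add, Int.cast_mul,
        Int.cast_natCast]
      rw [abs_le]
      constructor <;> linarith)
  have hαα := abs_le.1 (hj α α hαn le_rfl)
  have hββ := abs_le.1 (hj β β hβn le_rfl)
  have lB := line_int hrelB hbB (u + α • ((n : ℤ), (n : ℤ))) β (fun j h => by
    have := abs_le.1 (hj β j hβn h)
    constructor
    · simp only [Prod.fst_add, Prod.smul_fst, smul_eq_mul, Int.cast_add, Int.cast_mul,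
        Int.cast_natCast, Int.cast_neg]
      rw [abs_le]
      constructor <;> linarith
    · simp only [Prod.snd_add, Prod.smul_snd, smul_eq_mul, Int.cast_add, Int.cast_mul,
        Int.cast_natCast]
      rw [abs_le]
      constructor <;> linarith)
  set p1 := u + α • ((n : ℤ), (n : ℤ)) with hp1
  set p2 := p1 + β • (-(n : ℤ), (n : ℤ)) with hp2
  have lC : ‖H v - H p2‖ ≤ B := by
    have hw : box (3 * R / 4) v := by
      constructor <;> rw [abs_le] <;> constructor <;> linarith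
    have := inc_le hM hAP hn hnR hH hw (x := 0) (y := (p2 - v)) hz (by
      constructor
      · simp only [hp2, hp1, Prod.fst_sub, Prod.fst_add, Prod.smul_fst, smul_eq_mul, Int.cast_sub,
          Int.cast_add, Int.cast_mul, Int.cast_natCast, Int.cast_neg]
        rw [abs_le]
        constructor <;> linarith
      · simp only [hp2, hp1, Prod.snd_sub, Prod.snd_add, Prod.smul_snd, smul_eq_mul, Int.cast_sub,
          Int.cast_add, Int.cast_mul, Int.cast_natCast]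
        rw [abs_le]
        constructor <;> linarith)
    simpa using this
  have e0 : ((|1 - s ^ 2| : ℝ)) * ‖H u - H v‖ = ‖(1 - (s : ℂ) ^ 2) * (H u - H v)‖ := by
    rw [norm_mul]
    congr 1
    rw [← Real.norm_eq_abs, ← Complex.norm_real]
    push_cast
    rfl
  have e1 : (1 - (s : ℂ) ^ 2) * (H u - H v) = -((1 - (s : ℂ) ^ 2) * (H p1 - H u)) -
      (1 - (s : ℂ) ^ 2) * (H p2 - H p1) - (1 - (s : ℂ) ^ 2) * (H v - H p2) := by ring
  rw [e0, e1]
  have lC' : ‖(1 - (s : ℂ) ^ 2) * (H v - H p2)‖ ≤ (1 + Cs ^ 2) * B := by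
    rw [norm_mul]
    have : ‖1 - (s : ℂ) ^ 2‖ ≤ 1 + Cs ^ 2 := by
      refine (norm_sub_le _ _).trans ?_
      rw [norm_one, norm_pow, Complex.norm_real, Real.norm_eq_abs, abs_of_nonneg hs]
      gcongr
    exact mul_le_mul this lC (norm_nonneg _) (by positivity)
  have hsum : ‖-((1 - (s : ℂ) ^ 2) * (H p1 - H u)) -
      (1 - (s : ℂ) ^ 2) * (H p2 - H p1) - (1 - (s : ℂ) ^ 2) * (H v - H p2)‖ ≤
      (|(α : ℝ)| * ((1 + Cs) * e) + 2 * B) + (|(β : ℝ)| * ((1 + Cs) * e) + 2 * B) +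
        (1 + Cs ^ 2) * B := by
    refine (norm_sub_le _ _).trans (add_le_add ((norm_sub_le _ _).trans (add_le_add ?_ lB)) lC')
    rw [norm_neg]
    exact lA
  refine hsum.trans ?_
  have hfin : (|(α : ℝ)| + |(β : ℝ)|) * ((1 + Cs) * e) ≤
      2 * ((1 + Cs) * ε) * R ^ (2 / 3 : ℝ) := by
    have h4 : (R / 4) ^ (-(1 / 3) : ℝ) ≤ 2 * R ^ (-(1 / 3) : ℝ) := by
      rw [Real.div_rpow hR.le (by norm_num), div_le_iff₀ (by positivity),
        Real.rpow_neg (by norm_num : (0 : ℝ) ≤ 4)]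
      have : (4 : ℝ) ^ (1 / 3 : ℝ) ≤ 2 := by
        rw [show (2 : ℝ) = (8 : ℝ) ^ (1 / 3 : ℝ) by
          rw [show (8 : ℝ) = 2 ^ (3 : ℝ) by norm_num, ← Real.rpow_mul (by norm_num)]
          norm_num]
        exact Real.rpow_le_rpow (by norm_num) (by norm_num) (by norm_num)
      have h5 : (0 : ℝ) < (4 : ℝ) ^ (1 / 3 : ℝ) := by positivity
      have h6 : 1 ≤ 2 * ((4 : ℝ) ^ (1 / 3 : ℝ))⁻¹ := by
        rw [← div_eq_mul_inv, le_div_iff₀ h5]
        linarith
      have h7 : 0 ≤ R ^ (-(1 / 3) : ℝ) := by positivity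
      have h8 := mul_le_mul_of_nonneg_left h6 h7
      rw [mul_one] at h8
      refine h8.trans (le_of_eq (by ring))
    have h8 : (|(α : ℝ)| + |(β : ℝ)|) * n ≤ R := by linarith
    have h9 : R * R ^ (-(1 / 3) : ℝ) = R ^ (2 / 3 : ℝ) := by
      nth_rewrite 1 [← Real.rpow_one R]
      rw [← Real.rpow_add hR]
      norm_num
    calc (|(α : ℝ)| + |(β : ℝ)|) * ((1 + Cs) * e)
        = ((1 + Cs) * ε) * (((|(α : ℝ)| + |(β : ℝ)|) * n) * (R / 4) ^ (-(1 / 3) : ℝ)) := by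
          rw [he]; ring
      _ ≤ ((1 + Cs) * ε) * (R * (2 * R ^ (-(1 / 3) : ℝ))) := by
          gcongr
      _ = 2 * ((1 + Cs) * ε) * (R * R ^ (-(1 / 3) : ℝ)) := by ring
      _ = _ := by rw [h9]
  have e2 : (|(α : ℝ)| * ((1 + Cs) * e) + 2 * B) + (|(β : ℝ)| * ((1 + Cs) * e) + 2 * B) +
      (1 + Cs ^ 2) * B = (|(α : ℝ)| + |(β : ℝ)|) * ((1 + Cs) * e) + (5 + Cs ^ 2) * B := by ring
  rw [e2]
  exact add_le_add hfin le_rfl

end Pool.Agent.Q1.M6f
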