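import Pool.Agent.Q1.M6f.Rot

/-!
# Module M6f: `s` is close to `1`, and (N1)
-/

set_option autoImplicit false

open Complex Filter Topology

namespace Pool.Agent.Q1.M6f

variable {M : ℝ → Set (ℤ × ℤ → ℂ)}

lemma exists_small_rpow {D η : ℝ} (hD : 0 ≤ D) (hη : 0 < η) :
    ∃ ρ > 0, D * (4 * ρ) ^ (2 / 3 : ℝ) ≤ η := by
  refine ⟨(η / (D + 1)) ^ (3 / 2 : ℝ) / 4, by positivity, ?_⟩
  have h1 : 4 * ((η / (D + 1)) ^ (3 / 2 : ℝ) / 4) = (η / (D + 1)) ^ (3 / 2 : ℝ) := by ring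
  rw [h1, ← Real.rpow_mul (by positivity)]
  norm_num
  rw [mul_div_assoc', div_le_iff₀ (by positivity)]
  nlinarith

/-- Under the rotation by 90 degrees and nondegeneracy, `s` must be close to `1`. -/
theorem s_small (hM : Fam M) {CA Cs c : ℝ} (hCA : 0 ≤ CA) (hAP : AP M CA) {s : ℕ → ℝ}
    (hs : ∀ n, 0 ≤ s n ∧ s n ≤ Cs) (hRel : Rel M s) (hc : 0 < c) (hND : ND M c) :
    Small fun δ _ n => |1 - s n| ≤ δ := by
  intro δ hδ
  have hCs : 0 ≤ Cs := (hs 0).1.trans (hs 0).2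
  obtain ⟨ρa, hρa, hRa⟩ := hRel (c * δ / (4 * (1 + Cs))) (by positivity)
  obtain ⟨R1, hND⟩ := hND
  obtain ⟨ρb, hρb, hb⟩ := exists_small_rpow (D := (5 + Cs ^ 2) * CA) (by positivity)
    (show 0 < c * δ / 2 by positivity)
  refine ⟨min (min (ρa / 4) ρb) (1 / 16), by positivity, fun ρ₁ hρ₁ => ?_⟩
  obtain ⟨R0, hR0⟩ := hRa (4 * ρ₁) (by positivity)
  refine ⟨max (4 * R0) (max R1 1), fun R hR n h1 h2 => ?_⟩
  have hR4 : 4 * R0 ≤ R := (le_max_left _ _).trans hR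
  have hRR1 : R1 ≤ R := ((le_max_left _ _).trans (le_max_right _ _)).trans hR
  have hR1 : 1 ≤ R := ((le_max_right _ _).trans (le_max_right _ _)).trans hR
  have hRpos : 0 < R := by linarith
  have hn0 : (0 : ℝ) < n := lt_of_lt_of_le (by positivity) h1
  have hn1 : 1 ≤ n := by exact_mod_cast hn0
  have hn16 : 16 * (n : ℝ) ≤ R := by
    have : (n : ℝ) ≤ 1 / 16 * R := h2.trans (by gcongr; exact min_le_right _ _)
    linarith
  have hna : (n : ℝ) ≤ ρa * (R / 4) := by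
    have : (n : ℝ) ≤ ρa / 4 * R :=
      h2.trans (by gcongr; exact (min_le_left _ _).trans (min_le_left _ _))
    linarith
  have hnb : (n : ℝ) ≤ ρb * R :=
    h2.trans (by gcongr; exact (min_le_left _ _).trans (min_le_right _ _))
  obtain ⟨H, hH, u, v, hu, hv, huv⟩ := hND R hRR1
  have hdb := diff_bound hM hAP (hs n).1 (hs n).2
    (show 0 ≤ c * δ / (4 * (1 + Cs)) by positivity) hn1 hn16
    (hR0 (R / 4) (by linarith) n (by linarith) hna) hH hu hv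
  have e1 : 2 * ((1 + Cs) * (c * δ / (4 * (1 + Cs)))) = c * δ / 2 := by
    field_simp
    ring
  rw [e1] at hdb
  have e2 : (5 + Cs ^ 2) * (CA * (4 * (n : ℝ)) ^ (2 / 3 : ℝ)) ≤
      c * δ / 2 * R ^ (2 / 3 : ℝ) := by
    have : (4 * (n : ℝ)) ^ (2 / 3 : ℝ) ≤ (4 * ρb) ^ (2 / 3 : ℝ) * R ^ (2 / 3 : ℝ) := by
      rw [← Real.mul_rpow (by positivity) hRpos.le]
      exact Real.rpow_le_rpow (by positivity) (by linarith) (by norm_num)
    calc (5 + Cs ^ 2) * (CA * (4 * (n : ℝ)) ^ (2 / 3 : ℝ))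
        ≤ (5 + Cs ^ 2) * (CA * ((4 * ρb) ^ (2 / 3 : ℝ) * R ^ (2 / 3 : ℝ))) := by gcongr
      _ = ((5 + Cs ^ 2) * CA * (4 * ρb) ^ (2 / 3 : ℝ)) * R ^ (2 / 3 : ℝ) := by ring
      _ ≤ _ := by gcongr
  have h3 : |1 - s n ^ 2| * (c * R ^ (2 / 3 : ℝ)) ≤ δ * (c * R ^ (2 / 3 : ℝ)) := by
    have := mul_le_mul_of_nonneg_left huv (abs_nonneg (1 - s n ^ 2))
    linarith
  have h4 : |1 - s n ^ 2| ≤ δ := le_of_mul_le_mul_right h3 (by positivity)
  refine le_trans ?_ h4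
  have h5 : (1 : ℝ) - s n ^ 2 = (1 - s n) * (1 + s n) := by ring
  rw [h5, abs_mul]
  refine le_mul_of_one_le_right (abs_nonneg _) ?_
  rw [abs_of_nonneg (by linarith [(hs n).1])]
  linarith [(hs n).1]

/-- **Asymptotic holomorphy.** -/
theorem N1_of_rel (hM : Fam M) {CA Cs CL c : ℝ} (hCA : 0 ≤ CA) (hAP : AP M CA) {s : ℕ → ℝ}
    (hs : ∀ n, 0 ≤ s n ∧ s n ≤ Cs) (hRel : Rel M s) (hLip : Lip M CL) (hc : 0 < c)
    (hND : ND M c) : N1 M := by
  intro ε hε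
  obtain ⟨ρa, hρa, ha⟩ := hRel (ε / 2) (by positivity)
  obtain ⟨ρb, hρb, hb⟩ := s_small hM hCA hAP hs hRel hc hND (ε / (2 * (|CL| + 1)))
    (by positivity)
  obtain ⟨ρl, hρl, hl⟩ := hLip
  refine ⟨min (min ρa ρb) ρl, by positivity, fun ρ₁ hρ₁ => ?_⟩
  obtain ⟨Ra, hRa⟩ := ha ρ₁ hρ₁
  obtain ⟨Rb, hRb⟩ := hb ρ₁ hρ₁
  obtain ⟨Rl, hRl⟩ := hl ρ₁ hρ₁
  refine ⟨max (max Ra Rb) (max Rl 1), fun R hR n h1 h2 H hH => ?_⟩
  have hR1 : 1 ≤ R := ((le_max_right _ _).trans (le_max_right _ _)).trans hR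
  have hR0 : 0 < R := by linarith
  have g1 := hRa R (((le_max_left _ _).trans (le_max_left _ _)).trans hR) n h1
    (h2.trans (by gcongr; exact (min_le_left _ _).trans (min_le_left _ _))) H hH
  have g2 := hRb R (((le_max_right _ _).trans (le_max_left _ _)).trans hR) n h1
    (h2.trans (by gcongr; exact (min_le_left _ _).trans (min_le_right _ _)))
  have g3 := hRl R (((le_max_left _ _).trans (le_max_right _ _)).trans hR) n h1
    (h2.trans (by gcongr; exact min_le_right _ _)) H hH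
  have e1 : An n H 0 - I * Bn n H 0 = (An n H 0 - I * s n * Bn n H 0) -
      I * (((1 - s n : ℝ) : ℂ) * Bn n H 0) := by
    push_cast
    ring
  rw [e1]
  refine (norm_sub_le _ _).trans ?_
  rw [norm_mul, norm_mul, norm_I, one_mul, Complex.norm_real, Real.norm_eq_abs]
  have hunit : 0 ≤ (n : ℝ) * R ^ (-(1 / 3) : ℝ) := by positivity
  have g4 : |1 - s n| * ‖Bn n H 0‖ ≤ ε / 2 * (n * R ^ (-(1 / 3) : ℝ)) := by
    calc |1 - s n| * ‖Bn n H 0‖ ≤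
        (ε / (2 * (|CL| + 1))) * ((|CL| + 1) * (n * R ^ (-(1 / 3) : ℝ))) := by
          refine mul_le_mul g2 (g3.trans ?_) (norm_nonneg _) (by positivity)
          exact mul_le_mul_of_nonneg_right ((le_abs_self CL).trans (by linarith)) hunit
      _ = ε / 2 * (n * R ^ (-(1 / 3) : ℝ)) := by
          field_simp
  calc _ ≤ ε / 2 * (n * R ^ (-(1 / 3) : ℝ)) + ε / 2 * (n * R ^ (-(1 / 3) : ℝ)) :=
        add_le_add g1 g4
    _ = ε * (n * R ^ (-(1 / 3) : ℝ)) := by ring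

end Pool.Agent.Q1.M6f
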